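import Mathlib

open Matrix MeasureTheory Set Topology Filter
open scoped ENNReal NNReal CompactlySupported

namespace Pool.Agent.MP_7a4cc0_an

section Erg2
variable {Z : Type*} [TopologicalSpace Z] [T2Space Z] [LocallyCompactSpace Z]
    [SecondCountableTopology Z] [MeasurableSpace Z] [BorelSpace Z] {τ ι : Type*}

theorem erg2_reg (ν : Measure Z) [IsLocallyFiniteMeasure ν] : ν.Regular := inferInstance

/-- integration as a point of the product space -/
noncomputable def erg2I (ν : Measure Z) : C_c(Z, ℝ) → ℝ := fun f => ∫ x, f x ∂ν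

theorem erg2I_inj {μ ν : Measure Z} [IsLocallyFiniteMeasure μ] [IsLocallyFiniteMeasure ν]
    (h : erg2I μ = erg2I ν) : μ = ν :=
  Measure.ext_of_integral_eq_on_compactlySupported fun f => congrFun h f

omit [T2Space Z] [LocallyCompactSpace Z] [SecondCountableTopology Z] in
theorem erg2I_comb (μ ν : Measure Z) [IsLocallyFiniteMeasure μ] [IsLocallyFiniteMeasure ν]
    (a b : ℝ≥0) : erg2I (a • μ + b • ν) = (a : ℝ) • erg2I μ + (b : ℝ) • erg2I ν := by
  funext f
  simp only [erg2I, Pi.add_apply, Pi.smul_apply, smul_eq_mul]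
  rw [integral_add_measure f.integrable f.integrable, integral_smul_nnreal_measure,
    integral_smul_nnreal_measure]
  simp [NNReal.smul_def]

/-- admissible test functions of an open set -/
def erg2Adm (U : Set Z) (f : C_c(Z, ℝ)) : Prop := (∀ x, 0 ≤ f x ∧ f x ≤ 1) ∧ tsupport f ⊆ U

theorem erg2_le (ν : Measure Z) [IsLocallyFiniteMeasure ν] {U : Set Z} {f : C_c(Z, ℝ)}
    (hf : erg2Adm U f) : ENNReal.ofReal (erg2I ν f) ≤ ν U := by
  have h := RealRMK.le_rieszMeasure_tsupport_subset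
    (CompactlySupportedContinuousMap.integralPositiveLinearMap ν) hf.1 hf.2
  rw [RealRMK.rieszMeasure_integralPositiveLinearMap] at h
  exact h

theorem erg2_lub (ν : Measure Z) [IsLocallyFiniteMeasure ν] {U : Set Z} (hU : IsOpen U) :
    IsLUB {r | ∃ f, erg2Adm U f ∧ r = ENNReal.ofReal (erg2I ν f)} (ν U) := by
  refine ⟨by rintro _ ⟨f, hf, rfl⟩; exact erg2_le ν hf, fun r hr => ?_⟩
  rw [hU.measure_eq_iSup_isCompact ν]
  refine iSup_le fun K => iSup_le fun hKU => iSup_le fun hK => ?_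
  obtain ⟨f, hf1, hf2, hf3, hf4⟩ := exists_continuousMap_one_of_isCompact_subset_isOpen hK hU hKU
  let g : C_c(Z, ℝ) := ⟨f, hasCompactSupport_def.mpr hf2⟩
  have h := RealRMK.rieszMeasure_le_of_eq_one
    (CompactlySupportedContinuousMap.integralPositiveLinearMap ν) (f := g)
    (fun x => (hf4 x).1) hK (fun x hx => hf1 hx)
  rw [RealRMK.rieszMeasure_integralPositiveLinearMap] at h
  exact h.trans (hr ⟨g, ⟨fun x => hf4 x, hf3⟩, rfl⟩)

/-- the measures of the cap -/
structure Erg2Good (T : τ → Z ≃ₜ Z) (F : Set Z) (O : ι → Set Z) (c : ι → ℝ≥0) (ν : Measure Z) :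
    Prop where
  lf : IsLocallyFiniteMeasure ν
  off : ν Fᶜ = 0
  inv : ∀ t E, MeasurableSet E → ν (T t ⁻¹' E) = ν E
  sum : ∑' i, (c i : ℝ≥0∞) * ν (O i) ≤ 1

/-- the functionals of the cap -/
def erg2Cap (T : τ → Z ≃ₜ Z) (F : Set Z) (O : ι → Set Z) (c : ι → ℝ≥0) :
    Set (C_c(Z, ℝ) → ℝ) :=
  {L | (∀ f g, L (f + g) = L f + L g) ∧ (∀ (a : ℝ) f, L (a • f) = a * L f) ∧
    (∀ f, 0 ≤ f → 0 ≤ L f) ∧ (∀ f, erg2Adm Fᶜ f → L f ≤ 0) ∧
    (∀ t (f g : C_c(Z, ℝ)), (∀ x, g x = f (T t x)) → L g = L f) ∧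
    ∀ (s : Finset ι) (f : ι → C_c(Z, ℝ)), (∀ i, erg2Adm (O i) (f i)) →
      ∑ i ∈ s, (c i : ℝ≥0∞) * ENNReal.ofReal (L (f i)) ≤ 1}

omit [T2Space Z] [LocallyCompactSpace Z] [SecondCountableTopology Z] [MeasurableSpace Z]
  [BorelSpace Z] in
theorem erg2Cap_closed (T : τ → Z ≃ₜ Z) (F : Set Z) (O : ι → Set Z) (c : ι → ℝ≥0) :
    IsClosed (erg2Cap T F O c) := by
  simp only [erg2Cap, Set.ofPred_and, Set.ofPred_forall]
  refine IsClosed.inter ?_ (IsClosed.inter ?_ (IsClosed.inter ?_ (IsClosed.inter ?_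
    (IsClosed.inter ?_ ?_))))
  · exact isClosed_iInter fun f => isClosed_iInter fun g => isClosed_eq (by fun_prop) (by fun_prop)
  · exact isClosed_iInter fun f => isClosed_iInter fun g => isClosed_eq (by fun_prop) (by fun_prop)
  · exact isClosed_iInter fun f => isClosed_iInter fun g => isClosed_le (by fun_prop) (by fun_prop)
  · exact isClosed_iInter fun f => isClosed_iInter fun g => isClosed_le (by fun_prop) (by fun_prop)
  · exact isClosed_iInter fun t => isClosed_iInter fun f => isClosed_iInter fun g =>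
      isClosed_iInter fun _ => isClosed_eq (by fun_prop) (by fun_prop)
  · refine isClosed_iInter fun s => isClosed_iInter fun f => isClosed_iInter fun _ =>
      isClosed_le (continuous_finsetSum _ fun i _ => ?_) continuous_const
    exact (ENNReal.continuous_const_mul ENNReal.coe_ne_top).comp
      (ENNReal.continuous_ofReal.comp (continuous_apply _))

theorem erg2_mem {T : τ → Z ≃ₜ Z} {F : Set Z} {O : ι → Set Z} {c : ι → ℝ≥0} {ν : Measure Z}
    (h : Erg2Good T F O c ν) : erg2I ν ∈ erg2Cap T F O c := by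
  have := h.lf
  refine ⟨fun f g => integral_add' f.integrable g.integrable,
    fun a f => integral_smul a f, fun f hf => integral_nonneg hf, fun f hf => ?_,
    fun t f g hg => ?_, fun s f hf => ?_⟩
  · have := erg2_le ν hf
    rw [h.off] at this
    simpa using this
  · have e : ν.map (T t) = ν := by
      ext E hE
      rw [Measure.map_apply (T t).continuous.measurable hE, h.inv t E hE]
    simp only [erg2I, hg]
    rw [← integral_map (T t).continuous.measurable.aemeasurable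
      (map_continuous f).aestronglyMeasurable, e]
  · refine le_trans (Finset.sum_le_sum fun i _ => ?_) ((ENNReal.sum_le_tsum s).trans h.sum)
    exact mul_le_mul_right (erg2_le ν (hf i)) _

theorem erg2_rep {T : τ → Z ≃ₜ Z} {F : Set Z} (hF : IsClosed F) {O : ι → Set Z}
    (hO : ∀ i, IsOpen (O i)) {c : ι → ℝ≥0} {L : C_c(Z, ℝ) → ℝ} (h : L ∈ erg2Cap T F O c) :
    ∃ ν, Erg2Good T F O c ν ∧ erg2I ν = L := by
  obtain ⟨h1, h2, h3, h4, h5, h6⟩ := h
  let Λ : C_c(Z, ℝ) →ₚ[ℝ] ℝ := PositiveLinearMap.mk₀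
    { toFun := L, map_add' := h1, map_smul' := h2 } h3
  let ν := RealRMK.rieszMeasure Λ
  have hlf : IsLocallyFiniteMeasure ν := inferInstance
  have e : erg2I ν = L := funext fun f => RealRMK.integral_rieszMeasure Λ f
  refine ⟨ν, ⟨hlf, ?_, fun t E hE => ?_, ?_⟩, e⟩
  · refine le_antisymm ((erg2_lub ν hF.isOpen_compl).2 ?_) zero_le
    rintro _ ⟨f, hf, rfl⟩
    rw [e]; simpa using h4 f hf
  · have hr : (ν.map (T t)).Regular := Measure.Regular.map (T t)
    have e2 : ν.map (T t) = ν := by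
      refine Measure.ext_of_integral_eq_on_compactlySupported fun f => ?_
      rw [integral_map (T t).continuous.measurable.aemeasurable
        (map_continuous f).aestronglyMeasurable]
      have := h5 t f (f.comp (T t).toCocompactMap) fun x => rfl
      rw [← e] at this
      exact this
    rw [← Measure.map_apply (T t).continuous.measurable hE, e2]
  · rw [ENNReal.tsum_eq_iSup_sum]
    refine iSup_le fun s => ?_
    have hc : IsClosed {x : ι → ℝ≥0∞ | ∑ i ∈ s, (c i : ℝ≥0∞) * x i ≤ 1} :=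
      isClosed_le (continuous_finsetSum _ fun i _ =>
        (ENNReal.continuous_const_mul ENNReal.coe_ne_top).comp (continuous_apply _))
        continuous_const
    have hm : (fun i => ν (O i)) ∈ closure (univ.pi fun i =>
        {r | ∃ f, erg2Adm (O i) f ∧ r = ENNReal.ofReal (erg2I ν f)}) := by
      rw [closure_pi_set]
      intro i _
      exact (erg2_lub ν (hO i)).mem_closure ⟨_, 0, ⟨by simp, by simp⟩, rfl⟩
    refine closure_minimal (fun x hx => ?_) hc hm
    choose f hf using fun i => hx i (mem_univ i)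
    have := h6 s f fun i => (hf i).1
    rw [← e] at this
    simpa only [Set.mem_ofPred_eq, fun i => (hf i).2] using this

omit [TopologicalSpace Z] [T2Space Z] [LocallyCompactSpace Z] [SecondCountableTopology Z]
  [BorelSpace Z] in
theorem erg2_sum (O : ι → Set Z) (c : ι → ℝ≥0) (μ ν : Measure Z) (a b : ℝ≥0) :
    ∑' i, (c i : ℝ≥0∞) * (a • μ + b • ν) (O i) =
      a * ∑' i, (c i : ℝ≥0∞) * μ (O i) + b * ∑' i, (c i : ℝ≥0∞) * ν (O i) := by
  rw [← ENNReal.tsum_mul_left, ← ENNReal.tsum_mul_left, ← ENNReal.tsum_add]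
  refine tsum_congr fun i => ?_
  simp only [Measure.add_apply, Measure.coe_nnreal_smul_apply]
  ring

theorem erg2Cap_convex {T : τ → Z ≃ₜ Z} {F : Set Z} (hF : IsClosed F) {O : ι → Set Z}
    (hO : ∀ i, IsOpen (O i)) (c : ι → ℝ≥0) : Convex ℝ (erg2Cap T F O c) := by
  intro L hL L' hL' a b ha hb hab
  obtain ⟨μ, hμ, rfl⟩ := erg2_rep hF hO hL
  obtain ⟨ν, hν, rfl⟩ := erg2_rep hF hO hL'
  lift a to ℝ≥0 using ha
  lift b to ℝ≥0 using hb
  have := hμ.lf
  have := hν.lf
  rw [← erg2I_comb]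
  have hl : IsLocallyFiniteMeasure (a • μ + b • ν) := ⟨fun x => by
    obtain ⟨s, hs, h1⟩ := (a • μ).finiteAt_nhds x
    obtain ⟨t, ht, h2⟩ := (b • ν).finiteAt_nhds x
    refine ⟨s ∩ t, inter_mem hs ht, ?_⟩
    rw [Measure.add_apply]
    exact ENNReal.add_lt_top.2 ⟨(measure_mono inter_subset_left).trans_lt h1,
      (measure_mono inter_subset_right).trans_lt h2⟩⟩
  refine erg2_mem ⟨hl, by simp [hμ.off, hν.off], fun t E hE => ?_, ?_⟩
  · simp [hμ.inv t E hE, hν.inv t E hE]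
  · rw [erg2_sum]
    have h1 : (a : ℝ≥0∞) + b = 1 := by exact_mod_cast hab
    calc _ ≤ (a : ℝ≥0∞) * 1 + b * 1 := add_le_add (mul_le_mul_right hμ.sum _)
          (mul_le_mul_right hν.sum _)
      _ = 1 := by rw [mul_one, mul_one, h1]

theorem erg2Cap_compact {T : τ → Z ≃ₜ Z} {F : Set Z} (hF : IsClosed F) {O : ι → Set Z}
    (hO : ∀ i, IsOpen (O i)) {c : ι → ℝ≥0} (hc : ∀ i, c i ≠ 0) (hcov : F ⊆ ⋃ i, O i) :
    IsCompact (erg2Cap T F O c) := by
  have key : ∀ f : C_c(Z, ℝ), ∃ B : ℝ, ∀ L ∈ erg2Cap T F O c, L f ∈ Icc (-B) B := by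
    intro f
    have hK : IsCompact (tsupport f ∩ F) := f.hasCompactSupport.isCompact.inter_right hF
    obtain ⟨s, hs⟩ := hK.elim_finite_subcover O hO (inter_subset_right.trans hcov)
    obtain ⟨C, hC⟩ := f.continuous.bounded_above_of_compact_support f.hasCompactSupport
    refine ⟨max C 0 * (∑ i ∈ s, (c i)⁻¹ : ℝ≥0), fun L hL => ?_⟩
    obtain ⟨ν, hν, rfl⟩ := erg2_rep hF hO hL
    have := hν.lf
    have h1 : ν (tsupport f) ≤ (∑ i ∈ s, (c i)⁻¹ : ℝ≥0) := by
      calc ν (tsupport f) ≤ ν ((⋃ i ∈ s, O i) ∪ Fᶜ) := measure_mono fun x hx => by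
            by_cases hxF : x ∈ F
            · exact Or.inl (hs ⟨hx, hxF⟩)
            · exact Or.inr hxF
        _ ≤ ν (⋃ i ∈ s, O i) + ν Fᶜ := measure_union_le _ _
        _ ≤ ∑ i ∈ s, ν (O i) := by rw [hν.off, add_zero]; exact measure_biUnion_finset_le _ _
        _ ≤ _ := by
            rw [ENNReal.ofNNReal_finsetSum]
            refine Finset.sum_le_sum fun i _ => ?_
            have h2 := (ENNReal.le_tsum i).trans hν.sum
            rw [ENNReal.coe_inv (hc i), ENNReal.le_inv_iff_mul_le, mul_comm]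
            exact h2
    have h2 : ν.real (tsupport f) ≤ (∑ i ∈ s, (c i)⁻¹ : ℝ≥0) :=
      ENNReal.toReal_le_coe_of_le_coe h1
    have h3 : ‖∫ x in tsupport f, f x ∂ν‖ ≤ max C 0 * ν.real (tsupport f) :=
      norm_setIntegral_le_of_norm_le_const (h1.trans_lt ENNReal.coe_lt_top)
        fun x _ => (hC x).trans (le_max_left _ _)
    rw [setIntegral_tsupport] at h3
    exact abs_le.1 (h3.trans (mul_le_mul_of_nonneg_left h2 (le_max_right _ _)))
  choose B hB using key
  exact (isCompact_univ_pi fun f => isCompact_Icc (a := -B f) (b := B f)).of_isClosed_subset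
    (erg2Cap_closed T F O c) fun L hL f _ => hB f L hL

omit [T2Space Z] [LocallyCompactSpace Z] [SecondCountableTopology Z] [BorelSpace Z] in
theorem erg2_piece {T : τ → Z ≃ₜ Z} {F : Set Z} {O : ι → Set Z} {c : ι → ℝ≥0}
    {ν : Measure Z} (h : Erg2Good T F O c ν) {E : Set Z} (hE : MeasurableSet E)
    (hinv : ∀ t, T t ⁻¹' E =ᵐ[ν] E) (a : ℝ≥0)
    (ha : a * ∑' i, (c i : ℝ≥0∞) * ν.restrict E (O i) ≤ 1) :
    Erg2Good T F O c (a • ν.restrict E) := by
  have := h.lf
  refine ⟨inferInstance, ?_, fun t A hA => ?_, ?_⟩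
  · have : ν.restrict E Fᶜ = 0 := le_antisymm ((Measure.restrict_le_self _).trans h.off.le) zero_le
    simp [this]
  · simp only [Measure.coe_nnreal_smul_apply]
    rw [Measure.restrict_apply' hE, Measure.restrict_apply' hE, ← h.inv t _ (hA.inter hE),
      preimage_inter, measure_congr ((ae_eq_refl (T t ⁻¹' A)).inter (hinv t))]
  · have := erg2_sum O c (ν.restrict E) 0 a 0
    simp only [zero_smul, add_zero, ENNReal.coe_zero, zero_mul] at this
    rw [this]; exact ha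

omit [TopologicalSpace Z] [T2Space Z] [LocallyCompactSpace Z] [SecondCountableTopology Z]
  [BorelSpace Z] in
theorem erg2_pos [Countable ι] {F : Set Z} {O : ι → Set Z} {c : ι → ℝ≥0} (hc : ∀ i, c i ≠ 0)
    (hcov : F ⊆ ⋃ i, O i) {ν : Measure Z} (hF : ν Fᶜ = 0)
    (h : ∑' i, (c i : ℝ≥0∞) * ν (O i) = 0) : ν = 0 := by
  rw [ENNReal.tsum_eq_zero] at h
  have h1 : ν (⋃ i, O i) = 0 := measure_iUnion_null fun i => by simpa [hc i] using h i
  rw [← Measure.measure_univ_eq_zero, ← union_compl_self F]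
  exact measure_union_null (measure_mono_null hcov h1) hF

end Erg2

/-- Extreme points of a cap of the cone of invariant measures are ergodic. -/
theorem erg_cap {Z : Type*} [TopologicalSpace Z] [T2Space Z] [LocallyCompactSpace Z]
    [SecondCountableTopology Z] [MeasurableSpace Z] [BorelSpace Z] {τ ι : Type*} [Countable ι]
    (T : τ → Z ≃ₜ Z) (F : Set Z) (hF : IsClosed F) (O : ι → Set Z) (hO : ∀ i, IsOpen (O i))
    (c : ι → ℝ≥0) (hc : ∀ i, c i ≠ 0) (hcov : F ⊆ ⋃ i, O i) (ν₀ : Measure Z)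
    [IsLocallyFiniteMeasure ν₀] (h0 : ν₀ ≠ 0) (hF0 : ν₀ Fᶜ = 0)
    (hinv : ∀ t E, MeasurableSet E → ν₀ (T t ⁻¹' E) = ν₀ E)
    (hsum : ∑' i, (c i : ℝ≥0∞) * ν₀ (O i) ≠ ∞) :
    ∃ ν : Measure Z, IsLocallyFiniteMeasure ν ∧ ν ≠ 0 ∧ ν Fᶜ = 0 ∧
      (∀ t E, MeasurableSet E → ν (T t ⁻¹' E) = ν E) ∧
      (∀ E, MeasurableSet E → (∀ t, T t ⁻¹' E =ᵐ[ν] E) → ν E = 0 ∨ ν Eᶜ = 0) ∧
      ∑' i, (c i : ℝ≥0∞) * ν (O i) ≠ ∞ := by
  obtain ⟨S, hS⟩ : ∃ S : ℝ≥0, ∑' i, (c i : ℝ≥0∞) * ν₀ (O i) = S :=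
    ⟨_, (ENNReal.coe_toNNReal hsum).symm⟩
  have hS0 : S ≠ 0 := by
    rintro rfl
    exact h0 (erg2_pos hc hcov hF0 hS)
  have hg : Erg2Good T F O c (S⁻¹ • ν₀) := by
    refine ⟨inferInstance, by simp [hF0], fun t E hE => by simp [hinv t E hE], ?_⟩
    have := erg2_sum O c ν₀ 0 S⁻¹ 0
    simp only [zero_smul, add_zero, ENNReal.coe_zero, zero_mul] at this
    rw [this, hS, ← ENNReal.coe_mul, inv_mul_cancel₀ hS0, ENNReal.coe_one]
  have hKM := closure_convexHull_extremePoints (erg2Cap_compact (T := T) hF hO hc hcov)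
    (erg2Cap_convex hF hO c)
  have hex : ∃ L ∈ (erg2Cap T F O c).extremePoints ℝ, L ≠ 0 := by
    by_contra hno
    have h1 : (erg2Cap T F O c).extremePoints ℝ ⊆ {0} := fun L hL => by
      by_contra h; exact hno ⟨L, hL, h⟩
    have h2 : erg2Cap T F O c ⊆ {0} := by
      rw [← hKM]
      exact closure_minimal (convexHull_min h1 (convex_singleton _)) isClosed_singleton
    have h3 : erg2I (S⁻¹ • ν₀) = erg2I (0 : Measure Z) := by
      rw [mem_singleton_iff.1 (h2 (erg2_mem hg))]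
      funext f; simp [erg2I]
    have h4 := erg2I_inj h3
    apply h0
    rw [← one_smul ℝ≥0 ν₀, ← mul_inv_cancel₀ hS0, mul_smul, h4, smul_zero]
  obtain ⟨L, hL, hL0⟩ := hex
  obtain ⟨ν, hν, rfl⟩ := erg2_rep hF hO hL.1
  have := hν.lf
  refine ⟨ν, hν.lf, ?_, hν.off, hν.inv, fun E hE hEi => ?_,
    (hν.sum.trans_lt ENNReal.one_lt_top).ne⟩
  · rintro rfl
    exact hL0 (by funext f; simp [erg2I])
  by_contra hno
  rw [not_or] at hno
  have hoff : ∀ A, ν.restrict A Fᶜ = 0 := fun A =>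
    le_antisymm ((Measure.restrict_le_self _).trans hν.off.le) zero_le
  have hadd := erg2_sum O c (ν.restrict E) (ν.restrict Eᶜ) 1 1
  simp only [one_smul, Measure.restrict_add_restrict_compl hE, ENNReal.coe_one, one_mul] at hadd
  have hle := hν.sum
  rw [hadd] at hle
  obtain ⟨p, hp⟩ : ∃ p : ℝ≥0, ∑' i, (c i : ℝ≥0∞) * ν.restrict E (O i) = p :=
    ⟨_, (ENNReal.coe_toNNReal ((le_self_add.trans hle).trans_lt ENNReal.one_lt_top).ne).symm⟩
  obtain ⟨q, hq⟩ : ∃ q : ℝ≥0, ∑' i, (c i : ℝ≥0∞) * ν.restrict Eᶜ (O i) = q :=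
    ⟨_, (ENNReal.coe_toNNReal ((le_add_self.trans hle).trans_lt ENNReal.one_lt_top).ne).symm⟩
  have hp0 : p ≠ 0 := by
    rintro rfl
    exact hno.1 (Measure.restrict_eq_zero.1 (erg2_pos hc hcov (hoff _) hp))
  have hq0 : q ≠ 0 := by
    rintro rfl
    exact hno.2 (Measure.restrict_eq_zero.1 (erg2_pos hc hcov (hoff _) hq))
  rw [hp, hq] at hle
  have hpq : p + q ≤ 1 := by exact_mod_cast hle
  obtain ⟨r, hr⟩ := exists_add_of_le (le_self_add.trans hpq)
  have hqr : q ≤ r := by rw [hr] at hpq; exact le_of_add_le_add_left hpq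
  have hr0 : r ≠ 0 := fun h => hq0 (le_antisymm (h ▸ hqr) zero_le)
  have g1 := erg2_piece hν hE hEi p⁻¹ (by
    rw [hp, ← ENNReal.coe_mul, inv_mul_cancel₀ hp0, ENNReal.coe_one])
  have g2 := erg2_piece hν hE.compl (fun t => (hEi t).compl) r⁻¹ (by
    rw [hq, ← ENNReal.coe_mul, ENNReal.coe_le_one_iff]
    exact inv_mul_le_one_of_le₀ hqr zero_le)
  have e := erg2I_comb (p⁻¹ • ν.restrict E) (r⁻¹ • ν.restrict Eᶜ) p r
  rw [smul_smul, smul_smul, mul_inv_cancel₀ hp0, mul_inv_cancel₀ hr0, one_smul, one_smul,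
    Measure.restrict_add_restrict_compl hE] at e
  have h5 := hL.2 (erg2_mem g1) (erg2_mem g2) ⟨p, r, by positivity, by positivity,
    by exact_mod_cast hr.symm, e.symm⟩
  have h6 := erg2I_inj h5
  apply hno.2
  rw [← h6]
  simp [Measure.restrict_apply hE.compl]

end Pool.Agent.MP_7a4cc0_an
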