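import Pool.Agent.MP_7a4cc0_an.Basic

open Matrix MeasureTheory Set Topology Filter
open scoped ENNReal NNReal CompactlySupported

namespace Pool.Agent.MP_7a4cc0_an

lemma vo_eq : vo = xp + xm := by
  ext i; fin_cases i <;> simp [vo, xp, xm, ey, ez, dd, e2] <;> norm_num
lemma lor_decomp (v w : V) : lor v w =
    -2 * (lor v xp * lor w xm + lor v xm * lor w xp) + lor v ey * lor w ey
      + lor v ez * lor w ez := by
  simp [lor, xp, xm, ey, ez]; ring
lemma eq_decomp (v : V) :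
    v = (-2 * lor v xm) • xp + (-2 * lor v xp) • xm + lor v ey • ey + lor v ez • ez := by
  ext i; fin_cases i <;> simp [lor, xp, xm, ey, ez] <;> ring
@[simp] lemma lor_vo_vo : lor vo vo = -1 := by simp [lor, vo, xp, xm, ey, ez, dd] <;> norm_num
@[simp] lemma lor_xp_xp : lor xp xp = 0 := by simp [lor, vo, xp, xm, ey, ez, dd] <;> norm_num
@[simp] lemma lor_xm_xm : lor xm xm = 0 := by simp [lor, vo, xp, xm, ey, ez, dd] <;> norm_num
@[simp] lemma lor_xp_xm : lor xp xm = -1 / 2 := by simp [lor, vo, xp, xm, ey, ez, dd] <;> norm_num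
@[simp] lemma lor_xm_xp : lor xm xp = -1 / 2 := by simp [lor, vo, xp, xm, ey, ez, dd] <;> norm_num
@[simp] lemma lor_ey_ey : lor ey ey = 1 := by simp [lor, vo, xp, xm, ey, ez, dd] <;> norm_num
@[simp] lemma lor_ez_ez : lor ez ez = 1 := by simp [lor, vo, xp, xm, ey, ez, dd] <;> norm_num
@[simp] lemma lor_dd_dd : lor dd dd = 1 := by simp [lor, vo, xp, xm, ey, ez, dd] <;> norm_num
@[simp] lemma lor_xp_ey : lor xp ey = 0 := by simp [lor, vo, xp, xm, ey, ez, dd] <;> norm_num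
@[simp] lemma lor_ey_xp : lor ey xp = 0 := by simp [lor, vo, xp, xm, ey, ez, dd] <;> norm_num
@[simp] lemma lor_xp_ez : lor xp ez = 0 := by simp [lor, vo, xp, xm, ey, ez, dd] <;> norm_num
@[simp] lemma lor_ez_xp : lor ez xp = 0 := by simp [lor, vo, xp, xm, ey, ez, dd] <;> norm_num
@[simp] lemma lor_xm_ey : lor xm ey = 0 := by simp [lor, vo, xp, xm, ey, ez, dd] <;> norm_num
@[simp] lemma lor_ey_xm : lor ey xm = 0 := by simp [lor, vo, xp, xm, ey, ez, dd] <;> norm_num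
@[simp] lemma lor_xm_ez : lor xm ez = 0 := by simp [lor, vo, xp, xm, ey, ez, dd] <;> norm_num
@[simp] lemma lor_ez_xm : lor ez xm = 0 := by simp [lor, vo, xp, xm, ey, ez, dd] <;> norm_num
@[simp] lemma lor_ey_ez : lor ey ez = 0 := by simp [lor, vo, xp, xm, ey, ez, dd] <;> norm_num
@[simp] lemma lor_ez_ey : lor ez ey = 0 := by simp [lor, vo, xp, xm, ey, ez, dd] <;> norm_num
@[simp] lemma lor_vo_dd : lor vo dd = 0 := by simp [lor, vo, xp, xm, ey, ez, dd] <;> norm_num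
@[simp] lemma lor_vo_ez : lor vo ez = 0 := by simp [lor, vo, xp, xm, ey, ez, dd] <;> norm_num
@[simp] lemma lor_xp_dd : lor xp dd = 0 := by simp [lor, vo, xp, xm, ey, ez, dd] <;> norm_num
@[simp] lemma lor_xm_dd : lor xm dd = 0 := by simp [lor, vo, xp, xm, ey, ez, dd] <;> norm_num
@[simp] lemma lor_ey_dd : lor ey dd = -3 / 5 := by simp [lor, vo, xp, xm, ey, ez, dd] <;> norm_num
@[simp] lemma lor_ez_dd : lor ez dd = 4 / 5 := by simp [lor, vo, xp, xm, ey, ez, dd] <;> norm_num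
lemma dd_eq : dd = (-3 / 5 : ℝ) • ey + (4 / 5 : ℝ) • ez := by
  ext i; fin_cases i <;> simp [vo, xp, xm, ey, ez, dd, e2] <;> norm_num
lemma ez_eq : ez = (3 / 5 : ℝ) • e2 + (4 / 5 : ℝ) • dd := by
  ext i; fin_cases i <;> simp [vo, xp, xm, ey, ez, dd, e2] <;> norm_num

/-- `n_z` in `SL(2, C)`. -/
def nzSL (z : ℂ) : SL2 := ⟨!![1, z; 0, 1], by simp [Matrix.det_fin_two]⟩
lemma nz_eq (z : ℂ) : nz z = pr (nzSL z) := rfl
lemma nzSL_val (z : ℂ) : (nzSL z).1 = !![1, z; 0, 1] := rfl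
/-- `a_{log 2}` in `SL(2, C)`. -/
noncomputable def a2SL : SL2 :=
  ⟨!![((√2 : ℝ) : ℂ), 0; 0, (((√2)⁻¹ : ℝ) : ℂ)], by
    have : (√2 : ℝ) ≠ 0 := by positivity
    simp [Matrix.det_fin_two, this]⟩
lemma a2_eq : a2 = pr a2SL := rfl
lemma a2SL_val : a2SL.1 = !![((√2 : ℝ) : ℂ), 0; 0, (((√2)⁻¹ : ℝ) : ℂ)] := rfl

lemma nz_add (z w : ℂ) : nz (z + w) = nz z * nz w := by
  simp only [nz_eq]; rw [← pr_mul]; congr 1
  ext i j; fin_cases i <;> fin_cases j <;> simp [nzSL_val, Matrix.mul_apply, Fin.sum_univ_two, add_comm]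
@[simp] lemma nz_zero : nz 0 = 1 := by
  unfold nz; rw [← pr_one]; congr 1
  ext i j; fin_cases i <;> fin_cases j <;> simp
lemma nz_neg (z : ℂ) : nz (-z) = (nz z)⁻¹ := by
  rw [eq_inv_iff_mul_eq_one, ← nz_add, neg_add_cancel, nz_zero]
lemma continuous_nz : Continuous nz := by
  unfold nz pr
  refine QuotientGroup.continuous_mk.comp (Continuous.subtype_mk ?_ _)
  refine continuous_matrix fun i j => ?_
  fin_cases i <;> fin_cases j <;> simp <;> fun_prop
@[simp] lemma rho_nz_xp (z : ℂ) : rho (nz z) xp = xp := by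
  rw [nz_eq, rho_pr, rhoSL_apply, nzSL_val]
  ext i; fin_cases i <;>
    simp [unherm, herm, xp, xm, ey, ez, Matrix.mul_apply, Fin.sum_univ_two, Complex.sq_norm,
      Complex.normSq_apply] <;> ring
lemma rho_nz_xm (z : ℂ) :
    rho (nz z) xm = ‖z‖ ^ 2 • xp + z.re • ey + z.im • ez + xm := by
  rw [nz_eq, rho_pr, rhoSL_apply, nzSL_val]
  ext i; fin_cases i <;>
    simp [unherm, herm, xp, xm, ey, ez, Matrix.mul_apply, Fin.sum_univ_two, Complex.sq_norm,
      Complex.normSq_apply] <;> ring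
lemma rho_nz_ey (z : ℂ) : rho (nz z) ey = ey + (2 * z.re) • xp := by
  rw [nz_eq, rho_pr, rhoSL_apply, nzSL_val]
  ext i; fin_cases i <;>
    simp [unherm, herm, xp, xm, ey, ez, Matrix.mul_apply, Fin.sum_univ_two, Complex.sq_norm,
      Complex.normSq_apply] <;> ring
lemma rho_nz_ez (z : ℂ) : rho (nz z) ez = ez + (2 * z.im) • xp := by
  rw [nz_eq, rho_pr, rhoSL_apply, nzSL_val]
  ext i; fin_cases i <;>
    simp [unherm, herm, xp, xm, ey, ez, Matrix.mul_apply, Fin.sum_univ_two, Complex.sq_norm,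
      Complex.normSq_apply] <;> ring
lemma nz_eq_one {z : ℂ} (h : nz z = 1) : z = 0 := by
  have h1 : (2 * z.re) • xp = 0 := by
    have := rho_nz_ey z
    rw [h, rho_one] at this
    simpa using this
  have h2 : (2 * z.im) • xp = 0 := by
    have := rho_nz_ez z
    rw [h, rho_one] at this
    simpa using this
  have h3 := congrFun h1 0
  have h4 := congrFun h2 0
  simp [xp] at h3 h4
  exact Complex.ext h3 h4
lemma rho_nz_vo (z : ℂ) :
    rho (nz z) vo = (1 + ‖z‖ ^ 2) • xp + z.re • ey + z.im • ez + xm := by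
  rw [vo_eq, map_add, rho_nz_xp, rho_nz_xm]; module
lemma form_a2_xp : rho a2 xp = (2 : ℝ) • xp := by
  have h2 : (√2 : ℝ) * √2 = 2 := Real.mul_self_sqrt (by norm_num)
  rw [a2_eq, rho_pr, rhoSL_apply, a2SL_val]
  ext i; fin_cases i <;>
    simp [unherm, herm, xp, Matrix.mul_apply, Fin.sum_univ_two] <;> nlinarith
lemma form_a2_xm : rho a2 xm = (2 : ℝ)⁻¹ • xm := by
  have h2 : ((√2 : ℝ))⁻¹ * (√2)⁻¹ = 2⁻¹ := by
    rw [← mul_inv, Real.mul_self_sqrt (by norm_num)]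
  rw [a2_eq, rho_pr, rhoSL_apply, a2SL_val]
  ext i; fin_cases i <;>
    simp [unherm, herm, xm, Matrix.mul_apply, Fin.sum_univ_two, ← Complex.ofReal_inv,
      -Complex.ofReal_inv] <;> nlinarith
lemma form_a2_ey : rho a2 ey = ey := by
  have h2 : (√2 : ℝ) * (√2)⁻¹ = 1 := mul_inv_cancel₀ (by positivity)
  rw [a2_eq, rho_pr, rhoSL_apply, a2SL_val]
  ext i; fin_cases i <;>
    simp [unherm, herm, ey, Matrix.mul_apply, Fin.sum_univ_two, ← Complex.ofReal_inv,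
      -Complex.ofReal_inv, h2]
lemma form_a2_ez : rho a2 ez = ez := by
  have h2 : (√2 : ℝ) * (√2)⁻¹ = 1 := mul_inv_cancel₀ (by positivity)
  rw [a2_eq, rho_pr, rhoSL_apply, a2SL_val]
  ext i; fin_cases i <;>
    simp [unherm, herm, ez, Matrix.mul_apply, Fin.sum_univ_two, ← Complex.ofReal_inv,
      -Complex.ofReal_inv, h2]
lemma form_pow {v : V} {c : ℝ} {g : G} (h : rho g v = c • v) (k : ℕ) :
    rho (g ^ k) v = c ^ k • v := by
  induction k with
  | zero => simp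
  | succ k ih => rw [pow_succ, rho_mul, h, map_smul, ih, smul_smul, pow_succ, mul_comm]
lemma form_inv {v : V} {c : ℝ} (hc : c ≠ 0) {g : G} (h : rho g v = c • v) :
    rho g⁻¹ v = c⁻¹ • v := by
  have := congrArg (rho g⁻¹) h
  rw [rho_inv_rho, map_smul] at this
  rw [eq_inv_smul_iff₀ hc]; exact this.symm
lemma rho_a2_xp (k : ℕ) : rho (a2 ^ k) xp = (2 ^ k : ℝ) • xp := form_pow form_a2_xp k
lemma rho_a2_xm (k : ℕ) : rho (a2 ^ k) xm = (2 ^ k : ℝ)⁻¹ • xm := by rw [form_pow form_a2_xm k, inv_pow]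
@[simp] lemma rho_a2_ey (k : ℕ) : rho (a2 ^ k) ey = ey := by
  rw [form_pow (c := 1) (g := a2) (v := ey) (by simp [form_a2_ey]) k]; simp
@[simp] lemma rho_a2_ez (k : ℕ) : rho (a2 ^ k) ez = ez := by
  rw [form_pow (c := 1) (g := a2) (v := ez) (by simp [form_a2_ez]) k]; simp
lemma rho_a2inv_xp (k : ℕ) : rho (a2 ^ k)⁻¹ xp = (2 ^ k : ℝ)⁻¹ • xp := form_inv (by positivity) (rho_a2_xp k)
lemma rho_a2inv_xm (k : ℕ) : rho (a2 ^ k)⁻¹ xm = (2 ^ k : ℝ) • xm := by
  simpa using form_inv (by positivity) (rho_a2_xm k)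
@[simp] lemma rho_a2inv_ey (k : ℕ) : rho (a2 ^ k)⁻¹ ey = ey := by
  rw [form_inv (c := 1) (g := a2 ^ k) (v := ey) one_ne_zero (by rw [rho_a2_ey, one_smul])]; simp
@[simp] lemma rho_a2inv_ez (k : ℕ) : rho (a2 ^ k)⁻¹ ez = ez := by
  rw [form_inv (c := 1) (g := a2 ^ k) (v := ez) one_ne_zero (by rw [rho_a2_ez, one_smul])]; simp
lemma form_nz_a2 (z : ℂ) : nz z * a2 = a2 * nz (z / 2) := by
  have h2 : ((√2 : ℝ) : ℂ) * ((√2 : ℝ) : ℂ) = 2 := by
    rw [← Complex.ofReal_mul, Real.mul_self_sqrt (by norm_num)]; simp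
  have h0 : ((√2 : ℝ) : ℂ) ≠ 0 := by
    intro h; rw [h] at h2; simp at h2
  simp only [nz_eq, a2_eq]; rw [← pr_mul, ← pr_mul]; congr 1
  ext i j; fin_cases i <;> fin_cases j <;> simp [nzSL_val, a2SL_val, Matrix.mul_apply, Fin.sum_univ_two]
  field_simp
  linear_combination (-z) * h2
lemma nz_mul_a2 (z : ℂ) (k : ℕ) : nz z * a2 ^ k = a2 ^ k * nz (z / 2 ^ k) := by
  induction k generalizing z with
  | zero => simp
  | succ k ih =>
    rw [pow_succ, ← mul_assoc, ih, mul_assoc, form_nz_a2, ← mul_assoc, div_div, ← pow_succ,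
      ← pow_succ]
lemma continuous_cv (k : ℕ) : Continuous (cv k) := by
  unfold cv
  exact (continuous_nz.comp Complex.continuous_ofReal).mul continuous_const
lemma cv_mul_nz (k : ℕ) (t s : ℝ) : cv k t * nz s = cv k (t + s / 2 ^ k) := by
  have h : (a2 ^ k)⁻¹ * nz s = nz (s / 2 ^ k) * (a2 ^ k)⁻¹ := by
    rw [inv_mul_eq_iff_eq_mul, ← mul_assoc, ← nz_mul_a2, mul_inv_cancel_right]
  unfold cv
  rw [mul_assoc, h, ← mul_assoc, ← nz_add]; push_cast; rfl
lemma cv_mul_a2 (k j : ℕ) (t : ℝ) : cv (k + j) t * a2 ^ j = cv k t := by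
  unfold cv
  rw [add_comm, pow_add, _root_.mul_inv_rev, mul_assoc, mul_assoc, inv_mul_cancel, mul_one]
lemma rho_cv_xp (k : ℕ) (t : ℝ) : rho (cv k t) xp = (2 ^ k : ℝ)⁻¹ • xp := by
  rw [cv, rho_mul, rho_a2inv_xp, map_smul, rho_nz_xp]
lemma rho_cv_xm (k : ℕ) (t : ℝ) :
    rho (cv k t) xm = (2 ^ k : ℝ) • (t ^ 2 • xp + t • ey + xm) := by
  rw [cv, rho_mul, rho_a2inv_xm, map_smul, rho_nz_xm]; simp
lemma rho_cv_ey (k : ℕ) (t : ℝ) : rho (cv k t) ey = ey + (2 * t) • xp := by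
  rw [cv, rho_mul, rho_a2inv_ey, rho_nz_ey]; simp
@[simp] lemma rho_cv_ez (k : ℕ) (t : ℝ) : rho (cv k t) ez = ez := by
  rw [cv, rho_mul, rho_a2inv_ez, rho_nz_ez]; simp
lemma rho_cv_vo (k : ℕ) (t : ℝ) : rho (cv k t) vo =
    (2 ^ k : ℝ)⁻¹ • xp + (2 ^ k : ℝ) • (t ^ 2 • xp + t • ey + xm) := by
  rw [vo_eq, map_add, rho_cv_xp, rho_cv_xm]
lemma form_klein (X : Matrix (Fin 2) (Fin 2) ℂ) : klein X = kl (unherm X) := by
  unfold klein kl
  ext i
  by_cases h : (X 0 0).re + (X 1 1).re = 0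
  · simp [unherm, h]
  · fin_cases i <;> simp [unherm] <;> field_simp
lemma pt_eq (g : SL2) : pt g = kl (rho (pr g) vo) := by
  have : herm vo = 1 := by
    ext i j; fin_cases i <;> fin_cases j <;> simp [herm, vo, Complex.ext_iff]
  rw [pt, form_klein, rho_pr, rhoSL_apply, this, Matrix.mul_one]
lemma plus_eq (g : SL2) : plus g = kl (rho (pr g) xp) := by
  rw [plus, form_klein, rho_pr, rhoSL_apply]
  congr 2
  ext i j
  simp [herm, xp, Matrix.mul_apply, Fin.sum_univ_two, Matrix.vecMulVec_apply, Complex.ext_iff]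
  constructor <;> ring

end Pool.Agent.MP_7a4cc0_an
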