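import Pool.Agent.MP_7a4cc0_an.RepTop
import Pool.Agent.MP_7a4cc0_an.Form

open Matrix MeasureTheory Set Topology Filter
open scoped ENNReal NNReal CompactlySupported

namespace Pool.Agent.MP_7a4cc0_an

lemma lor_lat (lam : ℕ) (c c' : Fin 4 → ℤ) : lor (lat lam c) (lat lam c') =
    ((-7 * c 0 * c' 0 + c 1 * c' 1 + c 2 * c' 2 + lam * c 3 * c' 3 : ℤ) : ℝ) := by
  have h7 : √7 * √7 = (7 : ℝ) := Real.mul_self_sqrt (by norm_num)
  have hl : √lam * √lam = (lam : ℝ) := Real.mul_self_sqrt (Nat.cast_nonneg _)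
  simp [lat, lor, vo, ex, e2, dd]
  linear_combination (-(c 0 : ℝ) * c' 0) * h7 + ((c 3 : ℝ) * c' 3) * hl
lemma lor_lat_dd (lam : ℕ) (c : Fin 4 → ℤ) : lor (lat lam c) dd = c 3 * √lam := by
  simp [lat, lor, vo, ex, e2, dd]
  ring
lemma lor_lat_ez (lam : ℕ) (c : Fin 4 → ℤ) :
    lor (lat lam c) ez = (3 * c 2 + 4 * c 3 * √lam) / 5 := by
  simp [lat, lor, vo, ex, e2, dd, ez]
  ring
lemma lor_vo_lat (lam : ℕ) (c : Fin 4 → ℤ) : lor vo (lat lam c) = -(c 0 * √7) := by
  simp [lat, lor, vo, ex, e2, dd]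
lemma lat_single3 (lam : ℕ) : lat lam (Pi.single 3 1) = √lam • dd := by
  simp [lat]

lemma arith_lat_zero (lam : ℕ) : lat lam 0 = 0 := by simp [lat]

lemma arith_lat_sub (lam : ℕ) (c c' : Fin 4 → ℤ) : lat lam (c - c') = lat lam c - lat lam c' := by
  rw [eq_sub_iff_add_eq, ← lat_add, sub_add_cancel]

/-- the diagonal coefficients of the form -/
def arithCoef (lam : ℕ) : Fin 4 → ℤ := ![-7, 1, 1, lam]

lemma arith_lor_single (lam : ℕ) (c : Fin 4 → ℤ) (i : Fin 4) :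
    lor (lat lam c) (lat lam (Pi.single i 1)) = ((arithCoef lam i * c i : ℤ) : ℝ) := by
  rw [lor_lat]
  fin_cases i <;> simp [arithCoef]

lemma arithCoef_ne {lam : ℕ} (hlam : 0 < lam) (i : Fin 4) : arithCoef lam i ≠ 0 := by
  fin_cases i <;> simp [arithCoef, hlam.ne']

lemma arith_coord {lam : ℕ} (hlam : 0 < lam) :
    ∃ D : ℝ, 0 < D ∧ ∀ (c : Fin 4 → ℤ) (i : Fin 4), ((|c i| : ℤ) : ℝ) ≤ D * ‖lat lam c‖ := by
  refine ⟨4 * ‖fun i : Fin 4 => lat lam (Pi.single i 1)‖ + 1, by positivity, fun c i => ?_⟩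
  have h1 := abs_lor_le (lat lam c) (lat lam (Pi.single i 1))
  have h2 := norm_le_pi_norm (fun i : Fin 4 => lat lam (Pi.single i 1)) i
  have h3 : |c i| ≤ |arithCoef lam i * c i| := by
    rw [abs_mul]
    exact le_mul_of_one_le_left (abs_nonneg _) (Int.one_le_abs (arithCoef_ne hlam i))
  have h4 : ((|c i| : ℤ) : ℝ) ≤ ((|arithCoef lam i * c i| : ℤ) : ℝ) := by exact_mod_cast h3
  rw [arith_lor_single, ← Int.cast_abs] at h1
  have h5 := norm_nonneg (lat lam c)
  have h6 := mul_le_mul_of_nonneg_left h2 h5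
  linarith

lemma lat_injective {lam : ℕ} (hlam : 0 < lam) : Function.Injective (lat lam) := by
  intro c c' h
  funext i
  have h1 := arith_lor_single lam c i
  rw [h, arith_lor_single] at h1
  exact (mul_left_cancel₀ (arithCoef_ne hlam i) (Int.cast_injective h1)).symm

lemma arith_ext {lam : ℕ} (hlam : 0 < lam) {W : Type*} [AddCommGroup W] [Module ℝ W]
    {S T : V →ₗ[ℝ] W} (h : ∀ i, S (lat lam (Pi.single i 1)) = T (lat lam (Pi.single i 1))) :
    S = T := by
  have h7 : (√7 : ℝ) ≠ 0 := by positivity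
  have hl : (√lam : ℝ) ≠ 0 := by positivity
  refine LinearMap.ext fun v => ?_
  have e : v = (v 0 / √7) • lat lam (Pi.single 0 1) + v 1 • lat lam (Pi.single 1 1) +
      (4 / 5 * v 2 + 3 / 5 * v 3) • lat lam (Pi.single 2 1) +
      ((-3 / 5 * v 2 + 4 / 5 * v 3) / √lam) • lat lam (Pi.single 3 1) := by
    funext i
    fin_cases i <;> simp [lat, vo, ex, e2, dd] <;> field_simp <;> ring
  rw [e]
  simp only [map_add, map_smul, h]

/-- A linear map is determined by its values on the lattice. -/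
lemma lat_ext {lam : ℕ} (hlam : 0 < lam) {W : Type*} [AddCommGroup W] [Module ℝ W]
    {S T : V →ₗ[ℝ] W} (h : ∀ c, S (lat lam c) = T (lat lam c)) : S = T :=
  arith_ext hlam fun _ => h _

lemma arith_mod8 : ∀ a b c d : ZMod 8, a ^ 2 + b ^ 2 + c ^ 2 + d ^ 2 = 0 →
    4 * a = 0 ∧ 4 * b = 0 ∧ 4 * c = 0 ∧ 4 * d = 0 := by decide +kernel

lemma arith_even {x : ℤ} (h : 4 * (x : ZMod 8) = 0) : 2 ∣ x := by
  have : ((4 * x : ℤ) : ZMod 8) = 0 := by push_cast; exact h
  have := (ZMod.intCast_zmod_eq_zero_iff_dvd _ 8).1 this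
  omega

lemma arith_descent {l : ℤ} (hl : l = 1 ∨ l = 17) (n : ℕ) : ∀ a b c d : ℤ,
    a.natAbs + b.natAbs + c.natAbs + d.natAbs = n →
    -7 * a * a + b * b + c * c + l * d * d = 0 → a = 0 ∧ b = 0 ∧ c = 0 ∧ d = 0 := by
  induction n using Nat.strong_induction_on with
  | _ n ih =>
    intro a b c d hn h
    have h8 : (8 : ℤ) ∣ a ^ 2 + b ^ 2 + c ^ 2 + d ^ 2 := by
      rcases hl with rfl | rfl
      · exact ⟨a ^ 2, by linear_combination h⟩
      · exact ⟨a ^ 2 - 2 * d ^ 2, by linear_combination h⟩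
    have h9 := (ZMod.intCast_zmod_eq_zero_iff_dvd _ 8).2 h8
    push_cast at h9
    obtain ⟨h1, h2, h3, h4⟩ := arith_mod8 _ _ _ _ h9
    obtain ⟨a, rfl⟩ := arith_even h1
    obtain ⟨b, rfl⟩ := arith_even h2
    obtain ⟨c, rfl⟩ := arith_even h3
    obtain ⟨d, rfl⟩ := arith_even h4
    rcases Nat.eq_zero_or_pos n with rfl | hpos
    · omega
    · have := ih _ (by omega) a b c d rfl (by linarith)
      omega

lemma aniso {lam : ℕ} (h : lam = 1 ∨ lam = 17) (c : Fin 4 → ℤ)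
    (hc : lor (lat lam c) (lat lam c) = 0) : c = 0 := by
  rw [lor_lat, Int.cast_eq_zero] at hc
  obtain ⟨h0, h1, h2, h3⟩ := arith_descent (l := lam) (by omega) _ _ _ _ _ rfl hc
  funext i
  fin_cases i <;> assumption
lemma LL_mono {lam q q' : ℕ} (h : q ∣ q') : LL lam q' ≤ LL lam q := by
  obtain ⟨k, rfl⟩ := h
  have key : ∀ g, Cong lam (q * k) g → Cong lam q g := fun g hg c => by
    obtain ⟨c', hc⟩ := hg c
    exact ⟨k • c', by rw [hc, lat_nsmul, smul_smul, Nat.cast_mul]⟩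
  exact fun g hg => ⟨key _ hg.1, key _ hg.2⟩
lemma locFin_lat {lam : ℕ} (hlam : 0 < lam) : LocFin (Set.range (lat lam)) := by
  obtain ⟨D, hD, h⟩ := arith_coord hlam
  intro C
  refine ((Set.finite_Icc (fun _ => -⌈D * C⌉) fun _ => ⌈D * C⌉).image (lat lam)).subset ?_
  rintro _ ⟨⟨c, rfl⟩, hc⟩
  have : ∀ i, |c i| ≤ ⌈D * C⌉ := fun i => by
    have := ((h c i).trans (mul_le_mul_of_nonneg_left hc hD.le)).trans (Int.le_ceil _)
    exact_mod_cast this
  exact ⟨c, ⟨fun i => (abs_le.1 (this i)).1, fun i => (abs_le.1 (this i)).2⟩, rfl⟩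

lemma Cong.arith_lat {lam q : ℕ} {g : G} (hg : Cong lam q g) (c : Fin 4 → ℤ) :
    ∃ c' : Fin 4 → ℤ, rho g (lat lam c) = lat lam (c + q • c') := by
  obtain ⟨c', h⟩ := hg c
  exact ⟨c', by rw [h, lat_add, lat_nsmul]⟩

lemma locFin_orb_dd {lam : ℕ} (hlam : 0 < lam) (q : ℕ) (ε : ℝ) :
    LocFin (orb (LL lam q) (ε • dd)) := by
  have hl : (0 : ℝ) < √lam := by positivity
  intro C
  rcases eq_or_ne ε 0 with rfl | hε
  · refine (Set.finite_singleton 0).subset ?_
    rintro _ ⟨⟨γ, -, rfl⟩, -⟩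
    simp
  · refine ((locFin_lat hlam (|√lam / ε| * C)).image fun m => (ε / √lam) • m).subset ?_
    rintro _ ⟨⟨γ, hγ, rfl⟩, hc⟩
    obtain ⟨c', h⟩ := hγ.1.arith_lat (Pi.single 3 1)
    have e : (√lam / ε) • rho γ (ε • dd) = rho γ (lat lam (Pi.single 3 1)) := by
      rw [lat_single3, map_smul, map_smul, smul_smul, div_mul_cancel₀ _ hε]
    refine ⟨(√lam / ε) • rho γ (ε • dd), ⟨⟨_, (e.trans h).symm⟩, ?_⟩, ?_⟩
    · rw [norm_smul, Real.norm_eq_abs]
      exact mul_le_mul_of_nonneg_left hc (abs_nonneg _)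
    · simp only [smul_smul]
      rw [show ε / √lam * (√lam / ε) = 1 by field_simp, one_smul]
lemma LL_disc {lam : ℕ} (hlam : 0 < lam) (q : ℕ) :
    ∃ U ∈ 𝓝 (1 : G), ∀ g ∈ LL lam q, g ∈ U → g = 1 := by
  obtain ⟨D, hD, h⟩ := arith_coord hlam
  refine ⟨{g | ∀ i : Fin 4, D * ‖rho g (lat lam (Pi.single i 1)) - lat lam (Pi.single i 1)‖ < 1},
    eventually_all.2 fun i => ?_, fun g hg hU => ?_⟩
  · have hc : Continuous fun g : G =>
        D * ‖rho g (lat lam (Pi.single i 1)) - lat lam (Pi.single i 1)‖ :=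
      continuous_const.mul ((continuous_rho_left _).sub continuous_const).norm
    exact hc.continuousAt.eventually (gt_mem_nhds (by simp))
  · have : (rho g : V →ₗ[ℝ] V) = LinearMap.id := arith_ext hlam fun i => by
      obtain ⟨c', hc⟩ := hg.1.arith_lat (Pi.single i 1)
      have h1 := hU i
      rw [hc, ← arith_lat_sub, add_sub_cancel_left] at h1
      have h2 : q • c' = 0 := funext fun j => by
        have := (h (q • c') j).trans_lt h1
        exact Int.abs_lt_one_iff.1 (by exact_mod_cast this)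
      rw [hc, h2, add_zero, LinearMap.id_apply]
    exact rho_eq_one fun v => by rw [this, LinearMap.id_apply]

lemma arith_far (q : ℕ) {N : ℤ} (hN : N ≠ 0) : (q : ℝ) - 1 ≤ |1 + (q : ℝ) * N| := by
  have h1 : (1 : ℝ) ≤ |(N : ℝ)| := by exact_mod_cast Int.one_le_abs hN
  have h2 := abs_sub (1 + (q : ℝ) * N) 1
  rw [add_sub_cancel_left, abs_mul, abs_one, Nat.abs_cast] at h2
  nlinarith [(Nat.cast_nonneg q : (0 : ℝ) ≤ q)]

lemma arith_null {lam : ℕ} (h : lam = 1 ∨ lam = 17) {g : G} {c c' : Fin 4 → ℤ}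
    (hc : rho g (lat lam c) = lat lam (c + c')) (h0 : lor (lat lam c') (lat lam c) = 0) :
    rho g (lat lam c) = lat lam c := by
  have h1 := lor_rho_self g (lat lam c)
  rw [hc, lat_add, lor_add_left, lor_add_right, lor_add_right, lor_comm (lat lam c) (lat lam c'),
    h0] at h1
  rw [hc, aniso h c' (by linarith), add_zero]

lemma LL_door {lam : ℕ} (h : lam = 1 ∨ lam = 17) {q : ℕ} {g : G} (hg : g ∈ LL lam q) :
    rho g dd = dd ∨ (q : ℝ) - 1 ≤ |lor (rho g dd) dd| := by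
  have hlam : 0 < lam := by omega
  have hl : (√lam : ℝ) ≠ 0 := by positivity
  obtain ⟨c', hc⟩ := hg.1.arith_lat (Pi.single 3 1)
  rcases eq_or_ne (c' 3) 0 with h0 | h0
  · left
    have := arith_null h hc (by rw [arith_lor_single]; simp [h0])
    rw [lat_single3, map_smul] at this
    exact smul_right_injective V hl this
  · right
    have h1 := lor_lat_dd lam (Pi.single 3 1 + q • c')
    rw [← hc, lat_single3, map_smul, lor_smul_left, mul_comm] at h1
    rw [mul_right_cancel₀ hl h1]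
    simpa using arith_far q h0
lemma LL_black {lam : ℕ} (h : lam = 1 ∨ lam = 17) {q : ℕ} {c : Fin 4 → ℤ}
    (hc : lor (lat lam c) (lat lam c) = 1) {g : G} (hg : g ∈ LL lam q) :
    rho g (lat lam c) = lat lam c ∨ (q : ℝ) - 1 ≤ |lor (rho g (lat lam c)) (lat lam c)| := by
  obtain ⟨c', h1⟩ := hg.1.arith_lat c
  have h2 := lor_lat lam c' c
  set N : ℤ := -7 * c' 0 * c 0 + c' 1 * c 1 + c' 2 * c 2 + lam * c' 3 * c 3
  rcases eq_or_ne N 0 with h0 | h0
  · left
    exact arith_null h h1 (by rw [lat_nsmul, lor_smul_left, h2, h0]; simp)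
  · right
    rw [h1, lat_add, lat_nsmul, lor_add_left, lor_smul_left, hc, h2]
    exact arith_far q h0
lemma LL_black_door {lam : ℕ} (hlam : 0 < lam) {q : ℕ} (hq : 4 ≤ q) {c : Fin 4 → ℤ}
    (hc : |c 3| = 2) {g : G} (hg : g ∈ LL lam q) : 2 ≤ |lor (rho g (lat lam c)) dd| := by
  obtain ⟨c', h1⟩ := hg.1.arith_lat c
  have h2 : 2 ≤ |(c + q • c') 3| := by
    rw [Pi.add_apply, Pi.smul_apply, nsmul_eq_mul]
    rcases eq_or_ne (c' 3) 0 with h0 | h0
    · simp [h0, hc]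
    · have h3 := Int.one_le_abs h0
      have h4 := abs_sub (c 3 + q * c' 3) (c 3)
      rw [add_sub_cancel_left, abs_mul, Nat.abs_cast, hc] at h4
      have h5 : (4 : ℤ) ≤ q := by exact_mod_cast hq
      nlinarith
  have h3 : (2 : ℝ) ≤ |(((c + q • c') 3 : ℤ) : ℝ)| := by exact_mod_cast h2
  have h4 : (1 : ℝ) ≤ √lam := Real.one_le_sqrt.2 (by exact_mod_cast hlam)
  rw [h1, lor_lat_dd, abs_mul, abs_of_nonneg (Real.sqrt_nonneg _)]
  nlinarith
lemma LL_black_ez {g : G} (hg : g ∈ LL 1 51) :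
    1 < |lor (rho g (lat 1 ![1, 0, -2, -2])) ez| := by
  obtain ⟨c', h1⟩ := hg.1.arith_lat ![1, 0, -2, -2]
  have h2 : (5 : ℤ) < |-14 + 51 * (3 * c' 2 + 4 * c' 3)| := by
    rw [lt_abs]; omega
  have h3 : (5 : ℝ) < |-14 + 51 * (3 * (c' 2 : ℝ) + 4 * c' 3)| := by exact_mod_cast h2
  rw [h1, lor_lat_ez, abs_div, one_lt_div (by norm_num)]
  refine lt_of_eq_of_lt (by norm_num) (h3.trans_eq ?_)
  congr 1
  simp
  ring

lemma Cong.arith_stab {lam lam' q : ℕ} (hlam : 0 < lam) {g : G} (hg : Cong lam q g)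
    (h : rho g dd = dd) : Cong lam' q g := by
  have hl : (√lam : ℝ) ≠ 0 := by positivity
  intro c
  obtain ⟨c', hc⟩ := hg (Function.update c 3 0)
  have h1 := lor_rho g (lat lam (Function.update c 3 0)) dd
  rw [h, hc, lor_add_left, lor_smul_left, lor_lat_dd lam c', add_eq_left, ← mul_assoc] at h1
  have h2 : (q : ℝ) * c' 3 = 0 := (mul_eq_zero.1 h1).resolve_right hl
  have e : lat lam' c = lat lam (Function.update c 3 0) + ((c 3 : ℝ) * √lam') • dd := by
    simp [lat]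
  have e' : (q : ℝ) • lat lam' c' = (q : ℝ) • lat lam c' := by
    simp only [lat, smul_add, smul_smul, ← mul_assoc, h2, zero_mul]
  refine ⟨c', ?_⟩
  rw [e', e, map_add, map_smul, h, hc]
  abel

lemma LL_stab {lam lam' q : ℕ} (hlam : 0 < lam) {g : G} (hg : g ∈ LL lam q)
    (h : rho g dd = dd) : g ∈ LL lam' q :=
  ⟨hg.1.arith_stab hlam h, hg.2.arith_stab hlam (by rw [← h, rho_inv_rho, h])⟩

lemma arith_irr {x y : ℤ} (h : (x : ℝ) * √(17 : ℕ) + y = 0) : y = 0 := by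
  rcases eq_or_ne x 0 with rfl | hx
  · simpa using h
  · have h1 : Irrational ((x : ℝ) * √(17 : ℕ) + y) :=
      ((Nat.Prime.irrational_sqrt (by norm_num)).intCast_mul hx).add_intCast y
    rw [h] at h1
    exact absurd h1 not_irrational_zero

lemma LL_fix_ez {q : ℕ} {g : G} (hg : g ∈ LL 17 q) (h : rho g ez = ez) :
    rho g dd = dd := by
  have hl : (√(17 : ℕ) : ℝ) ≠ 0 := by positivity
  obtain ⟨a, ha⟩ := hg.1.arith_lat (Pi.single 2 1)
  obtain ⟨b, hb⟩ := hg.1.arith_lat (Pi.single 3 1)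
  have e2' : lat 17 (Pi.single 2 1) = e2 := by simp [lat]
  rw [lat_add, e2'] at ha
  rw [lat_add, lat_single3, map_smul] at hb
  rw [ez_eq, map_add, map_smul, map_smul, ha] at h
  have h1 : (3 * √(17 : ℕ) : ℝ) • lat 17 (q • a) + (4 : ℝ) • lat 17 (q • b) = 0 := by
    linear_combination (norm := module) (5 * √(17 : ℕ) : ℝ) • h - (4 : ℝ) • hb
  have h2 : q • b = 0 := funext fun i => by
    have h3 := congrArg (fun v => lor v (lat 17 (Pi.single i 1))) h1
    simp only [lor_add_left, lor_smul_left, lor_zero_left, arith_lor_single] at h3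
    have h4 := arith_irr (x := 3 * (arithCoef 17 i * (q • a) i))
      (y := 4 * (arithCoef 17 i * (q • b) i)) (by push_cast at h3 ⊢; linarith)
    have h5 := arithCoef_ne (lam := 17) (by norm_num) i
    simpa [h5] using h4
  rw [h2, arith_lat_zero, add_zero] at hb
  exact smul_right_injective V hl hb

end Pool.Agent.MP_7a4cc0_an
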