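import Mathlib

open Matrix MeasureTheory Set Topology Filter
open scoped ENNReal NNReal CompactlySupported

namespace Pool.Agent.MP_7a4cc0_an

lemma Quad_div (y p q l ε : ℝ) (hl : 0 < l) (hp : l ≤ |p|) (hq : l ≤ |q|) (hy : |y| ≤ ε) :
    |y / (p * q)| * l ^ 2 ≤ ε := by
  have hp0 : 0 < |p| := lt_of_lt_of_le hl hp
  have hq0 : 0 < |q| := lt_of_lt_of_le hl hq
  have h1 : l ^ 2 ≤ |p| * |q| := by
    rw [sq]; exact mul_le_mul hp hq hl.le hp0.le
  rw [abs_div, abs_mul]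
  calc |y| / (|p| * |q|) * l ^ 2 ≤ |y| / (|p| * |q|) * (|p| * |q|) :=
        mul_le_mul_of_nonneg_left h1 (by positivity)
    _ = |y| := div_mul_cancel₀ _ (by positivity)
    _ ≤ ε := hy

lemma Quad_mul_le (u c k : ℝ) (h0 : 0 ≤ c) (hk : c ≤ k) : |u * c| ≤ k * |u| := by
  rw [abs_mul, abs_of_nonneg h0, mul_comm]
  exact mul_le_mul_of_nonneg_right hk (abs_nonneg u)

/-- Lagrange interpolation at three separated points of `[0, 1]`. -/
lemma Quad_lag (α β γ x y z l ε : ℝ) (hl : 0 < l)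
    (hx0 : 0 ≤ x) (hx1 : x ≤ 1) (hy0 : 0 ≤ y) (hy1 : y ≤ 1) (hz0 : 0 ≤ z) (hz1 : z ≤ 1)
    (hxy : l ≤ |x - y|) (hxz : l ≤ |x - z|) (hyz : l ≤ |y - z|)
    (qx : |α * x ^ 2 + β * x + γ| ≤ ε) (qy : |α * y ^ 2 + β * y + γ| ≤ ε)
    (qz : |α * z ^ 2 + β * z + γ| ≤ ε) : (|α| + |β| + |γ|) * l ^ 2 ≤ 12 * ε := by
  have nxy : x - y ≠ 0 := abs_pos.1 (lt_of_lt_of_le hl hxy)
  have nxz : x - z ≠ 0 := abs_pos.1 (lt_of_lt_of_le hl hxz)
  have nyz : y - z ≠ 0 := abs_pos.1 (lt_of_lt_of_le hl hyz)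
  have nyx : y - x ≠ 0 := fun h => nxy (by linarith)
  have nzx : z - x ≠ 0 := fun h => nxz (by linarith)
  have nzy : z - y ≠ 0 := fun h => nyz (by linarith)
  have hu := Quad_div _ (x - y) (x - z) l ε hl hxy hxz qx
  have hv := Quad_div _ (y - x) (y - z) l ε hl (by rwa [abs_sub_comm]) hyz qy
  have hw := Quad_div _ (z - x) (z - y) l ε hl (by rwa [abs_sub_comm]) (by rwa [abs_sub_comm]) qz
  set u := (α * x ^ 2 + β * x + γ) / ((x - y) * (x - z)) with hu'
  set v := (α * y ^ 2 + β * y + γ) / ((y - x) * (y - z)) with hv'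
  set w := (α * z ^ 2 + β * z + γ) / ((z - x) * (z - y)) with hw'
  have eα : α = u + v + w := by
    rw [hu', hv', hw']; field_simp; ring
  have eβ : β = -(u * (y + z) + v * (x + z) + w * (x + y)) := by
    rw [hu', hv', hw']; field_simp; ring
  have eγ : γ = u * (y * z) + v * (x * z) + w * (x * y) := by
    rw [hu', hv', hw']; field_simp; ring
  clear_value u v w
  have bα : |α| ≤ |u| + |v| + |w| := by
    rw [eα]; exact abs_add_three u v w
  have bβ : |β| ≤ 2 * |u| + 2 * |v| + 2 * |w| := by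
    rw [eβ, abs_neg]
    refine (abs_add_three _ _ _).trans ?_
    have h1 := Quad_mul_le u (y + z) 2 (by linarith) (by linarith)
    have h2 := Quad_mul_le v (x + z) 2 (by linarith) (by linarith)
    have h3 := Quad_mul_le w (x + y) 2 (by linarith) (by linarith)
    linarith
  have bγ : |γ| ≤ 1 * |u| + 1 * |v| + 1 * |w| := by
    rw [eγ]
    refine (abs_add_three _ _ _).trans ?_
    have h1 := Quad_mul_le u (y * z) 1 (by positivity) (mul_le_one₀ hy1 hz0 hz1)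
    have h2 := Quad_mul_le v (x * z) 1 (by positivity) (mul_le_one₀ hx1 hz0 hz1)
    have h3 := Quad_mul_le w (x * y) 1 (by positivity) (mul_le_one₀ hx1 hy0 hy1)
    linarith
  have hs : |α| + |β| + |γ| ≤ 4 * (|u| + |v| + |w|) := by linarith
  have := mul_le_mul_of_nonneg_right hs (sq_nonneg l)
  nlinarith

lemma Quad_far {s t r : ℝ} (h : t ∉ Icc (s - r) (s + r)) : r ≤ |s - t| := by
  by_contra hc
  push Not at hc
  rw [abs_lt] at hc
  exact h ⟨by linarith, by linarith⟩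

lemma quad_small (A B C ε θ a h : ℝ) (hh : 0 < h) (hθ : 0 < θ) (hε : 0 < ε)
    (hN : θ ≤ |A| * h ^ 2 + |2 * A * a + B| * h + |A * a ^ 2 + B * a + C|) :
    volume {t : ℝ | t ∈ Ico a (a + h) ∧ |A * t ^ 2 + B * t + C| < ε} ≤
      ENNReal.ofReal (16 * h * √(ε / θ)) := by
  set S := {t : ℝ | t ∈ Ico a (a + h) ∧ |A * t ^ 2 + B * t + C| < ε} with hS
  set l := 4 * √(ε / θ) with hl
  have hl0 : 0 < l := by positivity
  have hl2 : l ^ 2 * θ = 16 * ε := by
    rw [hl, mul_pow, Real.sq_sqrt (by positivity)]; field_simp; norm_num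
  have hr : 0 < l * h := by positivity
  have hI : ∀ s : ℝ, volume (Icc (s - l * h) (s + l * h)) = ENNReal.ofReal (2 * (l * h)) := by
    intro s; rw [Real.volume_Icc]; congr 1; ring
  have h16 : 16 * h * √(ε / θ) = 2 * (l * h) + 2 * (l * h) := by rw [hl]; ring
  rw [h16, ENNReal.ofReal_add (by positivity) (by positivity)]
  by_contra hc
  have two : ∀ s s' : ℝ, ∃ t ∈ S, l * h ≤ |s - t| ∧ l * h ≤ |s' - t| := by
    intro s s'
    by_contra hn
    apply hc
    have hsub : S ⊆ Icc (s - l * h) (s + l * h) ∪ Icc (s' - l * h) (s' + l * h) := by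
      intro t ht
      by_contra hm
      rw [mem_union, not_or] at hm
      exact hn ⟨t, ht, Quad_far hm.1, Quad_far hm.2⟩
    calc volume S ≤ _ := measure_mono hsub
      _ ≤ _ := measure_union_le _ _
      _ = _ := by rw [hI, hI]
  obtain ⟨t1, h1, -⟩ := two 0 0
  obtain ⟨t2, h2, h12, -⟩ := two t1 t1
  obtain ⟨t3, h3, h13, h23⟩ := two t1 t2
  have sep : ∀ s t : ℝ, l * h ≤ |s - t| → l ≤ |(s - a) / h - (t - a) / h| := by
    intro s t hst
    have : (s - a) / h - (t - a) / h = (s - t) / h := by ring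
    rw [this, abs_div, abs_of_pos hh, le_div_iff₀ hh]
    exact hst
  have lo : ∀ t ∈ S, 0 ≤ (t - a) / h := fun t ht => div_nonneg (by linarith [ht.1.1]) hh.le
  have hi : ∀ t ∈ S, (t - a) / h ≤ 1 := fun t ht => by
    rw [div_le_one hh]; linarith [ht.1.2]
  have val : ∀ t ∈ S, |A * h ^ 2 * ((t - a) / h) ^ 2 + (2 * A * a + B) * h * ((t - a) / h) +
      (A * a ^ 2 + B * a + C)| ≤ ε := by
    intro t ht
    have : A * h ^ 2 * ((t - a) / h) ^ 2 + (2 * A * a + B) * h * ((t - a) / h) +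
      (A * a ^ 2 + B * a + C) = A * t ^ 2 + B * t + C := by field_simp; ring
    rw [this]; exact ht.2.le
  have key := Quad_lag (A * h ^ 2) ((2 * A * a + B) * h) (A * a ^ 2 + B * a + C) _ _ _ l ε hl0
    (lo t1 h1) (hi t1 h1) (lo t2 h2) (hi t2 h2) (lo t3 h3) (hi t3 h3)
    (sep _ _ h12) (sep _ _ h13) (sep _ _ h23) (val t1 h1) (val t2 h2) (val t3 h3)
  rw [abs_mul, abs_mul, abs_of_pos hh, abs_of_pos (pow_pos hh 2)] at key
  have := mul_le_mul_of_nonneg_right hN (sq_nonneg l)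
  nlinarith

lemma dyadic (i : ℕ) (S T : Set ℝ) (κ : ℝ≥0∞) (hS : S ⊆ Ico 1 2)
    (h1 : ∀ j : ℕ, j < 2 ^ i →
      volume (S ∩ Ico (1 + (j : ℝ) / 2 ^ i) (1 + ((j : ℝ) + 1) / 2 ^ i)) ≤
        κ * ENNReal.ofReal (1 / 2 ^ i))
    (h2 : ∀ j : ℕ, j < 2 ^ i →
      (S ∩ Ico (1 + (j : ℝ) / 2 ^ i) (1 + ((j : ℝ) + 1) / 2 ^ i)).Nonempty →
      Ico (1 + (j : ℝ) / 2 ^ i) (1 + ((j : ℝ) + 1) / 2 ^ i) ⊆ T) :
    volume S ≤ κ * volume T := by
  classical
  set I : ℕ → Set ℝ := fun j => Ico (1 + (j : ℝ) / 2 ^ i) (1 + ((j : ℝ) + 1) / 2 ^ i) with hI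
  set J : Finset ℕ := (Finset.range (2 ^ i)).filter fun j => (S ∩ I j).Nonempty with hJ
  have hp : (0 : ℝ) < 2 ^ i := by positivity
  have hcov : S ⊆ ⋃ j ∈ J, S ∩ I j := by
    intro t ht
    obtain ⟨ht1, ht2⟩ := hS ht
    have h0 : 0 ≤ (t - 1) * 2 ^ i := mul_nonneg (by linarith) hp.le
    have hm : t ∈ I ⌊(t - 1) * 2 ^ i⌋₊ := by
      constructor
      · have := Nat.floor_le h0
        rw [← div_le_iff₀ hp] at this
        linarith
      · have := Nat.lt_floor_add_one ((t - 1) * 2 ^ i)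
        rw [← lt_div_iff₀ hp] at this
        linarith
    have hlt : ⌊(t - 1) * 2 ^ i⌋₊ < 2 ^ i := by
      rw [Nat.floor_lt h0]
      push_cast
      nlinarith
    simp only [mem_iUnion]
    exact ⟨_, Finset.mem_filter.2 ⟨Finset.mem_range.2 hlt, t, ht, hm⟩, ht, hm⟩
  have hvol : ∀ j, volume (I j) = ENNReal.ofReal (1 / 2 ^ i) := by
    intro j
    rw [hI]; simp only [Real.volume_Ico]; congr 1; ring
  have hdis : Set.PairwiseDisjoint (J : Set ℕ) I := by
    have aux : ∀ j k : ℕ, j < k → Disjoint (I j) (I k) := by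
      intro j k hjk
      rw [Set.disjoint_left]
      intro t htj htk
      have h3 : ((j : ℝ) + 1) / 2 ^ i ≤ (k : ℝ) / 2 ^ i := by
        apply div_le_div_of_nonneg_right _ hp.le
        exact_mod_cast hjk
      linarith [htj.2, htk.1]
    intro j _ k _ hjk
    rcases lt_or_gt_of_ne hjk with h | h
    · exact aux j k h
    · exact (aux k j h).symm
  have hT : (⋃ j ∈ J, I j) ⊆ T := by
    intro t ht
    simp only [mem_iUnion] at ht
    obtain ⟨j, hj, htj⟩ := ht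
    obtain ⟨hj1, hj2⟩ := Finset.mem_filter.1 hj
    exact h2 j (Finset.mem_range.1 hj1) hj2 htj
  calc volume S ≤ volume (⋃ j ∈ J, S ∩ I j) := measure_mono hcov
    _ ≤ ∑ j ∈ J, volume (S ∩ I j) := measure_biUnion_finset_le _ _
    _ ≤ ∑ j ∈ J, κ * volume (I j) := by
        refine Finset.sum_le_sum fun j hj => ?_
        rw [hvol]
        exact h1 j (Finset.mem_range.1 (Finset.mem_filter.1 hj).1)
    _ = κ * volume (⋃ j ∈ J, I j) := by
        rw [← Finset.mul_sum, measure_biUnion_finset hdis fun j _ => measurableSet_Ico]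
    _ ≤ κ * volume T := mul_le_mul_right (measure_mono hT) κ

/-- Record times. -/
lemma exists_records (a : ℕ → ℝ) (θ θ' : ℝ) (hθ : 0 < θ) (hθ' : θ < θ')
    (ha : ∀ k, (θ ^ k)⁻¹ ≤ a k) : ∃ n : ℕ → ℕ, StrictMono n ∧
      ∀ l i, i ≤ n l → a i ≤ a (n l) * θ' ^ (n l - i) := by
  have hθ2 : 0 < θ' := hθ.trans hθ'
  have hb : Tendsto (fun k => a k * θ' ^ k) atTop atTop := by
    have h1 : 1 < θ' / θ := (one_lt_div hθ).2 hθ'
    refine tendsto_atTop_mono (fun k => ?_) (tendsto_pow_atTop_atTop_of_one_lt h1)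
    rw [div_pow, div_eq_inv_mul]
    exact mul_le_mul_of_nonneg_right (ha k) (by positivity)
  obtain ⟨n, hn, hrec⟩ := extraction_of_frequently_atTop (frequently_high_scores hb)
  refine ⟨n, hn, fun l i hi => ?_⟩
  rcases hi.eq_or_lt with h | h
  · rw [h]; simp
  · have h2 := (hrec l i h).le
    have h3 : θ' ^ n l = θ' ^ (n l - i) * θ' ^ i := by
      rw [← pow_add, Nat.sub_add_cancel hi]
    rw [h3, ← mul_assoc] at h2
    exact le_of_mul_le_mul_right h2 (by positivity)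

end Pool.Agent.MP_7a4cc0_an
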