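import Pool.Agent.MP_7a4cc0_an.Core
import Pool.Agent.MP_7a4cc0_an.Quad

open Matrix MeasureTheory Set Topology Filter
open scoped ENNReal NNReal CompactlySupported

namespace Pool.Agent.MP_7a4cc0_an

/-- The quadratic polynomial attached to a vector. -/
noncomputable def avoidQ (m : V) (t : ℝ) : ℝ := lor m xp * t ^ 2 + lor m ey * t + lor m xm

lemma avoid_Nf_cv (i : ℕ) (t : ℝ) (m : V) : Nf (cv i t) m =
    |lor m xp| / 2 ^ i + |2 * lor m xp * t + lor m ey| + 2 ^ i * |avoidQ m t| := by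
  have h2 : (0 : ℝ) < 2 ^ i := by positivity
  rw [Nf, rho_cv_xp, rho_cv_ey, rho_cv_xm]
  simp only [lor_smul_right, lor_add_right, abs_mul, avoidQ]
  rw [abs_of_pos h2, abs_of_pos (inv_pos.2 h2)]
  congr 2
  · rw [div_eq_inv_mul]
  · congr 1; ring
  · congr 1; ring

lemma avoid_step (i : ℕ) (t : ℝ) (m : V) : Nf (cv i t) m ≤ 2 * Nf (cv (i + 1) t) m := by
  rw [avoid_Nf_cv, avoid_Nf_cv, pow_succ]
  have h2 : (0 : ℝ) < 2 ^ i := by positivity
  have e : |lor m xp| / 2 ^ i = 2 * (|lor m xp| / (2 ^ i * 2)) := by field_simp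
  have h3 := mul_nonneg h2.le (abs_nonneg (avoidQ m t))
  have h4 := abs_nonneg (2 * lor m xp * t + lor m ey)
  rw [e]
  nlinarith

lemma avoid_move (i : ℕ) (t t2 : ℝ) (m : V) (h : |t - t2| ≤ 1 / 2 ^ i) :
    Nf (cv i t) m ≤ 4 * Nf (cv i t2) m := by
  rw [avoid_Nf_cv, avoid_Nf_cv]
  have h2 : (0 : ℝ) < 2 ^ i := by positivity
  set P : ℝ := 2 ^ i with hP
  set A := lor m xp
  set b := 2 * A * t2 + lor m ey with hb
  set s := t - t2 with hs
  have hs1 : P * |s| ≤ 1 := by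
    rw [le_div_iff₀ h2] at h; linarith
  have hs0 := abs_nonneg s
  have hA := abs_nonneg A
  have hb0 := abs_nonneg b
  have e1 : 2 * A * t + lor m ey = b + 2 * A * s := by rw [hb, hs]; ring
  have e2 : avoidQ m t = avoidQ m t2 + b * s + A * s ^ 2 := by
    simp only [avoidQ]; rw [hb, hs]; ring
  have hAs : |A| * |s| ≤ |A| / P := by
    rw [le_div_iff₀ h2]; nlinarith
  have i1 : |b + 2 * A * s| ≤ |b| + 2 * (|A| / P) := by
    refine (abs_add_le _ _).trans ?_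
    rw [abs_mul, abs_mul, abs_two]; nlinarith
  have i2 : P * |avoidQ m t2 + b * s + A * s ^ 2| ≤ P * |avoidQ m t2| + |b| + |A| / P := by
    have a1 : |avoidQ m t2 + b * s + A * s ^ 2| ≤ |avoidQ m t2| + |b| * |s| + |A| * |s| * |s| := by
      refine (abs_add_le _ _).trans ?_
      have := abs_add_le (avoidQ m t2) (b * s)
      rw [abs_mul] at this
      rw [abs_mul, abs_pow, sq, ← mul_assoc]; linarith
    have a2 : P * (|b| * |s|) ≤ |b| := by nlinarith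
    have a3 : P * (|A| * |s| * |s|) ≤ |A| / P := by
      have : P * (|A| * |s| * |s|) = (|A| * |s|) * (P * |s|) := by ring
      rw [this]
      exact (mul_le_of_le_one_right (mul_nonneg hA hs0) hs1).trans hAs
    have a4 := mul_le_mul_of_nonneg_left a1 h2.le
    nlinarith
  rw [e1, e2]
  have h3 := mul_nonneg h2.le (abs_nonneg (avoidQ m t2))
  have h4 : 0 ≤ |A| / P := by positivity
  linarith

lemma avoid_Nf_one (m : V) : Nf 1 m = |(m 1 - m 0) / 2| + |m 2| + |(-m 0 - m 1) / 2| := by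
  simp only [Nf, rho_one, lor, xp, xm, ey]
  simp only [Matrix.cons_val_zero, Matrix.cons_val_one, Matrix.cons_val]
  congr 2
  · congr 1; ring
  · congr 1; ring
  · ring

lemma avoid_norm_le {m : V} (hm : lor m m = 1) {c : ℝ} (h : Nf 1 m ≤ c) : ‖m‖ ≤ 1 + c := by
  rw [avoid_Nf_one] at h
  have a1 := abs_nonneg ((m 1 - m 0) / 2)
  have a2 := abs_nonneg (m 2)
  have a3 := abs_nonneg ((-m 0 - m 1) / 2)
  have b1 := le_abs_self ((m 1 - m 0) / 2)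
  have b2 := neg_abs_le ((m 1 - m 0) / 2)
  have b3 := le_abs_self ((-m 0 - m 1) / 2)
  have b4 := neg_abs_le ((-m 0 - m 1) / 2)
  have hc : 0 ≤ c := by linarith
  have h0 : |m 0| ≤ c := abs_le.2 ⟨by linarith, by linarith⟩
  have h1 : |m 1| ≤ c := abs_le.2 ⟨by linarith, by linarith⟩
  have h2 : |m 2| ≤ c := by linarith
  have h3 : |m 3| ≤ 1 + c := by
    have e : m 0 ^ 2 ≤ c ^ 2 := by
      rw [← sq_abs]; exact pow_le_pow_left₀ (abs_nonneg _) h0 2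
    simp only [lor] at hm
    apply abs_le_of_sq_le_sq _ (by linarith)
    nlinarith [sq_nonneg (m 1), sq_nonneg (m 2)]
  refine (pi_norm_le_iff_of_nonneg (by linarith)).2 fun j => ?_
  rw [Real.norm_eq_abs]
  fin_cases j
  · exact h0.trans (by linarith)
  · exact h1.trans (by linarith)
  · exact h2.trans (by linarith)
  · exact h3

lemma avoid_Nf_pos {m : V} (hm : lor m m = 1) (h1 : m ≠ ez) (h2 : m ≠ -ez) : 0 < Nf 1 m := by
  by_contra hc
  have hc := not_lt.1 hc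
  rw [avoid_Nf_one] at hc
  have a1 := abs_nonneg ((m 1 - m 0) / 2)
  have a2 := abs_nonneg (m 2)
  have a3 := abs_nonneg ((-m 0 - m 1) / 2)
  have e1 : (m 1 - m 0) / 2 = 0 := abs_eq_zero.1 (by linarith)
  have e2 : m 2 = 0 := abs_eq_zero.1 (by linarith)
  have e3 : (-m 0 - m 1) / 2 = 0 := abs_eq_zero.1 (by linarith)
  have f0 : m 0 = 0 := by linarith
  have f1 : m 1 = 0 := by linarith
  simp only [lor, f0, f1, e2] at hm
  have hm' : m 3 * m 3 = 1 := by linarith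
  rcases mul_self_eq_one_iff.1 hm' with h | h
  · apply h1; ext j; fin_cases j <;> simp [ez, f0, f1, e2, h]
  · apply h2; ext j; fin_cases j <;> simp [ez, f0, f1, e2, h]

lemma avoid_cv_zero : cv 0 0 = 1 := by simp [cv]

lemma avoid_theta (S : Set V) (unit : ∀ m ∈ S, lor m m = 1) (hfin : LocFin S)
    (h1 : ez ∉ S) (h2 : -ez ∉ S) : ∃ θ₀ : ℝ, 0 < θ₀ ∧ θ₀ ≤ 1 ∧
      ∀ t ∈ Ico (1 : ℝ) 2, ∀ m ∈ S, θ₀ ≤ Nf (cv 0 t) m := by
  obtain ⟨η, hη, hη1, hle⟩ : ∃ η : ℝ, 0 < η ∧ η ≤ 16 ∧ ∀ m ∈ S, η ≤ Nf 1 m := by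
    have hF := hfin 17
    obtain ⟨η, hη, hle⟩ : ∃ η : ℝ, 0 < η ∧ ∀ m ∈ {m ∈ S | ‖m‖ ≤ 17}, η ≤ Nf 1 m := by
      rcases {m ∈ S | ‖m‖ ≤ 17}.eq_empty_or_nonempty with he | hne
      · exact ⟨1, one_pos, by rw [he]; simp⟩
      · obtain ⟨m0, hm0, hmin⟩ := Set.exists_min_image _ (Nf 1) hF hne
        refine ⟨Nf 1 m0, avoid_Nf_pos (unit m0 hm0.1) ?_ ?_, hmin⟩
        · rintro rfl; exact h1 hm0.1
        · rintro rfl; exact h2 hm0.1
    refine ⟨min η 16, lt_min hη (by norm_num), min_le_right _ _, fun m hm => ?_⟩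
    by_cases hc : Nf 1 m ≤ 16
    · have := avoid_norm_le (unit m hm) hc
      exact (min_le_left _ _).trans (hle m ⟨hm, by linarith⟩)
    · exact (min_le_right _ _).trans (not_le.1 hc).le
  refine ⟨η / 16, by positivity, by linarith, fun t ht m hm => ?_⟩
  have a1 := avoid_move 0 0 1 m (by norm_num)
  have a2 := avoid_move 0 1 t m (by
    rw [abs_le]; constructor <;> norm_num <;> linarith [ht.1, ht.2])
  rw [show cv 0 (0 : ℝ) = 1 from avoid_cv_zero] at a1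
  have := hle m hm
  linarith

lemma avoid_Nf_inv (g : G) (m : V) : Nf 1 (rho g⁻¹ m) = Nf g m := by
  simp only [Nf, rho_one, lor_rho_left, inv_inv]

lemma avoid_count {Γ : Subgroup G} {B : Set V} {R₀ : ℝ} (h : Geo Γ B R₀) (S : Set V)
    (unit : ∀ m ∈ S, lor m m = 1) (inv : ∀ γ ∈ Γ, ∀ m ∈ S, rho γ m ∈ S) (hfin : LocFin S)
    (R : ℝ) : ∃ M₀ : ℕ, ∀ g ∈ KR B R, ∃ T : Finset V, T.card ≤ M₀ ∧
      ∀ m ∈ S, Nf g m ≤ 8 → m ∈ T := by
  classical
  obtain ⟨K, hK, -, hcov⟩ := h.exists_compact R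
  obtain ⟨D, hD, hDle⟩ := exists_norm_rho_le hK
  have hF := hfin (D * 9)
  refine ⟨hF.toFinset.card, fun g hg => ?_⟩
  obtain ⟨γ, hγ, hγg⟩ := hcov g hg
  refine ⟨hF.toFinset.image (rho γ⁻¹), Finset.card_image_le, fun m hm hN => ?_⟩
  refine Finset.mem_image.2 ⟨rho γ m, ?_, rho_inv_rho γ m⟩
  rw [Set.Finite.mem_toFinset]
  refine ⟨inv γ hγ m hm, ?_⟩
  have e : rho γ m = rho (γ * g) (rho g⁻¹ m) := by rw [rho_mul, rho_rho_inv]
  have hn : ‖rho g⁻¹ m‖ ≤ 1 + 8 :=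
    avoid_norm_le (by rw [lor_rho]; exact unit m hm) (by rw [avoid_Nf_inv]; exact hN)
  rw [e]
  exact (hDle _ hγg _).trans (mul_le_mul_of_nonneg_left (by linarith) hD)

lemma avoid_cross (f : ℕ → ℝ) (c : ℝ) (k : ℕ) (h0 : c ≤ f 0) (hk : f k < c) :
    ∃ i < k, c ≤ f i ∧ f (i + 1) < c := by
  induction k with
  | zero => exact absurd hk (not_lt.2 h0)
  | succ k ih =>
    by_cases hc : c ≤ f k
    · exact ⟨k, Nat.lt_succ_self k, hc, hk⟩
    · obtain ⟨i, hi, h⟩ := ih (not_le.1 hc)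
      exact ⟨i, Nat.lt_succ_of_lt hi, h⟩

lemma avoid_sqrt (θ₀ δ : ℝ) (hθ : 0 < θ₀) (hδ : 0 < δ) (i n : ℕ) :
    √(δ ^ 2 / 2 ^ (i + n) / (1 / 2 ^ i * θ₀ / 4)) ≤ 2 * δ * (3 / 4) ^ n / √θ₀ := by
  have hs : 0 < √θ₀ := Real.sqrt_pos.2 hθ
  apply Real.sqrt_le_iff.2
  refine ⟨by positivity, ?_⟩
  have e1 : δ ^ 2 / 2 ^ (i + n) / (1 / 2 ^ i * θ₀ / 4) = 4 * δ ^ 2 / θ₀ * (1 / 2) ^ n := by
    rw [pow_add, _root_.one_div_pow]; field_simp
  have e2 : (2 * δ * (3 / 4) ^ n / √θ₀) ^ 2 = 4 * δ ^ 2 / θ₀ * (9 / 16) ^ n := by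
    rw [div_pow, Real.sq_sqrt hθ.le, mul_pow, mul_pow, ← pow_mul, mul_comm n 2, pow_mul]
    norm_num; ring
  rw [e1, e2]
  exact mul_le_mul_of_nonneg_left (pow_le_pow_left₀ (by norm_num) (by norm_num) n) (by positivity)

/-- The times with a plane at distance about `θ₀` at level `i` and small quadratic value. -/
def avoidA (B S : Set V) (R θ₀ ε : ℝ) (i : ℕ) : Set ℝ :=
  {t | t ∈ Ico (1 : ℝ) 2 ∧ cv i t ∈ KR B R ∧ ∃ m ∈ S, θ₀ ≤ Nf (cv i t) m ∧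
    Nf (cv i t) m ≤ 2 * θ₀ ∧ |avoidQ m t| < ε}

lemma avoid_level {Γ : Subgroup G} {B : Set V} {R₀ : ℝ} (h : Geo Γ B R₀) (S : Set V)
    (R : ℝ) (hR : 0 ≤ R) (M₀ : ℕ) (hM₀ : ∀ g ∈ KR B R, ∃ T : Finset V, T.card ≤ M₀ ∧
      ∀ m ∈ S, Nf g m ≤ 8 → m ∈ T) (θ₀ δ : ℝ) (hθ : 0 < θ₀) (hθ1 : θ₀ ≤ 1) (hδ : 0 < δ)
    (i n : ℕ) :
    volume (avoidA B S R θ₀ (δ ^ 2 / 2 ^ (i + n)) i) ≤
      ENNReal.ofReal (M₀ * (32 * δ * (3 / 4) ^ n / √θ₀)) *
        volume {t : ℝ | t ∈ Ico (1 : ℝ) 2 ∧ cv i t ∈ KR B (R + 1)} := by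
  classical
  have h2 : (0 : ℝ) < 2 ^ i := by positivity
  have hs : 0 < √θ₀ := Real.sqrt_pos.2 hθ
  have hclose : ∀ (j : ℕ) (t t' : ℝ),
      t ∈ Ico (1 + (j : ℝ) / 2 ^ i) (1 + ((j : ℝ) + 1) / 2 ^ i) →
      t' ∈ Ico (1 + (j : ℝ) / 2 ^ i) (1 + ((j : ℝ) + 1) / 2 ^ i) → |t - t'| ≤ 1 / 2 ^ i := by
    intro j t t' ht ht'
    have e : ((j : ℝ) + 1) / 2 ^ i = j / 2 ^ i + 1 / 2 ^ i := add_div _ _ _
    rw [e] at ht ht'
    rw [abs_le]
    constructor <;> linarith [ht.1, ht.2, ht'.1, ht'.2]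
  apply dyadic i
  · exact fun t ht => ht.1
  · intro j _
    rcases (avoidA B S R θ₀ (δ ^ 2 / 2 ^ (i + n)) i ∩
      Ico (1 + (j : ℝ) / 2 ^ i) (1 + ((j : ℝ) + 1) / 2 ^ i)).eq_empty_or_nonempty with he | hne
    · rw [he, measure_empty]; exact zero_le
    obtain ⟨t0, ht0, ht0I⟩ := hne
    obtain ⟨T, hT, hTm⟩ := hM₀ _ ht0.2.1
    set a : ℝ := 1 + (j : ℝ) / 2 ^ i with ha
    have eI : 1 + ((j : ℝ) + 1) / 2 ^ i = a + 1 / 2 ^ i := by rw [ha, add_div]; ring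
    have haI : a ∈ Ico (1 + (j : ℝ) / 2 ^ i) (1 + ((j : ℝ) + 1) / 2 ^ i) := by
      refine ⟨le_rfl, ?_⟩
      rw [eI]
      have : (0 : ℝ) < 1 / 2 ^ i := by positivity
      linarith
    set T' := T.filter (fun m => θ₀ / 4 ≤ Nf (cv i a) m) with hT'
    have hsub : avoidA B S R θ₀ (δ ^ 2 / 2 ^ (i + n)) i ∩
        Ico a (1 + ((j : ℝ) + 1) / 2 ^ i) ⊆ ⋃ m ∈ T', {t : ℝ | t ∈ Ico a (a + 1 / 2 ^ i) ∧
          |lor m xp * t ^ 2 + lor m ey * t + lor m xm| < δ ^ 2 / 2 ^ (i + n)} := by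
      rintro t ⟨⟨-, -, m, hm, b1, b2, b3⟩, htI⟩
      have c1 := avoid_move i t0 t m (hclose j t0 t ht0I htI)
      have c2 := avoid_move i t a m (hclose j t a htI haI)
      refine mem_iUnion₂.2 ⟨m, Finset.mem_filter.2 ⟨hTm m hm (by linarith), by linarith⟩, ?_, b3⟩
      rw [← eI]; exact htI
    refine (measure_mono hsub).trans ((measure_biUnion_finset_le _ _).trans ?_)
    have hone : ∀ m ∈ T', volume {t : ℝ | t ∈ Ico a (a + 1 / 2 ^ i) ∧
          |lor m xp * t ^ 2 + lor m ey * t + lor m xm| < δ ^ 2 / 2 ^ (i + n)} ≤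
        ENNReal.ofReal (32 * δ * (3 / 4) ^ n / √θ₀ * (1 / 2 ^ i)) := by
      intro m hm
      have hm2 := (Finset.mem_filter.1 hm).2
      rw [avoid_Nf_cv] at hm2
      refine (quad_small (lor m xp) (lor m ey) (lor m xm) _ (1 / 2 ^ i * θ₀ / 4) a (1 / 2 ^ i)
        (by positivity) (by positivity) (by positivity) ?_).trans (ENNReal.ofReal_le_ofReal ?_)
      · have e : |lor m xp| * (1 / 2 ^ i) ^ 2 + |2 * lor m xp * a + lor m ey| * (1 / 2 ^ i) +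
            |lor m xp * a ^ 2 + lor m ey * a + lor m xm| = 1 / 2 ^ i *
            (|lor m xp| / 2 ^ i + |2 * lor m xp * a + lor m ey| + 2 ^ i * |avoidQ m a|) := by
          simp only [avoidQ]; field_simp
        rw [e, mul_div_assoc]
        exact mul_le_mul_of_nonneg_left hm2 (by positivity)
      · have := avoid_sqrt θ₀ δ hθ hδ i n
        have h3 : (0 : ℝ) < 1 / 2 ^ i := by positivity
        calc _ ≤ 16 * (1 / 2 ^ i) * (2 * δ * (3 / 4) ^ n / √θ₀) :=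
              mul_le_mul_of_nonneg_left this (by positivity)
          _ = _ := by ring
    refine (Finset.sum_le_card_nsmul _ _ _ hone).trans ?_
    have hc : T'.card ≤ M₀ := (Finset.card_filter_le _ _).trans hT
    rw [nsmul_eq_mul, ← ENNReal.ofReal_mul (by positivity), mul_assoc (M₀ : ℝ),
      ENNReal.ofReal_mul (Nat.cast_nonneg M₀), ENNReal.ofReal_natCast]
    exact mul_le_mul_left (by exact_mod_cast hc) _
  · rintro j hj ⟨t0, ht0, ht0I⟩ t htI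
    have hj' : (j : ℝ) + 1 ≤ 2 ^ i := by exact_mod_cast hj
    have hj0 : (0 : ℝ) ≤ (j : ℝ) / 2 ^ i := by positivity
    have hj1 : ((j : ℝ) + 1) / 2 ^ i ≤ 1 := (div_le_one h2).2 hj'
    refine ⟨⟨by linarith [htI.1], by linarith [htI.2]⟩, ?_⟩
    have e : cv i t = cv i t0 * nz (((t - t0) * 2 ^ i : ℝ) : ℂ) := by
      rw [cv_mul_nz]; congr 1; field_simp; ring
    rw [e]
    refine KR_mono B ?_ (KR_mul_nz h.unit (h.cv_mem_FG i t0) hR ht0.2.1 _)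
    have := hclose j t t0 htI ht0I
    rw [le_div_iff₀ h2] at this
    rw [Complex.norm_real, Real.norm_eq_abs, abs_mul, abs_of_pos h2]
    linarith

lemma avoid_sum (k : ℕ) : ∑ i ∈ Finset.range k, (6 / 7 : ℝ) ^ (k - i) ≤ 6 := by
  induction k with
  | zero => simp
  | succ k ih =>
    have e : ∑ i ∈ Finset.range (k + 1), (6 / 7 : ℝ) ^ (k + 1 - i) =
        6 / 7 * ∑ i ∈ Finset.range k, (6 / 7 : ℝ) ^ (k - i) + 6 / 7 := by
      rw [Finset.sum_range_succ, Finset.mul_sum]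
      congr 1
      · refine Finset.sum_congr rfl fun i hi => ?_
        have := Finset.mem_range.1 hi
        rw [show k + 1 - i = (k - i) + 1 by omega, pow_succ]; ring
      · simp
    rw [e]; linarith

/-- The horocycle pieces spend little of their time in the core near a locally finite family
of planes that does not contain the plane of `H`. -/
theorem avoid {Γ : Subgroup G} {B : Set V} {R₀ : ℝ} (h : Geo Γ B R₀) (S : Set V)
    (unit : ∀ m ∈ S, lor m m = 1) (inv : ∀ γ ∈ Γ, ∀ m ∈ S, rho γ m ∈ S) (hfin : LocFin S)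
    (h1 : ez ∉ S) (h2 : -ez ∉ S) (R : ℝ) (hR : 0 ≤ R) :
    ∃ C : ℝ, 0 ≤ C ∧ ∀ (θ M δ : ℝ) (k : ℕ), 1 ≤ θ → θ ≤ 8 / 7 → 0 ≤ M → 0 < δ →
      (∀ i ≤ k, volume {t : ℝ | t ∈ Ico (1 : ℝ) 2 ∧ cv i t ∈ KR B (R + 1)} ≤
        ENNReal.ofReal (M * θ ^ (k - i))) →
      volume {t : ℝ | t ∈ Ico (1 : ℝ) 2 ∧ cv k t ∈ KR B R ∧ ∃ m ∈ S, Nf (cv k t) m < δ ^ 2} ≤
        ENNReal.ofReal (C * δ * M) := by
  obtain ⟨θ₀, hθ₀, hθ₀1, hlow⟩ := avoid_theta S unit hfin h1 h2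
  obtain ⟨M₀, hM₀⟩ := avoid_count h S unit inv hfin R
  have hs : 0 < √θ₀ := Real.sqrt_pos.2 hθ₀
  refine ⟨(1 + 192 * M₀) / √θ₀, by positivity, fun θ M δ k hθ1 hθ2 hM hδ hyp => ?_⟩
  have hM0 : (0 : ℝ) ≤ M₀ := Nat.cast_nonneg _
  by_cases hc : θ₀ ≤ δ ^ 2
  · have hk := hyp k le_rfl
    rw [Nat.sub_self, pow_zero, mul_one] at hk
    refine (measure_mono ?_).trans (hk.trans (ENNReal.ofReal_le_ofReal ?_))
    · exact fun t ht => ⟨ht.1, KR_mono B (by linarith) ht.2.1⟩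
    · have h3 : √θ₀ ≤ δ := Real.sqrt_le_iff.2 ⟨hδ.le, hc⟩
      have h4 : 1 ≤ (1 + 192 * M₀) / √θ₀ * δ := by
        rw [div_mul_eq_mul_div, le_div_iff₀ hs]; nlinarith
      nlinarith
  have hc := not_le.1 hc
  have hsub : {t : ℝ | t ∈ Ico (1 : ℝ) 2 ∧ cv k t ∈ KR B R ∧ ∃ m ∈ S, Nf (cv k t) m < δ ^ 2} ⊆
      ⋃ i ∈ Finset.range k, avoidA B S R θ₀ (δ ^ 2 / 2 ^ k) i := by
    rintro t ⟨ht, hK, m, hm, hN⟩
    obtain ⟨i, hi, b1, b2⟩ :=
      avoid_cross (fun i => Nf (cv i t) m) θ₀ k (hlow t ht m hm) (hN.trans hc)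
    refine mem_iUnion₂.2 ⟨i, Finset.mem_range.2 hi, ht, ?_, m, hm, b1, ?_, ?_⟩
    · obtain ⟨n, rfl⟩ := Nat.exists_eq_add_of_le hi.le
      rw [← cv_mul_a2 i n t]
      refine KR_mono B ?_ (KR_mul_a2 (h.cv_mem_FG _ t) hK n)
      exact div_le_self hR (one_le_pow₀ (by norm_num))
    · have := avoid_step i t m
      linarith
    · rw [avoid_Nf_cv] at hN
      have a1 : 0 ≤ |lor m xp| / 2 ^ k := by positivity
      have a2 := abs_nonneg (2 * lor m xp * t + lor m ey)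
      rw [lt_div_iff₀ (by positivity)]
      linarith
  refine (measure_mono hsub).trans ((measure_biUnion_finset_le _ _).trans ?_)
  have hone : ∀ i ∈ Finset.range k, volume (avoidA B S R θ₀ (δ ^ 2 / 2 ^ k) i) ≤
      ENNReal.ofReal (M₀ * 32 * δ * M / √θ₀ * (6 / 7) ^ (k - i)) := by
    intro i hi
    have hi' := Finset.mem_range.1 hi
    have hl := avoid_level h S R hR M₀ hM₀ θ₀ δ hθ₀ hθ₀1 hδ i (k - i)
    rw [show i + (k - i) = k by omega] at hl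
    refine hl.trans ((mul_le_mul_right (hyp i hi'.le) _).trans ?_)
    rw [← ENNReal.ofReal_mul (by positivity)]
    refine ENNReal.ofReal_le_ofReal ?_
    have e : M₀ * (32 * δ * (3 / 4) ^ (k - i) / √θ₀) * (M * θ ^ (k - i)) =
        M₀ * 32 * δ * M / √θ₀ * (3 / 4 * θ) ^ (k - i) := by rw [mul_pow]; ring
    rw [e]
    exact mul_le_mul_of_nonneg_left
      (pow_le_pow_left₀ (by linarith) (by linarith) _) (by positivity)
  refine (Finset.sum_le_sum hone).trans ?_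
  rw [← ENNReal.ofReal_sum_of_nonneg (fun i _ => by positivity), ← Finset.mul_sum]
  refine ENNReal.ofReal_le_ofReal ?_
  calc _ ≤ M₀ * 32 * δ * M / √θ₀ * 6 :=
        mul_le_mul_of_nonneg_left (avoid_sum k) (by positivity)
    _ = 192 * M₀ / √θ₀ * δ * M := by ring
    _ ≤ _ := by
        refine mul_le_mul_of_nonneg_right (mul_le_mul_of_nonneg_right ?_ hδ.le) hM
        exact div_le_div_of_nonneg_right (by linarith) hs.le

end Pool.Agent.MP_7a4cc0_an
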