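import Pool.Agent.MP_7a4cc0_an.Defs

/-!
Concrete objects and interfaces for the proof.
`V = R^{1,3}` is the space of Hermitian 2 x 2 matrices, coordinates `(t, x, y, z)`.
-/

open Matrix MeasureTheory Set Topology

namespace Pool.Agent.MP_7a4cc0_an

/-- Minkowski space, coordinates `(t, x, y, z)`; its norm is the sup norm. -/
abbrev V : Type := Fin 4 → ℝ

/-- The Lorentz form. -/
def lor (v w : V) : ℝ := -(v 0 * w 0) + v 1 * w 1 + v 2 * w 2 + v 3 * w 3

lemma lor_comm (v w : V) : lor v w = lor w v := by simp only [lor]; ring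
@[simp] lemma lor_add_left (u v w : V) : lor (u + v) w = lor u w + lor v w := by
  simp only [lor, Pi.add_apply]; ring
@[simp] lemma lor_add_right (u v w : V) : lor u (v + w) = lor u v + lor u w := by
  simp only [lor, Pi.add_apply]; ring
@[simp] lemma lor_sub_left (u v w : V) : lor (u - v) w = lor u w - lor v w := by
  simp only [lor, Pi.sub_apply]; ring
@[simp] lemma lor_sub_right (u v w : V) : lor u (v - w) = lor u v - lor u w := by
  simp only [lor, Pi.sub_apply]; ring
@[simp] lemma lor_neg_left (v w : V) : lor (-v) w = -lor v w := by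
  simp only [lor, Pi.neg_apply]; ring
@[simp] lemma lor_neg_right (v w : V) : lor v (-w) = -lor v w := by
  simp only [lor, Pi.neg_apply]; ring
@[simp] lemma lor_smul_left (c : ℝ) (v w : V) : lor (c • v) w = c * lor v w := by
  simp only [lor, Pi.smul_apply, smul_eq_mul]; ring
@[simp] lemma lor_smul_right (c : ℝ) (v w : V) : lor v (c • w) = c * lor v w := by
  simp only [lor, Pi.smul_apply, smul_eq_mul]; ring
@[simp] lemma lor_zero_left (v : V) : lor 0 v = 0 := by simp [lor]
@[simp] lemma lor_zero_right (v : V) : lor v 0 = 0 := by simp [lor]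

lemma continuous_lor : Continuous fun p : V × V => lor p.1 p.2 := by
  unfold lor; fun_prop

/-- The base point `o` (the identity matrix). -/
def vo : V := ![1, 0, 0, 0]
/-- The null vector `e₁ e₁^*` (the point `∞`). -/
noncomputable def xp : V := ![1 / 2, 1 / 2, 0, 0]
/-- The null vector `e₂ e₂^*` (the point `0`). -/
noncomputable def xm : V := ![1 / 2, -1 / 2, 0, 0]
def ex : V := ![0, 1, 0, 0]
def ey : V := ![0, 0, 1, 0]
/-- The unit normal of the plane of real matrices. -/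
def ez : V := ![0, 0, 0, 1]
/-- The unit normal of the door plane. -/
noncomputable def dd : V := ![0, 0, -3 / 5, 4 / 5]
noncomputable def e2 : V := ![0, 0, 4 / 5, 3 / 5]

/-- Points of hyperbolic space: unit future timelike vectors. -/
def Fut (x : V) : Prop := lor x x = -1 ∧ 0 < x 0
/-- Nonzero future causal vectors. -/
def Cone (y : V) : Prop := lor y y ≤ 0 ∧ 0 < y 0

/-- The Hermitian matrix of a vector. -/
def herm (v : V) : Matrix (Fin 2) (Fin 2) ℂ :=
  !![((v 0 + v 1 : ℝ) : ℂ), ⟨v 2, v 3⟩; ⟨v 2, -v 3⟩, ((v 0 - v 1 : ℝ) : ℂ)]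

/-- Coordinates of a Hermitian matrix. -/
noncomputable def unherm (X : Matrix (Fin 2) (Fin 2) ℂ) : V :=
  ![((X 0 0).re + (X 1 1).re) / 2, ((X 0 0).re - (X 1 1).re) / 2, (X 0 1).re, (X 0 1).im]

lemma unherm_herm (v : V) : unherm (herm v) = v := by
  ext i; fin_cases i <;> simp [unherm, herm]

lemma herm_conjTranspose (v : V) : (herm v)ᴴ = herm v := by
  ext i j; fin_cases i <;> fin_cases j <;> simp [herm, Complex.ext_iff]

lemma herm_unherm {X : Matrix (Fin 2) (Fin 2) ℂ} (h : Xᴴ = X) : herm (unherm X) = X := by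
  have h00 : (X 0 0).im = 0 := by
    have := congrArg Complex.im (congrFun (congrFun h 0) 0)
    simp at this; linarith
  have h11 : (X 1 1).im = 0 := by
    have := congrArg Complex.im (congrFun (congrFun h 1) 1)
    simp at this; linarith
  have h10 : X 1 0 = star (X 0 1) := by
    have := congrFun (congrFun h 1) 0
    simpa using this.symm
  ext i j; fin_cases i <;> fin_cases j <;> simp [unherm, herm, Complex.ext_iff, h00, h11, h10]
  all_goals ring

lemma det_herm (v : V) : (herm v).det = ((-lor v v : ℝ) : ℂ) := by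
  simp [herm, Matrix.det_fin_two, lor, Complex.ext_iff]; ring_nf; simp

lemma herm_add (v w : V) : herm (v + w) = herm v + herm w := by
  ext i j; fin_cases i <;> fin_cases j <;> simp [herm, Complex.ext_iff] <;> ring

lemma herm_smul (c : ℝ) (v : V) : herm (c • v) = (c : ℂ) • herm v := by
  ext i j; fin_cases i <;> fin_cases j <;> simp [herm, Complex.ext_iff] <;> ring

lemma unherm_add (X Y : Matrix (Fin 2) (Fin 2) ℂ) : unherm (X + Y) = unherm X + unherm Y := by
  ext i; fin_cases i <;> simp [unherm] <;> ring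

lemma unherm_smul (c : ℝ) (X : Matrix (Fin 2) (Fin 2) ℂ) :
    unherm ((c : ℂ) • X) = c • unherm X := by
  ext i; fin_cases i <;> simp [unherm] <;> ring

lemma conj_herm_herm (A : Matrix (Fin 2) (Fin 2) ℂ) (v : V) :
    (A * herm v * Aᴴ)ᴴ = A * herm v * Aᴴ := by
  simp [Matrix.conjTranspose_mul, herm_conjTranspose, Matrix.mul_assoc]

/-- The action `X ↦ g X g^*` of `SL(2, C)` on `V`. -/
noncomputable def rhoSL : SL2 →* Module.End ℝ V where
  toFun g :=
    { toFun := fun v => unherm (g.1 * herm v * g.1ᴴ)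
      map_add' := fun v w => by rw [herm_add, Matrix.mul_add, Matrix.add_mul, unherm_add]
      map_smul' := fun c v => by
        rw [herm_smul, Matrix.mul_smul, Matrix.smul_mul, unherm_smul]; rfl }
  map_one' := by
    apply LinearMap.ext; intro v; simp [unherm_herm]
  map_mul' g h := by
    apply LinearMap.ext; intro v
    simp only [LinearMap.coe_mk, AddHom.coe_mk, Module.End.mul_apply]
    rw [herm_unherm (conj_herm_herm h.1 v)]
    simp only [Matrix.SpecialLinearGroup.coe_mul, Matrix.conjTranspose_mul, Matrix.mul_assoc]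

lemma rhoSL_apply (g : SL2) (v : V) : rhoSL g v = unherm (g.1 * herm v * g.1ᴴ) := rfl

lemma herm_rhoSL (g : SL2) (v : V) : herm (rhoSL g v) = g.1 * herm v * g.1ᴴ :=
  herm_unherm (conj_herm_herm g.1 v)

lemma rhoSL_center (g : SL2) (hg : g ∈ Subgroup.center SL2) : rhoSL g = 1 := by
  obtain ⟨r, hr, hrg⟩ := Matrix.SpecialLinearGroup.mem_center_iff.1 hg
  have hr2 : r * r = 1 := by simpa [sq] using hr
  have hrs : r * star r = 1 := by
    rcases mul_self_eq_one_iff.1 hr2 with h | h <;> simp [h]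
  apply LinearMap.ext; intro v
  have : g.1 * herm v * g.1ᴴ = herm v := by
    rw [← hrg, Matrix.scalar_apply, Matrix.diagonal_conjTranspose]
    ext i j
    simp only [Matrix.mul_diagonal, Matrix.diagonal_mul, Pi.star_apply]
    linear_combination herm v i j * hrs
  rw [rhoSL_apply, this, unherm_herm]; rfl

/-- The action of `PSL(2, C)` on `V`. -/
noncomputable def rho : G →* Module.End ℝ V :=
  QuotientGroup.lift (Subgroup.center SL2) rhoSL rhoSL_center

lemma rho_pr (g : SL2) : rho (pr g) = rhoSL g := rfl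

lemma pr_surjective : Function.Surjective pr := QuotientGroup.mk_surjective

lemma pr_mul (g h : SL2) : pr (g * h) = pr g * pr h := rfl

lemma pr_one : pr 1 = 1 := rfl

lemma pr_inv (g : SL2) : pr g⁻¹ = (pr g)⁻¹ := rfl

lemma rho_mul (g h : G) (v : V) : rho (g * h) v = rho g (rho h v) := by
  rw [map_mul]; rfl

@[simp] lemma rho_one (v : V) : rho 1 v = v := by rw [map_one]; rfl

@[simp] lemma rho_inv_rho (g : G) (v : V) : rho g⁻¹ (rho g v) = v := by
  rw [← rho_mul, inv_mul_cancel, rho_one]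

@[simp] lemma rho_rho_inv (g : G) (v : V) : rho g (rho g⁻¹ v) = v := by
  rw [← rho_mul, mul_inv_cancel, rho_one]

lemma lor_rho_self (g : G) (v : V) : lor (rho g v) (rho g v) = lor v v := by
  obtain ⟨g, rfl⟩ := pr_surjective g
  have h := det_herm (rhoSL g v)
  rw [herm_rhoSL, Matrix.det_mul, Matrix.det_mul, Matrix.det_conjTranspose, g.2, det_herm] at h
  simp only [star_one, mul_one, one_mul, Complex.ofReal_inj, neg_inj] at h
  rw [rho_pr]; exact h.symm

@[simp] lemma lor_rho (g : G) (v w : V) : lor (rho g v) (rho g w) = lor v w := by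
  have h := lor_rho_self g (v + w)
  simp only [map_add, lor_add_left, lor_add_right, lor_rho_self] at h
  have h1 := lor_comm (rho g w) (rho g v)
  have h2 := lor_comm w v
  linarith

lemma lor_rho_left (g : G) (v w : V) : lor (rho g v) w = lor v (rho g⁻¹ w) := by
  rw [← lor_rho g v, rho_rho_inv]

lemma lor_rho_right (g : G) (v w : V) : lor v (rho g w) = lor (rho g⁻¹ v) w := by
  rw [← lor_rho g (rho g⁻¹ v), rho_rho_inv]

/-- The element `a_{log 2} = diag(√2, 1/√2)`. -/
noncomputable def a2 : G :=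
  pr ⟨!![((√2 : ℝ) : ℂ), 0; 0, (((√2)⁻¹ : ℝ) : ℂ)], by
    have : (√2 : ℝ) ≠ 0 := by positivity
    simp [Matrix.det_fin_two, this]⟩

/-- The horocycle at height `2^(-k)`. -/
noncomputable def cv (k : ℕ) (t : ℝ) : G := nz t * (a2 ^ k)⁻¹

/-- Klein coordinates of a vector. -/
noncomputable def kl (v : V) : E3 := (v 0)⁻¹ • !₂[v 1, v 2, v 3]

/-- Frames whose base point is at depth at most `R` in every half-space `0 < lor · b`. -/
def KR (B : Set V) (R : ℝ) : Set G := {g | ∀ b ∈ B, lor (rho g vo) b ≤ R}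

/-- Frames whose forward endpoint is outside every open disc `0 < lor · b`. -/
def FG (B : Set V) : Set G := {g | ∀ b ∈ B, lor (rho g xp) b ≤ 0}

/-- Distance, seen from the frame `g`, between the plane `m^⊥` and the plane of `g H`. -/
noncomputable def Nf (g : G) (m : V) : ℝ :=
  |lor m (rho g xp)| + |lor m (rho g ey)| + |lor m (rho g xm)|

/-- Locally finite sets of vectors. -/
def LocFin (S : Set V) : Prop := ∀ C : ℝ, {m ∈ S | ‖m‖ ≤ C}.Finite

/-- The orbit of a vector. -/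
def orb (Γ : Subgroup G) (n : V) : Set V := {m | ∃ γ ∈ Γ, rho γ n = m}

/-- The geometric data of the final group: `B` is the set of normals of the black
half-spaces `0 < lor · b`, the complement of their union being the convex core. -/
structure Geo (Γ : Subgroup G) (B : Set V) (R₀ : ℝ) : Prop where
  nonneg : 0 ≤ R₀
  unit : ∀ b ∈ B, lor b b = 1
  inv : ∀ γ ∈ Γ, ∀ b ∈ B, rho γ b ∈ B
  sep : ∀ b ∈ B, ∀ b' ∈ B, b ≠ b' → lor b b' ≤ -2
  neg : ∀ b ∈ B, lor vo b < 0
  negp : ∀ b ∈ B, lor xp b ≤ 0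
  disc : DiscreteTopology Γ
  cocpt : ∃ C : ℝ, ∀ x, Fut x → (∀ b ∈ B, lor x b ≤ 0) → ∃ γ ∈ Γ, rho γ x 0 ≤ C
  porous : ∀ x, Fut x → ∃ b ∈ B, -R₀ ≤ lor x b

/-- One piece of the hybrid: door normal `d`, group `Gs`, black normals `B`. -/
structure Piece (d : V) (Gs : Subgroup G) (B : Set V) (R₀ : ℝ) : Prop where
  nonneg : 0 ≤ R₀
  unit : ∀ b ∈ B, lor b b = 1
  inv : ∀ g ∈ Gs, ∀ b ∈ B, rho g b ∈ B
  sep : ∀ b ∈ B, ∀ b' ∈ B, b ≠ b' → lor b b' ≤ -2
  sepd : ∀ b ∈ B, lor b d ≤ -2
  neg : ∀ b ∈ B, lor vo b < 0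
  door : ∀ g ∈ Gs, rho g d = d ∨ (lor (rho g d) d ≤ -2 ∧ lor vo (rho g d) < 0)
  disc : ∃ U ∈ 𝓝 (1 : G), ∀ g ∈ Gs, g ∈ U → g = 1
  cocpt : ∃ C : ℝ, ∀ x, Fut x → (∀ b ∈ B, lor x b ≤ 0) → (∀ g ∈ Gs, lor x (rho g d) ≤ 0) →
    ∃ g ∈ Gs, rho g x 0 ≤ C
  porous : ∀ x, Fut x → (∀ b ∈ B, lor x b ≤ 0) → (∀ g ∈ Gs, lor x (rho g d) ≤ 0) →
    ∃ b ∈ B, -R₀ ≤ lor x b

/-- A `Q`-separated family of half-spaces, far from the door `dd`. -/
structure Fam (F : Set V) (Q : ℝ) : Prop where
  unit : ∀ m ∈ F, lor m m = 1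
  sep : ∀ m ∈ F, ∀ m' ∈ F, m ≠ m' → lor m m' ≤ -Q
  sepd : ∀ m ∈ F, lor m dd ≤ -Q
  negp : ∀ m ∈ F, lor xp m < 0

/-- Growth: the horocycle pieces over `[1, 2)` keep measure `θ^(-k)` in the core. -/
def Growth (B : Set V) (θ : ℝ) : Prop :=
  ∀ k : ℕ, ENNReal.ofReal ((θ ^ k)⁻¹) ≤ volume {t : ℝ | t ∈ Ico (1 : ℝ) 2 ∧ cv k t ∈ KR B 0}

/-- The lattice of the form `-7 x₀² + x₁² + x₂² + lam x₃²`. -/
noncomputable def lat (lam : ℕ) (c : Fin 4 → ℤ) : V :=
  ((c 0 : ℝ) * √7) • vo + (c 1 : ℝ) • ex + (c 2 : ℝ) • e2 + ((c 3 : ℝ) * √lam) • dd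

/-- `g` is congruent to the identity modulo `q` on the lattice. -/
def Cong (lam q : ℕ) (g : G) : Prop :=
  ∀ c, ∃ c', rho g (lat lam c) = lat lam c + (q : ℝ) • lat lam c'

lemma lat_add (lam : ℕ) (c c' : Fin 4 → ℤ) : lat lam (c + c') = lat lam c + lat lam c' := by
  simp only [lat, Pi.add_apply, Int.cast_add]; module

lemma lat_nsmul (lam q : ℕ) (c : Fin 4 → ℤ) : lat lam (q • c) = (q : ℝ) • lat lam c := by
  simp only [lat, Pi.smul_apply, nsmul_eq_mul, Int.cast_mul, Int.cast_natCast]; module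

lemma Cong.mul {lam q : ℕ} {g h : G} (hg : Cong lam q g) (hh : Cong lam q h) :
    Cong lam q (g * h) := by
  intro c
  obtain ⟨c1, h1⟩ := hh c
  obtain ⟨c2, h2⟩ := hg c
  obtain ⟨c3, h3⟩ := hg c1
  refine ⟨c2 + c1 + q • c3, ?_⟩
  rw [rho_mul, h1, map_add, map_smul, h2, h3, lat_add, lat_add, lat_nsmul]
  module

/-- The principal congruence subgroup of level `q`. -/
def LL (lam q : ℕ) : Subgroup G where
  carrier := {g | Cong lam q g ∧ Cong lam q g⁻¹}
  mul_mem' := fun {g h} hg hh => ⟨hg.1.mul hh.1, by rw [_root_.mul_inv_rev]; exact hh.2.mul hg.2⟩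
  one_mem' := by
    have : Cong lam q 1 := fun c => ⟨0, by simp [lat]⟩
    exact ⟨this, by rwa [inv_one]⟩
  inv_mem' := fun {g} hg => ⟨hg.2, by rw [inv_inv]; exact hg.1⟩

lemma mem_LL {lam q : ℕ} {g : G} : g ∈ LL lam q ↔ Cong lam q g ∧ Cong lam q g⁻¹ := Iff.rfl

end Pool.Agent.MP_7a4cc0_an
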