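import Pool.Agent.MP_7a4cc0_an.RepTop

open Matrix MeasureTheory Set Topology Filter
open scoped ENNReal NNReal CompactlySupported

namespace Pool.Agent.MP_7a4cc0_an

variable {Γ : Subgroup G}

instance (Γ : Subgroup G) : BorelSpace (Frame Γ) := ⟨rfl⟩
lemma cls_eq_iff {g g' : G} : cls Γ g = cls Γ g' ↔ ∃ γ ∈ Γ, g' = γ * g := by
  constructor
  · intro h
    have h1 : g' * g⁻¹ ∈ Γ := QuotientGroup.rightRel_apply.1 (Quotient.exact h)
    exact ⟨_, h1, by group⟩
  · rintro ⟨γ, hγ, rfl⟩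
    exact Quotient.sound (QuotientGroup.rightRel_apply.2 (by simpa using hγ))
lemma continuous_cls (Γ : Subgroup G) : Continuous (cls Γ) := continuous_quotient_mk'
lemma isOpenMap_cls (Γ : Subgroup G) : IsOpenMap (cls Γ) := by
  intro U hU
  have hq : IsQuotientMap (cls Γ) := isQuotientMap_quotient_mk'
  rw [← hq.isOpen_preimage]
  have : cls Γ ⁻¹' (cls Γ '' U) = ⋃ γ ∈ Γ, (fun g => γ * g) ⁻¹' U := by
    ext g
    simp only [mem_preimage, mem_image, mem_iUnion]
    constructor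
    · rintro ⟨u, hu, h⟩
      obtain ⟨γ, hγ, rfl⟩ := cls_eq_iff.1 h.symm
      exact ⟨γ, hγ, hu⟩
    · rintro ⟨γ, hγ, hu⟩
      exact ⟨_, hu, (cls_eq_iff.2 ⟨γ, hγ, rfl⟩).symm⟩
  rw [this]
  exact isOpen_biUnion fun γ _ => hU.preimage (continuous_const.mul continuous_id)
lemma cls_surjective (Γ : Subgroup G) : Function.Surjective (cls Γ) := Quotient.mk_surjective
lemma isOpenQuotientMap_cls (Γ : Subgroup G) : IsOpenQuotientMap (cls Γ) := 
  ⟨cls_surjective Γ, continuous_cls Γ, isOpenMap_cls Γ⟩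
lemma cls_mul {γ : G} (hγ : γ ∈ Γ) (g : G) : cls Γ (γ * g) = cls Γ g := 
  (cls_eq_iff.2 ⟨γ, hγ, rfl⟩).symm
lemma rmul_cls (h g : G) : rmul h (cls Γ g) = cls Γ (g * h) := rfl
lemma rmul_mul (h h' : G) (x : Frame Γ) : rmul (h * h') x = rmul h' (rmul h x) := by
  obtain ⟨g, rfl⟩ := cls_surjective Γ x
  simp only [rmul_cls, mul_assoc]
@[simp] lemma rmul_one (x : Frame Γ) : rmul 1 x = x := by
  obtain ⟨g, rfl⟩ := cls_surjective Γ x
  simp only [rmul_cls, mul_one]
lemma continuous_rmul (h : G) : Continuous (rmul h : Frame Γ → Frame Γ) := by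
  rw [(isOpenQuotientMap_cls Γ).isQuotientMap.continuous_iff]
  exact (continuous_cls Γ).comp (continuous_id.mul continuous_const)
/-- Right translation as a homeomorphism. -/
def rmulH (Γ : Subgroup G) (h : G) : Frame Γ ≃ₜ Frame Γ where
  toFun := rmul h
  invFun := rmul h⁻¹
  left_inv x := by rw [← rmul_mul, mul_inv_cancel, rmul_one]
  right_inv x := by rw [← rmul_mul, inv_mul_cancel, rmul_one]
  continuous_toFun := continuous_rmul h
  continuous_invFun := continuous_rmul h⁻¹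
@[simp] lemma coe_rmulH (h : G) : ⇑(rmulH Γ h) = rmul h := rfl
instance (Γ : Subgroup G) : SecondCountableTopology (Frame Γ) := 
  (isOpenQuotientMap_cls Γ).isQuotientMap.secondCountableTopology (isOpenMap_cls Γ)
instance (Γ : Subgroup G) : LocallyCompactSpace (Frame Γ) := 
  (isOpenQuotientMap_cls Γ).locallyCompactSpace
lemma t2_frame (h : DiscreteTopology Γ) : T2Space (Frame Γ) := by
  have hc : IsClosed (Γ : Set G) := Subgroup.isClosed_of_discrete
  rw [t2Space_iff_of_isOpenQuotientMap (isOpenQuotientMap_cls Γ)]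
  have : {q : G × G | cls Γ q.1 = cls Γ q.2} = (fun q : G × G => q.2 * q.1⁻¹) ⁻¹' (Γ : Set G) := by
    ext q
    simp only [mem_ofPred_eq, mem_preimage, SetLike.mem_coe, cls_eq_iff]
    constructor
    · rintro ⟨γ, hγ, h⟩; rw [h]; simpa using hγ
    · intro h; exact ⟨_, h, by group⟩
  rw [this]
  exact hc.preimage (continuous_snd.mul continuous_fst.inv)
lemma cls_mem_image_iff {S : Set G} (hS : ∀ γ ∈ Γ, ∀ g ∈ S, γ * g ∈ S) {g : G} :
    cls Γ g ∈ cls Γ '' S ↔ g ∈ S := by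
  constructor
  · rintro ⟨u, hu, h⟩
    obtain ⟨γ, hγ, rfl⟩ := cls_eq_iff.1 h
    exact hS γ hγ u hu
  · intro h; exact ⟨g, h, rfl⟩
lemma isClosed_image_cls {S : Set G} (hS : ∀ γ ∈ Γ, ∀ g ∈ S, γ * g ∈ S) (h : IsClosed S) :
    IsClosed (cls Γ '' S) := by
  rw [← (isOpenQuotientMap_cls Γ).isQuotientMap.isClosed_preimage]
  convert h using 1
  ext g; exact cls_mem_image_iff hS

end Pool.Agent.MP_7a4cc0_an
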