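import Pool.Agent.MP_7a4cc0_an.Lor
import Pool.Agent.MP_7a4cc0_an.Form

open Matrix MeasureTheory Set Topology Filter
open scoped ENNReal NNReal CompactlySupported

namespace Pool.Agent.MP_7a4cc0_an

/-- the null vector of the column `(a, c)` -/
noncomputable def reptrNv (a c : ℂ) : V :=
  ![(Complex.normSq a + Complex.normSq c) / 2, (Complex.normSq a - Complex.normSq c) / 2,
    (a * star c).re, (a * star c).im]

lemma reptr_xp (g : SL2) : rhoSL g xp = reptrNv (g.1 0 0) (g.1 1 0) := by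
  ext i
  fin_cases i <;>
    simp [rhoSL_apply, unherm, herm, xp, reptrNv, Matrix.mul_apply, Fin.sum_univ_two,
      Complex.normSq_apply] <;> ring

lemma reptr_xm (g : SL2) : rhoSL g xm = reptrNv (g.1 0 1) (g.1 1 1) := by
  ext i
  fin_cases i <;>
    simp [rhoSL_apply, unherm, herm, xm, reptrNv, Matrix.mul_apply, Fin.sum_univ_two,
      Complex.normSq_apply] <;> ring

lemma reptr_lor (a c a' c' : ℂ) :
    lor (reptrNv a c) (reptrNv a' c') = -Complex.normSq (a * c' - a' * c) / 2 := by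
  simp [lor, reptrNv, Complex.normSq_apply]
  ring

lemma reptr_scale (a c t : ℂ) (ht : Complex.normSq t = 1) :
    reptrNv (a * t) (c * t) = reptrNv a c := by
  have h : a * t * star (c * t) = a * star c := by
    have := Complex.mul_conj t
    rw [ht] at this
    simp only [star_mul', Complex.star_def]
    push_cast at this
    linear_combination a * (starRingEnd ℂ) c * this
  simp only [reptrNv, h, map_mul, ht, mul_one]

lemma reptr_null {u : V} (h : lor u u = 0) (h0 : 0 < u 0) : ∃ a c, u = reptrNv a c := by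
  simp only [lor] at h
  have h1 : 0 ≤ u 0 + u 1 := by nlinarith [sq_nonneg (u 2), sq_nonneg (u 3)]
  rcases h1.eq_or_lt with h2 | h2
  · have h3 : u 1 = -u 0 := by linarith
    rw [h3] at h
    have h4 : u 2 = 0 := by nlinarith [sq_nonneg (u 2), sq_nonneg (u 3)]
    have h5 : u 3 = 0 := by nlinarith [sq_nonneg (u 2), sq_nonneg (u 3)]
    have h6 := Real.mul_self_sqrt (by linarith : 0 ≤ 2 * u 0)
    refine ⟨0, (√(2 * u 0) : ℝ), ?_⟩
    ext i
    fin_cases i <;> simp [reptrNv, h3, h4, h5, -Real.sqrt_mul, h6] <;> ring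
  · obtain ⟨s, hs, h6⟩ : ∃ s : ℝ, s ≠ 0 ∧ s * s = u 0 + u 1 :=
      ⟨√(u 0 + u 1), (Real.sqrt_pos.2 h2).ne', Real.mul_self_sqrt h1⟩
    have h7 : u 2 / s * (u 2 / s) + u 3 / s * (u 3 / s) = u 0 - u 1 := by
      field_simp
      rw [show s ^ 2 = s * s by ring, h6]
      linarith
    refine ⟨s, ⟨u 2 / s, -(u 3 / s)⟩, ?_⟩
    ext i
    fin_cases i <;> simp [reptrNv, Complex.normSq_apply, h6, h7] <;> field_simp

lemma exists_null {u u' : V} (h : lor u u = 0) (h0 : 0 < u 0) (h' : lor u' u' = 0)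
    (h0' : 0 < u' 0) (hh : lor u u' = -1 / 2) : ∃ g : G, rho g xp = u ∧ rho g xm = u' := by
  obtain ⟨a, c, rfl⟩ := reptr_null h h0
  obtain ⟨a', c', rfl⟩ := reptr_null h' h0'
  rw [reptr_lor] at hh
  have h1 : Complex.normSq (a * c' - a' * c) = 1 := by linarith
  have h2 : a * c' - a' * c ≠ 0 := fun e => by simp [e] at h1
  refine ⟨pr ⟨!![a, a' * (a * c' - a' * c)⁻¹; c, c' * (a * c' - a' * c)⁻¹], ?_⟩, ?_, ?_⟩
  · rw [Matrix.det_fin_two_of]
    field_simp
  · rw [rho_pr, reptr_xp]; rfl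
  · rw [rho_pr, reptr_xm]
    exact reptr_scale _ _ _ (by rw [map_inv₀, h1, inv_one])

lemma reptr_pair {x m : V} (hx : Fut x) (hm : lor m m = 1) (h : lor x m = 0) :
    ∃ g : G, rho g vo = x ∧ rho g (xp - xm) = m := by
  have h' : lor m x = 0 := by rw [lor_comm, h]
  have h1 := hx.1
  have a1 : lor ((1 / 2 : ℝ) • (x + m)) ((1 / 2 : ℝ) • (x + m)) = 0 := by simp [h, h', hm, h1]
  have a2 : lor ((1 / 2 : ℝ) • (x - m)) ((1 / 2 : ℝ) • (x - m)) = 0 := by simp [h, h', hm, h1]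
  obtain ⟨g, g1, g2⟩ := exists_null a1
    (pos_of_lor_neg hx.cone a1.le (by simp [h, h1])) a2
    (pos_of_lor_neg hx.cone a2.le (by simp [h, h1])) (by simp [h, h', hm, h1]; norm_num)
  refine ⟨g, ?_, ?_⟩
  · rw [vo_eq, map_add, g1, g2]; module
  · rw [map_sub, g1, g2]; module

lemma exists_pair {x m : V} (hx : Fut x) (hm : lor m m = 1) (h : lor x m = 0) :
    ∃ g : G, rho g vo = x ∧ rho g ez = m := by
  obtain ⟨g, g1, g2⟩ := reptr_pair hx hm h
  obtain ⟨k, k1, k2⟩ := reptr_pair fut_vo lor_ez_ez lor_vo_ez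
  refine ⟨g * k⁻¹, ?_, ?_⟩
  · rw [rho_mul, show rho k⁻¹ vo = vo by conv_lhs => rw [← k1, rho_inv_rho], g1]
  · rw [rho_mul, ← k2, rho_inv_rho, g2]

lemma exists_fut {x : V} (hx : Fut x) : ∃ g : G, rho g vo = x := by
  have h1 := hx.1
  simp only [lor] at h1
  have h2 : 0 < x 0 * x 0 - x 1 * x 1 := by nlinarith [sq_nonneg (x 2), sq_nonneg (x 3)]
  obtain ⟨s, hs, h6⟩ : ∃ s : ℝ, s ≠ 0 ∧ s * s = x 0 * x 0 - x 1 * x 1 :=
    ⟨√_, (Real.sqrt_pos.2 h2).ne', Real.mul_self_sqrt h2.le⟩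
  obtain ⟨g, hg, -⟩ := exists_pair (m := ![x 1 / s, x 0 / s, 0, 0]) hx
    (by simp [lor]; field_simp; nlinarith) (by simp [lor]; ring)
  exact ⟨g, hg⟩

lemma reptr_neg (g : SL2) : pr (-g) = pr g := by
  have h : pr (-1) = 1 := (QuotientGroup.eq_one_iff _).2
    (Subgroup.mem_center_iff.2 fun k => by simp)
  rw [← neg_one_mul, pr_mul, h, one_mul]

lemma reptr_sq (g : SL2) (h : g.1 0 0 + g.1 1 1 + 2 ≠ 0) : ∃ k : SL2, g = k * k := by
  obtain ⟨s, hs⟩ := IsAlgClosed.exists_pow_nat_eq (g.1 0 0 + g.1 1 1 + 2) two_pos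
  have s0 : s ≠ 0 := fun e => h (by rw [← hs, e]; simp)
  have hd := g.2
  rw [Matrix.det_fin_two] at hd
  refine ⟨⟨!![(g.1 0 0 + 1) / s, g.1 0 1 / s; g.1 1 0 / s, (g.1 1 1 + 1) / s], ?_⟩, ?_⟩
  · rw [Matrix.det_fin_two_of]
    field_simp
    linear_combination hd - hs
  · ext i j
    fin_cases i <;> fin_cases j <;>
      simp [Matrix.mul_apply, Fin.sum_univ_two] <;> field_simp
    · linear_combination g.1 0 0 * hs + hd
    · linear_combination g.1 0 1 * hs
    · linear_combination g.1 1 0 * hs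
    · linear_combination g.1 1 1 * hs + hd

lemma reptr_det (g : G) : 0 ≤ LinearMap.det (rho g : V →ₗ[ℝ] V) := by
  obtain ⟨g, rfl⟩ := pr_surjective g
  have key : ∀ g : SL2, g.1 0 0 + g.1 1 1 + 2 ≠ 0 →
      0 ≤ LinearMap.det (rho (pr g) : V →ₗ[ℝ] V) := by
    intro g h
    obtain ⟨k, rfl⟩ := reptr_sq g h
    rw [pr_mul, map_mul, map_mul]
    exact mul_self_nonneg _
  by_cases h : g.1 0 0 + g.1 1 1 + 2 = 0
  · rw [← reptr_neg]
    refine key _ fun e => ?_
    simp only [Matrix.SpecialLinearGroup.coe_neg, Matrix.neg_apply] at e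
    have : (4 : ℂ) = 0 := by linear_combination h + e
    norm_num at this
  · exact key g h

lemma reptr_rot {α β : ℝ} (h : α * α + β * β = 1) :
    ∃ k : G, ∀ v, rho k v = ![v 0, v 1, α * v 2 - β * v 3, β * v 2 + α * v 3] := by
  obtain ⟨a, ha⟩ := IsAlgClosed.exists_pow_nat_eq (⟨α, β⟩ : ℂ) two_pos
  have h1 : a.re * a.re - a.im * a.im = α := by simpa [pow_two] using congrArg Complex.re ha
  have h2 : a.re * a.im + a.im * a.re = β := by simpa [pow_two] using congrArg Complex.im ha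
  have h3 : a.re * a.re + a.im * a.im = 1 := by
    have : (a.re * a.re + a.im * a.im) ^ 2 = 1 := by rw [← h, ← h1, ← h2]; ring
    exact (pow_eq_one_iff_of_nonneg (by nlinarith) two_ne_zero).1 this
  refine ⟨pr ⟨!![a, 0; 0, star a], ?_⟩, fun v => ?_⟩
  · rw [Matrix.det_fin_two_of]
    simp [Complex.ext_iff, h3, mul_comm]
  · rw [rho_pr]
    ext i
    fin_cases i <;>
      simp [rhoSL_apply, unherm, herm, Matrix.mul_apply, Fin.sum_univ_two]
    · linear_combination v 0 * h3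
    · linear_combination v 1 * h3
    · linear_combination v 2 * h1 - v 3 * h2
    · linear_combination v 3 * h1 + v 2 * h2

lemma reptr_fix (S : V →ₗ[ℝ] V) (hS : ∀ v w, lor (S v) (S w) = lor v w) (h1 : S xp = xp)
    (h2 : S xm = xm) (hd : 0 ≤ LinearMap.det S) : ∃ k : G, ∀ v, rho k v = S v := by
  have p : ∀ v, lor (S v) xp = lor v xp := fun v => by conv_lhs => rw [← h1, hS]
  have m : ∀ v, lor (S v) xm = lor v xm := fun v => by conv_lhs => rw [← h2, hS]
  obtain ⟨α, β, hy⟩ : ∃ α β : ℝ, S ey = α • ey + β • ez :=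
    ⟨_, _, by simpa [p, m] using eq_decomp (S ey)⟩
  obtain ⟨γ, δ, hz⟩ : ∃ α β : ℝ, S ez = α • ey + β • ez :=
    ⟨_, _, by simpa [p, m] using eq_decomp (S ez)⟩
  have a1 := hS ey ey
  have a2 := hS ez ez
  have a3 := hS ey ez
  simp [hy, hz] at a1 a2 a3
  have hv : ∀ v, S v = ![v 0, v 1, α * v 2 + γ * v 3, β * v 2 + δ * v 3] := by
    intro v
    have : v = (v 0 + v 1) • xp + (v 0 - v 1) • xm + v 2 • ey + v 3 • ez := by
      ext i
      fin_cases i <;> simp [xp, xm, ey, ez] <;> ring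
    conv_lhs => rw [this]
    simp only [map_add, map_smul, h1, h2, hy, hz]
    ext i
    fin_cases i <;> simp [xp, xm, ey, ez] <;> ring
  have hM : LinearMap.toMatrix' S = !![1, 0, 0, 0; 0, 1, 0, 0; 0, 0, α, γ; 0, 0, β, δ] := by
    ext i j
    rw [LinearMap.toMatrix'_apply, hv]
    fin_cases i <;> fin_cases j <;> simp
  rw [← LinearMap.det_toMatrix', hM] at hd
  simp [Matrix.det_succ_row_zero, Fin.sum_univ_succ] at hd
  have a4 : α * δ - β * γ = 1 := by
    refine (pow_eq_one_iff_of_nonneg (by linarith) two_ne_zero).1 ?_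
    linear_combination (γ * γ + δ * δ) * a1 + a2 - (α * γ + β * δ) * a3
  have a5 : δ = α := by nlinarith [sq_nonneg (α - δ), sq_nonneg (β + γ)]
  have a6 : γ = -β := by nlinarith [sq_nonneg (α - δ), sq_nonneg (β + γ)]
  obtain ⟨k, hk⟩ := reptr_rot a1
  exact ⟨k, fun v => by rw [hk, hv, a5, a6, neg_mul, sub_eq_add_neg]⟩

lemma exists_lift (T : V →ₗ[ℝ] V) (hT : ∀ v w, lor (T v) (T w) = lor v w) (h0 : 0 < T vo 0)
    (hdet : LinearMap.det T = 1) : ∃ g : G, ∀ v, rho g v = T v := by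
  have hc : Cone (T vo) := ⟨by rw [hT]; simp, h0⟩
  have a1 : lor (T xp) (T xp) = 0 := by rw [hT]; simp
  have a2 : lor (T xm) (T xm) = 0 := by rw [hT]; simp
  obtain ⟨g, g1, g2⟩ := exists_null a1
    (pos_of_lor_neg hc a1.le (by rw [hT, vo_eq]; simp; norm_num)) a2
    (pos_of_lor_neg hc a2.le (by rw [hT, vo_eq]; simp; norm_num)) (by rw [hT]; simp)
  obtain ⟨k, hk⟩ := reptr_fix ((rho g⁻¹ : V →ₗ[ℝ] V) ∘ₗ T) (fun v w => by simp [hT])
    (by simp [← g1]) (by simp [← g2])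
    (by rw [LinearMap.det_comp, hdet, mul_one]; exact reptr_det _)
  exact ⟨g * k, fun v => by rw [rho_mul, hk]; simp⟩

lemma mem_H_iff {g : G} : g ∈ H ↔ rho g ez = ez := by
  constructor
  · rintro ⟨g, hg, rfl⟩
    have hd := g.2
    rw [Matrix.det_fin_two] at hd
    have hd' := congrArg Complex.re hd
    have hg' : ∀ i j, (g.1 i j).im = 0 := hg
    simp [hg'] at hd'
    rw [rho_pr]
    ext i
    fin_cases i <;>
      simp [rhoSL_apply, unherm, herm, ez, Matrix.mul_apply, Fin.sum_univ_two, hg']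
    linarith
  · obtain ⟨g, rfl⟩ := pr_surjective g
    intro h
    have h1 := herm_rhoSL g ez
    rw [← rho_pr, h] at h1
    have e : herm ez = !![0, Complex.I; -Complex.I, 0] := by
      ext i j
      fin_cases i <;> fin_cases j <;> simp [herm, ez, Complex.ext_iff]
    rw [e] at h1
    have a := congrFun (congrFun h1 0) 0
    have b := congrFun (congrFun h1 0) 1
    have c := congrFun (congrFun h1 1) 0
    have d := congrFun (congrFun h1 1) 1
    simp [Matrix.mul_apply, Fin.sum_univ_two] at a b c d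
    have hd := g.2
    rw [Matrix.det_fin_two] at hd
    refine ⟨g, fun i j => Complex.conj_eq_iff_im.1 (mul_left_cancel₀ Complex.I_ne_zero ?_), rfl⟩
    fin_cases i <;> fin_cases j <;> simp only [Fin.zero_eta, Fin.mk_one]
    · linear_combination g.1 0 0 * c - g.1 1 0 * a -
        Complex.I * (starRingEnd ℂ) (g.1 0 0) * hd
    · linear_combination g.1 0 1 * c - g.1 1 1 * a -
        Complex.I * (starRingEnd ℂ) (g.1 0 1) * hd
    · linear_combination g.1 0 0 * d - g.1 1 0 * b -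
        Complex.I * (starRingEnd ℂ) (g.1 1 0) * hd
    · linear_combination g.1 0 1 * d - g.1 1 1 * b -
        Complex.I * (starRingEnd ℂ) (g.1 1 1) * hd

lemma eq_nz_of_fix {g : G} (h1 : rho g xp = xp) (h2 : rho g ez = ez) :
    ∃ τ : ℝ, g = nz τ := by
  obtain ⟨g, hg, rfl⟩ := mem_H_iff.2 h2
  have hg' : ∀ i j, (g.1 i j).im = 0 := hg
  rw [rho_pr, reptr_xp] at h1
  have a := congrFun h1 0
  have b := congrFun h1 1
  simp [reptrNv, xp, Complex.normSq_apply, hg'] at a b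
  have c : (g.1 1 0).re = 0 := by nlinarith
  have hd := g.2
  rw [Matrix.det_fin_two] at hd
  have hd' := congrArg Complex.re hd
  simp [hg', c] at hd'
  have a0 : (g.1 0 0).re * (g.1 0 0).re = 1 := by linarith
  rcases mul_self_eq_one_iff.1 a0 with e | e <;> rw [e] at hd'
  · refine ⟨(g.1 0 1).re, congrArg pr ?_⟩
    ext i j
    fin_cases i <;> fin_cases j <;> simp [Complex.ext_iff, hg', c, e]
    linarith
  · refine ⟨-(g.1 0 1).re, (reptr_neg g).symm.trans (congrArg pr ?_)⟩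
    ext i j
    fin_cases i <;> fin_cases j <;> simp [Complex.ext_iff, hg', c, e]
    linarith

end Pool.Agent.MP_7a4cc0_an
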