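import Pool.Agent.MP_7a4cc0_an.Core
import Pool.Agent.MP_7a4cc0_an.Frame
import Pool.Agent.MP_7a4cc0_an.RepTr

open Matrix MeasureTheory Set Topology Filter
open scoped ENNReal NNReal CompactlySupported

namespace Pool.Agent.MP_7a4cc0_an

lemma closed_mem_orbitH {Γ : Subgroup G} (g g' : G) :
    cls Γ g' ∈ orbitH (cls Γ g) ↔ rho g' ez ∈ orb Γ (rho g ez) := by
  constructor
  · rintro ⟨h, hh, e⟩
    obtain ⟨γ, hγ, rfl⟩ := cls_eq_iff.1 (show cls Γ (g * h) = cls Γ g' from e)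
    exact ⟨γ, hγ, by rw [rho_mul, rho_mul, mem_H_iff.1 hh]⟩
  · rintro ⟨γ, hγ, e⟩
    refine ⟨(γ * g)⁻¹ * g', mem_H_iff.2 (by rw [rho_mul, ← e, ← rho_mul γ, rho_inv_rho]), ?_⟩
    show cls Γ (g * ((γ * g)⁻¹ * g')) = cls Γ g'
    rw [show g * ((γ * g)⁻¹ * g') = γ⁻¹ * g' by group, cls_mul (Γ.inv_mem hγ)]

lemma closed_exists_frame {m : V} (hm : lor m m = 1) {C : ℝ} (hC : ‖m‖ ≤ C) :
    ∃ g : G, rho g vo 0 ≤ 1 + C ^ 2 ∧ rho g ez = m := by
  obtain ⟨h1, h2⟩ := proj_timelike fut_vo hm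
  have h3 : lor (vo - lor vo m • m) (vo - lor vo m • m) < 0 := by
    rw [h1]; nlinarith [sq_nonneg (lor vo m)]
  obtain ⟨g, hg, hg'⟩ := exists_pair (fut_normalize h3 h2) hm (by simp [hm])
  refine ⟨g, ?_, hg'⟩
  have h4 : 1 ≤ √(-lor (vo - lor vo m • m) (vo - lor vo m • m)) := by
    rw [h1, neg_neg]
    exact Real.one_le_sqrt.2 (by nlinarith [sq_nonneg (lor vo m)])
  have h5 : (vo - lor vo m • m) 0 = 1 + m 0 ^ 2 := by
    rw [lor_vo_left]
    simp [vo, sq]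
  have h6 : |m 0| ≤ C := (norm_le_pi_norm m 0).trans hC
  rw [hg, Pi.smul_apply, smul_eq_mul]
  refine (mul_le_of_le_one_left h2.le (inv_le_one_of_one_le₀ h4)).trans ?_
  rw [h5, ← sq_abs]
  have := pow_le_pow_left₀ (abs_nonneg _) h6 2
  linarith

lemma closed_continuous_rho (g : G) : Continuous (rho g : V → V) :=
  LinearMap.continuous_of_finiteDimensional (rho g : V →ₗ[ℝ] V)

theorem locFin_of_isClosed {Γ : Subgroup G} (hΓ : (Γ : Set G).Countable) (g : G)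
    (h : IsClosed (orbitH (cls Γ g))) : LocFin (orb Γ (rho g ez)) := by
  set S := orb Γ (rho g ez) with hS
  have hA : IsClosed {g' : G | rho g' ez ∈ S} := by
    have := h.preimage (continuous_cls Γ)
    rwa [show cls Γ ⁻¹' orbitH (cls Γ g) = {g' : G | rho g' ez ∈ S} from
      Set.ext fun g' => closed_mem_orbitH g g'] at this
  have hT : ∀ C : ℝ, IsCompact {m ∈ S | ‖m‖ ≤ C} := by
    intro C
    have h1 := (((isCompact_bdd (1 + C ^ 2)).inter_right hA).image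
      (continuous_rho_left ez)).inter_right (isClosed_le continuous_norm (continuous_const (y := C)))
    convert h1 using 1
    ext m
    constructor
    · rintro ⟨hm, hC⟩
      have hm1 : lor m m = 1 := by
        obtain ⟨γ, -, rfl⟩ := hm
        simp
      obtain ⟨g', h2, rfl⟩ := closed_exists_frame hm1 hC
      exact ⟨⟨g', ⟨h2, hm⟩, rfl⟩, hC⟩
    · rintro ⟨⟨g', ⟨-, h2⟩, rfl⟩, hC⟩
      exact ⟨h2, hC⟩
  have hcl : IsClosed S := by
    refine closure_subset_iff_isClosed.1 fun m hm => ?_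
    have h1 : m ∈ closure (Metric.ball (0 : V) (‖m‖ + 1) ∩ S) :=
      Metric.isOpen_ball.inter_closure ⟨by simp, hm⟩
    exact (closure_minimal (t := {x ∈ S | ‖x‖ ≤ ‖m‖ + 1})
      (fun x hx => ⟨hx.2, (mem_ball_zero_iff.1 hx.1).le⟩) (hT (‖m‖ + 1)).isClosed h1).1
  have hc : S.Countable := (hΓ.image fun γ => rho γ (rho g ez)).mono fun m hm => hm
  obtain ⟨m₀, ⟨γ₀, hγ₀, rfl⟩, U, hU, hm₀, hU'⟩ : ∃ m₀ ∈ S, ∃ U : Set V, IsOpen U ∧ m₀ ∈ U ∧
      ∀ m ∈ S, m ∈ U → m = m₀ := by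
    have := hc.to_subtype
    have : CompleteSpace S := hcl.completeSpace_coe
    have : Nonempty S := ⟨⟨rho g ez, 1, Γ.one_mem, rho_one _⟩⟩
    obtain ⟨i, x, hx⟩ := nonempty_interior_of_iUnion_of_closed (f := fun i : S => ({i} : Set S))
      (fun _ => isClosed_singleton) (Set.iUnion_of_singleton _)
    obtain ⟨W, hW, hW1, hW2⟩ := mem_interior.1 hx
    obtain ⟨U, hU, rfl⟩ := isOpen_induced_iff.1 hW1
    refine ⟨x.1, x.2, U, hU, hW2, fun m hm hmU => ?_⟩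
    have h1 : (⟨m, hm⟩ : S) = i := hW (show (⟨m, hm⟩ : S) ∈ Subtype.val ⁻¹' U from hmU)
    have h2 : x = i := hW hW2
    rw [h2, ← h1]
  have key : ∀ m ∈ S, ∃ W ∈ 𝓝 m, ∀ m' ∈ S, m' ∈ W → m' = m := by
    rintro m ⟨γ, hγ, rfl⟩
    have e : rho (γ₀ * γ⁻¹) (rho γ (rho g ez)) = rho γ₀ (rho g ez) := by
      rw [rho_mul, rho_inv_rho]
    refine ⟨rho (γ₀ * γ⁻¹) ⁻¹' U, (hU.preimage (closed_continuous_rho _)).mem_nhds
      (by rwa [mem_preimage, e]), ?_⟩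
    rintro m' ⟨γ', hγ', rfl⟩ hm'
    have h1 := hU' _ ⟨γ₀ * γ⁻¹ * γ', Γ.mul_mem (Γ.mul_mem hγ₀ (Γ.inv_mem hγ)) hγ', rho_mul _ _ _⟩ hm'
    rw [← e] at h1
    simpa using congrArg (rho (γ₀ * γ⁻¹)⁻¹) h1
  choose! W hW hW' using key
  intro C
  obtain ⟨t, ht, ht'⟩ := (hT C).elim_nhds_subcover W fun x hx => hW x hx.1
  refine t.finite_toSet.subset fun m hm => ?_
  obtain ⟨x, hx, hmx⟩ := mem_iUnion₂.1 (ht' hm)
  rw [hW' x (ht x hx).1 m hm.1 hmx]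
  exact hx

lemma closed_lin {a b : ℝ} (h : ∀ T : ℝ, ∃ t : ℝ, T ≤ |t| ∧ |a| * |t| ≤ b) : a = 0 := by
  by_contra ha
  have h0 := abs_pos.2 ha
  obtain ⟨t, h1, h2⟩ := h (b / |a| + 1)
  have h3 := mul_le_mul_of_nonneg_left h1 h0.le
  rw [mul_add, mul_div_cancel₀ _ h0.ne'] at h3
  linarith

lemma closed_quad {a b c M : ℝ} (h : ∀ T : ℝ, ∃ t : ℝ, T ≤ |t| ∧ |a * t ^ 2 + b * t + c| ≤ M) :
    a = 0 ∧ b = 0 := by
  have ha : a = 0 := by
    refine closed_lin (b := M + |b| + |c|) fun T => ?_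
    obtain ⟨t, h1, h2⟩ := h (max T 1)
    have h3 : 1 ≤ |t| := (le_max_right _ _).trans h1
    refine ⟨t, (le_max_left _ _).trans h1, le_of_mul_le_mul_right ?_ (zero_lt_one.trans_le h3)⟩
    have h4 : |a * t ^ 2| ≤ |a * t ^ 2 + b * t + c| + |b * t| + |c| := by
      have := abs_sub (a * t ^ 2 + b * t + c) c
      have := abs_sub (a * t ^ 2 + b * t) (b * t)
      simp only [add_sub_cancel_right] at *
      linarith
    rw [abs_mul, abs_mul, abs_pow] at h4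
    have h5 : 0 ≤ M := (abs_nonneg _).trans h2
    nlinarith [abs_nonneg c, abs_nonneg b]
  refine ⟨ha, closed_lin (b := M + |c|) fun T => ?_⟩
  obtain ⟨t, h1, h2⟩ := h T
  refine ⟨t, h1, ?_⟩
  rw [ha, zero_mul, zero_add] at h2
  have := abs_sub (b * t + c) c
  rw [add_sub_cancel_right, abs_mul] at this
  linarith

lemma Geo.closed_fix {Γ : Subgroup G} {B : Set V} {R₀ : ℝ} (h : Geo Γ B R₀) {g : G}
    (hg : g ∈ FG B) (hn : LocFin (orb Γ (rho g ez))) {m : V} (hm0 : lor (rho g ez) m = 0)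
    (hm : ∀ γ ∈ Γ, rho γ (rho g ez) = rho g ez → rho γ m = m) : m = 0 := by
  obtain ⟨R, hR⟩ := h.recur hg
  obtain ⟨K, hK, -, hK'⟩ := h.exists_compact R
  obtain ⟨D, hD, hD'⟩ := exists_norm_rho_le hK
  choose t ht ht' using fun k : ℕ => hR k
  choose γ hγ hγ' using fun k : ℕ => hK' _ (ht' k)
  have h1 : ∀ k, rho (γ k) (rho g ez) ∈ {m ∈ orb Γ (rho g ez) | ‖m‖ ≤ D * ‖ez‖} := by
    intro k
    refine ⟨⟨γ k, hγ k, rfl⟩, ?_⟩
    have := hD' _ (hγ' k) ez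
    rwa [rho_mul, rho_mul, rho_nz_ez, Complex.ofReal_im, mul_zero, zero_smul, add_zero] at this
  have := (hn (D * ‖ez‖)).to_subtype
  obtain ⟨⟨n₁, hn₁⟩, hI⟩ := Finite.exists_infinite_fiber fun k : ℕ =>
    (⟨_, h1 k⟩ : {m ∈ orb Γ (rho g ez) | ‖m‖ ≤ D * ‖ez‖})
  have hI' : {k : ℕ | rho (γ k) (rho g ez) = n₁}.Infinite := by
    refine (Set.infinite_coe_iff.1 hI).mono fun k hk => ?_
    exact congrArg Subtype.val hk
  obtain ⟨k₀, hk₀⟩ := hI'.nonempty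
  have hσ : ∀ k, rho (γ k) (rho g ez) = n₁ → rho ((γ k₀)⁻¹ * γ k) (rho g ez) = rho g ez := by
    intro k hk
    rw [rho_mul, hk, ← show rho (γ k₀) (rho g ez) = n₁ from hk₀, rho_inv_rho]
  have key : ∀ v : V, (∀ k, rho (γ k) (rho g ez) = n₁ → rho ((γ k₀)⁻¹ * γ k) v = v) →
      lor xp (rho g⁻¹ v) = 0 ∧ lor ey (rho g⁻¹ v) = 0 := by
    intro v hv
    refine closed_quad (c := lor xp (rho g⁻¹ v) + lor xm (rho g⁻¹ v))
      (M := 4 * (D * ‖vo‖) * ‖rho (γ k₀) v‖) fun T => ?_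
    obtain ⟨N, hN⟩ := exists_nat_ge T
    obtain ⟨k, hk, hk'⟩ := hI'.exists_gt N
    refine ⟨t k, hN.trans ((Nat.cast_le.2 hk'.le).trans (ht k)), ?_⟩
    have e1 : rho (γ k) v = rho (γ k₀) v := by
      conv_rhs => rw [← hv k hk, rho_mul, rho_rho_inv]
    have h2 := abs_lor_le (rho (γ k * (g * nz (t k))) vo) (rho (γ k₀) v)
    have h3 : lor (rho (γ k * (g * nz (t k))) vo) (rho (γ k₀) v) =
        lor xp (rho g⁻¹ v) * t k ^ 2 + lor ey (rho g⁻¹ v) * t k +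
          (lor xp (rho g⁻¹ v) + lor xm (rho g⁻¹ v)) := by
      rw [← e1, rho_mul, lor_rho, rho_mul, lor_rho_left, rho_nz_vo]
      simp only [lor_add_left, lor_smul_left, Complex.norm_real, Real.norm_eq_abs, sq_abs,
        Complex.ofReal_re, Complex.ofReal_im]
      ring
    rw [h3] at h2
    refine h2.trans ?_
    have := hD' _ (hγ' k) vo
    gcongr
  obtain ⟨a1, a2⟩ := key m fun k hk => hm _ (Γ.mul_mem (Γ.inv_mem (hγ k₀)) (hγ k)) (hσ k hk)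
  have a3 : lor ez (rho g⁻¹ m) = 0 := by rw [← lor_rho_left, hm0]
  have hw := eq_decomp (rho g⁻¹ m)
  rw [lor_comm _ xp, lor_comm _ ey, lor_comm _ ez, a1, a2, a3] at hw
  simp only [mul_zero, zero_smul, add_zero] at hw
  by_cases hc : -2 * lor (rho g⁻¹ m) xm = 0
  · rw [hc, zero_smul] at hw
    simpa using congrArg (rho g) hw
  exfalso
  have hx : rho g xp = (-2 * lor (rho g⁻¹ m) xm)⁻¹ • m := by
    have := congrArg (rho g) hw
    rw [rho_rho_inv, map_smul] at this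
    exact (eq_inv_smul_iff₀ hc).2 this.symm
  have h4 := (key (rho g vo) fun k hk => ?_).1
  · rw [rho_inv_rho, lor_vo_right] at h4
    simp [xp] at h4
  have hΓ := Γ.mul_mem (Γ.inv_mem (hγ k₀)) (hγ k)
  obtain ⟨τ, hτ⟩ := eq_nz_of_fix (g := g⁻¹ * ((γ k₀)⁻¹ * γ k) * g)
    (by rw [rho_mul, rho_mul, hx, map_smul, hm _ hΓ (hσ k hk), ← hx, rho_inv_rho])
    (by rw [rho_mul, rho_mul, hσ k hk, rho_inv_rho])
  have e : g * nz τ * g⁻¹ = (γ k₀)⁻¹ * γ k := by rw [← hτ]; group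
  have h0 := h.no_parab hg (e ▸ hΓ)
  rw [← e, h0]
  simp

/-- The vectors fixed by a set of elements. -/
def closedFix (s : Set G) : Submodule ℝ V where
  carrier := {m | ∀ γ ∈ s, rho γ m = m}
  add_mem' ha hb γ hγ := by rw [map_add, ha γ hγ, hb γ hγ]
  zero_mem' γ _ := map_zero _
  smul_mem' c m hm γ hγ := by rw [map_smul, hm γ hγ]

theorem Geo.countable_planes {Γ : Subgroup G} {B : Set V} {R₀ : ℝ} (h : Geo Γ B R₀) :
    {n : V | LocFin (orb Γ n) ∧ ∃ g ∈ FG B, rho g ez = n}.Countable := by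
  refine ((Set.countable_ofPred_finite_subset h.countable).biUnion
    (t := fun s _ => {n : V | lor n n = 1 ∧ n ∈ closedFix s ∧
      ∀ m ∈ closedFix s, ∃ c : ℝ, m = c • n}) fun s _ => ?_).mono ?_
  · rcases Set.eq_empty_or_nonempty {n : V | lor n n = 1 ∧ n ∈ closedFix s ∧
      ∀ m ∈ closedFix s, ∃ c : ℝ, m = c • n} with e | ⟨n₀, h1, -, h2⟩
    · rw [e]; exact Set.countable_empty
    refine (Set.toFinite {n₀, -n₀}).countable.mono ?_
    rintro n ⟨h3, h4, -⟩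
    obtain ⟨c, rfl⟩ := h2 n h4
    rw [lor_smul_left, lor_smul_right, h1, mul_one] at h3
    rcases mul_self_eq_one_iff.1 h3 with rfl | rfl <;> simp
  · rintro n ⟨hn, g, hg, rfl⟩
    obtain ⟨_, ⟨s, hs, hs', rfl⟩, hmin⟩ := (wellFounded_lt (α := Submodule ℝ V)).has_min
      {W | ∃ s : Set G, s.Finite ∧ (∀ γ ∈ s, γ ∈ Γ ∧ rho γ (rho g ez) = rho g ez) ∧
        closedFix s = W} ⟨_, ∅, Set.finite_empty, fun _ h => h.elim, rfl⟩
    refine mem_iUnion₂.2 ⟨s, ⟨hs, fun γ hγ => (hs' γ hγ).1⟩, by simp,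
      fun γ hγ => (hs' γ hγ).2, fun m hm => ⟨lor (rho g ez) m, sub_eq_zero.1 ?_⟩⟩
    refine h.closed_fix hg hn (by simp) fun γ hγ hγ' => ?_
    have h1 : closedFix (insert γ s) ≤ closedFix s := fun v hv δ hδ => hv δ (Or.inr hδ)
    have h2 := h1.eq_or_lt.resolve_right (hmin _ ⟨insert γ s, hs.insert γ, by
      rintro δ (rfl | hδ)
      exacts [⟨hγ, hγ'⟩, hs' δ hδ], rfl⟩)
    rw [← h2] at hm
    rw [map_sub, map_smul, hγ', hm γ (Or.inl rfl)]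

end Pool.Agent.MP_7a4cc0_an
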