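import Pool.Agent.MP_7a4cc0_an.Arith
import Pool.Agent.MP_7a4cc0_an.RepTr

open Matrix MeasureTheory Set Topology Filter
open scoped ENNReal NNReal CompactlySupported

namespace Pool.Agent.MP_7a4cc0_an

/-- Square matrices of size four. -/
abbrev CocptM (α : Type) : Type := Matrix (Fin 4) (Fin 4) α

lemma cocpt_mink (ε : ℝ) (hε : 0 < ε) : ∃ η : ℝ, 0 < η ∧ ∀ g : CocptM ℝ,
    g.det ≠ 0 → |g.det| ≤ η → ∃ a : Fin 4 → ℤ, a ≠ 0 ∧
      ∀ i, |(g *ᵥ fun j => (a j : ℝ)) i| ≤ ε := by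
  classical
  let B := Pi.basisFun ℝ (Fin 4)
  let μ : Measure (Fin 4 → ℝ) := Measure.addHaar
  have hF : μ (ZSpan.fundamentalDomain B) < ⊤ :=
    (ZSpan.fundamentalDomain_isBounded B).measure_lt_top
  set K := μ (ZSpan.fundamentalDomain B) * 2 ^ Module.finrank ℝ (Fin 4 → ℝ) with hK
  have hK' : K ≠ ⊤ := ENNReal.mul_ne_top hF.ne (ENNReal.pow_ne_top (by simp))
  set c := μ (Metric.closedBall 0 ε) with hc
  have hc0 : c ≠ 0 := (Metric.measure_closedBall_pos μ 0 hε).ne'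
  have hc1 : c ≠ ⊤ := measure_closedBall_lt_top.ne
  have hc2 : 0 < c.toReal := ENNReal.toReal_pos hc0 hc1
  have hk : 0 ≤ K.toReal := ENNReal.toReal_nonneg
  refine ⟨c.toReal / (K.toReal + 1), by positivity, fun g hg0 hg => ?_⟩
  let T := Matrix.toLin' g
  have hT : LinearMap.det T = g.det := LinearMap.det_toLin' g
  have hn : 0 < |g.det| := abs_pos.2 hg0
  have hlt : K < μ (T ⁻¹' Metric.closedBall 0 ε) := by
    rw [Measure.addHaar_preimage_linearMap μ (by rw [hT]; exact hg0), hT, ← hc,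
      ← ENNReal.ofReal_toReal hc1, ← ENNReal.ofReal_mul (abs_nonneg _),
      ← ENNReal.ofReal_toReal hK', abs_inv,
      ENNReal.ofReal_lt_ofReal_iff (by positivity), inv_mul_eq_div, lt_div_iff₀ (by positivity)]
    have h2 : |g.det| * (K.toReal + 1) ≤ c.toReal := (le_div_iff₀ (by positivity)).1 hg
    nlinarith
  have : Countable (Submodule.span ℤ (Set.range B)).toAddSubgroup :=
    inferInstanceAs (Countable (Submodule.span ℤ (Set.range B)))
  obtain ⟨v, hv0, hv⟩ := exists_ne_zero_mem_lattice_of_measure_mul_two_pow_lt_measure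
    (ZSpan.isAddFundamentalDomain' B μ) (s := T ⁻¹' Metric.closedBall 0 ε)
    (fun x hx => by simpa using hx) ((convex_closedBall 0 ε).linear_preimage T) hlt
  have hm := (B.mem_span_iff_repr_mem ℤ (v : Fin 4 → ℝ)).1 v.2
  choose z hz using hm
  have hz' : (v : Fin 4 → ℝ) = fun i => (z i : ℝ) := by
    ext i
    have := hz i
    simp only [B, Pi.basisFun_repr, algebraMap_int_eq, eq_intCast] at this
    exact this.symm
  refine ⟨z, fun h => hv0 (Subtype.ext ?_), fun i => ?_⟩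
  · rw [hz', h]
    ext i
    simp
  · have h1 : ‖T v‖ ≤ ε := by simpa using hv
    rw [← hz']
    exact (norm_le_pi_norm (T v) i).trans h1

/-- The real matrix of an integer matrix. -/
def cocptC (A : CocptM ℤ) : CocptM ℝ := A.map fun z => (z : ℝ)

lemma cocptC_mul (A B : CocptM ℤ) : cocptC (A * B) = cocptC A * cocptC B :=
  Matrix.map_mul (f := Int.castRingHom ℝ)

lemma cocptC_det (A : CocptM ℤ) : (cocptC A).det = (A.det : ℝ) := (Int.cast_det A).symm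

lemma cocptC_mulVec (A : CocptM ℤ) (c : Fin 4 → ℤ) :
    (cocptC A *ᵥ fun i => (c i : ℝ)) = fun i => ((A *ᵥ c) i : ℝ) := by
  ext i
  simp [cocptC, mulVec, dotProduct]

lemma cocpt_many : ∃ L : ℝ, ∀ g : CocptM ℝ, g.det ≠ 0 → |g.det| ≤ 11 →
    (∀ a : Fin 4 → ℤ, (∀ i, |(g *ᵥ fun j => (a j : ℝ)) i| ≤ 3 / 8) → a = 0) →
    ∃ A : CocptM ℤ, A.det ≠ 0 ∧ ∀ i j, |(g * cocptC A) i j| ≤ L := by
  classical
  obtain ⟨η, hη, hm⟩ := cocpt_mink (1 / 8) (by norm_num)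
  refine ⟨2 / η + 1, fun g hg0 hg hs => ?_⟩
  let S : Set (Fin 4 → ℝ) := {u | (∀ i, |u i| ≤ 2 / η + 1) ∧
    ∃ a : Fin 4 → ℤ, u = g *ᵥ fun j => (a j : ℝ)}
  have hS : Submodule.span ℝ S = ⊤ := by
    by_contra hne
    obtain ⟨f, hf0, hf⟩ := Submodule.exists_le_ker_of_lt_top _ (lt_top_iff_ne_top.2 hne)
    let φ₀ : Fin 4 → ℝ := fun i => f (Pi.single i 1)
    have hφ₀ : ∀ u, f u = φ₀ ⬝ᵥ u := by
      intro u
      conv_lhs => rw [pi_eq_sum_univ' u]
      simp only [map_sum, map_smul, smul_eq_mul, φ₀, dotProduct, mul_comm]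
    obtain ⟨j, hj⟩ := Finite.exists_max fun i => |φ₀ i|
    have hj0 : φ₀ j ≠ 0 := by
      intro h0
      refine hf0 (LinearMap.ext fun u => ?_)
      have : φ₀ = 0 := funext fun i => abs_nonpos_iff.1 (by simpa [h0] using hj i)
      rw [hφ₀, this]
      simp
    let φ : Fin 4 → ℝ := (φ₀ j)⁻¹ • φ₀
    have hφj : φ j = 1 := by simp [φ, hj0]
    have hφ : ∀ i, |φ i| ≤ 1 := by
      intro i
      simp only [φ, Pi.smul_apply, smul_eq_mul, abs_mul, abs_inv]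
      rw [inv_mul_le_iff₀ (abs_pos.2 hj0), mul_one]
      exact hj i
    let k : CocptM ℝ := updateRow 1 j ((η / 11) • φ)
    have hk : k.det = η / 11 := by
      have := det_updateRow_sum (1 : CocptM ℝ) j ((η / 11) • φ)
      have e : (∑ l, ((η / 11) • φ) l • (1 : CocptM ℝ) l) = (η / 11) • φ := by
        ext i
        simp only [Finset.sum_apply, Pi.smul_apply, one_apply, smul_eq_mul, mul_ite, mul_one,
          mul_zero, Finset.sum_ite_eq', Finset.mem_univ, if_true]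
      rw [e] at this
      rw [this]
      simp [hφj]
    have hη2 : |η / 11| = η / 11 := abs_of_pos (by positivity)
    obtain ⟨a, hv0, hv1⟩ := hm (k * g)
      (by
        rw [det_mul, hk]
        exact mul_ne_zero (by positivity) hg0)
      (by rw [det_mul, hk, abs_mul, hη2]; nlinarith)
    set u := g *ᵥ fun j => (a j : ℝ) with hu
    rw [← mulVec_mulVec, ← hu] at hv1
    have h1 : ∀ i, i ≠ j → |u i| ≤ 1 / 8 := by
      intro i hi
      have := hv1 i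
      rwa [mulVec, show (fun l => k i l) = (1 : CocptM ℝ) i from updateRow_ne hi,
        show (1 : CocptM ℝ) i ⬝ᵥ u = u i from congrFun (one_mulVec u) i] at this
    have h2 : |φ ⬝ᵥ u| ≤ 11 / 8 / η := by
      have := hv1 j
      simp only [k, mulVec, updateRow_self, smul_dotProduct, smul_eq_mul, abs_mul,
        hη2] at this
      rw [le_div_iff₀ hη]
      linarith
    have h3 : |u j| ≤ |φ ⬝ᵥ u| + 3 / 8 := by
      have e : u j = φ ⬝ᵥ u - ∑ i ∈ Finset.univ.erase j, φ i * u i := by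
        rw [dotProduct, ← Finset.add_sum_erase _ _ (Finset.mem_univ j), hφj]
        ring
      have e2 : |∑ i ∈ Finset.univ.erase j, φ i * u i| ≤ 3 / 8 := by
        refine (Finset.abs_sum_le_sum_abs _ _).trans ?_
        refine (Finset.sum_le_card_nsmul _ _ (1 / 8) fun i hi => ?_).trans ?_
        · rw [abs_mul]
          have := mul_le_mul (hφ i) (h1 i (Finset.ne_of_mem_erase hi)) (abs_nonneg _) zero_le_one
          linarith
        · rw [Finset.card_erase_of_mem (Finset.mem_univ j)]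
          norm_num
      rw [e]
      exact (abs_sub _ _).trans (by linarith)
    have hp : 0 < 2 / η := by positivity
    have hp' : 11 / 8 / η ≤ 2 / η := by gcongr; norm_num
    have huS : u ∈ S := by
      refine ⟨fun i => ?_, a, rfl⟩
      by_cases hi : i = j
      · rw [hi]; linarith
      · linarith [h1 i hi]
    have h4 : φ ⬝ᵥ u = 0 := by
      have : f u = 0 := hf (Submodule.subset_span huS)
      rw [hφ₀] at this
      simp [φ, this]
    rw [h4, abs_zero] at h3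
    refine hv0 (hs a fun i => ?_)
    rw [← hu]
    by_cases hi : i = j
    · rw [hi]; linarith
    · linarith [h1 i hi]
  have h3 : Module.finrank ℝ (Submodule.span ℝ S) = 4 := by rw [hS]; simp
  obtain ⟨u, huS, hli⟩ : ∃ u : Fin 4 → Fin 4 → ℝ, (∀ i, u i ∈ S) ∧ LinearIndependent ℝ u := by
    obtain ⟨f, hf1, -, hf2⟩ := Submodule.exists_fun_fin_finrank_span_eq ℝ S
    exact ⟨f ∘ Fin.cast h3.symm, fun i => hf1 _, hf2.comp _ (Fin.cast_injective _)⟩
  choose hu1 a hv using huS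
  have e : ∀ i j, (g * cocptC (Matrix.of fun i j => a j i)) i j = u j i := by
    intro i j
    rw [hv j]
    rfl
  refine ⟨Matrix.of fun i j => a j i, fun h0 => ?_, fun i j => (e i j).symm ▸ hu1 j i⟩
  have h4 : IsUnit (g * cocptC (Matrix.of fun i j => a j i)) := by
    rw [← linearIndependent_cols_iff_isUnit]
    have : (g * cocptC (Matrix.of fun i j => a j i)).col = u := by
      ext j i
      exact e i j
    rw [this]
    exact hli
  rw [isUnit_iff_isUnit_det, det_mul, cocptC_det, h0, Int.cast_zero, mul_zero] at h4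
  exact not_isUnit_zero h4

/-- The matrix of the lattice basis. -/
noncomputable def cocptP (lam : ℕ) : CocptM ℝ :=
  !![√7, 0, 0, 0; 0, 1, 0, 0; 0, 0, 4 / 5, -3 / 5 * √lam; 0, 0, 3 / 5, 4 / 5 * √lam]

/-- The matrix of the form. -/
def cocptQ (lam : ℕ) : CocptM ℤ := diagonal ![-7, 1, 1, lam]

lemma cocpt_lat (lam : ℕ) (c : Fin 4 → ℤ) : lat lam c = cocptP lam *ᵥ fun i => (c i : ℝ) := by
  ext i
  fin_cases i <;>
    simp [lat, cocptP, vo, ex, e2, dd, mulVec, dotProduct, Fin.sum_univ_four] <;> ring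

lemma cocpt_lor (lam : ℕ) (y z : Fin 4 → ℝ) :
    lor (cocptP lam *ᵥ y) (cocptP lam *ᵥ z) = y ⬝ᵥ cocptC (cocptQ lam) *ᵥ z := by
  have h7 := Real.mul_self_sqrt (by norm_num : (0 : ℝ) ≤ 7)
  have hl := Real.mul_self_sqrt (Nat.cast_nonneg lam : (0 : ℝ) ≤ lam)
  simp [lor, cocptP, cocptC, cocptQ, mulVec, dotProduct, Fin.sum_univ_four, diagonal_apply]
  linear_combination (-(y 0 * z 0)) * h7 + (y 3 * z 3) * hl

lemma cocpt_det (lam : ℕ) : (cocptP lam).det = √7 * √lam := by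
  simp [cocptP, Matrix.det_succ_row_zero, Fin.sum_univ_succ, Fin.succAbove]
  ring

lemma cocpt_det_bounds {lam : ℕ} (hlam : lam = 1 ∨ lam = 17) :
    1 ≤ (cocptP lam).det ∧ (cocptP lam).det ≤ 11 := by
  rw [cocpt_det, ← Real.sqrt_mul (by norm_num)]
  rcases hlam with rfl | rfl
  · exact ⟨Real.le_sqrt_of_sq_le (by norm_num), Real.sqrt_le_iff.2 (by norm_num)⟩
  · exact ⟨Real.le_sqrt_of_sq_le (by norm_num), Real.sqrt_le_iff.2 (by norm_num)⟩

/-- The Gram matrix of an integer frame. -/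
def cocptG (lam : ℕ) (A : CocptM ℤ) : CocptM ℤ := Aᵀ * cocptQ lam * A

lemma cocptG_form (lam : ℕ) (A : CocptM ℤ) (y z : Fin 4 → ℝ) :
    lor (cocptP lam *ᵥ (cocptC A *ᵥ y)) (cocptP lam *ᵥ (cocptC A *ᵥ z)) =
      y ⬝ᵥ cocptC (cocptG lam A) *ᵥ z := by
  rw [cocpt_lor, cocptG, cocptC_mul, cocptC_mul, ← mulVec_mulVec, ← mulVec_mulVec,
    show cocptC Aᵀ = (cocptC A)ᵀ from rfl, dotProduct_mulVec y, vecMul_transpose]

lemma cocpt_frame {lam : ℕ} (hlam : lam = 1 ∨ lam = 17) : ∃ (L : ℝ) (N : ℕ), ∀ x, Fut x →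
    ∃ A : CocptM ℤ, A.det ≠ 0 ∧ |A.det| ≤ N ∧ (∀ i j, |cocptG lam A i j| ≤ N) ∧
      ∀ j, |lor x (cocptP lam *ᵥ (cocptC A *ᵥ Pi.single j 1))| ≤ L := by
  obtain ⟨L, hL⟩ := cocpt_many
  obtain ⟨N, hN⟩ := exists_nat_ge (24 * L ^ 4 + 4 * L ^ 2)
  refine ⟨L, N, fun x hx => ?_⟩
  obtain ⟨g, rfl⟩ := exists_fut hx
  obtain ⟨d1, d2⟩ := cocpt_det_bounds hlam
  let M : CocptM ℝ := LinearMap.toMatrix' (rho g⁻¹ : V →ₗ[ℝ] V) * cocptP lam
  have hM : ∀ y, M *ᵥ y = rho g⁻¹ (cocptP lam *ᵥ y) := fun y => by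
    rw [← mulVec_mulVec, LinearMap.toMatrix'_mulVec]
  have hd : |M.det| = (cocptP lam).det := by
    rw [det_mul, abs_mul, LinearMap.det_toMatrix', abs_det_rho, one_mul,
      abs_of_pos (by linarith)]
  obtain ⟨A, hA, hb⟩ := hL M (abs_pos.1 (by linarith)) (by linarith) fun a ha => by
    refine aniso hlam a ?_
    have h1 := abs_lor_le (M *ᵥ fun j => (a j : ℝ)) (M *ᵥ fun j => (a j : ℝ))
    have h2 : ‖M *ᵥ fun j => (a j : ℝ)‖ ≤ 3 / 8 := (pi_norm_le_iff_of_nonneg (by norm_num)).2 ha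
    have h3 : 4 * ‖M *ᵥ fun j => (a j : ℝ)‖ * ‖M *ᵥ fun j => (a j : ℝ)‖ ≤ 4 * (3 / 8) * (3 / 8) := by
      gcongr
    rw [hM, lor_rho, ← cocpt_lat] at h1
    rw [hM, ← cocpt_lat] at h3
    rw [lor_lat] at h1 ⊢
    have h4 : |-7 * a 0 * a 0 + a 1 * a 1 + a 2 * a 2 + lam * a 3 * a 3| < 1 := by
      rw [← Int.cast_lt (R := ℝ), Int.cast_abs, Int.cast_one]
      linarith
    rw [Int.abs_lt_one_iff.1 h4, Int.cast_zero]
  have L0 : 0 ≤ L := (abs_nonneg _).trans (hb 0 0)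
  have hc : ∀ j i, rho g⁻¹ (cocptP lam *ᵥ (cocptC A *ᵥ Pi.single j 1)) i = (M * cocptC A) i j :=
    fun j i => by rw [← hM, mulVec_mulVec, mulVec_single_one]; rfl
  have hn : ∀ j, ‖rho g⁻¹ (cocptP lam *ᵥ (cocptC A *ᵥ Pi.single j 1))‖ ≤ L := fun j =>
    (pi_norm_le_iff_of_nonneg L0).2 fun i => by rw [hc]; exact hb i j
  refine ⟨A, hA, ?_, fun i j => ?_, fun j => ?_⟩
  · have h1 := Matrix.det_le (abv := AbsoluteValue.abs) hb
    simp only [AbsoluteValue.abs_apply, det_mul, abs_mul, hd, cocptC_det, Fintype.card_fin,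
      nsmul_eq_mul] at h1
    rw [← Int.cast_le (R := ℝ), Int.cast_abs, Int.cast_natCast]
    norm_num [Nat.factorial] at h1
    nlinarith [abs_nonneg (A.det : ℝ), sq_nonneg L]
  · have h1 := abs_lor_le (rho g⁻¹ (cocptP lam *ᵥ (cocptC A *ᵥ Pi.single i 1)))
      (rho g⁻¹ (cocptP lam *ᵥ (cocptC A *ᵥ Pi.single j 1)))
    have h2 := mul_le_mul (hn i) (hn j) (norm_nonneg _) L0
    rw [lor_rho, cocptG_form, mulVec_single_one, single_one_dotProduct] at h1
    rw [← Int.cast_le (R := ℝ), Int.cast_abs, Int.cast_natCast]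
    change |(cocptG lam A i j : ℝ)| ≤ _ at h1
    nlinarith [pow_nonneg L0 4]
  · rw [lor_rho_left, lor_vo_left, abs_neg, hc]
    exact hb 0 j

lemma cocpt_int {q : ℕ} {A A' : CocptM ℤ} (h : ∀ i j, q * A.det ∣ A' i j - A i j) :
    ∃ B : CocptM ℤ, (1 + (q : ℤ) • B) * A = A' := by
  choose b hb using h
  refine ⟨Matrix.of b * A.adjugate, ?_⟩
  rw [Matrix.add_mul, Matrix.one_mul, Matrix.smul_mul, Matrix.mul_assoc, adjugate_mul]
  ext i j
  simp only [Matrix.add_apply, Matrix.mul_smul, Matrix.mul_one, Matrix.smul_apply, of_apply,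
    smul_eq_mul]
  linarith [hb i j]

lemma cocpt_surj {M : CocptM ℝ} (h : M.det ≠ 0) (v : Fin 4 → ℝ) : ∃ y, M *ᵥ y = v :=
  ⟨M⁻¹ *ᵥ v, by rw [mulVec_mulVec, mul_nonsing_inv _ h.isUnit, one_mulVec]⟩

lemma cocpt_cong {lam q : ℕ} {g : G} {B : CocptM ℤ}
    (h : ∀ y, rho g (cocptP lam *ᵥ y) = cocptP lam *ᵥ (cocptC (1 + (q : ℤ) • B) *ᵥ y)) :
    Cong lam q g := fun c => by
  refine ⟨B *ᵥ c, ?_⟩
  rw [cocpt_lat lam c, h, cocptC_mulVec, ← cocpt_lat, ← cocpt_lat, ← lat_nsmul, ← lat_add,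
    add_mulVec, one_mulVec, smul_mulVec, natCast_zsmul]

lemma cocpt_move {lam q : ℕ} (hP : (cocptP lam).det ≠ 0) {A A' : CocptM ℤ} (hA : A.det ≠ 0)
    (hd : A'.det = A.det) (hG : cocptG lam A' = cocptG lam A)
    (h : ∀ i j, q * A.det ∣ A' i j - A i j) {a : Fin 4 → ℝ}
    (ha : a ⬝ᵥ cocptC (cocptG lam A) *ᵥ a < 0)
    (hs : 0 < (cocptP lam *ᵥ (cocptC A' *ᵥ a)) 0 ↔ 0 < (cocptP lam *ᵥ (cocptC A *ᵥ a)) 0) :
    ∃ g ∈ LL lam q, ∀ y, rho g (cocptP lam *ᵥ (cocptC A *ᵥ y)) =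
      cocptP lam *ᵥ (cocptC A' *ᵥ y) := by
  obtain ⟨B, hB⟩ := cocpt_int h
  obtain ⟨B', hB'⟩ := cocpt_int (q := q) (A := A') (A' := A) fun i j => by
    rw [hd]; exact dvd_sub_comm.1 (h i j)
  set T := 1 + (q : ℤ) • B
  set T' := 1 + (q : ℤ) • B'
  have hA' : (cocptC A).det ≠ 0 := by rw [cocptC_det]; exact_mod_cast hA
  have dT : T.det = 1 := by
    have := congrArg Matrix.det hB
    rw [det_mul, hd] at this
    exact mul_right_cancel₀ hA (by rw [this, one_mul])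
  let τ : V →ₗ[ℝ] V := Matrix.toLin' (cocptP lam * cocptC T * (cocptP lam)⁻¹)
  have t1 : ∀ y, τ (cocptP lam *ᵥ y) = cocptP lam *ᵥ (cocptC T *ᵥ y) := fun y => by
    rw [Matrix.toLin'_apply, mulVec_mulVec, nonsing_inv_mul_cancel_right _ _ hP.isUnit,
      mulVec_mulVec]
  have t2 : ∀ y, τ (cocptP lam *ᵥ (cocptC A *ᵥ y)) = cocptP lam *ᵥ (cocptC A' *ᵥ y) := fun y => by
    rw [t1, mulVec_mulVec y (cocptC T), ← cocptC_mul, hB]
  have sj : ∀ v, ∃ y, cocptP lam *ᵥ (cocptC A *ᵥ y) = v := fun v => by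
    obtain ⟨y, rfl⟩ := cocpt_surj hP v
    obtain ⟨z, rfl⟩ := cocpt_surj hA' y
    exact ⟨z, rfl⟩
  have t3 : ∀ v w, lor (τ v) (τ w) = lor v w := fun v w => by
    obtain ⟨y, rfl⟩ := sj v
    obtain ⟨z, rfl⟩ := sj w
    rw [t2, t2, cocptG_form, cocptG_form, hG]
  have t4 : ∀ u : V, lor u u < 0 → 0 < u 0 → 0 < τ u 0 → 0 < τ vo 0 := fun u h1 h2 h3 =>
    pos_of_lor_neg (y := τ u) ⟨by rw [t3]; exact h1.le, h3⟩ (by rw [t3]; simp)
      (by rw [t3, lor_vo_right]; linarith)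
  have t5 : 0 < τ vo 0 := by
    rw [← cocptG_form] at ha
    rw [← t2] at hs
    set u := cocptP lam *ᵥ (cocptC A *ᵥ a)
    rcases lt_or_gt_of_ne (timelike_ne ha) with h1 | h1
    · have h2 : τ u 0 ≠ 0 := timelike_ne (by rw [t3]; exact ha)
      have h3 : τ u 0 < 0 := lt_of_le_of_ne (not_lt.1 fun h => absurd (hs.1 h) h1.not_gt) h2
      exact t4 (-u) (by simpa using ha) (by simpa using h1) (by simpa using h3)
    · exact t4 u ha h1 (hs.2 h1)
  obtain ⟨g, hg⟩ := exists_lift τ t3 t5 (by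
    rw [LinearMap.det_toLin', det_mul, det_mul, cocptC_det, dT, det_nonsing_inv,
      Ring.inverse_eq_inv', Int.cast_one, mul_one, mul_inv_cancel₀ hP])
  refine ⟨g, ⟨cocpt_cong (B := B) fun y => by rw [hg, t1], cocpt_cong (B := B') fun y => ?_⟩,
    fun y => by rw [hg, t2]⟩
  obtain ⟨z, rfl⟩ := cocpt_surj (M := cocptC A') (by rwa [cocptC_det, hd, ← cocptC_det]) y
  rw [← t2, ← hg, rho_inv_rho, mulVec_mulVec z (cocptC T'), ← cocptC_mul, hB']

lemma cocpt_bound {lam : ℕ} (hP : (cocptP lam).det ≠ 0) (L : ℝ) (A : CocptM ℤ) : ∃ C : ℝ,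
    A.det ≠ 0 → ∀ y : V, (∀ j, |lor y (cocptP lam *ᵥ (cocptC A *ᵥ Pi.single j 1))| ≤ L) →
      y 0 ≤ C := by
  by_cases hA : A.det = 0
  · exact ⟨0, fun h => absurd hA h⟩
  obtain ⟨w, hw⟩ := cocpt_surj hP vo
  obtain ⟨b, rfl⟩ := cocpt_surj (M := cocptC A) (by rw [cocptC_det]; exact_mod_cast hA) w
  refine ⟨∑ j, |b j| * L, fun _ y hy => ?_⟩
  have e : lor y vo = ∑ j, b j * lor y (cocptP lam *ᵥ (cocptC A *ᵥ Pi.single j 1)) := by
    rw [← hw]
    conv_lhs => rw [pi_eq_sum_univ' b]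
    simp only [Fin.sum_univ_four, mulVec_add, mulVec_smul, lor_add_right, lor_smul_right]
  rw [lor_vo_right] at e
  have h1 := neg_le_abs (∑ j, b j * lor y (cocptP lam *ᵥ (cocptC A *ᵥ Pi.single j 1)))
  have h2 := (Finset.abs_sum_le_sum_abs
    (fun j => b j * lor y (cocptP lam *ᵥ (cocptC A *ᵥ Pi.single j 1))) Finset.univ).trans
    (Finset.sum_le_sum fun j _ => (abs_mul _ _).le.trans
      (mul_le_mul_of_nonneg_left (hy j) (abs_nonneg (b j))))
  linarith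

lemma cocpt_rep {α β : Type} {S : Set α} (t : α → β) (h : (t '' S).Finite) (f : α → ℝ) :
    ∃ C : ℝ, ∀ a ∈ S, ∃ a' ∈ S, t a' = t a ∧ f a' ≤ C := by
  obtain ⟨S', h1, h2, h3⟩ := Set.Finite.exists_subset_finite_image_eq h (Subset.refl _)
  obtain ⟨C, hC⟩ := (h2.image f).bddAbove
  refine ⟨C, fun a ha => ?_⟩
  obtain ⟨a', k1, k2⟩ : t a ∈ t '' S' := by rw [h3]; exact mem_image_of_mem t ha
  exact ⟨a', h1 k1, k2, hC (mem_image_of_mem f k1)⟩

/-- Congruence subgroups of anisotropic forms are cocompact. -/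
theorem cocpt_LL {lam : ℕ} (hlam : lam = 1 ∨ lam = 17) {q : ℕ} (hq : 3 ≤ q) :
    ∃ C : ℝ, ∀ x, Fut x → ∃ g ∈ LL lam q, rho g x 0 ≤ C := by
  obtain ⟨L, N, hN⟩ := cocpt_frame hlam
  have hP : (cocptP lam).det ≠ 0 := by linarith [(cocpt_det_bounds hlam).1]
  choose f hf using cocpt_bound hP L
  have : NeZero (q * N.factorial) := ⟨mul_ne_zero (by omega) N.factorial_ne_zero⟩
  let av : CocptM ℤ → Fin 4 → ℝ := fun Gr => Classical.epsilon fun a => a ⬝ᵥ cocptC Gr *ᵥ a < 0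
  let t : CocptM ℤ → (CocptM ℤ × ℤ) × CocptM (ZMod (q * N.factorial)) × Prop := fun A =>
    ((cocptG lam A, A.det), A.map fun z => (z : ZMod (q * N.factorial)),
      0 < (cocptP lam *ᵥ (cocptC A *ᵥ av (cocptG lam A))) 0)
  let S : Set (CocptM ℤ) := {A | A.det ≠ 0 ∧ |A.det| ≤ N ∧ ∀ i j, |cocptG lam A i j| ≤ N}
  have hI := Set.finite_Icc (-(N : ℤ)) N
  have hF : {Gr : CocptM ℤ | ∀ i j, Gr i j ∈ Icc (-(N : ℤ)) N}.Finite :=
    Set.Finite.pi' (t := fun _ : Fin 4 => {v : Fin 4 → ℤ | ∀ j, v j ∈ Icc (-(N : ℤ)) N})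
      fun _ => Set.Finite.pi' fun _ => hI
  obtain ⟨C, hC⟩ := cocpt_rep (S := S) t (((hF.prod hI).prod Set.finite_univ).subset (by
    rintro _ ⟨A, hA, rfl⟩
    exact ⟨⟨fun i j => abs_le.1 (hA.2.2 i j), abs_le.1 hA.2.1⟩, trivial⟩)) f
  refine ⟨C, fun x hx => ?_⟩
  obtain ⟨A, a1, a2, a3, a4⟩ := hN x hx
  obtain ⟨A', b1, b2, b3⟩ := hC A ⟨a1, a2, a3⟩
  simp only [t, Prod.mk.injEq] at b2
  obtain ⟨⟨c1, c2⟩, c3, c4⟩ := b2
  rw [c1] at c4
  obtain ⟨g, hg, hg'⟩ := cocpt_move (q := q) hP a1 c2 c1 (a := av (cocptG lam A))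
    (fun i j => by
      have h1 : ((A i j : ℤ) : ZMod (q * N.factorial)) = (A' i j : ℤ) :=
        (congrFun (congrFun c3 i) j).symm
      rw [ZMod.intCast_eq_intCast_iff_dvd_sub] at h1
      refine dvd_trans ?_ h1
      push_cast
      refine mul_dvd_mul_left _ (Int.natAbs_dvd.1 (Int.natCast_dvd_natCast.2 ?_))
      exact Nat.dvd_factorial (Int.natAbs_pos.2 a1)
        (by rw [← Int.natCast_natAbs] at a2; exact_mod_cast a2))
    (by
      refine Classical.epsilon_spec (p := fun a => a ⬝ᵥ cocptC (cocptG lam A) *ᵥ a < 0) ?_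
      obtain ⟨w, hw⟩ := cocpt_surj hP vo
      obtain ⟨b, rfl⟩ := cocpt_surj (M := cocptC A) (by rw [cocptC_det]; exact_mod_cast a1) w
      exact ⟨b, by rw [← cocptG_form, hw]; simp⟩) (iff_of_eq c4)
  refine ⟨g, hg, (hf A' b1.1 _ fun j => ?_).trans b3⟩
  rw [← hg', lor_rho]
  exact a4 j

end Pool.Agent.MP_7a4cc0_an
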