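import Pool.Agent.MP_7a4cc0_an.RepTop
import Pool.Agent.MP_7a4cc0_an.Form

open Matrix MeasureTheory Set Topology Filter
open scoped ENNReal NNReal CompactlySupported

namespace Pool.Agent.MP_7a4cc0_an

variable {Γ : Subgroup G} {B : Set V} {R₀ : ℝ}

lemma Core_cont (v b : V) : Continuous fun g : G => lor (rho g v) b :=
  continuous_lor.comp ((continuous_rho_left v).prodMk continuous_const)

lemma Core_cont0 (v : V) : Continuous fun g : G => rho g v 0 :=
  (continuous_apply 0).comp (continuous_rho_left v)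

lemma Core_decomp (g : G) {b : V} (hb : lor b b = 1) :
    -4 * (lor (rho g xp) b * lor (rho g xm) b) + lor (rho g ey) b ^ 2 + lor (rho g ez) b ^ 2
      = 1 := by
  have h := lor_decomp (rho g⁻¹ b) (rho g⁻¹ b)
  rw [lor_rho, hb] at h
  simp only [lor_rho_left g, lor_comm _ (rho g⁻¹ b)]
  linarith

lemma Core_val (g : G) (w : ℂ) (b : V) : lor (rho (g * nz w) vo) b =
    (1 + ‖w‖ ^ 2) * lor (rho g xp) b + w.re * lor (rho g ey) b + w.im * lor (rho g ez) b
      + lor (rho g xm) b := by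
  rw [rho_mul, rho_nz_vo]
  simp only [map_add, map_smul, lor_add_left, lor_smul_left]

lemma Core_val0 (g : G) (b : V) : lor (rho g vo) b = lor (rho g xp) b + lor (rho g xm) b := by
  rw [vo_eq, map_add, lor_add_left]

lemma Core_valr (g : G) (t : ℝ) (b : V) : lor (rho (g * nz t) vo) b =
    (1 + t ^ 2) * lor (rho g xp) b + t * lor (rho g ey) b + lor (rho g xm) b := by
  rw [Core_val]
  simp

lemma isClosed_KR (B : Set V) (R : ℝ) : IsClosed (KR B R) := by
  have : KR B R = ⋂ b ∈ B, {g : G | lor (rho g vo) b ≤ R} := by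
    ext g; simp [KR]
  rw [this]
  exact isClosed_biInter fun b _ => isClosed_le (Core_cont vo b) continuous_const

lemma isClosed_FG (B : Set V) : IsClosed (FG B) := by
  have : FG B = ⋂ b ∈ B, {g : G | lor (rho g xp) b ≤ 0} := by
    ext g; simp [FG]
  rw [this]
  exact isClosed_biInter fun b _ => isClosed_le (Core_cont xp b) continuous_const

lemma KR_mono (B : Set V) {R R' : ℝ} (h : R ≤ R') : KR B R ⊆ KR B R' :=
  fun _ hg b hb => (hg b hb).trans h

lemma Geo.mul_mem_KR (h : Geo Γ B R₀) {γ : G} (hγ : γ ∈ Γ) {g : G} {R : ℝ} :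
    γ * g ∈ KR B R ↔ g ∈ KR B R := by
  constructor
  · intro hg b hb
    have := hg _ (h.inv γ hγ b hb)
    rwa [rho_mul, lor_rho] at this
  · intro hg b hb
    rw [rho_mul, lor_rho_left]
    exact hg _ (h.inv γ⁻¹ (Γ.inv_mem hγ) b hb)

lemma Geo.mul_mem_FG (h : Geo Γ B R₀) {γ : G} (hγ : γ ∈ Γ) {g : G} :
    γ * g ∈ FG B ↔ g ∈ FG B := by
  constructor
  · intro hg b hb
    have := hg _ (h.inv γ hγ b hb)
    rwa [rho_mul, lor_rho] at this
  · intro hg b hb
    rw [rho_mul, lor_rho_left]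
    exact hg _ (h.inv γ⁻¹ (Γ.inv_mem hγ) b hb)

lemma FG_mul_nz {g : G} (z : ℂ) : g * nz z ∈ FG B ↔ g ∈ FG B := by
  simp only [FG, mem_ofPred_eq, rho_mul, rho_nz_xp]

lemma FG_mul_a2 {g : G} (k : ℕ) : g * a2 ^ k ∈ FG B ↔ g ∈ FG B := by
  have h2 : (0 : ℝ) < 2 ^ k := by positivity
  simp only [FG, mem_ofPred_eq, rho_mul, rho_a2_xp, map_smul, lor_smul_left]
  refine forall₂_congr fun b _ => ⟨fun h => ?_, fun h => mul_nonpos_of_nonneg_of_nonpos h2.le h⟩
  by_contra hc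
  exact absurd h (not_le.2 (mul_pos h2 (not_le.1 hc)))

lemma Geo.cv_mem_FG (h : Geo Γ B R₀) (k : ℕ) (t : ℝ) : cv k t ∈ FG B := by
  intro b hb
  rw [rho_cv_xp, lor_smul_left]
  exact mul_nonpos_of_nonneg_of_nonpos (by positivity) (h.negp b hb)

lemma KR_mul_a2 {g : G} (hg : g ∈ FG B) {R : ℝ} (h : g ∈ KR B R) (k : ℕ) :
    g * a2 ^ k ∈ KR B (R / 2 ^ k) := by
  intro b hb
  have h1 := hg b hb
  have h2 := h b hb
  rw [Core_val0] at h2
  rw [Core_val0, rho_mul, rho_mul, rho_a2_xp, rho_a2_xm, map_smul, map_smul, lor_smul_left,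
    lor_smul_left]
  have h3 : (1 : ℝ) ≤ 2 ^ k := one_le_pow₀ (by norm_num)
  have h4 : (0 : ℝ) < 2 ^ k := by positivity
  rw [le_div_iff₀ h4]
  have h5 : ((2 : ℝ) ^ k * lor (rho g xp) b + (2 ^ k)⁻¹ * lor (rho g xm) b) * 2 ^ k =
      2 ^ k * 2 ^ k * lor (rho g xp) b + lor (rho g xm) b := by field_simp
  rw [h5]
  have h6 : (1 : ℝ) ≤ 2 ^ k * 2 ^ k := by nlinarith
  nlinarith

lemma KR_mul_nz (unit : ∀ b ∈ B, lor b b = 1) {g : G} (hg : g ∈ FG B) {R : ℝ} (hR : 0 ≤ R)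
    (h : g ∈ KR B R) (w : ℂ) : g * nz w ∈ KR B (R + ‖w‖) := by
  intro b hb
  have h1 := hg b hb
  have h2 := h b hb
  have h3 := Core_decomp g (unit b hb)
  rw [Core_val0] at h2
  rw [Core_val]
  generalize lor (rho g xp) b = A at *
  generalize lor (rho g xm) b = C at *
  generalize lor (rho g ey) b = B1 at *
  generalize lor (rho g ez) b = B2 at *
  have hw : ‖w‖ ^ 2 = w.re ^ 2 + w.im ^ 2 := by
    rw [Complex.sq_norm, Complex.normSq_apply]; ring
  have hr : 0 ≤ ‖w‖ := norm_nonneg w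
  generalize ‖w‖ = r at *
  have hcs : (w.re * B1 + w.im * B2) ^ 2 ≤ r ^ 2 * (1 + 4 * (A * C)) := by
    have : 1 + 4 * (A * C) = B1 ^ 2 + B2 ^ 2 := by linarith
    rw [this, hw]
    nlinarith [sq_nonneg (w.re * B2 - w.im * B1)]
  have hA : r ^ 2 * A ≤ 0 := mul_nonpos_of_nonneg_of_nonpos (sq_nonneg r) h1
  rcases le_total 0 C with hC | hC
  · have hAC : A * C ≤ 0 := mul_nonpos_of_nonpos_of_nonneg h1 hC
    have : (w.re * B1 + w.im * B2) ^ 2 ≤ r ^ 2 := by nlinarith [sq_nonneg r]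
    have := (abs_le.1 (abs_le_of_sq_le_sq' this hr |> abs_le.2)).2
    nlinarith
  · have h0 : 0 ≤ -(r ^ 2 * A) - C := by linarith
    have : (w.re * B1 + w.im * B2) ^ 2 ≤ (r + (-(r ^ 2 * A) - C)) ^ 2 := by
      nlinarith [sq_nonneg (r ^ 2 * A - C), mul_nonneg hr h0]
    have := (abs_le_of_sq_le_sq' this (by linarith)).2
    nlinarith

lemma Geo.plane (h : Geo Γ B R₀) {b b' : V} (hb : b ∈ B) (hb' : b' ∈ B) (hne : b ≠ b') {y : V}
    (hy : Cone y) (h0 : 0 ≤ lor y b) : lor y b' < 0 :=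
  lor_sep (h.unit b' hb') (h.unit b hb) (by linarith [h.sep b' hb' b hb hne.symm]) fut_vo.cone
    (h.neg b' hb') (h.neg b hb).le hy h0

lemma Geo.locFin (h : Geo Γ B R₀) : LocFin B := by
  refine locFin_of_sep h.unit fun m hm m' hm' => ?_
  by_cases hne : m = m'
  · exact Or.inl hne.symm
  · have := h.sep m hm m' hm' hne
    exact Or.inr (Or.inr (le_abs.2 (Or.inr (by linarith))))

lemma Geo.mem_KR (h : Geo Γ B R₀) (g : G) : g ∈ KR B (rho g vo 0) := by
  intro b hb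
  have hy := rho_fut g fut_vo
  have h1 := hy.one_le
  rcases le_total (lor (rho g vo) b) 0 with h0 | h0
  · linarith
  · have := lor_dist (m := -b) hy fut_vo (by simpa using h.unit b hb) (by simpa using h0)
      (by simpa using (h.neg b hb).le)
    rw [lor_neg_right, lor_vo_right] at this
    nlinarith

lemma Geo.finite_near (h : Geo Γ B R₀) (C : ℝ) :
    {b ∈ B | ∃ x, Fut x ∧ x 0 ≤ C ∧ 0 ≤ lor x b}.Finite := by
  obtain ⟨D, hD⟩ := norm_le_of_lor 1 1 C
  refine (h.locFin D).subset ?_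
  rintro b ⟨hb, x, hx, hxC, hxb⟩
  refine ⟨hb, hD vo b fut_vo (by simp [vo]) (by rw [h.unit b hb]; simp) ?_⟩
  have h1 := lor_dist fut_vo hx (h.unit b hb) (h.neg b hb).le hxb
  rw [lor_vo_left x] at h1
  have h2 := hx.one_le
  refine abs_le_of_sq_le_sq ?_ (by linarith)
  nlinarith

lemma Geo.KR_subset_interior (h : Geo Γ B R₀) {R : ℝ} (hR : 0 ≤ R) :
    KR B R ⊆ interior (KR B (R + 1)) := by
  intro g hg
  rw [mem_interior_iff_mem_nhds]
  have hF := h.finite_near (rho g vo 0 + 1)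
  have h1 : ∀ᶠ g' in 𝓝 g, rho g' vo 0 < rho g vo 0 + 1 :=
    (Core_cont0 vo).continuousAt.eventually_lt continuousAt_const (by linarith)
  have h2 : ∀ᶠ g' in 𝓝 g, ∀ b ∈ {b ∈ B | ∃ x, Fut x ∧ x 0 ≤ rho g vo 0 + 1 ∧ 0 ≤ lor x b},
      lor (rho g' vo) b < R + 1 := by
    rw [eventually_all_finite hF]
    intro b hb
    exact (Core_cont vo b).continuousAt.eventually_lt continuousAt_const
      (by linarith [hg b hb.1])
  filter_upwards [h1, h2] with g' a1 a2 b hb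
  rcases le_total 0 (lor (rho g' vo) b) with h0 | h0
  · exact (a2 b ⟨hb, _, rho_fut g' fut_vo, a1.le, h0⟩).le
  · linarith

lemma Geo.subset_KR (h : Geo Γ B R₀) {K : Set G} (hK : IsCompact K) :
    ∃ R : ℝ, 0 ≤ R ∧ K ⊆ KR B R := by
  obtain ⟨R, hR⟩ := hK.bddAbove_image (Core_cont0 vo).continuousOn
  refine ⟨max R 0, le_max_right _ _, fun g hg => ?_⟩
  exact KR_mono B ((hR (mem_image_of_mem _ hg)).trans (le_max_left _ _)) (h.mem_KR g)

lemma Geo.exists_bdd (h : Geo Γ B R₀) (R : ℝ) : ∃ C : ℝ, ∀ x, Fut x →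
    (∀ b ∈ B, lor x b ≤ R) → ∃ γ ∈ Γ, rho γ x 0 ≤ C := by
  obtain ⟨C, hC⟩ := h.cocpt
  refine ⟨max C (2 * C * (1 + R ^ 2)), fun x hx hR => ?_⟩
  by_cases hall : ∀ b ∈ B, lor x b ≤ 0
  · obtain ⟨γ, hγ, h1⟩ := hC x hx hall
    exact ⟨γ, hγ, h1.trans (le_max_left _ _)⟩
  · push Not at hall
    obtain ⟨b, hb, hs⟩ := hall
    have hbb := h.unit b hb
    obtain ⟨p1, p2⟩ := proj_timelike hx hbb
    have hsR := hR b hb
    have hxx := hx.1
    generalize hsdef : lor x b = s at *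
    have hy := fut_normalize (y := x - s • b) (by rw [p1]; nlinarith) p2
    rw [p1, neg_neg] at hy
    have hq : 1 ≤ √(1 + s ^ 2) := Real.one_le_sqrt.2 (by nlinarith)
    have hqi : (√(1 + s ^ 2))⁻¹ ≤ 1 := inv_le_one_of_one_le₀ hq
    have hqp : 0 < (√(1 + s ^ 2))⁻¹ := by positivity
    generalize (√(1 + s ^ 2))⁻¹ = c at *
    have hyb : lor (c • (x - s • b)) b = 0 := by
      simp only [lor_smul_left, lor_sub_left, hsdef, hbb]; ring
    obtain ⟨γ, hγ, h1⟩ := hC _ hy fun b' hb' => by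
      by_cases hne : b = b'
      · rw [← hne]; exact hyb.le
      · exact (h.plane hb hb' hne hy.cone hyb.ge).le
    refine ⟨γ, hγ, le_trans ?_ (le_max_right _ _)⟩
    have h2 := (rho_fut γ hx).zero_le (rho_fut γ hy)
    have h3 := (rho_fut γ hy).one_le
    rw [lor_rho] at h2
    have h4 : -lor x (c • (x - s • b)) = c * (1 + s ^ 2) := by
      simp only [lor_smul_right, lor_sub_right, hsdef, hxx]; ring
    rw [h4] at h2
    have h5 : c * (1 + s ^ 2) ≤ 1 + R ^ 2 := by nlinarith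
    refine h2.trans ?_
    have h6 : 0 ≤ c * (1 + s ^ 2) := by positivity
    exact mul_le_mul (by linarith) h5 h6 (by linarith)

lemma Geo.exists_compact (h : Geo Γ B R₀) (R : ℝ) :
    ∃ K : Set G, IsCompact K ∧ K ⊆ KR B R ∧ ∀ g ∈ KR B R, ∃ γ ∈ Γ, γ * g ∈ K := by
  obtain ⟨C, hC⟩ := h.exists_bdd R
  refine ⟨{g : G | rho g vo 0 ≤ C} ∩ KR B R, (isCompact_bdd C).inter_right (isClosed_KR B R),
    inter_subset_right, fun g hg => ?_⟩
  obtain ⟨γ, hγ, h1⟩ := hC _ (rho_fut g fut_vo) hg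
  exact ⟨γ, hγ, by rwa [mem_ofPred_eq, rho_mul], (h.mul_mem_KR hγ).2 hg⟩

lemma Geo.eventually_mem_KR (h : Geo Γ B R₀) {g : G} (hg : g ∈ FG B) {R : ℝ} (hR : 0 < R) :
    ∀ᶠ k : ℕ in atTop, g * a2 ^ k ∈ KR B R := by
  have h1 : Tendsto (fun k : ℕ => rho g vo 0 / 2 ^ k) atTop (𝓝 0) :=
    tendsto_const_nhds.div_atTop (tendsto_pow_atTop_atTop_of_one_lt (by norm_num))
  filter_upwards [h1.eventually_lt tendsto_const_nhds hR] with k hk
  exact KR_mono B hk.le (KR_mul_a2 hg (h.mem_KR g) k)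

lemma Core_quad {A B C T : ℝ} (hA : A ≤ 0) (h : ∀ t, T ≤ t → 0 < (1 + t ^ 2) * A + t * B + C) :
    A = 0 ∧ 0 ≤ B := by
  have hA0 : A = 0 := by
    by_contra hne
    have hA' : 0 < -A := by
      rcases hA.lt_or_eq with h1 | h1
      · linarith
      · exact absurd h1 hne
    obtain ⟨t, h1, h2, h3⟩ : ∃ t : ℝ, T ≤ t ∧ 1 ≤ t ∧ (|B| + |C|) / -A ≤ t :=
      ⟨max T (max 1 ((|B| + |C|) / -A)), le_max_left _ _,
        (le_max_left _ _).trans (le_max_right _ _), (le_max_right _ _).trans (le_max_right _ _)⟩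
    rw [div_le_iff₀ hA'] at h3
    have h4 := h t h1
    have h5 := le_abs_self B
    have h6 := le_abs_self C
    have h7 := abs_nonneg C
    have h8 : t * B ≤ t * |B| := mul_le_mul_of_nonneg_left h5 (by linarith)
    have h9 : t * (|B| + |C|) ≤ t * (t * -A) := mul_le_mul_of_nonneg_left h3 (by linarith)
    nlinarith
  refine ⟨hA0, ?_⟩
  by_contra hB
  have hB' : 0 < -B := by linarith [not_le.1 hB]
  have h3 : C / -B ≤ max T (C / -B) := le_max_right _ _
  rw [div_le_iff₀ hB'] at h3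
  have h4 := h _ (le_max_left T (C / -B))
  rw [hA0] at h4
  nlinarith

lemma Core_stay (h : Geo Γ B R₀) {g : G} {T : ℝ}
    (hT : ∀ t : ℝ, T ≤ |t| → g * nz t ∉ KR B 0) {b : V} (hb : b ∈ B) {s t : ℝ}
    (hs : ∀ u ∈ uIcc s t, T ≤ |u|) (h0 : 0 < lor (rho (g * nz s) vo) b) :
    0 < lor (rho (g * nz t) vo) b := by
  by_contra hc
  have hcont : Continuous fun u : ℝ => lor (rho (g * nz u) vo) b := by
    simp only [Core_valr]; fun_prop
  have : (0 : ℝ) ∈ uIcc (lor (rho (g * nz s) vo) b) (lor (rho (g * nz t) vo) b) :=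
    mem_uIcc.2 (Or.inr ⟨not_lt.1 hc, h0.le⟩)
  obtain ⟨u, hu, hu0⟩ := intermediate_value_uIcc hcont.continuousOn this
  apply hT u (hs u hu)
  intro b' hb'
  by_cases hne : b = b'
  · rw [← hne]; exact hu0.le
  · exact (h.plane hb hb' hne (rho_fut _ fut_vo).cone hu0.ge).le

/-- Every horocycle based in the limit set comes back to a fixed neighbourhood of the core. -/
lemma Geo.recur (h : Geo Γ B R₀) {g : G} (hg : g ∈ FG B) :
    ∃ R : ℝ, ∀ T : ℝ, ∃ t : ℝ, T ≤ |t| ∧ g * nz t ∈ KR B R := by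
  by_cases h0 : ∀ T : ℝ, ∃ t : ℝ, T ≤ |t| ∧ g * nz t ∈ KR B 0
  · exact ⟨0, h0⟩
  push Not at h0
  obtain ⟨T, hT⟩ := h0
  have hex : ∀ t : ℝ, T ≤ |t| → ∃ b ∈ B, 0 < lor (rho (g * nz t) vo) b := fun t ht => by
    have := hT t ht
    simp only [KR, mem_ofPred_eq] at this
    push Not at this
    exact this
  have hTa := le_abs_self T
  have hT0 := abs_nonneg T
  obtain ⟨b1, hb1, p1⟩ := hex |T| (by rwa [abs_abs])
  obtain ⟨b2, hb2, p2⟩ := hex (-|T|) (by rwa [abs_neg, abs_abs])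
  have q1 := Core_quad (B := lor (rho g ey) b1) (C := lor (rho g xm) b1) (T := |T|)
    (hg b1 hb1) fun t ht => by
      rw [← Core_valr]
      refine Core_stay h hT hb1 (fun u hu => ?_) p1
      rw [uIcc_of_le ht] at hu
      exact hTa.trans (hu.1.trans (le_abs_self u))
  have q2 := Core_quad (B := -lor (rho g ey) b2) (C := lor (rho g xm) b2) (T := |T|)
    (hg b2 hb2) fun t ht => by
      have := Core_stay h hT hb2 (s := -|T|) (t := -t) (fun u hu => by
        rw [uIcc_of_ge (by linarith)] at hu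
        have := neg_le_abs u
        linarith [hu.2]) p2
      rw [Core_valr] at this
      linarith
  have hb12 : b1 = b2 := by
    by_contra hne
    have a1 := abs_lor_null_le (rho_cone g cone_xp) (h.unit b1 hb1) (h.unit b2 hb2) q1.1 q2.1
    have a2 := h.sep b1 hb1 b2 hb2 hne
    linarith [(abs_le.1 a1).1]
  subst hb12
  have hB : lor (rho g ey) b1 = 0 := by linarith [q1.2, q2.2]
  have hval : ∀ t : ℝ, lor (rho (g * nz t) vo) b1 = lor (rho g xm) b1 := fun t => by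
    rw [Core_valr, q1.1, hB]; ring
  rw [hval] at p1
  refine ⟨lor (rho g xm) b1, fun T' => ⟨T', le_abs_self _, fun b' hb' => ?_⟩⟩
  by_cases hne : b1 = b'
  · rw [← hne, hval]
  · have := h.plane hb1 hb' hne (rho_fut (g * nz T') fut_vo).cone (by rw [hval]; exact p1.le)
    linarith

lemma Geo.no_parab (h : Geo Γ B R₀) {g : G} (hg : g ∈ FG B) {τ : ℝ}
    (hτ : g * nz τ * g⁻¹ ∈ Γ) : τ = 0 := by
  obtain ⟨K, hK, -, hKc⟩ := h.exists_compact 1
  have hd := h.disc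
  have hU : ∃ U : Set G, IsOpen U ∧ (1 : G) ∈ U ∧ ∀ γ ∈ Γ, γ ∈ U → γ = 1 := by
    have : IsOpen ({1} : Set Γ) := isOpen_discrete _
    obtain ⟨U, hU, hU1⟩ := isOpen_induced_iff.1 this
    refine ⟨U, hU, ?_, fun γ hγ hγU => ?_⟩
    · have : (1 : Γ) ∈ Subtype.val ⁻¹' U := by rw [hU1]; rfl
      exact this
    · have : (⟨γ, hγ⟩ : Γ) ∈ Subtype.val ⁻¹' U := hγU
      rw [hU1] at this
      exact congrArg Subtype.val this
  obtain ⟨U, hU, hU1, hUΓ⟩ := hU
  have htube : ∀ᶠ z : ℂ in 𝓝 0, ∀ κ ∈ K, κ * nz z * κ⁻¹ ∈ U := by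
    refine hK.eventually_forall_of_forall_eventually fun κ _ => ?_
    have hc : Continuous fun p : ℂ × G => p.2 * nz p.1 * p.2⁻¹ :=
      (continuous_snd.mul (continuous_nz.comp continuous_fst)).mul continuous_snd.inv
    exact hc.continuousAt.preimage_mem_nhds (hU.mem_nhds (by simpa using hU1))
  have h1 : Tendsto (fun k : ℕ => (τ : ℂ) / 2 ^ k) atTop (𝓝 0) := by
    have a : Tendsto (fun k : ℕ => τ / 2 ^ k) atTop (𝓝 0) :=
      tendsto_const_nhds.div_atTop (tendsto_pow_atTop_atTop_of_one_lt (by norm_num))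
    have b := (Complex.continuous_ofReal.tendsto 0).comp a
    simpa [Function.comp_def] using b
  obtain ⟨k, hk1, hk2⟩ := ((h1.eventually htube).and (h.eventually_mem_KR hg one_pos)).exists
  obtain ⟨γ, hγ, hγK⟩ := hKc _ hk2
  have e : γ * (g * a2 ^ k) * nz ((τ : ℂ) / 2 ^ k) * (γ * (g * a2 ^ k))⁻¹ =
      γ * (g * nz τ * g⁻¹) * γ⁻¹ := by
    have := nz_mul_a2 (τ : ℂ) k
    calc γ * (g * a2 ^ k) * nz ((τ : ℂ) / 2 ^ k) * (γ * (g * a2 ^ k))⁻¹
        = γ * g * (a2 ^ k * nz ((τ : ℂ) / 2 ^ k)) * (γ * (g * a2 ^ k))⁻¹ := by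
          simp only [mul_assoc]
      _ = γ * (g * nz τ * g⁻¹) * γ⁻¹ := by rw [← this]; group
  have h2 := hUΓ _ (by rw [e]; exact Γ.mul_mem (Γ.mul_mem hγ hτ) (Γ.inv_mem hγ)) (hk1 _ hγK)
  have h3 : nz ((τ : ℂ) / 2 ^ k) = 1 := by
    have := mul_inv_eq_one.1 h2
    simpa using this
  have h4 := nz_eq_one h3
  simpa using h4

lemma Geo.countable (h : Geo Γ B R₀) : (Γ : Set G).Countable := by
  have hd := h.disc
  have : Countable Γ := TopologicalSpace.separableSpace_iff_countable.1 inferInstance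
  exact Set.countable_coe_iff.1 this


end Pool.Agent.MP_7a4cc0_an
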