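import Mathlib

/-!
Definitions used in the statement for MP_7a4cc0_an.
Hyperbolic 3-space is the Klein (projective) ball: geodesics are chords, geodesic planes are
flat discs, and hyperbolic convex hulls are Euclidean convex hulls.
-/

open Matrix MeasureTheory

namespace Pool.Agent.MP_7a4cc0_an

/-- `SL(2, C)`. -/
abbrev SL2 : Type := Matrix.SpecialLinearGroup (Fin 2) ℂ

/-- `G = PSL(2, C)` with the quotient topology. -/
abbrev G : Type := Matrix.ProjectiveSpecialLinearGroup (Fin 2) ℂ

/-- Euclidean 3-space; its open unit ball is the Klein model of hyperbolic 3-space. -/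
abbrev E3 : Type := EuclideanSpace ℝ (Fin 3)

/-- The projection `SL(2, C) → PSL(2, C)`. -/
def pr (g : SL2) : G := QuotientGroup.mk g

/-- Klein coordinates `(x, y, z) / t` of the Hermitian matrix `[[t + x, y + i z], [y - i z, t - x]]`. -/
noncomputable def klein (X : Matrix (Fin 2) (Fin 2) ℂ) : E3 :=
  (X 0 0 + X 1 1).re⁻¹ • !₂[(X 0 0 - X 1 1).re, 2 * (X 0 1).re, 2 * (X 0 1).im]

/-- The point `g o` of hyperbolic space, `o` the centre of the ball (`X = g g^*`). -/
noncomputable def pt (g : SL2) : E3 := klein (g.1 * g.1ᴴ)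

/-- The boundary point `g^+ = g(∞)` on the unit sphere (`X = (g e₁)(g e₁)^*`). -/
noncomputable def plus (g : SL2) : E3 :=
  klein (Matrix.vecMulVec (fun i => g.1 i 0) (fun i => star (g.1 i 0)))

/-- The limit set: accumulation points on the unit sphere of the orbit `Γ o`. -/
def limitSet (Γ : Subgroup G) : Set E3 :=
  closure (pt '' {g | pr g ∈ Γ}) ∩ Metric.sphere 0 1

/-- The hyperbolic convex hull of the limit set; the convex core is its quotient by `Γ`. -/
def hull (Γ : Subgroup G) : Set E3 := convexHull ℝ (limitSet Γ) ∩ Metric.ball 0 1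

/-- `Γ` is torsion-free, discrete and convex cocompact, and the convex core has nonempty
interior and totally geodesic boundary. -/
structure RigidAcylindrical (Γ : Subgroup G) : Prop where
  torsionFree : ∀ γ ∈ Γ, IsOfFinOrder γ → γ = 1
  discrete : DiscreteTopology Γ
  cocompact : ∃ K : Set G, IsCompact K ∧
    ∀ g : SL2, pt g ∈ hull Γ → ∃ γ ∈ Γ, γ * pr g ∈ K
  interior_nonempty : (interior (hull Γ)).Nonempty
  geodesic_boundary : ∀ p ∈ frontier (hull Γ) ∩ Metric.ball 0 1, ∃ (n : E3) (c : ℝ),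
    n ≠ 0 ∧ inner ℝ n p = c ∧
      ∀ p' ∈ Metric.ball (0 : E3) 1, inner ℝ n p' = c → p' ∈ frontier (hull Γ)

/-- The frame bundle `Γ \ G` (right cosets `Γ g`). -/
def Frame (Γ : Subgroup G) : Type := Quotient (QuotientGroup.rightRel Γ)

/-- The quotient topology. -/
instance (Γ : Subgroup G) : TopologicalSpace (Frame Γ) :=
  inferInstanceAs (TopologicalSpace (Quotient (QuotientGroup.rightRel Γ)))

/-- The Borel sigma-algebra. -/
instance (Γ : Subgroup G) : MeasurableSpace (Frame Γ) := borel (Frame Γ)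

/-- The coset `[g] = Γ g`. -/
def cls (Γ : Subgroup G) (g : G) : Frame Γ := Quotient.mk (QuotientGroup.rightRel Γ) g

/-- Right translation `Γ g ↦ Γ g h`. -/
def rmul {Γ : Subgroup G} (h : G) : Frame Γ → Frame Γ :=
  Quotient.map (· * h) fun a b hab => by
    have h1 : b * a⁻¹ ∈ Γ := QuotientGroup.rightRel_apply.1 hab
    exact QuotientGroup.rightRel_apply.2 (by simpa [mul_assoc] using h1)

/-- The element `n_z = [[1, z], [0, 1]]` of `N`; `u_t = n_t` for real `t`. -/
def nz (z : ℂ) : G := pr ⟨!![1, z; 0, 1], by simp [Matrix.det_fin_two]⟩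

/-- `H = PSL(2, R)`: classes of real matrices. -/
def H : Set G := pr '' {g | ∀ i j, (g.1 i j).im = 0}

/-- The orbit `x H`. -/
def orbitH {Γ : Subgroup G} (x : Frame Γ) : Set (Frame Γ) := (fun h => rmul h x) '' H

/-- `RF₊ M = {[g] : g^+ ∈ Λ}`. -/
def RFplus (Γ : Subgroup G) : Set (Frame Γ) :=
  (fun g : SL2 => cls Γ (pr g)) '' {g | plus g ∈ limitSet Γ}

end Pool.Agent.MP_7a4cc0_an
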