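import Mathlib

open Matrix MeasureTheory Set Topology Filter
open scoped ENNReal NNReal CompactlySupported

namespace Pool.Agent.MP_7a4cc0_an

theorem erg1_integral_le {Z : Type*} [TopologicalSpace Z] [MeasurableSpace Z] [BorelSpace Z]
    (μ : Measure Z) [IsFiniteMeasure μ] (f : C_c(Z, ℝ)) {U : Set Z} (hU : tsupport f ⊆ U)
    {C : ℝ} (hC : ∀ x, |f x| ≤ C) : |∫ x, f x ∂μ| ≤ C * μ.real U := by
  have h0 : ∀ x, x ∉ tsupport f → f x = 0 := fun x hx => image_eq_zero_of_notMem_tsupport hx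
  rw [← setIntegral_eq_integral_of_forall_compl_eq_zero h0]
  rcases isEmpty_or_nonempty Z with hZ | ⟨⟨z⟩⟩
  · simp [Measure.eq_zero_of_isEmpty μ]
  refine (norm_setIntegral_le_of_norm_le_const (f := fun x => f x) (C := C) (measure_lt_top _ _)
    fun x _ => hC x).trans ?_
  exact mul_le_mul_of_nonneg_left (measureReal_mono hU) ((abs_nonneg _).trans (hC z))

/-- Vague limit of asymptotically invariant measures. -/
theorem erg_limit {Z : Type*} [TopologicalSpace Z] [T2Space Z] [LocallyCompactSpace Z]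
    [SecondCountableTopology Z] [MeasurableSpace Z] [BorelSpace Z] {τ ι : Type*}
    (T : τ → Z ≃ₜ Z) (F : Set Z) (hF : IsClosed F) (O : ι → Set Z) (hO : ∀ i, IsOpen (O i))
    (M : ι → ℝ≥0) (hcov : F ⊆ ⋃ i, O i) (μ : ℕ → Measure Z) [∀ n, IsFiniteMeasure (μ n)]
    (hμF : ∀ n, μ n Fᶜ = 0)
    (hinv : ∀ (t : τ) (f : C_c(Z, ℝ)),
      Tendsto (fun n => ∫ x, f (T t x) ∂μ n - ∫ x, f x ∂μ n) atTop (𝓝 0))
    (hM : ∀ i, ∀ᶠ n in atTop, μ n (O i) ≤ M i) (K : Set Z) (hK : IsCompact K)
    (hμK : ∀ n, 1 ≤ μ n K) :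
    ∃ ν : Measure Z, IsLocallyFiniteMeasure ν ∧ ν ≠ 0 ∧ ν Fᶜ = 0 ∧
      (∀ t E, MeasurableSet E → ν (T t ⁻¹' E) = ν E) ∧ ∀ i, ν (O i) ≤ M i := by
  classical
  have hU : (hyperfilter ℕ : Filter ℕ) ≤ atTop := by
    rw [← Nat.cofinite_eq_atTop]
    exact hyperfilter_le_cofinite
  have hlim : ∀ f : C_c(Z, ℝ), ∃ L : ℝ,
      Tendsto (fun n => ∫ x, f x ∂μ n) (hyperfilter ℕ) (𝓝 L) := by
    intro f
    obtain ⟨s, hs⟩ := (f.hasCompactSupport.isCompact.inter_right hF).elim_finite_subcover O hO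
      (inter_subset_right.trans hcov)
    obtain ⟨C, hC⟩ := f.hasCompactSupport.exists_bound_of_continuous f.continuous
    have hb : ∀ᶠ n in atTop, |∫ x, f x ∂μ n| ≤ |C| * ∑ i ∈ s, (M i : ℝ) := by
      filter_upwards [(eventually_all_finset s).2 fun i _ => hM i] with n hn
      refine (erg1_integral_le (μ n) f (U := (⋃ i ∈ s, O i) ∪ Fᶜ) (C := |C|) (fun x hx => ?_)
        fun x => (hC x).trans (le_abs_self C)).trans
        (mul_le_mul_of_nonneg_left ?_ (abs_nonneg C))
      · by_cases h : x ∈ F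
        · exact Or.inl (hs ⟨hx, h⟩)
        · exact Or.inr h
      · refine (measureReal_union_le _ _).trans ?_
        rw [measureReal_def (μ n) Fᶜ, hμF n, ENNReal.toReal_zero, add_zero]
        refine (measureReal_biUnion_finset_le s O).trans (Finset.sum_le_sum fun i hi => ?_)
        exact ENNReal.toReal_le_coe_of_le_coe (hn i hi)
    obtain ⟨L, -, hL⟩ := (isCompact_Icc (a := -(|C| * ∑ i ∈ s, (M i : ℝ)))
      (b := |C| * ∑ i ∈ s, (M i : ℝ))).ultrafilter_le_nhds
      ((hyperfilter ℕ).map fun n => ∫ x, f x ∂μ n)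
      (le_principal_iff.2 (mem_map.2 (hU (hb.mono fun n hn => abs_le.1 hn))))
    exact ⟨L, hL⟩
  choose L hL using hlim
  let Λ₀ : C_c(Z, ℝ) →ₗ[ℝ] ℝ :=
    { toFun := L
      map_add' := fun f g => by
        refine tendsto_nhds_unique (hL (f + g)) (((hL f).add (hL g)).congr fun n => ?_)
        rw [← integral_add f.integrable g.integrable]
        rfl
      map_smul' := fun c f => by
        refine tendsto_nhds_unique (hL (c • f)) (((hL f).const_mul c).congr fun n => ?_)
        rw [← integral_const_mul]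
        rfl }
  let Λ : C_c(Z, ℝ) →ₚ[ℝ] ℝ := PositiveLinearMap.mk₀ Λ₀ fun f hf =>
    ge_of_tendsto' (hL f) fun n => integral_nonneg hf
  have hΛ : ∀ f, Λ f = L f := fun f => rfl
  have hopen : ∀ (U : Set Z) (c : ℝ≥0), IsOpen U → (∀ᶠ n in atTop, μ n U ≤ c) →
      RealRMK.rieszMeasure Λ U ≤ c := by
    intro U c hUo hc
    rw [hUo.measure_eq_iSup_isCompact]
    refine iSup_le fun K' => iSup_le fun hK'U => iSup_le fun hK' => ?_
    obtain ⟨f, hf1, hf2, hf3, hf4⟩ :=
      exists_continuousMap_one_of_isCompact_subset_isOpen hK' hUo hK'U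
    let g : C_c(Z, ℝ) := ⟨f, hasCompactSupport_def.mpr hf2⟩
    refine (RealRMK.rieszMeasure_le_of_eq_one Λ (f := g) (fun x => (hf4 x).1) hK' hf1).trans ?_
    rw [ENNReal.ofReal_le_coe, hΛ]
    refine le_of_tendsto (hL g) (hU (hc.mono fun n hn => ?_))
    refine (le_abs_self _).trans ((erg1_integral_le (μ n) g hf3 (C := 1) fun x => ?_).trans ?_)
    · exact abs_le.2 ⟨by linarith [(hf4 x).1, show g x = f x from rfl], (hf4 x).2⟩
    · rw [one_mul]
      exact ENNReal.toReal_le_coe_of_le_coe hn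
  refine ⟨RealRMK.rieszMeasure Λ, inferInstance, fun h0 => ?_, ?_, fun t E hE => ?_,
    fun i => hopen _ _ (hO i) (hM i)⟩
  · obtain ⟨f, hf1, hf2, -, hf4⟩ :=
      exists_continuousMap_one_of_isCompact_subset_isOpen hK isOpen_univ (subset_univ K)
    let g : C_c(Z, ℝ) := ⟨f, hasCompactSupport_def.mpr hf2⟩
    have h1 : 1 ≤ L g := ge_of_tendsto' (hL g) fun n => by
      have h2 : (1 : ℝ) ≤ (μ n).real K := ENNReal.toReal_mono (measure_ne_top _ _) (hμK n)
      refine h2.trans ?_
      rw [← integral_indicator_one hK.measurableSet]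
      refine integral_mono ((integrable_const _).indicator hK.measurableSet) g.integrable
        fun x => ?_
      by_cases hx : x ∈ K
      · rw [indicator_of_mem hx]
        exact (hf1 hx).ge
      · rw [indicator_of_notMem hx]
        exact (hf4 x).1
    have h3 := RealRMK.integral_rieszMeasure Λ g
    rw [h0, integral_zero_measure, hΛ] at h3
    linarith
  · simpa using hopen _ 0 hF.isOpen_compl (Eventually.of_forall fun n => (hμF n).le)
  · haveI := Measure.Regular.map (μ := RealRMK.rieszMeasure Λ) (T t)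
    have h1 : (RealRMK.rieszMeasure Λ).map (T t) = RealRMK.rieszMeasure Λ := by
      refine Measure.ext_of_integral_eq_on_compactlySupported fun f => ?_
      let g : C_c(Z, ℝ) := ⟨⟨fun x => f (T t x), by fun_prop⟩,
        f.hasCompactSupport.comp_homeomorph (T t)⟩
      rw [integral_map (T t).measurable.aemeasurable (map_continuous f).aestronglyMeasurable]
      change ∫ x, g x ∂_ = _
      rw [RealRMK.integral_rieszMeasure, RealRMK.integral_rieszMeasure, hΛ, hΛ, ← sub_eq_zero]
      exact tendsto_nhds_unique ((hL g).sub (hL f)) ((hinv t f).mono_left hU)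
    rw [← Measure.map_apply (T t).measurable hE, h1]

end Pool.Agent.MP_7a4cc0_an
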