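import Pool.Agent.MP_7a4cc0_an.RepTop

open Matrix MeasureTheory Set Topology Filter
open scoped ENNReal NNReal CompactlySupported

namespace Pool.Agent.MP_7a4cc0_an

/-- Finitely many representatives. -/
theorem finrep {α : Type*} (L : Subgroup G) (Y : Set V) (hY : ∀ x ∈ Y, Fut x) (φ : G → α)
    (C : ℝ) (hc : ∀ x ∈ Y, ∃ g ∈ L, rho g x 0 ≤ C)
    (hfin : {a | ∃ g ∈ L, (∃ x ∈ Y, rho g x 0 ≤ C) ∧ φ g = a}.Finite) :
    ∃ C' : ℝ, ∀ x ∈ Y, ∃ g ∈ L, ∃ g' ∈ L, φ g = φ g' ∧ rho (g'⁻¹ * g) x 0 ≤ C' := by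
  have hr : ∀ a : α, ∃ r : G, (∃ g ∈ L, φ g = a) → r ∈ L ∧ φ r = a := by
    intro a
    by_cases h : ∃ g ∈ L, φ g = a
    · obtain ⟨g, h1, h2⟩ := h
      exact ⟨g, fun _ => ⟨h1, h2⟩⟩
    · exact ⟨1, fun h' => absurd h' h⟩
  choose r hr using hr
  obtain ⟨D, hD, hb⟩ := exists_norm_rho_le (hfin.image fun a => (r a)⁻¹).isCompact
  refine ⟨D * C, fun x hx => ?_⟩
  obtain ⟨g, hg, h1⟩ := hc x hx
  obtain ⟨h2, h3⟩ := hr (φ g) ⟨g, hg, rfl⟩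
  refine ⟨g, hg, r (φ g), h2, h3.symm, ?_⟩
  rw [rho_mul]
  have h4 := hb _ ⟨φ g, ⟨g, hg, ⟨x, hx, h1⟩, rfl⟩, rfl⟩ (rho g x)
  have h5 := (rho_fut g (hY x hx)).norm_le
  calc _ ≤ ‖rho (r (φ g))⁻¹ (rho g x) 0‖ := le_abs_self _
    _ ≤ ‖rho (r (φ g))⁻¹ (rho g x)‖ := norm_le_pi_norm _ 0
    _ ≤ D * ‖rho g x‖ := h4
    _ ≤ D * C := mul_le_mul_of_nonneg_left (h5.trans h1) hD

/-- The stabiliser of a vector with locally finite orbit is cocompact near its plane. -/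
theorem stab_cocpt (L : Subgroup G) (Y : Set V) (hY : ∀ x ∈ Y, Fut x) (n : V)
    (hn : LocFin (orb L n)) (R C : ℝ) (hR : ∀ x ∈ Y, |lor x n| ≤ R)
    (hc : ∀ x ∈ Y, ∃ g ∈ L, rho g x 0 ≤ C) :
    ∃ C' : ℝ, ∀ x ∈ Y, ∃ g ∈ L, rho g n = n ∧ rho g x 0 ≤ C' := by
  obtain ⟨D, hD⟩ := norm_le_of_lor C |lor n n| R
  obtain ⟨C', hC'⟩ := finrep L Y hY (fun g => rho g n) C hc ((hn D).subset (by
    rintro a ⟨g, hg, ⟨x, hx, h1⟩, rfl⟩
    refine ⟨⟨g, hg, rfl⟩, hD (rho g x) _ (rho_fut g (hY x hx)) h1 ?_ ?_⟩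
    · rw [lor_rho]
    · rw [lor_rho]; exact hR x hx))
  refine ⟨C', fun x hx => ?_⟩
  obtain ⟨g, hg, g', hg', h1, h2⟩ := hC' x hx
  refine ⟨g'⁻¹ * g, L.mul_mem (L.inv_mem hg') hg, ?_, h2⟩
  have h3 : rho g n = rho g' n := h1
  rw [rho_mul, h3, rho_inv_rho]

lemma Piece.unit' {d : V} {Gs : Subgroup G} {B : Set V} {R₀ : ℝ} (h : Piece d Gs B R₀)
    (hd : lor d d = 1) {m : V} (hm : m ∈ B ∪ orb Gs d) : lor m m = 1 := by
  rcases hm with hm | ⟨g, -, rfl⟩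
  · exact h.unit m hm
  · rw [lor_rho, hd]

lemma Piece.sep' {d : V} {Gs : Subgroup G} {B : Set V} {R₀ : ℝ} (h : Piece d Gs B R₀)
    {m m' : V} (hm : m ∈ B ∪ orb Gs d) (hm' : m' ∈ B ∪ orb Gs d) (hne : m ≠ m') :
    lor m m' ≤ -2 := by
  have key : ∀ b ∈ B, ∀ g ∈ Gs, lor b (rho g d) ≤ -2 := fun b hb g hg => by
    rw [lor_rho_right]
    exact h.sepd _ (h.inv _ (Gs.inv_mem hg) b hb)
  rcases hm with hm | ⟨g, hg, rfl⟩ <;> rcases hm' with hm' | ⟨g', hg', rfl⟩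
  · exact h.sep m hm m' hm' hne
  · exact key m hm g' hg'
  · rw [lor_comm]; exact key m' hm' g hg
  · rw [lor_rho_right, ← rho_mul]
    rcases h.door _ (Gs.mul_mem (Gs.inv_mem hg') hg) with h1 | h1
    · refine absurd ?_ hne
      have h2 := congrArg (rho g') h1
      rwa [rho_mul, rho_rho_inv] at h2
    · exact h1.1

lemma Piece.finRep_neg {d : V} {Gs : Subgroup G} {B : Set V} {R₀ : ℝ} (h : Piece d Gs B R₀)
    {m : V} (hm : m ∈ B ∪ orb Gs d) : m = d ∨ lor vo m < 0 := by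
  rcases hm with hm | ⟨g, hg, rfl⟩
  · exact Or.inr (h.neg m hm)
  · exact (h.door g hg).imp id And.right

/-- The closed half-spaces of two distinct walls of a piece are disjoint. -/
lemma Piece.sub {d : V} {Gs : Subgroup G} {B : Set V} {R₀ : ℝ} (h : Piece d Gs B R₀)
    (hd : lor d d = 1) (hdo : lor vo d = 0) {m m' : V} (hm : m ∈ B ∪ orb Gs d)
    (hm' : m' ∈ B ∪ orb Gs d) (hne : m ≠ m') {y : V} (hy : Cone y) (h0 : 0 ≤ lor y m) :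
    lor y m' < 0 := by
  have hle : ∀ u ∈ B ∪ orb Gs d, lor vo u ≤ 0 := fun u hu => by
    rcases h.finRep_neg hu with rfl | h1
    · exact hdo.le
    · exact h1.le
  have h1 := h.sep' hm hm' hne
  have h2 := h.sep' hm' hm hne.symm
  rcases h.finRep_neg hm' with h3 | h3
  · have h4 : lor vo m < 0 := (h.finRep_neg hm).resolve_left fun h5 => hne (h5.trans h3.symm)
    by_contra h5
    exact absurd (lor_sep (h.unit' hd hm) (h.unit' hd hm') (by linarith) fut_vo.cone h4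
      (hle _ hm') hy (not_lt.1 h5)) (not_lt.2 h0)
  · exact lor_sep (h.unit' hd hm') (h.unit' hd hm) (by linarith) fut_vo.cone h3 (hle _ hm) hy h0

lemma Piece.not_mem_orb {d : V} {Gs : Subgroup G} {B : Set V} {R₀ : ℝ} (h : Piece d Gs B R₀)
    (hd : lor d d = 1) {b : V} (hb : b ∈ B) : b ∉ orb Gs d := by
  rintro ⟨g, hg, rfl⟩
  have h1 := h.sepd _ (h.inv _ (Gs.inv_mem hg) _ hb)
  rw [rho_inv_rho, hd] at h1
  norm_num at h1

end Pool.Agent.MP_7a4cc0_an
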