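import Pool.Agent.MP_7a4cc0_an.Form

open Matrix MeasureTheory Set Topology Filter
open scoped ENNReal NNReal CompactlySupported

namespace Pool.Agent.MP_7a4cc0_an

lemma growth_translate {P S : Set ℝ} (hP : MeasurableSet P) (hd : ∀ t ∈ P, t ∉ S) (l : ℝ) (J : ℕ)
    (h : ∀ t ∈ P, ∀ j : ℕ, 1 ≤ j → j ≤ J → t + j * l ∈ S) : J * volume P ≤ volume S := by
  have key : ∀ i j : ℕ, i < j → j < J →
      Disjoint ((fun t : ℝ => t - ((i : ℝ) + 1) * l) ⁻¹' P)
        ((fun t : ℝ => t - ((j : ℝ) + 1) * l) ⁻¹' P) := fun i j hij hj => by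
    refine disjoint_left.2 fun t h1 h2 => hd _ h1 ?_
    have := h _ h2 (j - i) (by omega) (by omega)
    rw [Nat.cast_sub hij.le] at this
    convert this using 1
    ring
  calc (J : ℝ≥0∞) * volume P
      = ∑ j ∈ Finset.range J, volume ((fun t : ℝ => t - ((j : ℝ) + 1) * l) ⁻¹' P) := by
        simp only [sub_eq_add_neg, measure_preimage_add_right, Finset.sum_const, Finset.card_range,
          nsmul_eq_mul]
    _ = volume (⋃ j ∈ Finset.range J, (fun t : ℝ => t - ((j : ℝ) + 1) * l) ⁻¹' P) := by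
        refine (measure_biUnion_finset (fun i hi j hj hij => ?_)
          fun j _ => (measurable_sub_const _) hP).symm
        rcases lt_or_gt_of_ne hij with e | e
        · exact key i j e (Finset.mem_range.1 hj)
        · exact (key j i e (Finset.mem_range.1 hi)).symm
    _ ≤ volume S := by
        refine measure_mono (iUnion₂_subset fun j hj t ht => ?_)
        have := h _ ht (j + 1) (by omega) (Finset.mem_range.1 hj)
        push_cast at this
        rwa [sub_add_cancel] at this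

/-- the surviving set after removing the intervals of size index below `2 ^ k` -/
def growthS {ι : Type} (F : Set ι) (a : ι → ℝ) (I : ι → Set ℝ) (k : ℕ) : Set ℝ :=
  Ico 1 2 \ ⋃ m ∈ {m ∈ F | a m < 2 ^ k}, I m

lemma growth_abs {ι : Type} {F : Set ι} {a : ι → ℝ} {I : ι → Set ℝ} {J : ℕ} (hJ : 1 ≤ J)
    (ho : ∀ m, IsOpen (I m)) (small : ∀ m ∈ F, ∀ t ∈ I m, t < 2 → 4 * J ≤ a m)
    (diam : ∀ m ∈ F, ∀ t ∈ I m, ∀ t' ∈ I m, a m * |t' - t| < 1)
    (gap : ∀ m ∈ F, ∀ m' ∈ F, m ≠ m' → a m' ≤ 2 * a m → ∀ t ∈ I m, ∀ t' ∈ I m',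
      2 * J ≤ a m * |t' - t|) {θ : ℝ} (hθ : 1 + 2 / (J : ℝ) ≤ θ) (k : ℕ) :
    ENNReal.ofReal ((θ ^ k)⁻¹) ≤ volume (growthS F a I k) := by
  have hJ' : (1 : ℝ) ≤ J := by exact_mod_cast hJ
  have hm : ∀ k, MeasurableSet (growthS F a I k) := fun k =>
    measurableSet_Ico.diff (isOpen_biUnion fun m _ => ho m).measurableSet
  have hθ0 : 0 < θ := lt_of_lt_of_le (by positivity) hθ
  have step : ∀ k, volume (growthS F a I k) ≤ ENNReal.ofReal θ * volume (growthS F a I (k + 1)) := by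
    intro k
    have h2 : (0 : ℝ) < 2 ^ k := by positivity
    have key : ∀ t ∈ growthS F a I k \ growthS F a I (k + 1), ∀ s : ℝ, (2 ^ k : ℝ)⁻¹ ≤ |s| →
        |s| ≤ J * (2 ^ k : ℝ)⁻¹ → (|s| < 1 / 2 → t + s ∈ Ico (1 : ℝ) 2) →
        t + s ∈ growthS F a I (k + 1) := by
      rintro t ⟨⟨h3, h4⟩, h5⟩ s s1 s2 s3
      obtain ⟨m, ⟨m1, m2⟩, m3⟩ : ∃ m ∈ {m ∈ F | a m < 2 ^ (k + 1)}, t ∈ I m := by
        by_contra hc
        exact h5 ⟨h3, fun h => hc (by simpa only [mem_iUnion, exists_prop] using h)⟩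
      have m4 : 2 ^ k ≤ a m := not_lt.1 fun h => h4 (mem_biUnion (show m ∈ {m ∈ F | a m < 2 ^ k}
        from ⟨m1, h⟩) m3)
      have m5 := small m m1 t m3 h3.2
      rw [pow_succ] at m2
      have s0 : 0 < |s| := lt_of_lt_of_le (by positivity) s1
      rw [inv_le_iff_one_le_mul₀ h2] at s1
      rw [← div_eq_mul_inv, le_div_iff₀ h2] at s2
      have s4 : a m * |s| < 2 * J := by nlinarith
      refine ⟨s3 (by nlinarith), fun h => ?_⟩
      obtain ⟨m', ⟨n1, n2⟩, n3⟩ := mem_iUnion₂.1 h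
      rw [pow_succ] at n2
      by_cases e : m = m'
      · subst e
        have := diam m m1 t m3 _ n3
        rw [add_sub_cancel_left] at this
        nlinarith
      · have := gap m m1 m' n1 e (by linarith) t m3 _ n3
        rw [add_sub_cancel_left] at this
        linarith
    have hj : ∀ j : ℕ, 1 ≤ j → j ≤ J → (2 ^ k : ℝ)⁻¹ ≤ j * (2 ^ k : ℝ)⁻¹ ∧
        j * (2 ^ k : ℝ)⁻¹ ≤ J * (2 ^ k : ℝ)⁻¹ := fun j j1 j2 =>
      ⟨le_mul_of_one_le_left (by positivity) (by exact_mod_cast j1), by gcongr⟩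
    have p1 := growth_translate (((hm k).diff (hm (k + 1))).inter (measurableSet_Iio (a := 3 / 2)))
      (S := growthS F a I (k + 1)) (fun t ht => ht.1.2) (2 ^ k : ℝ)⁻¹ J fun t ht j j1 j2 => by
        have e : |(j : ℝ) * (2 ^ k : ℝ)⁻¹| = j * (2 ^ k : ℝ)⁻¹ := abs_of_nonneg (by positivity)
        refine key t ht.1 _ ((hj j j1 j2).1.trans e.ge) (e.le.trans (hj j j1 j2).2) fun h => ?_
        rw [e] at h
        have : 0 ≤ (j : ℝ) * (2 ^ k : ℝ)⁻¹ := by positivity
        exact ⟨by linarith [ht.1.1.1.1], by linarith [mem_Iio.1 ht.2]⟩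
    have p2 := growth_translate (((hm k).diff (hm (k + 1))).inter (measurableSet_Ici (a := 3 / 2)))
      (S := growthS F a I (k + 1)) (fun t ht => ht.1.2) (-(2 ^ k : ℝ)⁻¹) J fun t ht j j1 j2 => by
        have e : |(j : ℝ) * -(2 ^ k : ℝ)⁻¹| = j * (2 ^ k : ℝ)⁻¹ := by
          rw [mul_neg, abs_neg, abs_of_nonneg (by positivity)]
        refine key t ht.1 _ ((hj j j1 j2).1.trans e.ge) (e.le.trans (hj j j1 j2).2) fun h => ?_
        rw [e] at h
        have : 0 ≤ (j : ℝ) * (2 ^ k : ℝ)⁻¹ := by positivity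
        exact ⟨by linarith [mem_Ici.1 ht.2], by linarith [ht.1.1.1.2]⟩
    have p3 : volume (growthS F a I k) ≤ volume (growthS F a I (k + 1)) +
        (volume ((growthS F a I k \ growthS F a I (k + 1)) ∩ Iio (3 / 2)) +
          volume ((growthS F a I k \ growthS F a I (k + 1)) ∩ Ici (3 / 2))) := by
      refine le_trans (measure_mono fun t ht => ?_)
        ((measure_union_le _ _).trans (add_le_add le_rfl (measure_union_le _ _)))
      by_cases e : t ∈ growthS F a I (k + 1)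
      · exact Or.inl e
      · exact Or.inr ((lt_or_ge t (3 / 2)).imp (fun h => ⟨⟨ht, e⟩, h⟩) fun h => ⟨⟨ht, e⟩, h⟩)
    have hJ0 : (J : ℝ≥0∞) ≠ 0 := Nat.cast_ne_zero.2 (by omega)
    refine (ENNReal.mul_le_mul_iff_right hJ0 (ENNReal.natCast_ne_top J)).1 ?_
    calc _ ≤ (J : ℝ≥0∞) * volume (growthS F a I (k + 1)) + (volume (growthS F a I (k + 1)) +
          volume (growthS F a I (k + 1))) := by
          refine (mul_le_mul_right p3 _).trans ?_
          rw [mul_add, mul_add]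
          exact add_le_add le_rfl (add_le_add p1 p2)
      _ = ENNReal.ofReal (J + 2) * volume (growthS F a I (k + 1)) := by
          rw [ENNReal.ofReal_add (by positivity) (by norm_num), ENNReal.ofReal_natCast,
            ENNReal.ofReal_ofNat]
          ring
      _ ≤ _ := by
          rw [← mul_assoc, ← ENNReal.ofReal_natCast, ← ENNReal.ofReal_mul (by positivity)]
          refine mul_le_mul_left (ENNReal.ofReal_le_ofReal ?_) _
          have := mul_le_mul_of_nonneg_left hθ (by positivity : (0 : ℝ) ≤ J)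
          rwa [mul_add, mul_one, mul_div_cancel₀ _ (by positivity)] at this
  induction k with
  | zero =>
    have : growthS F a I 0 = Ico 1 2 := by
      refine sdiff_eq_left.2 (disjoint_left.2 fun t ht h => ?_)
      obtain ⟨m, ⟨m1, m2⟩, m3⟩ := mem_iUnion₂.1 h
      have := small m m1 t m3 ht.2
      rw [pow_zero] at m2
      linarith
    rw [this, Real.volume_Ico]
    norm_num
  | succ k ih =>
    refine (ENNReal.mul_le_mul_iff_right (ENNReal.ofReal_pos.2 hθ0).ne' ENNReal.ofReal_ne_top).1 ?_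
    refine le_trans (le_of_eq ?_) (ih.trans (step k))
    rw [← ENNReal.ofReal_mul hθ0.le]
    congr 1
    rw [pow_succ]
    field_simp

lemma growth_gap {a a' u' v b b' L x : ℝ} (ha : 0 < a) (ha' : 0 < a') (h : a' ≤ 2 * a)
    (h1 : u' ^ 2 + b' ^ 2 ≤ 1) (h2 : b ^ 2 ≤ 1) (h3 : |v| ≤ L)
    (hx : 2 * a * a' * x = a ^ 2 * (1 - u' ^ 2 - b' ^ 2) + a' ^ 2 * (1 - v ^ 2 - b ^ 2)
      + 2 * a * a' * (u' * v + b' * b)) : -(L ^ 2 + L + 1) ≤ x := by
  have u1 : |u'| ≤ 1 := (sq_le_one_iff_abs_le_one _).1 (by nlinarith [sq_nonneg b'])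
  have e1 : -L ≤ u' * v := by
    have := mul_le_mul u1 h3 (abs_nonneg _) zero_le_one
    rw [← abs_mul] at this
    linarith [neg_abs_le (u' * v)]
  have e2 : -1 ≤ b' * b := by nlinarith [sq_nonneg (b' + b), sq_nonneg u']
  have e3 : v ^ 2 ≤ L ^ 2 := sq_le_sq' (abs_le.1 h3).1 (abs_le.1 h3).2
  have e4 : 0 < 2 * a * a' := by positivity
  refine le_of_mul_le_mul_left ?_ e4
  have e5 : a' ^ 2 * L ^ 2 ≤ 2 * a * a' * L ^ 2 :=
    mul_le_mul_of_nonneg_right (by nlinarith) (sq_nonneg L)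
  have e6 : 0 ≤ a ^ 2 * (1 - u' ^ 2 - b' ^ 2) := mul_nonneg (sq_nonneg _) (by linarith)
  have e7 : a' ^ 2 * (-L ^ 2) ≤ a' ^ 2 * (1 - v ^ 2 - b ^ 2) :=
    mul_le_mul_of_nonneg_left (by linarith) (sq_nonneg _)
  have e8 : 2 * a * a' * (-(L + 1)) ≤ 2 * a * a' * (u' * v + b' * b) :=
    mul_le_mul_of_nonneg_left (by linarith) e4.le
  linarith

lemma growth_lor (m m' : V) : lor m m' = -2 * (lor xp m * lor xm m' + lor xm m * lor xp m')
    + lor ey m * lor ey m' + lor ez m * lor ez m' := by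
  rw [lor_decomp m m', lor_comm m xp, lor_comm m xm, lor_comm m ey, lor_comm m ez, lor_comm m' xp,
    lor_comm m' xm, lor_comm m' ey, lor_comm m' ez]

theorem growth (θ : ℝ) (hθ : 1 < θ) : ∃ Q : ℝ, ∀ F : Set V, Fam F Q → ∀ k : ℕ,
    ENNReal.ofReal ((θ ^ k)⁻¹) ≤
      volume {t : ℝ | t ∈ Ico (1 : ℝ) 2 ∧ ∀ m ∈ F, lor (rho (cv k t) vo) m ≤ 0} := by
  obtain ⟨J, hJ⟩ := exists_nat_gt (2 / (θ - 1))
  have hJ0 : (0 : ℝ) < J := lt_trans (div_pos two_pos (by linarith)) hJ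
  have hJ1 : 1 ≤ J := Nat.cast_pos.1 hJ0
  have hJ2 : (1 : ℝ) ≤ J := by exact_mod_cast hJ1
  refine ⟨(1 + 4 * J) ^ 2 + (1 + 4 * J) + 2, fun F hF k => ?_⟩
  have e1 : ∀ m ∈ F, ∀ t : ℝ, 4 * -lor xp m * (t ^ 2 * lor xp m + t * lor ey m + lor xm m) =
      1 - (lor ey m + 2 * lor xp m * t) ^ 2 - lor ez m ^ 2 := fun m hm t => by
    have := growth_lor m m
    rw [hF.unit m hm] at this
    linear_combination -this
  have e2 : ∀ m ∈ F, ∀ t : ℝ, 0 < t ^ 2 * lor xp m + t * lor ey m + lor xm m →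
      (lor ey m + 2 * lor xp m * t) ^ 2 + lor ez m ^ 2 < 1 := fun m hm t ht => by
    have h1 := e1 m hm t
    have h2 := mul_pos (mul_pos four_pos (neg_pos.2 (hF.negp m hm))) ht
    linarith
  have e3 : ∀ m ∈ F, ∀ t : ℝ, 0 < t ^ 2 * lor xp m + t * lor ey m + lor xm m →
      |lor ey m + 2 * lor xp m * t| < 1 ∧ |lor ez m| < 1 := fun m hm t ht =>
    ⟨(sq_lt_one_iff_abs_lt_one _).1 (by linarith [e2 m hm t ht, sq_nonneg (lor ez m)]),
      (sq_lt_one_iff_abs_lt_one _).1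
        (by linarith [e2 m hm t ht, sq_nonneg (lor ey m + 2 * lor xp m * t)])⟩
  refine (growth_abs (F := F) (a := fun m => -lor xp m)
    (I := fun m => {t | 0 < t ^ 2 * lor xp m + t * lor ey m + lor xm m}) hJ1
    (fun m => isOpen_lt continuous_const (by fun_prop)) (fun m hm t ht t2 => ?_)
    (fun m hm t ht t' ht' => ?_) (fun m hm m' hm' hne hle t ht t' ht' => ?_) ?_ k).trans
    (measure_mono fun t ht => ⟨ht.1, fun m hm => ?_⟩)
  · have h1 := hF.sepd m hm
    rw [dd_eq, lor_add_right, lor_smul_right, lor_smul_right, lor_comm m ey, lor_comm m ez] at h1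
    have h2 := abs_lt.1 (e3 m hm t ht).1
    have h3 := abs_lt.1 (e3 m hm t ht).2
    have h4 := mul_pos (neg_pos.2 (hF.negp m hm)) (sub_pos.2 t2)
    nlinarith
  · have h2 := abs_lt.1 (e3 m hm t ht).1
    have h3 := abs_lt.1 (e3 m hm t' ht').1
    rw [← abs_of_pos (neg_pos.2 (hF.negp m hm)), ← abs_mul, abs_lt]
    constructor <;> linarith
  · by_contra hc
    rw [not_le, ← abs_of_pos (neg_pos.2 (hF.negp m hm)), ← abs_mul, abs_lt] at hc
    have h2 := abs_lt.1 (e3 m hm t ht).1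
    have h3 := growth_gap (u' := lor ey m' + 2 * lor xp m' * t') (b' := lor ez m') (b := lor ez m)
      (v := lor ey m + 2 * lor xp m * t') (L := 1 + 4 * J) (x := lor m m')
      (neg_pos.2 (hF.negp m hm)) (neg_pos.2 (hF.negp m' hm')) hle (e2 m' hm' t' ht').le
      ((sq_lt_one_iff_abs_lt_one _).2 (e3 m hm t ht).2).le
      (abs_le.2 ⟨by linarith, by linarith⟩) (by
        rw [← e1 m hm t', ← e1 m' hm' t', growth_lor m m']
        ring)
    linarith [hF.sep m hm m' hm' hne]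
  · rw [div_lt_iff₀ (by linarith)] at hJ
    have : 2 / (J : ℝ) ≤ θ - 1 := by rw [div_le_iff₀ hJ0]; linarith
    linarith
  · simp only [rho_cv_vo, lor_add_left, lor_smul_left]
    have h2 : (0 : ℝ) < 2 ^ k := by positivity
    have h3 := hF.negp m hm
    rcases le_or_gt (t ^ 2 * lor xp m + t * lor ey m + lor xm m) 0 with h | h
    · exact add_nonpos (mul_nonpos_of_nonneg_of_nonpos (by positivity) h3.le)
        (mul_nonpos_of_nonneg_of_nonpos h2.le h)
    have h4 : 2 ^ k ≤ -lor xp m := not_lt.1 fun h' =>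
      ht.2 (mem_biUnion (show m ∈ {m ∈ F | -lor xp m < 2 ^ k} from ⟨hm, h'⟩) h)
    have h5 := e1 m hm t
    have h6 := mul_le_mul_of_nonneg_right h4 h.le
    have h7 : (2 ^ k : ℝ)⁻¹ * lor xp m ≤ -1 := by
      rw [inv_mul_le_iff₀ h2]; linarith
    linarith [sq_nonneg (lor ey m + 2 * lor xp m * t), sq_nonneg (lor ez m)]

end Pool.Agent.MP_7a4cc0_an
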