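import Pool.Agent.MP_7a4cc0_an.Basic

open Matrix MeasureTheory Set Topology Filter
open scoped ENNReal NNReal CompactlySupported

namespace Pool.Agent.MP_7a4cc0_an

lemma fut_vo : Fut vo := by simp [Fut, lor, vo]
lemma cone_xp : Cone xp := by norm_num [Cone, lor, xp, Matrix.cons_val_two, Matrix.cons_val_three]
lemma cone_xm : Cone xm := by norm_num [Cone, lor, xm, Matrix.cons_val_two, Matrix.cons_val_three]
lemma Fut.cone {x : V} (h : Fut x) : Cone x := ⟨by rw [h.1]; norm_num, h.2⟩
lemma Fut.one_le {x : V} (h : Fut x) : 1 ≤ x 0 := by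
  have a := h.1
  have b := h.2
  unfold lor at a
  nlinarith [mul_self_nonneg (x 1), mul_self_nonneg (x 2), mul_self_nonneg (x 3)]
lemma Fut.norm_le {x : V} (h : Fut x) : ‖x‖ ≤ x 0 := by
  have a := h.1
  have b := h.2
  unfold lor at a
  refine (pi_norm_le_iff_of_nonneg b.le).2 fun i => abs_le.2 (abs_le_of_sq_le_sq' ?_ b.le)
  fin_cases i <;> simp only [Fin.zero_eta, Fin.mk_one, Fin.reduceFinMk, Fin.isValue] <;>
    nlinarith [mul_self_nonneg (x 1), mul_self_nonneg (x 2), mul_self_nonneg (x 3)]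
lemma abs_lor_le (v w : V) : |lor v w| ≤ 4 * ‖v‖ * ‖w‖ := by
  have h : ∀ i, |v i * w i| ≤ ‖v‖ * ‖w‖ := fun i => by
    rw [abs_mul]
    exact mul_le_mul (norm_le_pi_norm v i) (norm_le_pi_norm w i) (abs_nonneg _) (norm_nonneg _)
  have h0 := abs_le.1 (h 0)
  have h1 := abs_le.1 (h 1)
  have h2 := abs_le.1 (h 2)
  have h3 := abs_le.1 (h 3)
  unfold lor
  exact abs_le.2 ⟨by linarith, by linarith⟩
lemma lor_vo_left (v : V) : lor vo v = -v 0 := by simp [lor, vo]
lemma lor_vo_right (v : V) : lor v vo = -v 0 := by simp [lor, vo]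
lemma Lor_cs (v w : V) : (v 1 * w 1 + v 2 * w 2 + v 3 * w 3) ^ 2 ≤
    (v 1 * v 1 + v 2 * v 2 + v 3 * v 3) * (w 1 * w 1 + w 2 * w 2 + w 3 * w 3) := by
  nlinarith [sq_nonneg (v 1 * w 2 - v 2 * w 1), sq_nonneg (v 1 * w 3 - v 3 * w 1),
    sq_nonneg (v 2 * w 3 - v 3 * w 2)]
lemma Lor_sq (v : V) : 0 ≤ v 1 * v 1 + v 2 * v 2 + v 3 * v 3 := by
  nlinarith [mul_self_nonneg (v 1), mul_self_nonneg (v 2), mul_self_nonneg (v 3)]
/-- The form is positive semidefinite on the orthogonal of a nonzero causal vector. -/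
lemma lor_self_nonneg {x u : V} (hx : Cone x) (h : lor x u = 0) : 0 ≤ lor u u := by
  obtain ⟨a, b⟩ := hx
  have c := Lor_cs x u
  have d := Lor_sq u
  unfold lor at *
  rw [show x 1 * u 1 + x 2 * u 2 + x 3 * u 3 = x 0 * u 0 by linarith] at c
  have e := mul_le_mul_of_nonneg_right
    (show x 1 * x 1 + x 2 * x 2 + x 3 * x 3 ≤ x 0 * x 0 by linarith) d
  refine le_of_mul_le_mul_left ?_ (mul_pos b b)
  nlinarith
lemma lor_cone_nonpos {y y' : V} (hy : Cone y) (hy' : Cone y') : lor y y' ≤ 0 := by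
  obtain ⟨a, b⟩ := hy
  obtain ⟨a', b'⟩ := hy'
  have c := Lor_cs y y'
  unfold lor at *
  have e := mul_le_mul (show y 1 * y 1 + y 2 * y 2 + y 3 * y 3 ≤ y 0 * y 0 by linarith)
    (show y' 1 * y' 1 + y' 2 * y' 2 + y' 3 * y' 3 ≤ y' 0 * y' 0 by linarith) (Lor_sq y')
    (mul_self_nonneg _)
  have := (abs_le_of_sq_le_sq' (a := y 1 * y' 1 + y 2 * y' 2 + y 3 * y' 3) (b := y 0 * y' 0)
    (by nlinarith) (mul_pos b b').le).2
  linarith
lemma lor_cone_neg {y u : V} (hy : Cone y) (hu : lor u u < 0) (hu0 : 0 < u 0) :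
    lor y u < 0 := 
  lt_of_le_of_ne (lor_cone_nonpos hy ⟨hu.le, hu0⟩) fun h => (lor_self_nonneg hy h).not_gt hu
lemma timelike_ne {u : V} (hu : lor u u < 0) : u 0 ≠ 0 := fun h => by
  have := Lor_sq u
  unfold lor at hu
  rw [h] at hu
  linarith
/-- A causal vector with negative product with a future causal vector is future. -/
lemma pos_of_lor_neg {y u : V} (hy : Cone y) (hu : lor u u ≤ 0) (h : lor y u < 0) :
    0 < u 0 := by
  rcases lt_trichotomy (u 0) 0 with c | c | c
  · have := lor_cone_nonpos (y' := -u) hy ⟨by simpa using hu, by simpa using c⟩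
    rw [lor_neg_right] at this
    linarith
  · have a := Lor_cs y u
    have b := Lor_sq u
    unfold lor at hu h
    rw [c] at hu h
    rw [show u 1 * u 1 + u 2 * u 2 + u 3 * u 3 = 0 by linarith] at a
    nlinarith
  · exact c
/-- Reverse Cauchy-Schwarz. -/
lemma lor_rev_cs {u v : V} (hu : lor u u ≤ 0) (hv : lor v v ≤ 0) :
    lor u u * lor v v ≤ lor u v ^ 2 := by
  rcases hu.eq_or_lt with c | c
  · rw [c, zero_mul]
    positivity
  have o : lor u (lor u u • v - lor u v • u) = 0 := by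
    simp only [lor_sub_right, lor_smul_right]
    ring
  have a : 0 ≤ lor (lor u u • v - lor u v • u) (lor u u • v - lor u v • u) := by
    rcases (timelike_ne c).lt_or_gt with d | d
    · exact lor_self_nonneg (x := -u) ⟨by simpa using hu, by simpa using d⟩
        (by rw [lor_neg_left, o, neg_zero])
    · exact lor_self_nonneg ⟨hu, d⟩ o
  simp only [lor_sub_left, lor_sub_right, lor_smul_left, lor_smul_right, lor_comm v u] at a
  by_contra h
  nlinarith [mul_pos (neg_pos.2 c) (sub_pos.2 (not_le.1 h))]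
lemma Fut.lor_le {x y : V} (hx : Fut x) (hy : Fut y) : lor x y ≤ -1 := by
  have a := lor_rev_cs hx.cone.1 hy.cone.1
  have b := lor_cone_nonpos hx.cone hy.cone
  rw [hx.1, hy.1] at a
  nlinarith
lemma Fut.zero_le {x y : V} (hx : Fut x) (hy : Fut y) : x 0 ≤ 2 * y 0 * (-lor x y) := by
  have c := Lor_cs x y
  have a := hx.1
  have b := hy.1
  have x1 := hx.one_le
  have y1 := hy.one_le
  unfold lor at *
  rw [show x 1 * x 1 + x 2 * x 2 + x 3 * x 3 = x 0 * x 0 - 1 by linarith,
    show y 1 * y 1 + y 2 * y 2 + y 3 * y 3 = y 0 * y 0 - 1 by linarith] at c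
  have y2 : 0 ≤ y 0 * y 0 - 1 := by nlinarith
  have d := mul_le_mul_of_nonneg_left c (mul_self_nonneg (y 0))
  have := (abs_le_of_sq_le_sq' (a := 2 * y 0 * (x 1 * y 1 + x 2 * y 2 + x 3 * y 3))
    (b := x 0 * (2 * (y 0 * y 0) - 1))
    (by nlinarith [mul_nonneg (mul_self_nonneg (y 0)) y2, mul_self_nonneg (x 0)])
    (mul_nonneg (by linarith) (by linarith))).2
  nlinarith
lemma fut_normalize {y : V} (h : lor y y < 0) (h0 : 0 < y 0) :
    Fut ((√(-lor y y))⁻¹ • y) := by
  have a : 0 < √(-lor y y) := Real.sqrt_pos.2 (by linarith)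
  have b := Real.mul_self_sqrt (show 0 ≤ -lor y y by linarith)
  refine ⟨?_, mul_pos (inv_pos.2 a) h0⟩
  rw [lor_smul_left, lor_smul_right]
  field_simp
  linarith
lemma proj_timelike {x m : V} (hx : Fut x) (hm : lor m m = 1) :
    lor (x - lor x m • m) (x - lor x m • m) = -(1 + lor x m ^ 2) ∧
      0 < (x - lor x m • m) 0 := by
  have a : lor (x - lor x m • m) (x - lor x m • m) = -(1 + lor x m ^ 2) := by
    simp only [lor_sub_left, lor_sub_right, lor_smul_left, lor_smul_right, hm, hx.1, lor_comm m x]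
    ring
  refine ⟨a, pos_of_lor_neg hx.cone (by rw [a]; nlinarith) ?_⟩
  simp only [lor_sub_right, lor_smul_right, hx.1]
  nlinarith
lemma Lor_orth {x u v : V} (hx : Cone x) (hu : lor x u = 0) (hv : lor x v = 0) :
    lor u v ^ 2 ≤ lor u u * lor v v := by
  have := discrim_le_zero (a := lor v v) (b := 2 * lor u v) (c := lor u u) fun t => by
    have h := lor_self_nonneg (u := u + t • v) hx (by simp [hu, hv])
    simp only [lor_add_left, lor_add_right, lor_smul_left, lor_smul_right, lor_comm v u] at h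
    linarith
  rw [discrim] at this
  linarith
lemma Lor_dist {x y m : V} (hx : Fut x) (hy : Cone y) (hy' : lor y y < 0) (hm : lor m m = 1)
    (h1 : lor x m ≤ 0) (h2 : 0 ≤ lor y m) : (1 + lor x m ^ 2) * -lor y y ≤ lor x y ^ 2 := by
  obtain ⟨a, a0⟩ := proj_timelike hx hm
  have b : lor (y - lor y m • m) (y - lor y m • m) = lor y y - lor y m ^ 2 := by
    simp only [lor_sub_left, lor_sub_right, lor_smul_left, lor_smul_right, hm, lor_comm m y]
    ring
  have b' : lor y (y - lor y m • m) < 0 := by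
    simp only [lor_sub_right, lor_smul_right]
    nlinarith
  have a1 : lor (x - lor x m • m) (x - lor x m • m) ≤ 0 := by rw [a]; nlinarith
  have b1 : lor (y - lor y m • m) (y - lor y m • m) ≤ 0 := by rw [b]; nlinarith
  have c := lor_cone_nonpos ⟨a1, a0⟩ ⟨b1, pos_of_lor_neg hy b1 b'⟩
  have d := lor_rev_cs a1 b1
  have e : lor (x - lor x m • m) (y - lor y m • m) = lor x y - lor x m * lor y m := by
    simp only [lor_sub_left, lor_sub_right, lor_smul_left, lor_smul_right, hm, lor_comm m y]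
    ring
  rw [a, b, e] at d
  rw [e] at c
  have f := mul_nonpos_of_nonpos_of_nonneg h1 h2
  nlinarith [mul_nonneg_of_nonpos_of_nonpos f c, mul_nonneg (sq_nonneg (lor x m)) (sq_nonneg (lor y m)),
    sq_nonneg (lor y m), sq_nonneg (lor x m * lor y m)]
/-- Disjoint half-spaces. -/
lemma lor_sep {b m x y : V} (hb : lor b b = 1) (hm : lor m m = 1) (h : lor b m < -1)
    (hx : Cone x) (hxb : lor x b < 0) (hxm : lor x m ≤ 0) (hy : Cone y) (hym : 0 ≤ lor y m) :
    lor y b < 0 := by
  have a : lor (b - lor b m • m) (b - lor b m • m) < 0 := by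
    simp only [lor_sub_left, lor_sub_right, lor_smul_left, lor_smul_right, hm, hb, lor_comm m b]
    nlinarith
  have c := lor_cone_neg hy a (pos_of_lor_neg hx a.le (by
    simp only [lor_sub_right, lor_smul_right]
    nlinarith))
  simp only [lor_sub_right, lor_smul_right] at c
  nlinarith
/-- Half-spaces on the two sides of a wall `m`. -/
lemma lor_nest {b b' m : V} (hb : lor b b = 1) (hb' : lor b' b' = 1) (hm : lor m m = 1)
    (h : lor b m ≤ -2) (h1 : ∀ y, Cone y → 0 ≤ lor y m → lor y b < 0)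
    (h2 : ∀ y, Cone y → 0 ≤ lor y b' → 0 < lor y m) : lor b b' ≤ -2 := by
  obtain ⟨pp, p0⟩ := proj_timelike fut_vo hm
  have pm : lor (vo - lor vo m • m) m = 0 := by simp [hm]
  generalize vo - lor vo m • m = p at pp p0 pm
  have pn : lor p p < 0 := by rw [pp]; nlinarith
  have hp : Cone p := ⟨pn.le, p0⟩
  have key : ∀ y, Cone y → lor y m = 0 → lor y b' < 0 := fun y hy e =>
    not_le.1 fun c => (h2 y hy c).ne' e
  have a : lor (b - lor b m • m) (b - lor b m • m) ≤ 0 := by
    simp only [lor_sub_left, lor_sub_right, lor_smul_left, lor_smul_right, hm, hb, lor_comm m b]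
    nlinarith
  have c := key _ ⟨a, pos_of_lor_neg hp a (by simpa [pm] using h1 p hp pm.ge)⟩ (by simp [hm])
  simp only [lor_sub_left, lor_smul_left] at c
  have d : 1 ≤ lor m b' := by
    by_contra d
    rw [not_le] at d
    have e := key p hp pm
    have uu : lor (b' - lor m b' • m) (b' - lor m b' • m) = 1 - lor m b' ^ 2 := by
      simp only [lor_sub_left, lor_sub_right, lor_smul_left, lor_smul_right, hm, hb',
        lor_comm b' m]
      ring
    have um : lor (b' - lor m b' • m) m = 0 := by simp [hm, lor_comm b' m]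
    have ub : lor (b' - lor m b' • m) b' = 1 - lor m b' ^ 2 := by
      simp only [lor_sub_left, lor_smul_left, hb']
      ring
    have pu : lor p (b' - lor m b' • m) = lor p b' := by simp [pm]
    generalize b' - lor m b' • m = u at uu um ub pu
    rcases le_or_gt (lor m b') (-1) with f | f
    · have u1 : lor u u ≤ 0 := by rw [uu]; nlinarith
      have hu : Cone u := ⟨u1, pos_of_lor_neg hp u1 (pu ▸ e)⟩
      have g := key u hu um
      rw [ub] at g
      have z : lor (m - lor m b' • b') (m - lor m b' • b') ≤ 0 := by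
        simp only [lor_sub_left, lor_sub_right, lor_smul_left, lor_smul_right, hm, hb',
          lor_comm b' m]
        nlinarith
      have := h2 _ ⟨z, pos_of_lor_neg hu z (by
        simp only [lor_sub_right, lor_smul_right, um, ub]
        nlinarith)⟩ (by simp [hb'])
      simp only [lor_sub_left, lor_smul_left, hm, lor_comm b' m] at this
      nlinarith
    · have k : 0 < lor u u := by rw [uu]; nlinarith
      have k1 : lor u u * lor p p - lor p u ^ 2 < 0 := by nlinarith [mul_pos k (neg_pos.2 pn)]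
      have z : lor (lor u u • p - lor p u • u) (lor u u • p - lor p u • u) ≤ 0 := by
        simp only [lor_sub_left, lor_sub_right, lor_smul_left, lor_smul_right, lor_comm u p]
        nlinarith [mul_pos k (neg_pos.2 k1)]
      have := key _ ⟨z, pos_of_lor_neg hp z (by
        simp only [lor_sub_right, lor_smul_right]
        nlinarith)⟩ (by simp [pm, um])
      simp only [lor_sub_left, lor_smul_left, ub, uu, pu] at this
      nlinarith
  nlinarith
/-- Crossing a far wall lowers the depth by one. -/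
lemma lor_drop {y m n : V} (hy : Fut y) (hm : lor m m = 1) (hn : lor n n = 1)
    (h : lor n m ≤ -2) (hs : ∀ y', Cone y' → 0 ≤ lor y' n → lor y' m < 0) (hyn : 0 ≤ lor y n) :
    lor y n + 1 ≤ -lor y m := by
  obtain ⟨pp, p0⟩ := proj_timelike hy hn
  have p1 : lor (y - lor y n • n) (y - lor y n • n) ≤ 0 := by rw [pp]; nlinarith
  have a := hs _ ⟨p1, p0⟩ (by simp [hn])
  have uu : lor (m - lor n m • n) (m - lor n m • n) = 1 - lor n m ^ 2 := by
    simp only [lor_sub_left, lor_sub_right, lor_smul_left, lor_smul_right, hm, hn, lor_comm m n]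
    ring
  have b := lor_rev_cs p1 (v := m - lor n m • n) (by rw [uu]; nlinarith)
  have e : lor (y - lor y n • n) (m - lor n m • n) = lor (y - lor y n • n) m := by simp [hn]
  rw [pp, uu, e] at b
  have c : lor (y - lor y n • n) m ≤ -1 := by
    have : 3 ≤ lor n m ^ 2 - 1 := by nlinarith
    nlinarith [mul_nonneg (sq_nonneg (lor y n)) (show 0 ≤ lor n m ^ 2 - 1 by linarith)]
  simp only [lor_sub_left, lor_smul_left] at c
  nlinarith
lemma lor_dist {x y m : V} (hx : Fut x) (hy : Fut y) (hm : lor m m = 1) (h1 : lor x m ≤ 0)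
    (h2 : 0 ≤ lor y m) : lor x m ^ 2 ≤ lor x y ^ 2 - 1 := by
  have := Lor_dist hx hy.cone (by rw [hy.1]; norm_num) hm h1 h2
  rw [hy.1] at this
  linarith
lemma lor_proj {x m m' : V} (hx : Fut x) (hm : lor m m = 1) (hm' : lor m' m' = 1)
    (h : 0 ≤ lor (x - lor x m • m) m') : -|lor x m| ≤ lor x m' := by
  obtain ⟨pp, p0⟩ := proj_timelike hx hm
  have p1 : lor (x - lor x m • m) (x - lor x m • m) < 0 := by rw [pp]; nlinarith
  rcases le_total 0 (lor x m') with c | c
  · linarith [abs_nonneg (lor x m)]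
  have a := Lor_dist hx ⟨p1.le, p0⟩ p1 hm' c h
  have e : lor x (x - lor x m • m) = -(1 + lor x m ^ 2) := by
    simp only [lor_sub_right, lor_smul_right, hx.1]
    ring
  rw [pp, e] at a
  refine (abs_le_of_sq_le_sq' ?_ (abs_nonneg _)).1
  rw [sq_abs]
  have k : 0 < 1 + lor x m ^ 2 := by positivity
  refine le_of_mul_le_mul_right ?_ k
  nlinarith
lemma abs_lor_unit_le {x m m' : V} (hx : Fut x) (hm : lor m m = 1) (hm' : lor m' m' = 1) :
    |lor m m'| ≤ √(1 + lor x m ^ 2) * √(1 + lor x m' ^ 2) + |lor x m| * |lor x m'| := by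
  have a := Lor_orth (u := m + lor x m • x) (v := m' + lor x m' • x) hx.cone (by simp [hx.1])
    (by simp [hx.1])
  simp only [lor_add_left, lor_add_right, lor_smul_left, lor_smul_right, hm, hm', hx.1,
    lor_comm m x, lor_comm m' x] at a
  have b : |lor m m' + lor x m * lor x m'| ≤ √((1 + lor x m ^ 2) * (1 + lor x m' ^ 2)) :=
    Real.abs_le_sqrt (by nlinarith)
  rw [Real.sqrt_mul (by positivity)] at b
  have := abs_sub (lor m m' + lor x m * lor x m') (lor x m * lor x m')
  rw [add_sub_cancel_right, abs_mul] at this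
  linarith
lemma norm_le_of_lor (C A R : ℝ) : ∃ D : ℝ, ∀ x m : V, Fut x → x 0 ≤ C → |lor m m| ≤ A →
    |lor x m| ≤ R → ‖m‖ ≤ D := by
  refine ⟨1 + C * C * (A + R * R) + R * C, fun x m hx h1 h2 h3 => ?_⟩
  have xu : lor x (m + lor x m • x) = 0 := by simp [hx.1]
  have uu : lor (m + lor x m • x) (m + lor x m • x) ≤ A + R * R := by
    simp only [lor_add_left, lor_add_right, lor_smul_left, lor_smul_right, hx.1, lor_comm m x]
    nlinarith [abs_le.1 h2, abs_le.1 h3]
  have u0 := lor_self_nonneg hx.cone xu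
  have e : m = (m + lor x m • x) - lor x m • x := by simp
  generalize m + lor x m • x = u at xu uu u0 e
  have x1 := hx.one_le
  have n1 : ‖u‖ ≤ 1 + C * C * (A + R * R) := by
    have k : x 0 * x 0 * lor u u ≤ C * C * (A + R * R) :=
      mul_le_mul (by nlinarith) uu u0 (mul_self_nonneg _)
    have c := Lor_cs x u
    have a := hx.1
    have k0 : 0 ≤ x 0 * x 0 * lor u u := mul_nonneg (mul_self_nonneg _) u0
    unfold lor at *
    rw [show x 1 * u 1 + x 2 * u 2 + x 3 * u 3 = x 0 * u 0 by linarith,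
      show x 1 * x 1 + x 2 * x 2 + x 3 * x 3 = x 0 * x 0 - 1 by linarith] at c
    have d : u 1 * u 1 + u 2 * u 2 + u 3 * u 3 ≤ C * C * (A + R * R) := by nlinarith
    have key : ∀ t K : ℝ, t * t ≤ K → |t| ≤ 1 + K := fun t K h =>
      abs_le.2 ⟨by nlinarith, by nlinarith⟩
    refine (pi_norm_le_iff_of_nonneg (by linarith)).2 fun i => key _ _ ?_
    fin_cases i <;> simp only [Fin.zero_eta, Fin.mk_one, Fin.reduceFinMk, Fin.isValue] <;>
      nlinarith [mul_self_nonneg (u 1), mul_self_nonneg (u 2), mul_self_nonneg (u 3)]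
  have n2 : ‖lor x m • x‖ ≤ R * C := by
    rw [norm_smul]
    exact mul_le_mul h3 (hx.norm_le.trans h1) (norm_nonneg _) ((abs_nonneg _).trans h3)
  calc ‖m‖ = ‖u - lor x m • x‖ := congrArg _ e
    _ ≤ _ := (norm_sub_le _ _).trans (add_le_add n1 n2)
lemma abs_lor_null_le {y b b' : V} (hy : Cone y) (hb : lor b b = 1) (hb' : lor b' b' = 1)
    (h : lor y b = 0) (h' : lor y b' = 0) : |lor b b'| ≤ 1 := by
  have := Lor_orth hy h h'
  rw [hb, hb', mul_one] at this
  exact (sq_le_one_iff_abs_le_one _).1 this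
lemma lor_ne_zero_of_far {y m d : V} (hy : Cone y) (hm : lor m m = 1) (hd : lor d d = 1)
    (h : 1 < |lor m d|) (hyd : lor y d = 0) : lor y m ≠ 0 := 
  fun e => (abs_lor_null_le hy hm hd e hyd).not_gt h
lemma locFin_of_sep {W : Set V} (unit : ∀ m ∈ W, lor m m = 1)
    (sep : ∀ m ∈ W, ∀ m' ∈ W, m' = m ∨ m' = -m ∨ 2 ≤ |lor m m'|) : LocFin W := by
  intro C
  have p : 0 < 1 / (8 * |C| + 8) := by positivity
  obtain ⟨t, ht, hc⟩ := Metric.totallyBounded_iff.1
    (isCompact_closedBall (0 : V) C).totallyBounded _ p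
  refine (ht.biUnion (t := fun y => {m ∈ W | ‖m‖ ≤ C} ∩ Metric.ball y (1 / (8 * |C| + 8)))
    fun y _ => Set.Subsingleton.finite fun m hm m' hm' => ?_).subset fun m hm => ?_
  · have d := dist_triangle_right m' m y
    have d1 := Metric.mem_ball.1 hm.2
    have d2 := Metric.mem_ball.1 hm'.2
    rw [dist_eq_norm] at d
    have a := abs_lor_le m (m' - m)
    have b : 4 * ‖m‖ * ‖m' - m‖ ≤ 4 * |C| * (2 * (1 / (8 * |C| + 8))) :=
      mul_le_mul (by linarith [hm.1.2, le_abs_self C]) (by linarith) (norm_nonneg _)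
        (by positivity)
    have c : 4 * |C| * (2 * (1 / (8 * |C| + 8))) < 1 := by
      rw [← mul_assoc, mul_one_div, div_lt_one (by positivity)]
      linarith
    rw [lor_sub_right, unit m hm.1.1] at a
    obtain ⟨a1, a2⟩ := abs_lt.1 ((a.trans b).trans_lt c)
    rcases sep m hm.1.1 m' hm'.1.1 with e | e | e
    · exact e.symm
    · rw [e, lor_neg_right, unit m hm.1.1] at a1
      linarith
    · rw [abs_of_pos (by linarith)] at e
      linarith
  · obtain ⟨y, hy, h⟩ := mem_iUnion₂.1 (hc (mem_closedBall_zero_iff.2 hm.2))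
    exact mem_iUnion₂.2 ⟨y, hy, hm, h⟩

end Pool.Agent.MP_7a4cc0_an
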