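import Pool.Agent.MP_7a4cc0_an.FinRep

open Matrix MeasureTheory Set Topology Filter
open scoped ENNReal NNReal CompactlySupported

namespace Pool.Agent.MP_7a4cc0_an

/-- Two pieces glued along a door, indexed by the side. -/
structure MaskitData (ds : Bool → V) (Gs : Bool → Subgroup G) (Bs : Bool → Set V) (R₀ : ℝ) :
    Prop where
  unit : ∀ s, lor (ds s) (ds s) = 1
  base : ∀ s, lor vo (ds s) = 0
  opp : ∀ s, ds (!s) = -ds s
  pc : ∀ s, Piece (ds s) (Gs s) (Bs s) R₀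
  stab : ∀ s g, g ∈ Gs s → rho g (ds s) = ds s → g ∈ Gs (!s)

/-- Reduced words starting with a letter of the given side. -/
inductive MaskitRed (ds : Bool → V) (Gs : Bool → Subgroup G) : Bool → G → Prop
  | base (s : Bool) (g : G) : g ∈ Gs s → rho g (ds s) ≠ ds s → MaskitRed ds Gs s g
  | step (s : Bool) (g h : G) : g ∈ Gs s → rho g (ds s) ≠ ds s → MaskitRed ds Gs (!s) h →
      MaskitRed ds Gs s (g * h)

/-- The open tile of a side. -/
def MaskitInt (ds : Bool → V) (Gs : Bool → Subgroup G) (s : Bool) : Set V :=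
  {y | Cone y ∧ ∀ g ∈ Gs s, lor y (rho g (ds s)) < 0}

/-- The common stabiliser of the door. -/
def MaskitFix (ds : Bool → V) (Gs : Bool → Subgroup G) (g : G) : Prop :=
  ∀ s, g ∈ Gs s ∧ rho g (ds s) = ds s

/-- All black normals. -/
def MaskitB (Gs : Bool → Subgroup G) (Bs : Bool → Set V) : Set V :=
  {b | ∃ h ∈ Gs true ⊔ Gs false, ∃ s, ∃ β ∈ Bs s, rho h β = b}

lemma maskit_bool (s s' : Bool) : s' = s ∨ s' = !s := by cases s <;> cases s' <;> simp

namespace MaskitData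

variable {ds : Bool → V} {Gs : Bool → Subgroup G} {Bs : Bool → Set V} {R₀ : ℝ}

lemma orb_mem {s : Bool} {g : G} (hg : g ∈ Gs s) : rho g (ds s) ∈ Bs s ∪ orb (Gs s) (ds s) :=
  Or.inr ⟨g, hg, rfl⟩

lemma door_mem (s : Bool) : ds s ∈ Bs s ∪ orb (Gs s) (ds s) :=
  Or.inr ⟨1, one_mem _, rho_one _⟩

lemma le_sup (s : Bool) : Gs s ≤ Gs true ⊔ Gs false := by
  cases s
  · exact le_sup_right
  · exact le_sup_left

variable (M : MaskitData ds Gs Bs R₀)
include M

lemma fix {s : Bool} {g : G} (hg : g ∈ Gs s) (h : rho g (ds s) = ds s) : MaskitFix ds Gs g := by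
  intro s'
  rcases maskit_bool s s' with rfl | rfl
  · exact ⟨hg, h⟩
  · exact ⟨M.stab s g hg h, by rw [M.opp, map_neg, h]⟩

lemma sub {s : Bool} {m m' : V} (hm : m ∈ Bs s ∪ orb (Gs s) (ds s))
    (hm' : m' ∈ Bs s ∪ orb (Gs s) (ds s)) (hne : m ≠ m') {y : V} (hy : Cone y)
    (h0 : 0 ≤ lor y m) : lor y m' < 0 :=
  (M.pc s).sub (M.unit s) (M.base s) hm hm' hne hy h0

lemma ne_orb {s : Bool} {b : V} (hb : b ∈ Bs s) {g : G} (hg : g ∈ Gs s) : b ≠ rho g (ds s) :=
  fun e => (M.pc s).not_mem_orb (M.unit s) hb ⟨g, hg, e.symm⟩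

lemma flip {s : Bool} {y : V} (h : lor y (ds (!s)) < 0) : 0 < lor y (ds s) := by
  rw [M.opp, lor_neg_right] at h
  linarith

lemma neg_of_cases {s s2 : Bool} {h : G}
    (H : (s2 = s ∧ h ∈ Gs s) ∨ ∃ g ∈ Gs s, rho g (ds s) ≠ ds s ∧
      ∀ y ∈ MaskitInt ds Gs s2, 0 < lor (rho h y) (rho g (ds s)))
    {y : V} (hy : y ∈ MaskitInt ds Gs s2) : lor (rho h y) (ds s) < 0 := by
  rcases H with ⟨rfl, hh⟩ | ⟨g, hg, hne, H⟩
  · rw [lor_rho_left]
    exact hy.2 _ (inv_mem hh)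
  · exact M.sub (orb_mem hg) (door_mem s) hne (rho_cone h hy.1) (H y hy).le

lemma red_cases {s : Bool} {h : G} (hr : MaskitRed ds Gs s h) (s2 : Bool) :
    (s2 = s ∧ h ∈ Gs s) ∨ ∃ g ∈ Gs s, rho g (ds s) ≠ ds s ∧
      ∀ y ∈ MaskitInt ds Gs s2, 0 < lor (rho h y) (rho g (ds s)) := by
  induction hr with
  | base s g hg hne =>
    rcases maskit_bool s s2 with rfl | rfl
    · exact Or.inl ⟨rfl, hg⟩
    · refine Or.inr ⟨g, hg, hne, fun y hy => ?_⟩
      rw [lor_rho]
      exact M.flip (by simpa using hy.2 1 (one_mem _))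
  | step s g h hg hne _ ih =>
    refine Or.inr ⟨g, hg, hne, fun y hy => ?_⟩
    rw [rho_mul, lor_rho]
    exact M.flip (M.neg_of_cases ih hy)

omit M in
lemma fix_mul_red {δ : G} (hδ : MaskitFix ds Gs δ) {s : Bool} {h : G}
    (hr : MaskitRed ds Gs s h) : MaskitRed ds Gs s (δ * h) := by
  have key : ∀ s g, rho g (ds s) ≠ ds s → rho (δ * g) (ds s) ≠ ds s := fun s g hne e => by
    refine hne ?_
    have := congrArg (rho δ⁻¹) (e.trans (hδ s).2.symm)
    rwa [rho_mul, rho_inv_rho, rho_inv_rho] at this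
  cases hr with
  | base _ _ hg hne => exact .base s _ (mul_mem (hδ s).1 hg) (key s _ hne)
  | step _ g h hg hne hr =>
    rw [← mul_assoc]
    exact .step s _ h (mul_mem (hδ s).1 hg) (key s g hne) hr

lemma mul_nf {s : Bool} {g : G} (hg : g ∈ Gs s) {h : G}
    (H : MaskitFix ds Gs h ∨ ∃ s, MaskitRed ds Gs s h) :
    MaskitFix ds Gs (g * h) ∨ ∃ s, MaskitRed ds Gs s (g * h) := by
  have one : ∀ g ∈ Gs s, MaskitFix ds Gs g ∨ ∃ s, MaskitRed ds Gs s g := fun g hg => by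
    by_cases e : rho g (ds s) = ds s
    · exact Or.inl (M.fix hg e)
    · exact Or.inr ⟨s, .base s g hg e⟩
  have two : ∀ g ∈ Gs s, ∀ h, MaskitRed ds Gs (!s) h → ∃ s, MaskitRed ds Gs s (g * h) :=
    fun g hg h hr => by
    by_cases e : rho g (ds s) = ds s
    · exact ⟨_, fix_mul_red (M.fix hg e) hr⟩
    · exact ⟨s, .step s g h hg e hr⟩
  rcases H with H | ⟨s', H⟩
  · exact one _ (mul_mem hg (H s).1)
  · rcases maskit_bool s s' with rfl | rfl
    · cases H with
      | base _ _ hg' _ => exact one _ (mul_mem hg hg')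
      | step _ g' h' hg' _ hr =>
        rw [← mul_assoc]
        exact Or.inr (two _ (mul_mem hg hg') _ hr)
    · exact Or.inr (two g hg h H)

lemma nf {h : G} (hh : h ∈ Gs true ⊔ Gs false) :
    MaskitFix ds Gs h ∨ ∃ s, MaskitRed ds Gs s h := by
  rw [Subgroup.sup_eq_closure] at hh
  induction hh using Subgroup.closure_induction_left with
  | one => exact Or.inl fun s => ⟨one_mem _, rho_one _⟩
  | mul_left x hx y _ ih =>
    rcases hx with hx | hx
    · exact M.mul_nf hx ih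
    · exact M.mul_nf hx ih
  | inv_mul_cancel x hx y _ ih =>
    rcases hx with hx | hx
    · exact M.mul_nf (inv_mem hx) ih
    · exact M.mul_nf (inv_mem hx) ih

/-- The tile lemma. -/
lemma tile {h : G} (hh : h ∈ Gs true ⊔ Gs false) (s s2 : Bool) : (s2 = s ∧ h ∈ Gs s) ∨
    ∃ g ∈ Gs s, ∀ y ∈ MaskitInt ds Gs s2, 0 < lor (rho h y) (rho g (ds s)) := by
  rcases M.nf hh with H | ⟨s', H⟩
  · rcases maskit_bool s s2 with rfl | rfl
    · exact Or.inl ⟨rfl, (H _).1⟩
    · refine Or.inr ⟨h, (H s).1, fun y hy => ?_⟩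
      rw [lor_rho]
      exact M.flip (by simpa using hy.2 1 (one_mem _))
  · rcases maskit_bool s s' with rfl | rfl
    · rcases M.red_cases H s2 with H | ⟨g, hg, -, H⟩
      · exact Or.inl H
      · exact Or.inr ⟨g, hg, H⟩
    · refine Or.inr ⟨1, one_mem _, fun y hy => ?_⟩
      rw [rho_one]
      exact M.flip (M.neg_of_cases (M.red_cases H s2) hy)

lemma mem_int {s : Bool} {β y : V} (hβ : β ∈ Bs s) (hy : Cone y) (h0 : 0 ≤ lor y β) :
    y ∈ MaskitInt ds Gs s :=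
  ⟨hy, fun _ hg => M.sub (Or.inl hβ) (orb_mem hg) (M.ne_orb hβ hg) hy h0⟩

lemma black_cases {h : G} (hh : h ∈ Gs true ⊔ Gs false) (s : Bool) {s2 : Bool} {β : V}
    (hβ : β ∈ Bs s2) : rho h β ∈ Bs s ∨
      ∃ g ∈ Gs s, ∀ y, Cone y → 0 ≤ lor y (rho h β) → 0 < lor y (rho g (ds s)) := by
  rcases M.tile hh s s2 with ⟨rfl, H⟩ | ⟨g, hg, H⟩
  · exact Or.inl ((M.pc _).inv h H β hβ)
  · refine Or.inr ⟨g, hg, fun y hy h0 => ?_⟩
    rw [lor_rho_right] at h0
    simpa using H _ (M.mem_int hβ (rho_cone _ hy) h0)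

lemma mem_side {s : Bool} {y b : V} (hy : Cone y) (H : ∀ g ∈ Gs s, lor y (rho g (ds s)) ≤ 0)
    (hb : b ∈ MaskitB Gs Bs) (h0 : 0 ≤ lor y b) : b ∈ Bs s := by
  obtain ⟨h, hh, s2, β, hβ, rfl⟩ := hb
  rcases M.black_cases hh s hβ with H1 | ⟨g, hg, H1⟩
  · exact H1
  · exact absurd (H g hg) (H1 y hy h0).not_ge

lemma sep {b b' : V} (hb : b ∈ MaskitB Gs Bs) (hb' : b' ∈ MaskitB Gs Bs) (hne : b ≠ b') :
    lor b b' ≤ -2 := by
  obtain ⟨h, hh, s, β, hβ, rfl⟩ := hb
  obtain ⟨h', hh', s', β', hβ', rfl⟩ := hb'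
  rw [lor_rho_left, ← rho_mul]
  rcases M.black_cases (mul_mem (inv_mem hh) hh') s hβ' with H | ⟨g, hg, H⟩
  · refine (M.pc s).sep _ hβ _ H fun e => hne ?_
    rw [e, rho_mul, rho_rho_inv]
  · exact lor_nest ((M.pc s).unit _ hβ) (by rw [lor_rho]; exact (M.pc s').unit _ hβ')
      (by rw [lor_rho]; exact M.unit s)
      ((M.pc s).sep' (Or.inl hβ) (orb_mem hg) (M.ne_orb hβ hg))
      (fun y hy h0 => M.sub (orb_mem hg) (Or.inl hβ) (M.ne_orb hβ hg).symm hy h0) H

lemma cover {x : V} (hx : Fut x) : ∃ h ∈ Gs true ⊔ Gs false, ∃ s,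
    ∀ g ∈ Gs s, lor (rho h x) (rho g (ds s)) ≤ 0 := by
  let A : Set ℝ := {r | ∃ h ∈ Gs true ⊔ Gs false, |lor (rho h x) (ds true)| = r}
  have A0 : A.Nonempty := ⟨_, 1, one_mem _, rfl⟩
  have Ab : BddBelow A := ⟨0, by rintro _ ⟨h, -, rfl⟩; exact abs_nonneg _⟩
  obtain ⟨_, ⟨h, hh, rfl⟩, hlt⟩ := exists_lt_of_csInf_lt A0 (lt_add_one (sInf A))
  have ab : ∀ s y, |lor y (ds true)| = |lor y (ds s)| := fun s y => by
    cases s
    · rw [show ds false = ds (!true) from rfl, M.opp, lor_neg_right, abs_neg]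
    · rfl
  obtain ⟨s, hs⟩ : ∃ s, lor (rho h x) (ds s) ≤ 0 := by
    rcases le_total (lor (rho h x) (ds true)) 0 with H | H
    · exact ⟨true, H⟩
    · exact ⟨!true, by rw [M.opp, lor_neg_right]; linarith⟩
  refine ⟨h, hh, s, fun g hg => ?_⟩
  by_contra hn
  have hn := not_le.1 hn
  have hne : rho g (ds s) ≠ ds s := fun e => by rw [e] at hn; linarith
  have h1 := lor_drop (rho_fut h hx) (M.unit s) (by rw [lor_rho]; exact M.unit s)
    (((M.pc s).door g hg).resolve_left hne).1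
    (fun y hy h0 => M.sub (orb_mem hg) (door_mem s) hne hy h0) hn.le
  have h2 := csInf_le Ab (⟨g⁻¹ * h, mul_mem (inv_mem (le_sup s hg)) hh, rfl⟩ :
    |lor (rho (g⁻¹ * h) x) (ds true)| ∈ A)
  rw [ab s, rho_mul, ← lor_rho_right, abs_of_pos hn] at h2
  rw [ab s, abs_of_nonpos hs] at hlt
  linarith

lemma disc : DiscreteTopology (Gs true ⊔ Gs false : Subgroup G) := by
  obtain ⟨U, hU, hU'⟩ := (M.pc true).disc
  have u1 := M.unit true
  have u2 := M.base true
  have u3 : lor (ds true) vo = 0 := by rw [lor_comm, u2]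
  have u4 : lor vo vo = -1 := fut_vo.1
  set o : V := (5 / 4 : ℝ) • vo - (3 / 4 : ℝ) • ds true with ho
  have o1 : Fut o := by
    refine ⟨by simp [ho, u1, u2, u3, u4]; norm_num, ?_⟩
    have := lor_vo_left o
    simp only [ho, lor_sub_right, lor_smul_right, u2, u4] at this
    rw [ho]
    linarith
  have o2 : ∀ g ∈ Gs true, lor o (rho g (ds true)) ≤ -1 / 2 := fun g hg => by
    rcases (M.pc true).door g hg with e | ⟨e1, e2⟩
    · rw [e]; simp [ho, u1, u2]; norm_num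
    · set n := rho g (ds true) with hn
      have n1 : lor n n = 1 := by rw [hn, lor_rho, u1]
      have n2 := lor_self_nonneg (u := n + lor vo n • vo - lor n (ds true) • ds true) fut_vo.cone
        (by simp [u2, u4])
      simp only [lor_sub_left, lor_sub_right, lor_add_left, lor_add_right, lor_smul_left,
        lor_smul_right, n1, u1, u2, u3, u4, lor_comm n vo, lor_comm (ds true) n] at n2
      simp only [ho, lor_sub_left, lor_smul_left, lor_comm (ds true) n]
      by_contra hc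
      have hc := not_le.1 hc
      nlinarith
  have c1 : Continuous fun h : G => lor o (rho h o) ^ 2 - 1 :=
    ((continuous_lor.comp (continuous_const.prodMk (continuous_rho_left o))).pow 2).sub
      continuous_const
  have c2 : ∀ᶠ h : G in 𝓝 1, lor o (rho h o) ^ 2 - 1 < 1 / 4 :=
    c1.continuousAt.eventually_lt_const (by simp [o1.1])
  refine discreteTopology_of_isOpen_singleton_one (isOpen_iff_mem_nhds.2 ?_)
  rintro _ rfl
  have c3 := continuous_subtype_val.continuousAt (x := (1 : (Gs true ⊔ Gs false : Subgroup G)))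
    (c2.and hU)
  filter_upwards [c3]
  rintro ⟨h, hh⟩ ⟨a1, a2⟩
  refine Subtype.ext (hU' h ?_ a2)
  rcases M.tile hh true true with H | ⟨g, hg, H⟩
  · exact H.2
  · have b1 := lor_dist o1 (rho_fut h o1) (m := rho g (ds true)) (by rw [lor_rho, u1])
      (by linarith [o2 g hg]) (H o ⟨o1.cone, fun g hg => by linarith [o2 g hg]⟩).le
    nlinarith [o2 g hg]

theorem geo (hp : lor xp (ds true) = 0) : Geo (Gs true ⊔ Gs false) (MaskitB Gs Bs) R₀ where
  nonneg := (M.pc true).nonneg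
  unit := by
    rintro _ ⟨h, -, s, β, hβ, rfl⟩
    rw [lor_rho]
    exact (M.pc s).unit β hβ
  inv := by
    rintro γ hγ _ ⟨h, hh, s, β, hβ, rfl⟩
    exact ⟨γ * h, mul_mem hγ hh, s, β, hβ, rho_mul _ _ _⟩
  sep := fun _ hb _ hb' => M.sep hb hb'
  neg := fun b hb => by
    by_contra hn
    refine hn ((M.pc true).neg b (M.mem_side fut_vo.cone (fun g hg => ?_) hb (not_lt.1 hn)))
    rcases (M.pc true).door g hg with e | e
    · rw [e, M.base]
    · exact e.2.le
  negp := fun b hb => by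
    by_contra hn
    have h1 : b ∈ Bs true := by
      refine M.mem_side cone_xp (fun g hg => ?_) hb (not_le.1 hn).le
      by_cases e : rho g (ds true) = ds true
      · rw [e, hp]
      · exact (M.sub (door_mem true) (orb_mem hg) (Ne.symm e) cone_xp hp.ge).le
    have h2 := M.ne_orb h1 (one_mem _)
    rw [rho_one] at h2
    exact hn (M.sub (door_mem true) (Or.inl h1) h2.symm cone_xp hp.ge).le
  disc := M.disc
  cocpt := by
    choose C hC using fun s => (M.pc s).cocpt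
    refine ⟨max (C true) (C false), fun x hx H => ?_⟩
    obtain ⟨h, hh, s, hs⟩ := M.cover hx
    obtain ⟨g, hg, hg'⟩ := hC s _ (rho_fut h hx) (fun β hβ => by
      rw [lor_rho_left]; exact H _ ⟨_, inv_mem hh, s, β, hβ, rfl⟩) hs
    refine ⟨g * h, mul_mem (le_sup s hg) hh, ?_⟩
    rw [rho_mul]
    refine hg'.trans ?_
    cases s
    · exact le_max_right _ _
    · exact le_max_left _ _
  porous := fun x hx => by
    obtain ⟨h, hh, s, hs⟩ := M.cover hx
    obtain ⟨β, hβ, hβ'⟩ : ∃ β ∈ Bs s, -R₀ ≤ lor (rho h x) β := by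
      by_cases H : ∀ β ∈ Bs s, lor (rho h x) β ≤ 0
      · exact (M.pc s).porous _ (rho_fut h hx) H hs
      · push Not at H
        obtain ⟨β, hβ, hβ'⟩ := H
        exact ⟨β, hβ, by linarith [(M.pc s).nonneg]⟩
    exact ⟨_, ⟨_, inv_mem hh, s, β, hβ, rfl⟩, by rwa [← lor_rho_left]⟩

end MaskitData

/-- Combination of two pieces along the door `d`. -/
theorem maskit {d : V} (hd : lor d d = 1) (hdo : lor vo d = 0) (hdp : lor xp d = 0)
    {Ga Gb : Subgroup G} {Ba Bb : Set V} {R₀ : ℝ} (ha : Piece d Ga Ba R₀)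
    (hb : Piece (-d) Gb Bb R₀) (hab : ∀ g : G, rho g d = d → (g ∈ Ga ↔ g ∈ Gb)) :
    ∃ B : Set V, Geo (Ga ⊔ Gb) B R₀ ∧ ∀ x, Fut x → (∀ b ∈ Ba, lor x b ≤ 0) →
      (∀ g ∈ Ga, lor x (rho g d) ≤ 0) → ∀ b ∈ B, lor x b ≤ 0 := by
  have M : MaskitData (fun s => cond s d (-d)) (fun s => cond s Ga Gb) (fun s => cond s Ba Bb)
      R₀ := by
    refine ⟨fun s => ?_, fun s => ?_, fun s => ?_, fun s => ?_, fun s g hg h => ?_⟩
    · cases s <;> simp [hd]
    · cases s <;> simp [hdo]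
    · cases s <;> simp
    · cases s
      · exact hb
      · exact ha
    · cases s
      · exact (hab g (by simpa using h)).2 hg
      · exact (hab g h).1 hg
  refine ⟨_, M.geo hdp, fun x hx h1 h2 b hb => ?_⟩
  by_contra hn
  exact hn (h1 b (M.mem_side (s := true) hx.cone h2 hb (not_le.1 hn).le))

end Pool.Agent.MP_7a4cc0_an
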