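import Pool.Agent.MP_7a4cc0_an.FinRep
import Pool.Agent.MP_7a4cc0_an.Form

open Matrix MeasureTheory Set Topology Filter
open scoped ENNReal NNReal CompactlySupported

namespace Pool.Agent.MP_7a4cc0_an

/-- The equidistant curve of the axis inside the plane of `H`. -/
noncomputable def nonClosedX (T s : ℝ) : V :=
  √(1 + T ^ 2) • (s • xp + s⁻¹ • xm) - T • ey

lemma nonClosedX_lor (T s : ℝ) (m : V) : lor (nonClosedX T s) m =
    √(1 + T ^ 2) * (s * lor xp m + s⁻¹ * lor xm m) - T * lor ey m := by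
  simp only [nonClosedX, lor_sub_left, lor_smul_left, lor_add_left]

lemma nonClosedX_fut (T : ℝ) {s : ℝ} (hs : 0 < s) : Fut (nonClosedX T s) := by
  have hk : √(1 + T ^ 2) ^ 2 = 1 + T ^ 2 := Real.sq_sqrt (by positivity)
  have hk0 : 0 < √(1 + T ^ 2) := Real.sqrt_pos.2 (by positivity)
  constructor
  · rw [nonClosedX_lor]
    simp only [nonClosedX, lor_sub_right, lor_smul_right, lor_add_right, lor_xp_xp, lor_xm_xm,
      lor_xp_xm, lor_xm_xp, lor_xp_ey, lor_xm_ey, lor_ey_xp, lor_ey_xm, lor_ey_ey]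
    have : s * s⁻¹ = 1 := mul_inv_cancel₀ hs.ne'
    linear_combination (-(s * s⁻¹)) * hk - (1 + T ^ 2) * this
  · simp only [nonClosedX, xp, xm, ey, Pi.sub_apply, Pi.smul_apply, Pi.add_apply, smul_eq_mul,
      Matrix.cons_val_zero, mul_zero, sub_zero]
    positivity

theorem nonclosed {Gs : Subgroup G} {B : Set V} {R₀ : ℝ} (h : Piece (-dd) Gs B R₀)
    (hfix : ∀ g ∈ Gs, rho g ez = ez → rho g dd = dd) : ¬ LocFin (orb Gs ez) := by
  intro hfin
  have hd : lor (-dd) (-dd) = 1 := by simp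
  have hdo : lor vo (-dd) = 0 := by simp
  have hdm : -dd ∈ B ∪ orb Gs (-dd) := Or.inr ⟨1, Gs.one_mem, rho_one _⟩
  obtain ⟨C, hC⟩ := h.cocpt
  obtain ⟨C', hC'⟩ := stab_cocpt Gs
    {x | Fut x ∧ lor x ez = 0 ∧ ∀ m ∈ B ∪ orb Gs (-dd), lor x m ≤ 0} (fun x hx => hx.1) ez hfin 0 C
    (fun x hx => by rw [hx.2.1, abs_zero])
    (fun x hx => hC x hx.1 (fun b hb => hx.2.2 b (Or.inl hb))
      fun g hg => hx.2.2 _ (Or.inr ⟨g, hg, rfl⟩))
  set T : ℝ := 2 * |4 * C' * ‖dd‖| + 1 with hT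
  have hT0 : 0 < T := by positivity
  have hdd : ∀ s, lor (nonClosedX T s) dd = 3 / 5 * T := fun s => by
    rw [nonClosedX_lor, lor_xp_dd, lor_xm_dd, lor_ey_dd]; ring
  have hno : ∀ s, 0 < s → ¬ ∀ m ∈ B ∪ orb Gs (-dd), lor (nonClosedX T s) m ≤ 0 := by
    intro s hs hm
    obtain ⟨g, hg, h1, h2⟩ := hC' (nonClosedX T s) ⟨nonClosedX_fut T hs, by
      rw [nonClosedX_lor, lor_xp_ez, lor_xm_ez, lor_ey_ez]; ring, hm⟩
    have h3 := abs_lor_le (rho g (nonClosedX T s)) (rho g dd)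
    rw [lor_rho, hdd, hfix g hg h1] at h3
    have h4 := (rho_fut g (nonClosedX_fut T hs)).norm_le.trans h2
    have h5 : 4 * ‖rho g (nonClosedX T s)‖ * ‖dd‖ ≤ 4 * C' * ‖dd‖ := by gcongr
    have h6 := le_abs_self (4 * C' * ‖dd‖)
    have h7 := le_abs_self (3 / 5 * T)
    have h8 := abs_nonneg (4 * C' * ‖dd‖)
    linarith
  have h1 := hno 1 one_pos
  push Not at h1
  obtain ⟨m, hm, h1⟩ := h1
  have hne : -dd ≠ m := by
    rintro rfl
    rw [lor_neg_right, hdd] at h1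
    linarith
  have hp : lor xp m < 0 := h.sub hd hdo hdm hm hne cone_xp (by simp)
  have hq : lor xm m < 0 := h.sub hd hdo hdm hm hne cone_xm (by simp)
  have hk : 1 ≤ √(1 + T ^ 2) := Real.one_le_sqrt.2 (by nlinarith)
  set s₀ : ℝ := 1 + |T * lor ey m| / (-lor xp m) with hs₀
  have hs1 : 1 ≤ s₀ := le_add_of_nonneg_right (div_nonneg (abs_nonneg _) (by linarith))
  have h2 : lor (nonClosedX T s₀) m ≤ 0 := by
    rw [nonClosedX_lor]
    have e1 : s₀ * lor xp m = lor xp m - |T * lor ey m| := by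
      rw [hs₀]; field_simp [hp.ne]; ring
    have e2 : s₀⁻¹ * lor xm m ≤ 0 :=
      mul_nonpos_of_nonneg_of_nonpos (inv_nonneg.2 (by linarith)) hq.le
    have e3 := neg_abs_le (T * lor ey m)
    have e4 := abs_nonneg (T * lor ey m)
    have e5 : s₀ * lor xp m + s₀⁻¹ * lor xm m ≤ 0 := by linarith
    nlinarith
  have hcont : ContinuousOn (fun s => lor (nonClosedX T s) m) (Icc 1 s₀) := by
    simp only [nonClosedX_lor]
    refine (continuousOn_const.mul ((continuousOn_id.mul continuousOn_const).add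
      ((continuousOn_id.inv₀ fun s hs => ?_).mul continuousOn_const))).sub continuousOn_const
    exact (one_pos.trans_le hs.1).ne'
  obtain ⟨s, hs, h3⟩ := intermediate_value_Icc' hs1 hcont ⟨h2, h1.le⟩
  have hs0 : 0 < s := one_pos.trans_le hs.1
  have h4 : lor (nonClosedX T s) m = 0 := h3
  refine hno s hs0 fun m' hm' => ?_
  by_cases h5 : m = m'
  · rw [← h5, h4]
  · exact (h.sub hd hdo hm hm' h5 (nonClosedX_fut T hs0).cone h4.ge).le

end Pool.Agent.MP_7a4cc0_an
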