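import Pool.Agent.MP_7a4cc0_an.Walls
import Pool.Agent.MP_7a4cc0_an.Cocpt

open Matrix MeasureTheory Set Topology Filter
open scoped ENNReal NNReal CompactlySupported

namespace Pool.Agent.MP_7a4cc0_an

/-- The orbit of a vector up to sign. -/
def piecePM (Γ : Subgroup G) (n : V) : Set V := {m | ∃ g ∈ Γ, m = rho g n ∨ m = -rho g n}

lemma piecePM_unit {Γ : Subgroup G} {n m : V} (hn : lor n n = 1) (hm : m ∈ piecePM Γ n) :
    lor m m = 1 := by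
  obtain ⟨g, -, rfl | rfl⟩ := hm <;> simpa using hn

lemma piecePM_neg {Γ : Subgroup G} {n m : V} (hm : m ∈ piecePM Γ n) : -m ∈ piecePM Γ n := by
  obtain ⟨g, hg, rfl | rfl⟩ := hm
  · exact ⟨g, hg, Or.inr rfl⟩
  · exact ⟨g, hg, Or.inl (neg_neg _)⟩

lemma piecePM_inv {Γ : Subgroup G} {n m : V} {g : G} (hg : g ∈ Γ) (hm : m ∈ piecePM Γ n) :
    rho g m ∈ piecePM Γ n := by
  obtain ⟨h, hh, rfl | rfl⟩ := hm
  · exact ⟨g * h, Γ.mul_mem hg hh, Or.inl (rho_mul _ _ _).symm⟩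
  · exact ⟨g * h, Γ.mul_mem hg hh, Or.inr (by rw [map_neg, rho_mul])⟩

lemma piecePM_mono {Γ Γ' : Subgroup G} (h : Γ ≤ Γ') {n m : V} (hm : m ∈ piecePM Γ n) :
    m ∈ piecePM Γ' n := by
  obtain ⟨g, hg, h'⟩ := hm
  exact ⟨g, h hg, h'⟩

lemma piecePM_abs {Γ : Subgroup G} {n m : V} (hm : m ∈ piecePM Γ n) (e : V) :
    ∃ g ∈ Γ, |lor m e| = |lor (rho g n) e| := by
  obtain ⟨g, hg, rfl | rfl⟩ := hm
  · exact ⟨g, hg, rfl⟩
  · exact ⟨g, hg, by simp⟩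

lemma piece_lor_rho (g h : G) (n n' : V) :
    lor (rho g n) (rho h n') = lor (rho (h⁻¹ * g) n) n' := by
  rw [lor_rho_right, rho_mul]

lemma piecePM_cross {Γ : Subgroup G} {n n' m m' : V} {Q : ℝ}
    (h : ∀ g ∈ Γ, Q ≤ |lor (rho g n) n'|) (hm : m ∈ piecePM Γ n) (hm' : m' ∈ piecePM Γ n') :
    Q ≤ |lor m m'| := by
  obtain ⟨g, hg, h1⟩ := hm
  obtain ⟨g', hg', h2⟩ := hm'
  have := h _ (Γ.mul_mem (Γ.inv_mem hg') hg)
  rw [← piece_lor_rho] at this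
  rcases h1 with rfl | rfl <;> rcases h2 with rfl | rfl <;> simpa using this

lemma piecePM_sep {Γ : Subgroup G} {n m m' : V} {Q : ℝ}
    (h : ∀ g ∈ Γ, rho g n = n ∨ Q ≤ |lor (rho g n) n|) (hm : m ∈ piecePM Γ n)
    (hm' : m' ∈ piecePM Γ n) : m' = m ∨ m' = -m ∨ Q ≤ |lor m m'| := by
  obtain ⟨g, hg, h1⟩ := hm
  obtain ⟨g', hg', h2⟩ := hm'
  rcases h _ (Γ.mul_mem (Γ.inv_mem hg') hg) with h3 | h3
  · have h4 : rho g n = rho g' n := by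
      rw [rho_mul] at h3
      rw [← rho_rho_inv g' (rho g n), h3]
    rcases h1 with rfl | rfl <;> rcases h2 with rfl | rfl <;> simp [h4]
  · rw [← piece_lor_rho] at h3
    refine Or.inr (Or.inr ?_)
    rcases h1 with rfl | rfl <;> rcases h2 with rfl | rfl <;> simpa using h3

lemma piece_abs_le {x v : V} (hx : Fut x) {C : ℝ} (h : x 0 ≤ C) : |lor x v| ≤ 4 * C * ‖v‖ :=
  (abs_lor_le x v).trans (by gcongr; exact hx.norm_le.trans h)

lemma piece_sqrt_le {s R : ℝ} (h : |s| ≤ R) : √(1 + s ^ 2) ≤ 1 + R := by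
  have h0 := abs_nonneg s
  refine Real.sqrt_le_iff.2 ⟨by linarith, ?_⟩
  nlinarith [sq_abs s]

/-- The first wall seen from `x` in the direction of the wall `m`. -/
lemma piece_first {W M : Set V} (unit : ∀ m ∈ W, lor m m = 1) (hMW : M ⊆ W)
    (first : ∀ y : V, lor y y < 0 → 0 < y 0 → ∀ m ∈ W, lor vo m < 0 → 0 ≤ lor y m →
      ∃ m' ∈ M, 0 ≤ lor y m') {x m : V} (hx : Fut x) (hm : m ∈ W) (ho : lor vo m < 0) :
    ∃ m' ∈ M, -|lor x m| ≤ lor x m' ∧ ∃ y, Cone y ∧ lor y m = 0 ∧ 0 ≤ lor y m' := by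
  obtain ⟨h1, h2⟩ := proj_timelike hx (unit m hm)
  have h3 : lor (x - lor x m • m) (x - lor x m • m) < 0 := by
    rw [h1]
    nlinarith [sq_nonneg (lor x m)]
  have h4 : lor (x - lor x m • m) m = 0 := by
    rw [lor_sub_left, lor_smul_left, unit m hm]
    ring
  obtain ⟨m', hm', h5⟩ := first _ h3 h2 m hm ho h4.ge
  exact ⟨m', hm', lor_proj hx (unit m hm) (unit m' (hMW hm')) h5, _, ⟨h3.le, h2⟩, h4, h5⟩

theorem piece_abstract (L₀ : Subgroup G) {d v : V} (hd : lor d d = 1) (hdo : lor vo d = 0)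
    (hv : lor v v = 1) (hvd : lor v d ≤ -2) (hvo : lor vo v < 0)
    (A1 : ∀ g ∈ L₀, rho g v = v ∨ 2 ≤ |lor (rho g v) v|)
    (A2 : ∀ g ∈ L₀, 2 ≤ |lor (rho g v) d|)
    (cc : ∃ C : ℝ, ∀ x, Fut x → ∃ g ∈ L₀, rho g x 0 ≤ C) (lf : LocFin (orb L₀ d)) :
    ∃ R₀ Q₁ : ℝ, ∀ (L : Subgroup G) (Q : ℝ), L ≤ L₀ → Q₁ ≤ Q →
      (∀ g ∈ L, rho g d = d ∨ Q ≤ |lor (rho g d) d|) →
      (∃ C : ℝ, ∀ x, Fut x → ∃ g ∈ L, rho g x 0 ≤ C) →
      (∃ U ∈ 𝓝 (1 : G), ∀ g ∈ L, g ∈ U → g = 1) →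
      ∃ (Gs : Subgroup G) (B F : Set V), Piece d Gs B R₀ ∧ Gs ≤ L ∧
        (∀ g ∈ L, rho g d = d → g ∈ Gs) ∧
        ((∀ m ∈ F, lor m m = 1) ∧ (∀ m ∈ F, ∀ m' ∈ F, m ≠ m' → lor m m' ≤ -Q) ∧
          (∀ m ∈ F, lor m d ≤ -Q) ∧ ∀ y, Cone y → lor y d = 0 → ∀ m ∈ F, lor y m < 0) ∧
        ∀ e : V, lor e e = 1 → lor vo e = 0 → (∀ g ∈ L₀, 1 < |lor (rho g v) e|) →
          ∀ x, Fut x → lor x e = 0 → lor x d ≤ 0 → (∀ m ∈ F, lor x m ≤ 0) →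
          (∀ b ∈ B, lor x b ≤ 0) ∧ ∀ g ∈ Gs, lor x (rho g d) ≤ 0 := by
  obtain ⟨C₀, hC₀⟩ := cc
  obtain ⟨R₁, hR₁⟩ : ∃ R₁, R₁ = 4 * C₀ * ‖v‖ := ⟨_, rfl⟩
  obtain ⟨C₁, hC₁⟩ := stab_cocpt L₀ {x | Fut x ∧ |lor x d| ≤ R₁} (fun x hx => hx.1) d lf R₁ C₀
    (fun x hx => hx.2) fun x hx => hC₀ x hx.1
  obtain ⟨R₃, hR₃⟩ : ∃ R₃, R₃ = 4 * C₁ * ‖v‖ := ⟨_, rfl⟩
  have hco : Cone vo := fut_vo.cone
  refine ⟨max 0 (max R₁ R₃), max 2 ((1 + R₃) * (1 + R₁) + R₃ * R₁ + 1), ?_⟩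
  intro L Q hL hQ A3 ccL hdisc
  have hQ2 : 2 ≤ Q := (le_max_left _ _).trans hQ
  have hQ3 : (1 + R₃) * (1 + R₁) + R₃ * R₁ + 1 ≤ Q := (le_max_right _ _).trans hQ
  have hdd : d ∈ piecePM L d := ⟨1, L.one_mem, Or.inl (rho_one d).symm⟩
  have unit : ∀ m ∈ piecePM L₀ v ∪ piecePM L d, lor m m = 1 := fun m hm =>
    hm.elim (piecePM_unit hv) (piecePM_unit hd)
  obtain ⟨Gs, M, hGs, hstab, hMW, hdM, hinv, hsep, hneg, ⟨C, hC⟩, first⟩ :=
    walls L (piecePM L₀ v ∪ piecePM L d) d hdo (Or.inr hdd) unit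
      (fun m hm => hm.imp piecePM_neg piecePM_neg)
      (fun g hg m hm => hm.imp (piecePM_inv (hL hg)) (piecePM_inv hg))
      (by
        rintro m (hm | hm) m' (hm' | hm')
        · exact piecePM_sep A1 hm hm'
        · exact Or.inr (Or.inr (piecePM_cross A2 hm (piecePM_mono hL hm')))
        · refine Or.inr (Or.inr ?_)
          rw [lor_comm]
          exact piecePM_cross A2 hm' (piecePM_mono hL hm)
        · exact (piecePM_sep A3 hm hm').imp_right (Or.imp_right hQ2.trans)) ccL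
  have hdorb : d ∈ orb Gs d := ⟨1, Gs.one_mem, rho_one d⟩
  have hBd : ∀ b ∈ M \ orb Gs d, b ≠ d := fun b hb h => hb.2 (h ▸ hdorb)
  have hBinv : ∀ g ∈ Gs, ∀ b ∈ M \ orb Gs d, rho g b ∈ M \ orb Gs d := by
    rintro g hg b ⟨hb, hb'⟩
    refine ⟨hinv g hg b hb, ?_⟩
    rintro ⟨h, hh, h1⟩
    exact hb' ⟨g⁻¹ * h, Gs.mul_mem (Gs.inv_mem hg) hh, by rw [rho_mul, h1, rho_inv_rho]⟩
  have hall : ∀ x, (∀ b ∈ M \ orb Gs d, lor x b ≤ 0) → (∀ g ∈ Gs, lor x (rho g d) ≤ 0) →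
      ∀ m ∈ M, lor x m ≤ 0 := by
    intro x h1 h2 m hm
    by_cases h : m ∈ orb Gs d
    · obtain ⟨g, hg, rfl⟩ := h
      exact h2 g hg
    · exact h1 m ⟨hm, h⟩
  have hfar : ∀ m ∈ M, m ∈ piecePM L d → ∀ m' ∈ M, m' ∈ piecePM L d → m ≠ m' →
      lor m m' ≤ -Q := by
    intro m hm h1 m' hm' h2 hne
    have h3 := hsep m hm m' hm' hne
    rcases piecePM_sep A3 h1 h2 with h | h | h
    · exact (hne h.symm).elim
    · rw [h, lor_neg_right, piecePM_unit hd h1] at h3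
      linarith
    · rw [abs_of_nonpos (by linarith)] at h
      linarith
  refine ⟨Gs, M \ orb Gs d, {m | m ∈ M ∧ m ≠ d ∧ m ∈ piecePM L d},
    ⟨le_max_left _ _, fun b hb => unit b (hMW hb.1), hBinv,
      fun b hb b' hb' => hsep b hb.1 b' hb'.1, fun b hb => hsep b hb.1 d hdM (hBd b hb),
      fun b hb => hneg b hb.1 (hBd b hb), fun g hg => ?_, ?_,
      ⟨C, fun x hx h1 h2 => hC x hx (hall x h1 h2)⟩, ?_⟩, hGs, hstab,
    ⟨fun m hm => unit m (hMW hm.1), fun m hm m' hm' => hfar m hm.1 hm.2.2 m' hm'.1 hm'.2.2,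
      fun m hm => hfar m hm.1 hm.2.2 d hdM hdd hm.2.1, fun y hy hyd m hm => ?_⟩, ?_⟩
  · by_cases h : rho g d = d
    · exact Or.inl h
    · exact Or.inr ⟨hsep _ (hinv g hg d hdM) d hdM h, hneg _ (hinv g hg d hdM) h⟩
  · obtain ⟨U, hU, h⟩ := hdisc
    exact ⟨U, hU, fun g hg => h g (hGs hg)⟩
  · intro x hx hxB hxd
    have hxM := hall x hxB hxd
    obtain ⟨g₀, hg₀, h0⟩ := hC₀ x hx
    have hm₀ : rho g₀⁻¹ v ∈ piecePM L₀ v := ⟨g₀⁻¹, L₀.inv_mem hg₀, Or.inl rfl⟩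
    have h1 : |lor x (rho g₀⁻¹ v)| ≤ R₁ := by
      rw [← lor_rho_left, hR₁]
      exact piece_abs_le (rho_fut g₀ hx) h0
    obtain ⟨m₁, hm₁, h2, h3⟩ : ∃ m₁ ∈ piecePM L₀ v, lor vo m₁ < 0 ∧ |lor x m₁| ≤ R₁ := by
      have h2 := lor_ne_zero_of_far hco (piecePM_unit hv hm₀) hd
        (by linarith [A2 _ (L₀.inv_mem hg₀)]) hdo
      rcases lt_or_gt_of_ne h2 with h | h
      · exact ⟨_, hm₀, h, h1⟩
      · exact ⟨_, piecePM_neg hm₀, by simpa using h, by simpa using h1⟩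
    obtain ⟨m₂, hm₂, h4, -⟩ := piece_first unit hMW first hx (Or.inl hm₁) h2
    have hR1 : R₁ ≤ max 0 (max R₁ R₃) := (le_max_left _ _).trans (le_max_right _ _)
    have hR3 : R₃ ≤ max 0 (max R₁ R₃) := (le_max_right _ _).trans (le_max_right _ _)
    by_cases h5 : m₂ ∈ orb Gs d
    swap
    · exact ⟨m₂, ⟨hm₂, h5⟩, by linarith⟩
    obtain ⟨g, hg, rfl⟩ := h5
    have hx₂ : Fut (rho g⁻¹ x) := rho_fut _ hx
    have h6 : |lor (rho g⁻¹ x) d| ≤ R₁ := by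
      rw [← lor_rho_right, abs_of_nonpos (hxd g hg)]
      linarith
    obtain ⟨δ, hδ, hδd, h7⟩ := hC₁ _ ⟨hx₂, h6⟩
    have hm₃ : rho δ⁻¹ v ∈ piecePM L₀ v := ⟨δ⁻¹, L₀.inv_mem hδ, Or.inl rfl⟩
    have h8 : lor (rho δ⁻¹ v) d < -1 := by
      rw [← lor_rho_right, hδd]
      linarith
    have h9 : lor vo (rho δ⁻¹ v) < 0 :=
      lor_sep (piecePM_unit hv hm₃) hd h8 (rho_cone δ⁻¹ hco) (by rwa [lor_rho])
        (by rw [← lor_rho_right, hδd, hdo]) hco hdo.ge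
    have h10 : |lor (rho g⁻¹ x) (rho δ⁻¹ v)| ≤ R₃ := by
      rw [← lor_rho_left, hR₃]
      exact piece_abs_le (rho_fut δ hx₂) h7
    obtain ⟨m₄, hm₄, h11, y, hy, hy1, hy2⟩ := piece_first unit hMW first hx₂ (Or.inl hm₃) h9
    have h12 : lor (rho g⁻¹ x) m₄ ≤ 0 := by
      rw [← lor_rho_right]
      exact hxM _ (hinv g hg _ hm₄)
    have h13 : m₄ ≠ d := by
      rintro rfl
      exact (lor_sep (piecePM_unit hv hm₃) hd h8 hco h9 hdo.le hy hy2).ne hy1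
    have h14 : m₄ ∉ orb Gs d := by
      rintro ⟨h, hh, rfl⟩
      have h15 := (A3 h (hGs hh)).resolve_left h13
      have h16 : |lor (rho g⁻¹ x) (rho h d)| ≤ R₃ := by
        rw [abs_of_nonpos h12]
        linarith
      have h17 := abs_lor_unit_le hx₂ (unit _ (hMW hm₄)) hd
      have h18 := piece_sqrt_le h16
      have h19 := piece_sqrt_le h6
      have hR : 0 ≤ R₃ := (abs_nonneg _).trans h16
      have h20 := mul_le_mul h18 h19 (Real.sqrt_nonneg _) (by linarith)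
      have h21 := mul_le_mul h16 h6 (abs_nonneg _) hR
      linarith
    refine ⟨rho g m₄, hBinv g hg _ ⟨hm₄, h14⟩, ?_⟩
    rw [lor_rho_right]
    linarith
  · exact lor_sep (unit m (hMW hm.1)) hd (by linarith [hsep m hm.1 d hdM hm.2.1]) hco
      (hneg m hm.1 hm.2.1) hdo.le hy hyd.ge
  · intro e he heo hfe x hx hxe hxd hxF
    have hxM : ∀ m ∈ M, lor x m ≤ 0 := by
      intro m hm
      by_cases h : m = d
      · rwa [h]
      rcases hMW hm with h1 | h1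
      · obtain ⟨g, hg, h2⟩ := piecePM_abs h1 e
        have h3 := hfe g hg
        rw [← h2] at h3
        rcases lt_abs.1 h3 with h4 | h4
        · exact (lor_sep (m := -e) (piecePM_unit hv h1) (by simpa using he)
            (by rw [lor_neg_right]; linarith) hco (hneg m hm h) (by simp [heo]) hx.cone
            (by simp [hxe])).le
        · exact (lor_sep (m := e) (piecePM_unit hv h1) he (by linarith) hco (hneg m hm h) heo.le
            hx.cone hxe.ge).le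
      · exact hxF m ⟨hm, h, h1⟩
    exact ⟨fun b hb => hxM b hb.1, fun g hg => hxM _ (hinv g hg d hdM)⟩

theorem exists_piece {lam : ℕ} (hlam : lam = 1 ∨ lam = 17) (c : Fin 4 → ℤ) (ε : ℝ)
    (hε : ε = 1 ∨ ε = -1) (hc : lor (lat lam c) (lat lam c) = 1) (hc0 : 0 < c 0)
    (hc3 : ε * c 3 = -2) :
    ∃ (R₀ : ℝ) (q₁ : ℕ), ∀ q : ℕ, q₁ ≤ q → 51 ∣ q → ∃ (Gs : Subgroup G) (B F : Set V),
      Piece (ε • dd) Gs B R₀ ∧ Gs ≤ LL lam q ∧ (∀ g ∈ LL lam q, rho g dd = dd → g ∈ Gs) ∧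
      (ε = 1 → Fam F ((q : ℝ) - 1)) ∧
      ((∀ g ∈ LL lam 51, 1 < |lor (rho g (lat lam c)) ez|) → ∀ x, Fut x → lor x ez = 0 →
        lor x (ε • dd) ≤ 0 → (∀ m ∈ F, lor x m ≤ 0) →
        (∀ b ∈ B, lor x b ≤ 0) ∧ ∀ g ∈ Gs, lor x (rho g (ε • dd)) ≤ 0) := by
  have hl : 0 < lam := by omega
  have hε1 : |ε| = 1 := by rcases hε with rfl | rfl <;> simp
  have hε2 : ε * ε = 1 := by rcases hε with rfl | rfl <;> simp
  have h3 : |c 3| = 2 := by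
    have h : |ε * c 3| = 2 := by rw [hc3]; norm_num
    rw [abs_mul, hε1, one_mul] at h
    exact_mod_cast h
  have hs : (1 : ℝ) ≤ √lam := Real.one_le_sqrt.2 (by exact_mod_cast hl)
  obtain ⟨R₀, Q₁, h⟩ := piece_abstract (LL lam 51) (d := ε • dd) (v := lat lam c)
    (by rw [lor_smul_left, lor_smul_right, lor_dd_dd, mul_one, hε2])
    (by rw [lor_smul_right, lor_vo_dd, mul_zero]) hc
    (by rw [lor_smul_right, lor_lat_dd, ← mul_assoc, hc3]; linarith)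
    (by
      rw [lor_vo_lat, neg_lt_zero]
      have : (0 : ℝ) < c 0 := by exact_mod_cast hc0
      positivity)
    (fun g hg => (LL_black hlam hc hg).imp_right fun h => le_trans (by norm_num) h)
    (fun g hg => by
      rw [lor_smul_right, abs_mul, hε1, one_mul]
      exact LL_black_door hl (by norm_num) h3 hg)
    (cocpt_LL hlam (by norm_num)) (locFin_orb_dd hl 51 ε)
  refine ⟨R₀, ⌈Q₁⌉₊ + 3, fun q hq hdvd => ?_⟩
  obtain ⟨Gs, B, F, h1, h2, h4, ⟨h5, h6, h7, h8⟩, h9⟩ := h (LL lam q) (q - 1) (LL_mono hdvd)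
    (by
      have h1 : ((⌈Q₁⌉₊ + 3 : ℕ) : ℝ) ≤ q := by exact_mod_cast hq
      push_cast at h1
      linarith [Nat.le_ceil Q₁])
    (fun g hg => (LL_door hlam hg).imp (fun h => by rw [map_smul, h]) fun h => by
      rwa [map_smul, lor_smul_left, lor_smul_right, ← mul_assoc, hε2, one_mul])
    (cocpt_LL hlam (by omega)) (LL_disc hl q)
  refine ⟨Gs, B, F, h1, h2, fun g hg hgd => h4 g hg (by rw [map_smul, hgd]), ?_,
    h9 ez lor_ez_ez lor_vo_ez⟩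
  rintro rfl
  rw [one_smul] at h7 h8
  exact ⟨h5, h6, h7, h8 xp cone_xp lor_xp_dd⟩

end Pool.Agent.MP_7a4cc0_an
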