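import Pool.Agent.MP_7a4cc0_an.Rigid1

open Matrix MeasureTheory Set Topology Filter
open scoped ENNReal NNReal CompactlySupported

namespace Pool.Agent.MP_7a4cc0_an

lemma rigid2_lift_zero : lift 0 = vo := by
  ext i; fin_cases i <;> simp [lift, vo]

lemma rigid2_lift_apply_zero (p : E3) : lift p 0 = 1 := by simp [lift]

lemma rigid2_cone {p : E3} (hp : ‖p‖ < 1) : Cone (lift p) := by
  refine ⟨?_, by rw [rigid2_lift_apply_zero]; exact one_pos⟩
  rw [lor_lift_self]
  nlinarith [norm_nonneg p]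

lemma rigid2_cont (b : V) : Continuous fun q : E3 => lor (lift q) b :=
  continuous_lor.comp (continuous_lift.prodMk continuous_const)

/-- The spatial part of a vector. -/
noncomputable def rigid2N (b : V) : E3 := !₂[b 1, b 2, b 3]

lemma rigid2_inner (b : V) (p : E3) : inner ℝ (rigid2N b) p = lor (lift p) b + b 0 := by
  simp only [rigid2N, lift, lor, EuclideanSpace.inner_eq_star_dotProduct, dotProduct,
    Fin.sum_univ_three]
  simp
  ring

lemma rigid2_normsq (b : V) : ‖rigid2N b‖ ^ 2 = lor b b + b 0 ^ 2 := by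
  rw [EuclideanSpace.norm_sq_eq]
  simp only [rigid2N, lor, Fin.sum_univ_three, Real.norm_eq_abs, sq_abs]
  simp
  ring

/-- A point of the open ball strictly inside all walls is interior to the hull. -/
lemma rigid2_interior {Γ : Subgroup G} {B : Set V} {R₀ : ℝ} (h : Geo Γ B R₀) {p : E3}
    (hp : ‖p‖ < 1) (hb : ∀ b ∈ B, lor (lift p) b < 0) : p ∈ interior (hull Γ) := by
  obtain ⟨r, hpr, hr1⟩ := exists_between hp
  have hr0 : 0 < r := lt_of_le_of_lt (norm_nonneg p) hpr
  have hr2 : 0 < 1 - r ^ 2 := by nlinarith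
  set C : ℝ := (√(1 - r ^ 2))⁻¹ with hC
  have hF := h.finite_near C
  set F := {b ∈ B | ∃ x, Fut x ∧ x 0 ≤ C ∧ 0 ≤ lor x b} with hFdef
  have hopen : IsOpen (Metric.ball (0 : E3) r ∩ ⋂ b ∈ F, {q : E3 | lor (lift q) b < 0}) :=
    Metric.isOpen_ball.inter
      (hF.isOpen_biInter fun b _ => isOpen_lt (rigid2_cont b) continuous_const)
  refine mem_interior.2 ⟨_, ?_, hopen, ?_⟩
  · rintro q ⟨hq, hqF⟩
    have hqr : ‖q‖ < r := by simpa using hq
    have hq1 : ‖q‖ < 1 := hqr.trans hr1
    rw [h.hull_eq]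
    refine ⟨hq1, fun b hbB => ?_⟩
    by_contra hpos
    push Not at hpos
    have hq2 : ‖q‖ ^ 2 < r ^ 2 := by nlinarith [norm_nonneg q]
    have hneg : lor (lift q) (lift q) < 0 := by rw [lor_lift_self]; nlinarith
    have hfut := fut_normalize hneg (by rw [rigid2_lift_apply_zero]; exact one_pos)
    have hs : 0 < √(-lor (lift q) (lift q)) := Real.sqrt_pos.2 (by linarith)
    have hbF : b ∈ F := by
      refine ⟨hbB, _, hfut, ?_, ?_⟩
      · rw [Pi.smul_apply, rigid2_lift_apply_zero, smul_eq_mul, mul_one, hC]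
        apply inv_anti₀ (Real.sqrt_pos.2 hr2)
        apply Real.sqrt_le_sqrt
        rw [lor_lift_self]; linarith
      · rw [lor_smul_left]
        exact mul_nonneg (inv_nonneg.2 hs.le) hpos.le
    have := (mem_iInter₂.1 hqF) b hbF
    simp only [mem_ofPred_eq] at this
    linarith
  · refine ⟨by simpa using hpr, mem_iInter₂.2 fun b hbF => hb b hbF.1⟩

/-- A point on a wall is not interior to the hull. -/
lemma rigid2_not_interior {Γ : Subgroup G} {B : Set V} {R₀ : ℝ} (h : Geo Γ B R₀) {b : V}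
    (hb : b ∈ B) {p : E3} (hp : lor (lift p) b = 0) : p ∉ interior (hull Γ) := by
  intro hint
  have hc : Continuous fun t : ℝ => p + t • rigid2N b := by fun_prop
  have h0 : Tendsto (fun t : ℝ => p + t • rigid2N b) (𝓝 0) (𝓝 p) := by
    have := hc.tendsto 0
    simpa using this
  have hev : ∀ᶠ t : ℝ in 𝓝 0, p + t • rigid2N b ∈ hull Γ :=
    h0.eventually (mem_interior_iff_mem_nhds.1 hint)
  have hev' : ∀ᶠ t : ℝ in 𝓝[>] 0, p + t • rigid2N b ∈ hull Γ :=
    hev.filter_mono nhdsWithin_le_nhds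
  obtain ⟨t, ht, ht0⟩ := (hev'.and self_mem_nhdsWithin).exists
  rw [h.hull_eq] at ht
  have h1 := ht.2 b hb
  have h2 := rigid2_inner b (p + t • rigid2N b)
  have h3 := rigid2_inner b p
  rw [inner_add_right, real_inner_smul_right, real_inner_self_eq_norm_sq, rigid2_normsq,
    h.unit b hb, h3, hp] at h2
  have ht0' : (0 : ℝ) < t := ht0
  have : 0 < t * (1 + b 0 ^ 2) := by positivity
  linarith

theorem Geo.rigid {Γ : Subgroup G} {B : Set V} {R₀ : ℝ} (h : Geo Γ B R₀)
    (htor : ∀ γ ∈ Γ, IsOfFinOrder γ → γ = 1) : RigidAcylindrical Γ := by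
  refine ⟨htor, h.disc, ?_, ?_, ?_⟩
  · obtain ⟨C, hC⟩ := h.cocpt
    refine ⟨_, isCompact_bdd C, fun g hg => ?_⟩
    have hx : Fut (rho (pr g) vo) := rho_fut _ fut_vo
    rw [h.hull_eq, pt_eq] at hg
    obtain ⟨γ, hγ, hle⟩ := hC _ hx fun b hb => by
      have h1 := hg.2 b hb
      rw [lift_kl hx.2.ne', lor_smul_left] at h1
      by_contra hpos
      push Not at hpos
      have := mul_pos (inv_pos.2 hx.2) hpos
      linarith
    refine ⟨γ, hγ, ?_⟩
    simp only [mem_ofPred_eq]
    rw [rho_mul]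
    exact hle
  · refine ⟨0, rigid2_interior h (by simp) fun b hb => ?_⟩
    rw [rigid2_lift_zero]
    exact h.neg b hb
  · rintro p ⟨hp, hpb⟩
    have hp1 : ‖p‖ < 1 := by simpa using hpb
    have hle : ∀ b ∈ B, lor (lift p) b ≤ 0 := fun b hb => by
      have hsub : hull Γ ⊆ {q : E3 | lor (lift q) b ≤ 0} := by
        rw [h.hull_eq]; exact fun q hq => hq.2 b hb
      exact closure_minimal hsub (isClosed_le (rigid2_cont b) continuous_const) hp.1
    have hex : ∃ b ∈ B, lor (lift p) b = 0 := by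
      by_contra hne
      push Not at hne
      exact hp.2 (rigid2_interior h hp1 fun b hb => lt_of_le_of_ne (hle b hb) (hne b hb))
    obtain ⟨b, hb, hb0⟩ := hex
    refine ⟨rigid2N b, b 0, ?_, by rw [rigid2_inner, hb0, zero_add], fun p' hp' hin => ?_⟩
    · intro hn
      have h1 := rigid2_normsq b
      rw [hn, h.unit b hb] at h1
      simp only [norm_zero] at h1
      nlinarith [sq_nonneg (b 0)]
    · have hp'1 : ‖p'‖ < 1 := by simpa using hp'
      have h0 : lor (lift p') b = 0 := by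
        rw [rigid2_inner] at hin; linarith
      refine ⟨subset_closure ?_, rigid2_not_interior h hb h0⟩
      rw [h.hull_eq]
      refine ⟨hp'1, fun b' hb' => ?_⟩
      by_cases hbb : b = b'
      · rw [← hbb, h0]
      · exact (h.plane hb hb' hbb (rigid2_cone hp'1) h0.ge).le

end Pool.Agent.MP_7a4cc0_an
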