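import Pool.Agent.MP_7a4cc0_an.Arith

open Matrix MeasureTheory Set Topology Filter
open scoped ENNReal NNReal CompactlySupported

namespace Pool.Agent.MP_7a4cc0_an

namespace Torsion

section Ring

variable {R : Type*} [Ring R]

/-- `T` is congruent to one modulo `3 ^ k`. -/
def S (k : ℕ) (T : R) : Prop := ∃ A : R, T = 1 + ((3 : ℤ) ^ k) • A

lemma pow_eq (k : ℕ) (A : R) (m : ℕ) : ∃ C : R, (1 + ((3 : ℤ) ^ (k + 1)) • A) ^ m =
    1 + ((m : ℤ) * 3 ^ (k + 1)) • A + ((3 : ℤ) ^ (k + 2)) • C := by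
  induction m with
  | zero => exact ⟨0, by simp⟩
  | succ m ih =>
    obtain ⟨C, hC⟩ := ih
    refine ⟨C + ((m : ℤ) * 3 ^ k) • (A * A) + ((3 : ℤ) ^ (k + 1)) • (C * A), ?_⟩
    rw [pow_succ, hC]
    simp only [mul_add, add_mul, smul_mul_assoc, mul_smul_comm, one_mul, mul_one]
    push_cast
    module

lemma step_coprime {T : R} {m : ℕ} (hm : ¬ 3 ∣ m) (hT : T ^ m = 1) {k : ℕ} (h : S (k + 1) T) :
    S (k + 2) T := by
  obtain ⟨A, rfl⟩ := h
  obtain ⟨C, hC⟩ := pow_eq k A m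
  rw [hT] at hC
  have hc : IsCoprime (m : ℤ) 3 := by
    have := Nat.isCoprime_iff_coprime.2 ((Nat.Prime.coprime_iff_not_dvd Nat.prime_three).2 hm).symm
    exact_mod_cast this
  obtain ⟨a, b, hab⟩ := hc
  refine ⟨b • A - a • C, ?_⟩
  have h1 : ((m : ℤ) * 3 ^ (k + 1)) • A + ((3 : ℤ) ^ (k + 2)) • C = 0 := by
    rw [add_assoc] at hC
    exact (left_eq_add.1 hC)
  have h2 : ((3 : ℤ) ^ (k + 1)) • A = ((a * m + b * 3) * 3 ^ (k + 1)) • A := by rw [hab, one_mul]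
  rw [h2]
  linear_combination (norm := module) a • h1

lemma step_three (h3 : ∀ x : R, (3 : ℤ) • x = 0 → x = 0) {T : R} (hT : T ^ 3 = 1) {k : ℕ}
    (h : S (k + 1) T) : S (k + 2) T := by
  obtain ⟨A, rfl⟩ := h
  refine ⟨-(((3 : ℤ) ^ k) • (A * A)) - ((3 : ℤ) ^ (2 * k)) • (A * A * A), ?_⟩
  rw [add_right_inj, ← sub_eq_zero]
  apply h3
  rw [pow_succ, pow_two] at hT
  simp only [mul_add, add_mul, smul_mul_assoc, mul_smul_comm, one_mul, mul_one] at hT
  linear_combination (norm := module) hT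

lemma S.pow {T : R} (h : S 1 T) (m : ℕ) : S 1 (T ^ m) := by
  obtain ⟨A, rfl⟩ := h
  obtain ⟨C, hC⟩ := pow_eq 0 A m
  exact ⟨(m : ℤ) • A + (3 : ℤ) • C, by rw [hC]; module⟩

lemma eq_one (h3 : ∀ x : R, (3 : ℤ) • x = 0 → x = 0)
    (hs : ∀ T : R, (∀ k, S (k + 1) T) → T = 1) (n : ℕ) :
    ∀ T : R, 0 < n → S 1 T → T ^ n = 1 → T = 1 := by
  induction n using Nat.strong_induction_on with
  | _ n ih =>
    intro T hn h1 hT
    refine hs T fun k => ?_
    by_cases hd : 3 ∣ n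
    · obtain ⟨m, rfl⟩ := hd
      have h4 := ih m (by omega) (T ^ 3) (by omega) (h1.pow 3) (by rwa [← pow_mul])
      induction k with
      | zero => exact h1
      | succ k ihk => exact step_three h3 h4 ihk
    · induction k with
      | zero => exact h1
      | succ k ihk => exact step_coprime hd hT ihk

end Ring

lemma end_eq_one {M : Type*} [AddCommGroup M] [Module.Free ℤ M] {T : Module.End ℤ M}
    (h : ∀ w, ∃ u, T w = w + (3 : ℤ) • u) {n : ℕ} (hn : 0 < n) (hT : T ^ n = 1) : T = 1 := by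
  let b := Module.Free.chooseBasis ℤ M
  refine eq_one (fun x hx => ?_) (fun T hT => ?_) n T hn ?_ hT
  · ext w
    refine b.ext_elem fun i => ?_
    have := congrArg (fun f : Module.End ℤ M => b.repr (f w) i) hx
    simpa using this
  · ext w
    refine b.ext_elem fun i => ?_
    rw [← sub_eq_zero]
    by_contra hne
    set c : ℤ := b.repr (T w) i - b.repr ((1 : Module.End ℤ M) w) i with hc
    obtain ⟨A, hA⟩ := hT c.natAbs
    have h1 : (3 : ℤ) ^ (c.natAbs + 1) ∣ c := ⟨b.repr (A w) i, by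
      conv_lhs => rw [hc, hA]
      rw [LinearMap.add_apply, LinearMap.smul_apply, map_add, map_zsmul, Finsupp.add_apply,
        Finsupp.smul_apply, smul_eq_mul, add_sub_cancel_left]⟩
    have h2 := Int.natAbs_le_of_dvd_ne_zero h1 hne
    rw [Int.natAbs_pow] at h2
    have h3 : c.natAbs + 1 < 3 ^ (c.natAbs + 1) := Nat.lt_pow_self (by norm_num)
    simp at h2
    omega
  · choose u hu using h
    refine ⟨b.constr ℤ fun i => u (b i), b.ext fun i => ?_⟩
    rw [LinearMap.add_apply, LinearMap.smul_apply, Module.End.one_apply,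
      Module.Basis.constr_basis, pow_one, hu]

/-- The lattice as an additive map. -/
noncomputable def latL (lam : ℕ) : (Fin 4 → ℤ) →ₗ[ℤ] V :=
  (AddMonoidHom.mk' (lat lam) (lat_add lam)).toIntLinearMap

/-- The module over the integers of the field generated by the square root of 17. -/
noncomputable def Lam : Submodule ℤ V :=
  LinearMap.range ((latL 1).coprod ((√17 : ℝ) • latL 1))

lemma mem_Lam {w : V} : w ∈ Lam ↔ ∃ c c', lat 1 c + (√17 : ℝ) • lat 1 c' = w :=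
  ⟨fun ⟨p, hp⟩ => ⟨p.1, p.2, hp⟩, fun ⟨c, c', h⟩ => ⟨(c, c'), h⟩⟩

instance : Module.Finite ℤ Lam := inferInstanceAs (Module.Finite ℤ (LinearMap.range _))

lemma s17 : (√17 : ℝ) * √17 = 17 := Real.mul_self_sqrt (by norm_num)

lemma lat_zero (lam : ℕ) : lat lam 0 = 0 := by simp [lat]

lemma lat1_mem (c : Fin 4 → ℤ) : lat 1 c ∈ Lam := mem_Lam.2 ⟨c, 0, by simp [lat_zero]⟩

lemma nat_mem {w : V} (hw : w ∈ Lam) (t : ℕ) : (t : ℝ) • w ∈ Lam := by
  rw [Nat.cast_smul_eq_nsmul]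
  exact nsmul_mem hw t

lemma sqrt_mem {w : V} (hw : w ∈ Lam) : (√17 : ℝ) • w ∈ Lam := by
  obtain ⟨c, c', rfl⟩ := mem_Lam.1 hw
  refine mem_Lam.2 ⟨17 • c', c, ?_⟩
  rw [lat_nsmul, smul_add, smul_smul, s17, add_comm]
  norm_num

lemma lat17_mem (c : Fin 4 → ℤ) : lat 17 c ∈ Lam := by
  refine mem_Lam.2 ⟨![c 0, c 1, c 2, 0], ![0, 0, 0, c 3], ?_⟩
  simp only [lat, Nat.cast_one, Real.sqrt_one, Nat.cast_ofNat, Matrix.cons_val]
  push_cast
  module

/-- Congruent to the identity modulo three on the module. -/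
def P (g : G) : Prop := ∀ w ∈ Lam, ∃ u ∈ Lam, rho g w = w + (3 : ℝ) • u

lemma P.mul {g h : G} (hg : P g) (hh : P h) : P (g * h) := by
  intro w hw
  obtain ⟨u, hu, e⟩ := hh w hw
  obtain ⟨u1, hu1, e1⟩ := hg w hw
  obtain ⟨u2, hu2, e2⟩ := hg u hu
  refine ⟨u1 + u + ((3 : ℕ) : ℝ) • u2, add_mem (add_mem hu1 hu) (nat_mem hu2 3), ?_⟩
  rw [rho_mul, e, map_add, map_smul, e1, e2]
  push_cast
  module

/-- The congruence subgroup of level three of the module. -/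
def PS : Subgroup G where
  carrier := {g | P g ∧ P g⁻¹}
  mul_mem' := fun {g h} hg hh => ⟨hg.1.mul hh.1, by rw [_root_.mul_inv_rev]; exact hh.2.mul hg.2⟩
  one_mem' := by
    have : P 1 := fun w _ => ⟨0, zero_mem _, by simp⟩
    exact ⟨this, by rwa [inv_one]⟩
  inv_mem' := fun {g} hg => ⟨hg.2, by rw [inv_inv]; exact hg.1⟩

lemma P_of_one {t : ℕ} {g : G} (h : Cong 1 (51 * t) g) : P g := by
  intro w hw
  obtain ⟨c, c', rfl⟩ := mem_Lam.1 hw
  obtain ⟨d, hd⟩ := h c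
  obtain ⟨d', hd'⟩ := h c'
  refine ⟨((17 * t : ℕ) : ℝ) • (lat 1 d + (√17 : ℝ) • lat 1 d'),
    nat_mem (mem_Lam.2 ⟨d, d', rfl⟩) _, ?_⟩
  rw [map_add, map_smul, hd, hd']
  push_cast
  module

lemma P_of_17 {t : ℕ} {g : G} (h : Cong 17 (51 * t) g) : P g := by
  intro w hw
  obtain ⟨c, c', rfl⟩ := mem_Lam.1 hw
  have e : lat 1 c + (√17 : ℝ) • lat 1 c' = lat 17 ![c 0, c 1, c 2, c' 3] +
      (√17 : ℝ) • lat 17 ![c' 0, c' 1, c' 2, 0] + (√17 / 17 : ℝ) • lat 17 ![0, 0, 0, c 3] := by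
    simp only [lat, Nat.cast_one, Real.sqrt_one, Nat.cast_ofNat, Matrix.cons_val]
    push_cast
    match_scalars <;> first | ring1 | linear_combination (-(c 3 : ℝ) / 17) * s17
  obtain ⟨a, ha⟩ := h ![c 0, c 1, c 2, c' 3]
  obtain ⟨b, hb⟩ := h ![c' 0, c' 1, c' 2, 0]
  obtain ⟨d, hd⟩ := h ![0, 0, 0, c 3]
  refine ⟨((17 * t : ℕ) : ℝ) • lat 17 a + ((17 * t : ℕ) : ℝ) • (√17 : ℝ) • lat 17 b +
      (t : ℝ) • (√17 : ℝ) • lat 17 d,
    add_mem (add_mem (nat_mem (lat17_mem a) _) (nat_mem (sqrt_mem (lat17_mem b)) _))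
      (nat_mem (sqrt_mem (lat17_mem d)) _), ?_⟩
  rw [e, map_add, map_add, map_smul, map_smul, ha, hb, hd]
  push_cast
  module

end Torsion

open Pool.Agent.MP_7a4cc0_an.Torsion

theorem torsion_free {q : ℕ} (hq : 51 ∣ q) {g : G} (hg : g ∈ LL 1 q ⊔ LL 17 q)
    (ho : IsOfFinOrder g) : g = 1 := by
  obtain ⟨t, rfl⟩ := hq
  have hle : LL 1 (51 * t) ⊔ LL 17 (51 * t) ≤ PS :=
    sup_le (fun g hg => ⟨P_of_one hg.1, P_of_one hg.2⟩) fun g hg => ⟨P_of_17 hg.1, P_of_17 hg.2⟩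
  have hP : P g := (hle hg).1
  have hmap : ∀ w ∈ Lam, (rho g : V →ₗ[ℝ] V).restrictScalars ℤ w ∈ Lam := by
    intro w hw
    obtain ⟨u, hu, e⟩ := hP w hw
    have := nat_mem hu 3
    push_cast at this
    exact e ▸ add_mem hw this
  let T : Module.End ℤ Lam := ((rho g : V →ₗ[ℝ] V).restrictScalars ℤ).restrict hmap
  have hT : ∀ w : Lam, (T w : V) = rho g w := fun w => rfl
  have hpow : ∀ (m : ℕ) (w : Lam), ((T ^ m) w : V) = rho (g ^ m) w := by
    intro m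
    induction m with
    | zero => intro w; simp
    | succ m ih => intro w; rw [pow_succ', pow_succ', Module.End.mul_apply, hT, ih, rho_mul]
  obtain ⟨n, hn, hgn⟩ := isOfFinOrder_iff_pow_eq_one.1 ho
  have h1 : T = 1 := by
    refine end_eq_one (fun w => ?_) hn ?_
    · obtain ⟨u, hu, e⟩ := hP w w.2
      refine ⟨⟨u, hu⟩, Subtype.ext ?_⟩
      rw [hT, e]
      change _ = (w : V) + (3 : ℤ) • u
      rw [← Int.cast_smul_eq_zsmul ℝ]
      norm_num
    · ext1 w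
      exact Subtype.ext (by rw [hpow, hgn, rho_one]; rfl)
  have h2 : (rho g : V →ₗ[ℝ] V) = LinearMap.id := by
    refine lat_ext one_pos fun c => ?_
    have := hT ⟨lat 1 c, lat1_mem c⟩
    rw [h1] at this
    exact this.symm
  exact rho_eq_one fun v => by rw [h2]; rfl

end Pool.Agent.MP_7a4cc0_an
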