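import Pool.Agent.MP_7a4cc0_an.Meas2
import Pool.Agent.MP_7a4cc0_an.Piece
import Pool.Agent.MP_7a4cc0_an.Maskit
import Pool.Agent.MP_7a4cc0_an.NonClosed
import Pool.Agent.MP_7a4cc0_an.Torsion
import Pool.Agent.MP_7a4cc0_an.Growth
import Pool.Agent.MP_7a4cc0_an.Rigid2

open Matrix MeasureTheory Set Topology Filter
open scoped ENNReal NNReal

namespace Pool.Agent.MP_7a4cc0_an

lemma Piece.mono {d : V} {Gs : Subgroup G} {B : Set V} {R R' : ℝ} (h : Piece d Gs B R)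
    (hR : R ≤ R') : Piece d Gs B R' :=
  { h with
    nonneg := h.nonneg.trans hR
    porous := fun x hx h1 h2 => by
      obtain ⟨b, hb, h3⟩ := h.porous x hx h1 h2
      exact ⟨b, hb, by linarith⟩ }

lemma Fam.mono {F : Set V} {Q Q' : ℝ} (h : Fam F Q) (hQ : Q' ≤ Q) : Fam F Q' :=
  { h with
    sep := fun m hm m' hm' hne => (h.sep m hm m' hm' hne).trans (by linarith)
    sepd := fun m hm => (h.sepd m hm).trans (by linarith) }

/-- The hybrid groups. -/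
theorem exists_geo : ∃ R₀ : ℝ, 0 ≤ R₀ ∧ ∀ θ : ℝ, 1 < θ → ∃ (Γ : Subgroup G) (B : Set V),
    Geo Γ B R₀ ∧ (∀ γ ∈ Γ, IsOfFinOrder γ → γ = 1) ∧ ¬ LocFin (orb Γ ez) ∧ Growth B θ := by
  obtain ⟨Ra, qa, ha⟩ := exists_piece (lam := 1) (Or.inl rfl) ![1, 0, -2, -2] 1 (Or.inl rfl)
    (by rw [lor_lat]; norm_num [Matrix.cons_val_two, Matrix.cons_val_three]) (by simp)
    (by simp)
  obtain ⟨Rb, qb, hb⟩ := exists_piece (lam := 17) (Or.inr rfl) ![4, 3, 6, 2] (-1) (Or.inr rfl)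
    (by rw [lor_lat]; norm_num [Matrix.cons_val_two, Matrix.cons_val_three]) (by simp)
    (by simp)
  refine ⟨max 0 (max Ra Rb), le_max_left _ _, fun θ hθ => ?_⟩
  obtain ⟨Q, hQ⟩ := growth θ hθ
  obtain ⟨N, hN⟩ := exists_nat_ge (Q + 1)
  set q : ℕ := 51 * (qa + qb + N) with hq
  obtain ⟨Ga, Ba, F, hPa, hLa, hSa, hF, hY⟩ := ha q (by omega) ⟨_, rfl⟩
  obtain ⟨Gb, Bb, -, hPb, hLb, hSb, -, -⟩ := hb q (by omega) ⟨_, rfl⟩
  rw [one_smul] at hPa hY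
  rw [neg_one_smul] at hPb
  have hPa' := hPa.mono ((le_max_left Ra Rb).trans (le_max_right 0 _))
  have hPb' := hPb.mono ((le_max_right Ra Rb).trans (le_max_right 0 _))
  obtain ⟨B, hG, hB⟩ := maskit lor_dd_dd lor_vo_dd lor_xp_dd hPa' hPb' fun g hg =>
    ⟨fun h => hSb g (LL_stab (by norm_num) (hLa h) hg) hg,
      fun h => hSa g (LL_stab (by norm_num) (hLb h) hg) hg⟩
  refine ⟨Ga ⊔ Gb, B, hG, fun γ hγ => torsion_free ⟨_, hq⟩ (sup_le_sup hLa hLb hγ), ?_, ?_⟩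
  · intro hfin
    refine nonclosed hPb (fun g hg => LL_fix_ez (hLb hg)) fun C => (hfin C).subset ?_
    rintro m ⟨⟨γ, hγ, rfl⟩, hm⟩
    exact ⟨⟨γ, Subgroup.mem_sup_right hγ, rfl⟩, hm⟩
  · intro k
    have hqN : (N : ℝ) ≤ q := by exact_mod_cast (by omega : N ≤ q)
    refine (hQ F ((hF rfl).mono (by linarith)) k).trans (measure_mono ?_)
    rintro t ⟨ht, hm⟩
    refine ⟨ht, ?_⟩
    have hx : Fut (rho (cv k t) vo) := rho_fut _ fut_vo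
    have h1 : lor (rho (cv k t) vo) ez = 0 := by
      rw [← rho_cv_ez k t, lor_rho, lor_vo_ez]
    have h2 : lor (rho (cv k t) vo) dd ≤ 0 := by
      rw [rho_cv_vo]
      simp only [lor_add_left, lor_smul_left, lor_xp_dd, lor_ey_dd, lor_xm_dd]
      have : (0 : ℝ) < 2 ^ k := by positivity
      nlinarith [ht.1]
    obtain ⟨h3, h4⟩ := hY (fun g hg => LL_black_ez hg) _ hx h1 h2 hm
    exact hB _ hx h3 h4

theorem main :
    ∃ Γ : Subgroup G, RigidAcylindrical Γ ∧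
      ∃ μ : Measure (Frame Γ), IsLocallyFiniteMeasure μ ∧ μ ≠ 0 ∧ μ (RFplus Γ)ᶜ = 0 ∧
        (∀ (t : ℝ) (E : Set (Frame Γ)), MeasurableSet E → μ (rmul (nz t) ⁻¹' E) = μ E) ∧
        (∀ E : Set (Frame Γ), MeasurableSet E →
          (∀ t : ℝ, rmul (nz t) ⁻¹' E =ᵐ[μ] E) → μ E = 0 ∨ μ Eᶜ = 0) ∧
        (∃ (z : ℂ) (E : Set (Frame Γ)), MeasurableSet E ∧ μ (rmul (nz z) ⁻¹' E) ≠ μ E) ∧
        ∀ (x : Frame Γ) (z : ℂ), IsClosed (orbitH x) → μ (rmul (nz z) '' orbitH x) = 0 := by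
  obtain ⟨R₀, hR₀, hgeo⟩ := exists_geo
  obtain ⟨θ, hθ, hmeas⟩ := exists_measure R₀ hR₀
  obtain ⟨Γ, B, hG, htor, hnc, hg⟩ := hgeo θ hθ
  obtain ⟨μ, h1, h2, h3, h4⟩ := hmeas Γ B hG hnc hg
  exact ⟨Γ, hG.rigid htor, μ, h1, h2,
    measure_mono_null (compl_subset_compl.2 hG.FG_subset) h3, h4⟩

end Pool.Agent.MP_7a4cc0_an
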