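import Pool.Agent.MP_7a4cc0_an.Avoid
import Pool.Agent.MP_7a4cc0_an.Frame
import Pool.Agent.MP_7a4cc0_an.Erg1

open Matrix MeasureTheory Set Topology Filter
open scoped ENNReal NNReal CompactlySupported

namespace Pool.Agent.MP_7a4cc0_an

lemma meas1_shift {F : ℝ → ℝ} (hF : Continuous F) {M : ℝ} (hM : ∀ t, |F t| ≤ M) (s : ℝ) :
    |(∫ t in Ico (1 : ℝ) 2, F (t + s)) - ∫ t in Ico (1 : ℝ) 2, F t| ≤ 2 * M * |s| := by
  rw [integral_Ico_eq_integral_Ioc, integral_Ico_eq_integral_Ioc,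
    ← intervalIntegral.integral_of_le one_le_two, ← intervalIntegral.integral_of_le one_le_two,
    intervalIntegral.integral_comp_add_right,
    intervalIntegral.integral_interval_sub_interval_comm' (hF.intervalIntegrable _ _)
      (hF.intervalIntegrable _ _) (hF.intervalIntegrable _ _)]
  have h1 := intervalIntegral.norm_integral_le_of_norm_le_const (a := 2) (b := 2 + s) (f := F)
    (C := M) fun x _ => hM x
  have h2 := intervalIntegral.norm_integral_le_of_norm_le_const (a := 1) (b := 1 + s) (f := F)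
    (C := M) fun x _ => hM x
  rw [add_sub_cancel_left, Real.norm_eq_abs] at h1 h2
  refine (abs_sub _ _).trans ?_
  linarith

/-- The normalised horocycle piece at level `k`. -/
noncomputable def meas1_mu (Γ : Subgroup G) (c : ℝ) (k : ℕ) : Measure (Frame Γ) :=
  ENNReal.ofReal c⁻¹ • Measure.map (fun t => cls Γ (cv k t)) (volume.restrict (Ico (1 : ℝ) 2))

lemma meas1_cont (Γ : Subgroup G) (k : ℕ) : Continuous fun t => cls Γ (cv k t) :=
  (continuous_cls Γ).comp (continuous_cv k)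

instance (Γ : Subgroup G) (c : ℝ) (k : ℕ) : IsFiniteMeasure (meas1_mu Γ c k) := by
  constructor
  rw [meas1_mu, Measure.smul_apply, smul_eq_mul]
  exact ENNReal.mul_lt_top ENNReal.ofReal_lt_top (measure_lt_top _ _)

lemma meas1_apply (Γ : Subgroup G) (c : ℝ) (k : ℕ) {E : Set (Frame Γ)} (hE : MeasurableSet E) :
    meas1_mu Γ c k E =
      ENNReal.ofReal c⁻¹ * volume {t : ℝ | t ∈ Ico (1 : ℝ) 2 ∧ cls Γ (cv k t) ∈ E} := by
  rw [meas1_mu, Measure.smul_apply, smul_eq_mul,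
    Measure.map_apply (meas1_cont Γ k).measurable hE,
    Measure.restrict_apply ((meas1_cont Γ k).measurable hE), inter_comm]
  rfl

lemma meas1_le (Γ : Subgroup G) {c : ℝ} (hc : 0 < c) (k : ℕ) {E : Set (Frame Γ)}
    (hE : MeasurableSet E) {M : ℝ}
    (h : volume {t : ℝ | t ∈ Ico (1 : ℝ) 2 ∧ cls Γ (cv k t) ∈ E} ≤ ENNReal.ofReal (c * M)) :
    meas1_mu Γ c k E ≤ ENNReal.ofReal M := by
  rw [meas1_apply Γ c k hE]
  refine (mul_le_mul_right h _).trans_eq ?_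
  rw [← ENNReal.ofReal_mul (inv_pos.2 hc).le, inv_mul_cancel_left₀ hc.ne']

lemma meas1_inv (Γ : Subgroup G) {c : ℝ} (hc : 0 < c) (k : ℕ) (s : ℝ) {f : Frame Γ → ℝ}
    (hf : Continuous f) {M : ℝ} (hM : ∀ x, |f x| ≤ M) :
    |∫ x, f (rmul (nz s) x) ∂meas1_mu Γ c k - ∫ x, f x ∂meas1_mu Γ c k| ≤
      c⁻¹ * (2 * M * (|s| / 2 ^ k)) := by
  have hm := (meas1_cont Γ k).measurable.aemeasurable (μ := volume.restrict (Ico (1 : ℝ) 2))
  have hf' : Continuous fun x : Frame Γ => f (rmul (nz s) x) := hf.comp (continuous_rmul _)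
  rw [meas1_mu, integral_smul_measure, integral_smul_measure,
    integral_map hm hf'.aestronglyMeasurable, integral_map hm hf.aestronglyMeasurable,
    ENNReal.toReal_ofReal (inv_pos.2 hc).le, smul_eq_mul, smul_eq_mul, ← mul_sub, abs_mul,
    abs_of_pos (inv_pos.2 hc)]
  refine mul_le_mul_of_nonneg_left ?_ (inv_pos.2 hc).le
  simp only [rmul_cls, cv_mul_nz]
  have := meas1_shift (hf.comp (meas1_cont Γ k)) (fun t => hM _) (s / 2 ^ k)
  rwa [abs_div, abs_of_pos (pow_pos (two_pos (α := ℝ)) k)] at this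

lemma meas1_vol_le (P : ℝ → Prop) : volume {t : ℝ | t ∈ Ico (1 : ℝ) 2 ∧ P t} ≤ 1 := by
  refine (measure_mono (t := Ico (1 : ℝ) 2) fun t ht => ht.1).trans ?_
  norm_num

lemma meas1_orb_inv {Γ : Subgroup G} (n : V) : ∀ γ ∈ Γ, ∀ m ∈ orb Γ n, rho γ m ∈ orb Γ n := by
  rintro γ hγ _ ⟨γ', hγ', rfl⟩
  exact ⟨γ * γ', Γ.mul_mem hγ hγ', rho_mul _ _ _⟩

lemma meas1_not_mem {Γ : Subgroup G} (hnc : ¬ LocFin (orb Γ ez)) {n : V}
    (hn : LocFin (orb Γ n)) : ez ∉ orb Γ n ∧ -ez ∉ orb Γ n := by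
  refine ⟨fun h => hnc fun C => (hn C).subset ?_, fun h => hnc fun C =>
    ((hn C).image Neg.neg).subset ?_⟩
  · rintro _ ⟨⟨γ, hγ, rfl⟩, hC⟩
    exact ⟨meas1_orb_inv n γ hγ _ h, hC⟩
  · rintro _ ⟨⟨γ, hγ, rfl⟩, hC⟩
    refine ⟨rho γ (-ez), ⟨meas1_orb_inv n γ hγ _ h, ?_⟩, by simp⟩
    rwa [map_neg, norm_neg]

lemma meas1_near_inv {Γ : Subgroup G} (n : V) (ε : ℝ) :
    ∀ γ ∈ Γ, ∀ g ∈ {g | ∃ m ∈ orb Γ n, Nf g m < ε}, γ * g ∈ {g | ∃ m ∈ orb Γ n, Nf g m < ε} := by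
  rintro γ hγ g ⟨m, hm, h⟩
  refine ⟨rho γ m, meas1_orb_inv n γ hγ m hm, ?_⟩
  simpa only [Nf, rho_mul, lor_rho] using h

lemma meas1_near_open (S : Set V) (ε : ℝ) : IsOpen {g | ∃ m ∈ S, Nf g m < ε} := by
  have : {g | ∃ m ∈ S, Nf g m < ε} = ⋃ m ∈ S, {g | Nf g m < ε} := by
    ext g
    simp
  rw [this]
  refine isOpen_biUnion fun m _ => isOpen_lt ?_ continuous_const
  have hc : ∀ v, Continuous fun g : G => |lor m (rho g v)| := fun v =>
    (continuous_lor.comp (continuous_const.prodMk (continuous_rho_left v))).abs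
  exact ((hc _).add (hc _)).add (hc _)

lemma meas1_bound {Γ : Subgroup G} {B : Set V} {R₀ : ℝ} (h : Geo Γ B R₀) {θ' R : ℝ}
    (hθ' : 1 ≤ θ') {j₀ : ℕ} (hj : (R + 2) / 2 ^ j₀ ≤ R) {al : ℕ → ℝ}
    (hal : ∀ k, volume {t : ℝ | t ∈ Ico (1 : ℝ) 2 ∧ cv k t ∈ KR B R} = ENNReal.ofReal (al k))
    (h0 : 1 ≤ al 0) {n : ℕ} (hn0 : 0 ≤ al n) (hn : ∀ i, i ≤ n → al i ≤ al n * θ' ^ (n - i))
    {i : ℕ} (hi : i ≤ n) : volume {t : ℝ | t ∈ Ico (1 : ℝ) 2 ∧ cv i t ∈ KR B (R + 2)} ≤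
      ENNReal.ofReal (al n * θ' ^ (j₀ + (n - i))) := by
  rcases le_or_gt j₀ i with hji | hji
  · obtain ⟨i', rfl⟩ := Nat.exists_eq_add_of_le' hji
    refine (measure_mono (t := {t : ℝ | t ∈ Ico (1 : ℝ) 2 ∧ cv i' t ∈ KR B R})
      fun t ht => ⟨ht.1, KR_mono B hj ?_⟩).trans ?_
    · rw [← cv_mul_a2 i' j₀]
      exact KR_mul_a2 (h.cv_mem_FG _ _) ht.2 j₀
    · rw [hal, show j₀ + (n - (i' + j₀)) = n - i' by omega]
      exact ENNReal.ofReal_le_ofReal (hn i' (by omega))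
  · refine (meas1_vol_le _).trans ?_
    rw [← ENNReal.ofReal_one]
    exact ENNReal.ofReal_le_ofReal (h0.trans ((hn 0 (Nat.zero_le n)).trans
      (mul_le_mul_of_nonneg_left (pow_le_pow_right₀ hθ' (by omega)) hn0)))

/-- The limit of the normalised horocycle pieces at record times. -/
theorem exists_limit {Γ : Subgroup G} {B : Set V} {R₀ : ℝ} (h : Geo Γ B R₀)
    (hnc : ¬ LocFin (orb Γ ez)) {θ θ' : ℝ} (hθ : 1 ≤ θ) (hθθ : θ < θ') (hθ' : θ' ≤ 8 / 7)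
    (hg : Growth B θ) {R : ℝ} (hR : 0 < R) :
    ∃ (ν : Measure (Frame Γ)) (O : Set (Frame Γ)), IsLocallyFiniteMeasure ν ∧ ν ≠ 0 ∧
      ν (cls Γ '' FG B)ᶜ = 0 ∧
      (∀ (t : ℝ) (E : Set (Frame Γ)), MeasurableSet E → ν (rmul (nz t) ⁻¹' E) = ν E) ∧
      IsOpen O ∧ cls Γ '' KR B R ⊆ O ∧
      (∃ C : ℝ, ∀ j : ℕ, ν (rmul (a2 ^ j) ⁻¹' O) ≤ ENNReal.ofReal (C * θ' ^ j)) ∧
      ∀ n : V, lor n n = 1 → LocFin (orb Γ n) → ∃ C : ℝ, ∀ (j : ℕ) (δ : ℝ), 0 < δ →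
        ν (rmul (a2 ^ j) ⁻¹' (O ∩ cls Γ '' {g | ∃ m ∈ orb Γ n, Nf g m < δ ^ 2})) ≤
          ENNReal.ofReal (C * δ * θ' ^ j) := by
  have := t2_frame h.disc
  have hθ1 : 1 ≤ θ' := hθ.trans hθθ.le
  have hθ0 : 0 < θ := one_pos.trans_le hθ
  obtain ⟨O, hO⟩ : ∃ O, O = cls Γ '' interior (KR B (R + 1)) := ⟨_, rfl⟩
  have O1 : IsOpen O := hO ▸ isOpenMap_cls Γ _ isOpen_interior
  have O2 : cls Γ '' KR B R ⊆ O := hO ▸ image_mono (h.KR_subset_interior hR.le)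
  have hK : ∀ {r : ℝ} {g : G}, cls Γ g ∈ cls Γ '' KR B r ↔ g ∈ KR B r :=
    cls_mem_image_iff fun γ hγ g hg => (h.mul_mem_KR hγ).2 hg
  have O3 : ∀ g, cls Γ g ∈ O → g ∈ KR B (R + 1) := fun g hg =>
    hK.1 (image_mono interior_subset (hO ▸ hg))
  obtain ⟨al, hal0⟩ : ∃ al : ℕ → ℝ, al = fun k =>
    (volume {t : ℝ | t ∈ Ico (1 : ℝ) 2 ∧ cv k t ∈ KR B R}).toReal := ⟨_, rfl⟩
  have hal : ∀ k, volume {t : ℝ | t ∈ Ico (1 : ℝ) 2 ∧ cv k t ∈ KR B R} =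
      ENNReal.ofReal (al k) := fun k => by
    rw [hal0, ENNReal.ofReal_toReal ((meas1_vol_le _).trans_lt ENNReal.one_lt_top).ne]
  have al0 : ∀ k, 0 ≤ al k := fun k => by rw [hal0]; exact ENNReal.toReal_nonneg
  have al1 : ∀ k, (θ ^ k)⁻¹ ≤ al k := fun k => by
    rw [← ENNReal.ofReal_le_ofReal_iff (al0 k), ← hal]
    exact (hg k).trans (measure_mono fun t ht => ⟨ht.1, KR_mono B hR.le ht.2⟩)
  have al2 : ∀ k, 0 < al k := fun k => lt_of_lt_of_le (by positivity) (al1 k)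
  obtain ⟨n, hn, hrec⟩ := exists_records al θ θ' hθ0 hθθ al1
  obtain ⟨j₀, hj₀⟩ : ∃ j₀ : ℕ, (R + 2) / 2 ^ j₀ ≤ R := by
    obtain ⟨j, hj⟩ := pow_unbounded_of_one_lt ((R + 2) / R) (one_lt_two (α := ℝ))
    refine ⟨j, ?_⟩
    rw [div_lt_iff₀ hR] at hj
    rw [div_le_iff₀ (by positivity)]
    linarith
  have hb := fun l i (hi : i ≤ n l) => meas1_bound h hθ1 hj₀ hal (by simpa using al1 0)
    (al0 (n l)) (hrec l) hi
  have hav := fun p : {n : V // lor n n = 1 ∧ LocFin (orb Γ n)} => avoid h (orb Γ p.1)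
    (by rintro _ ⟨γ, -, rfl⟩; rw [lor_rho, p.2.1]) (meas1_orb_inv p.1) p.2.2
    (meas1_not_mem hnc p.2.2).1 (meas1_not_mem hnc p.2.2).2 (R + 1) (by linarith)
  choose C hC0 hC using hav
  obtain ⟨K₀, hK₀, hK₁, hK₂⟩ := h.exists_compact R
  have hF : IsClosed (cls Γ '' FG B) :=
    isClosed_image_cls (fun γ hγ g hg => (h.mul_mem_FG hγ).2 hg) (isClosed_FG B)
  have hO2 : ∀ (m : V) (δ : ℝ), IsOpen (O ∩ cls Γ '' {g | ∃ m' ∈ orb Γ m, Nf g m' < δ ^ 2}) :=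
    fun m δ => O1.inter (isOpenMap_cls Γ _ (meas1_near_open _ _))
  have hev : ∀ j : ℕ, ∀ᶠ l in atTop, ∃ k, n l = k + j := fun j =>
    (hn.tendsto_atTop.eventually_ge_atTop j).mono fun l hl => Nat.exists_eq_add_of_le' hl
  obtain ⟨ν, ν1, ν2, ν3, ν4, ν5⟩ := erg_limit (fun t : ℝ => rmulH Γ (nz t)) _ hF
    (Sum.elim (fun j : ℕ => rmul (a2 ^ j) ⁻¹' O)
      fun p : {n : V // lor n n = 1 ∧ LocFin (orb Γ n)} × ℕ × {δ : ℝ // 0 < δ} =>
        rmul (a2 ^ p.2.1) ⁻¹' (O ∩ cls Γ '' {g | ∃ m ∈ orb Γ p.1.1, Nf g m < p.2.2.1 ^ 2}))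
    (by
      rintro (j | p)
      · exact O1.preimage (continuous_rmul _)
      · exact (hO2 _ _).preimage (continuous_rmul _))
    (Sum.elim (fun j => (θ' ^ j₀ * θ' ^ j).toNNReal)
      fun p => (C p.1 * θ' ^ j₀ * p.2.2.1 * θ' ^ p.2.1).toNNReal)
    (by
      rintro _ ⟨g, hg, rfl⟩
      obtain ⟨k, hk⟩ := (h.eventually_mem_KR hg hR).exists
      exact mem_iUnion.2 ⟨Sum.inl k, O2 ⟨_, hk, rfl⟩⟩)
    (fun l => meas1_mu Γ (al (n l)) (n l))
    (fun l => by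
      rw [meas1_apply _ _ _ hF.measurableSet.compl]
      refine mul_eq_zero_of_right _ (measure_mono_null (t := ∅) ?_ measure_empty)
      exact fun t ht => ht.2 ⟨_, h.cv_mem_FG _ _, rfl⟩)
    (fun s f => by
      obtain ⟨M, hM⟩ := f.continuous.bounded_above_of_compact_support f.hasCompactSupport
      have hM0 : 0 ≤ M := (norm_nonneg _).trans (hM (cls Γ 1))
      have ht := ((tendsto_pow_atTop_nhds_zero_of_lt_one (r := θ / 2) (by positivity)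
        (by linarith)).comp hn.tendsto_atTop).const_mul (2 * M * |s|)
      rw [mul_zero] at ht
      refine squeeze_zero_norm (fun l => (meas1_inv Γ (al2 _) _ s f.continuous hM).trans ?_) ht
      have h1 : (al (n l))⁻¹ ≤ θ ^ n l := inv_le_of_inv_le₀ (by positivity) (al1 _)
      calc _ ≤ θ ^ n l * (2 * M * (|s| / 2 ^ n l)) := by gcongr
        _ = _ := by rw [Function.comp, div_pow]; ring)
    (by
      rintro (j | ⟨p, j, δ, hδ⟩)
      · filter_upwards [hev j] with l ⟨k, hk⟩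
        refine meas1_le Γ (al2 _) _ (O1.preimage (continuous_rmul _)).measurableSet ?_
        refine (measure_mono fun t ht => ?_).trans ((hb l k (by omega)).trans_eq ?_)
        · have h1 := ht.2
          rw [hk, mem_preimage, rmul_cls, cv_mul_a2] at h1
          exact ⟨ht.1, KR_mono B (by linarith) (O3 _ h1)⟩
        · rw [show n l - k = j by omega, pow_add]
      · filter_upwards [hev j] with l ⟨k, hk⟩
        refine meas1_le Γ (al2 _) _ ((hO2 _ _).preimage (continuous_rmul _)).measurableSet ?_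
        have h2 := hC p θ' (al (n l) * θ' ^ j₀ * θ' ^ j) δ k hθ1 hθ'
          (by have := al0 (n l); positivity) hδ fun i hi => by
            rw [show R + 1 + 1 = R + 2 by ring]
            refine (hb l i (by omega)).trans_eq ?_
            rw [show n l - i = j + (k - i) by omega, pow_add, pow_add]
            ring_nf
        refine (measure_mono fun t ht => ?_).trans (h2.trans_eq ?_)
        · have h1 := ht.2
          rw [hk, mem_preimage, rmul_cls, cv_mul_a2] at h1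
          exact ⟨ht.1, O3 _ h1.1, (cls_mem_image_iff (meas1_near_inv _ _)).1 h1.2⟩
        · ring_nf)
    (cls Γ '' K₀) (hK₀.image (continuous_cls Γ))
    (fun l => by
      rw [meas1_apply _ _ _ (hK₀.image (continuous_cls Γ)).measurableSet]
      refine le_trans (le_of_eq ?_) (mul_le_mul_right (measure_mono
        (s := {t : ℝ | t ∈ Ico (1 : ℝ) 2 ∧ cv (n l) t ∈ KR B R}) fun t ht => ?_) _)
      · rw [hal, ← ENNReal.ofReal_mul (inv_pos.2 (al2 _)).le, inv_mul_cancel₀ (al2 _).ne',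
          ENNReal.ofReal_one]
      · obtain ⟨γ, hγ, hk⟩ := hK₂ _ ht.2
        exact ⟨ht.1, _, hk, cls_mul hγ _⟩)
  exact ⟨ν, O, ν1, ν2, ν3, ν4, O1, O2, ⟨θ' ^ j₀, fun j => ν5 (Sum.inl j)⟩, fun m h1 h2 =>
    ⟨C ⟨m, h1, h2⟩ * θ' ^ j₀, fun j δ hδ => ν5 (Sum.inr (⟨m, h1, h2⟩, j, ⟨δ, hδ⟩))⟩⟩

end Pool.Agent.MP_7a4cc0_an
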