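import Pool.Agent.MP_7a4cc0_an.Core
import Pool.Agent.MP_7a4cc0_an.Frame

open Matrix MeasureTheory Set Topology Filter
open scoped ENNReal NNReal CompactlySupported

namespace Pool.Agent.MP_7a4cc0_an

/-- The quadratic function is large somewhere on a fixed finite set. -/
lemma ninv_quad (R₀ : ℝ) (hR₀ : 0 ≤ R₀) : ∃ (r c : ℝ) (W : Finset ℂ), 0 < r ∧ 0 < c ∧ W.Nonempty ∧
    (∀ w ∈ W, ‖w‖ ≤ r) ∧ ∀ a C B₁ B₂ : ℝ, 0 ≤ a → -R₀ ≤ -a + C → B₁ ^ 2 + B₂ ^ 2 = 1 - 4 * a * C →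
      a ≤ R₀ + 1 ∧ ∃ w ∈ W, c ≤ -a * ‖w‖ ^ 2 + w.re * B₁ + w.im * B₂ + C := by
  set T := R₀ + 1 with hT
  have hT1 : 1 ≤ T := by linarith
  set r := T * (1 + 2 * T) with hr
  have hr0 : 0 < r := by positivity
  set c := 1 / (1 + 2 * T ^ 2) ^ 2 with hc
  have hc0 : 0 < c := by positivity
  set M := 2 * T * r + 2 * (1 + 2 * T) with hM
  have hM0 : 0 < M := by positivity
  obtain ⟨t, ht, hf, hcov⟩ := finite_cover_balls_of_compact
    (isCompact_closedBall (0 : ℂ) r) (e := c / 2 / M) (by positivity)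
  have hn : ∀ w ∈ t, ‖w‖ ≤ r := fun w hw => mem_closedBall_zero_iff.1 (ht hw)
  refine ⟨r, c / 2, hf.toFinset, hr0, by positivity, ?_, fun w hw => hn w (by simpa using hw),
    fun a C B₁ B₂ ha hC hB => ?_⟩
  · obtain ⟨w, hw, -⟩ := mem_iUnion₂.1 (hcov (Metric.mem_closedBall_self hr0.le))
    exact ⟨w, by simpa using hw⟩
  have h1 : a ≤ T := by
    by_contra h
    have h2 : 1 < C := by linarith [not_le.1 h]
    have h3 : 1 < a := by linarith [not_le.1 h]
    nlinarith [sq_nonneg B₁, sq_nonneg B₂, mul_pos (sub_pos.2 h2) (sub_pos.2 h3)]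
  refine ⟨h1, ?_⟩
  have h2 : B₁ ^ 2 + B₂ ^ 2 ≤ (1 + 2 * T) ^ 2 := by
    have : a * -C ≤ T * T := by
      calc a * -C ≤ a * T := mul_le_mul_of_nonneg_left (by linarith) ha
        _ ≤ T * T := mul_le_mul_of_nonneg_right h1 (by linarith)
    nlinarith
  have b1 : |B₁| ≤ 1 + 2 * T := abs_le_of_sq_le_sq (by nlinarith [sq_nonneg B₂]) (by linarith)
  have b2 : |B₂| ≤ 1 + 2 * T := abs_le_of_sq_le_sq (by nlinarith [sq_nonneg B₁]) (by linarith)
  set D := 1 + 2 * a * T with hD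
  have hD1 : 1 ≤ D := by nlinarith
  set lam := T / D with hlam
  have l0 : 0 ≤ lam := by positivity
  have l1 : lam ≤ T := div_le_self (by linarith) hD1
  set w₀ : ℂ := ⟨lam * B₁, lam * B₂⟩ with hw₀
  have n0 : ‖w₀‖ ^ 2 = lam ^ 2 * (B₁ ^ 2 + B₂ ^ 2) := by
    rw [Complex.sq_norm, Complex.normSq_apply]; simp only [hw₀]; ring
  have n1 : ‖w₀‖ ≤ r := by
    refine le_of_sq_le_sq ?_ hr0.le
    rw [n0, hr, mul_pow]
    exact mul_le_mul (pow_le_pow_left₀ l0 l1 2) h2 (by positivity) (by positivity)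
  have q0 : c ≤ -a * ‖w₀‖ ^ 2 + w₀.re * B₁ + w₀.im * B₂ + C := by
    have e : -a * ‖w₀‖ ^ 2 + w₀.re * B₁ + w₀.im * B₂ + C = (T * (1 + a * T) + C) / D ^ 2 := by
      rw [n0]
      simp only [hw₀]
      rw [show -a * (lam ^ 2 * (B₁ ^ 2 + B₂ ^ 2)) + lam * B₁ * B₁ + lam * B₂ * B₂ + C =
        (lam - a * lam ^ 2) * (B₁ ^ 2 + B₂ ^ 2) + C by ring, hB, hlam]
      have : D ≠ 0 := by linarith
      field_simp
      rw [hD]
      ring
    rw [e, hc]
    refine div_le_div₀ (by nlinarith [mul_nonneg ha (sq_nonneg T)])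
      (by nlinarith [mul_nonneg ha (sq_nonneg T)]) (by positivity) ?_
    exact pow_le_pow_left₀ (by linarith) (by nlinarith) 2
  obtain ⟨w, hw, hw'⟩ := mem_iUnion₂.1 (hcov (mem_closedBall_zero_iff.2 n1))
  refine ⟨w, by simpa using hw, ?_⟩
  rw [Metric.mem_ball, dist_eq_norm] at hw'
  set η := ‖w₀ - w‖ with hη
  have η0 : 0 ≤ η := norm_nonneg _
  have c1 : ‖w‖ ^ 2 - ‖w₀‖ ^ 2 ≤ 2 * r * η := by
    have := norm_sub_norm_le w w₀
    rw [norm_sub_rev] at this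
    nlinarith [hn w hw, norm_nonneg w, norm_nonneg w₀]
  have c2 : (w₀.re - w.re) * B₁ ≤ η * (1 + 2 * T) := by
    refine (le_abs_self _).trans ?_
    rw [abs_mul]
    exact mul_le_mul (Complex.abs_re_le_norm (w₀ - w)) b1 (abs_nonneg _) η0
  have c3 : (w₀.im - w.im) * B₂ ≤ η * (1 + 2 * T) := by
    refine (le_abs_self _).trans ?_
    rw [abs_mul]
    exact mul_le_mul (Complex.abs_im_le_norm (w₀ - w)) b2 (abs_nonneg _) η0
  have c4 : a * (‖w‖ ^ 2 - ‖w₀‖ ^ 2) ≤ T * (2 * r * η) :=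
    (mul_le_mul_of_nonneg_left c1 ha).trans (mul_le_mul_of_nonneg_right h1 (by positivity))
  have c5 : η * M ≤ c / 2 := by rw [← le_div_iff₀ hM0]; exact hw'.le
  rw [hM] at c5
  nlinarith

lemma ninv_point (R₀ : ℝ) (hR₀ : 0 ≤ R₀) : ∃ (R : ℝ) (l : ℕ) (W : Finset ℂ), 0 < R ∧ 0 < l ∧
    W.Nonempty ∧ ∀ (Γ : Subgroup G) (B : Set V), Geo Γ B R₀ → ∀ g ∈ FG B,
      (∀ w ∈ W, g * nz (2 ^ l * w) ∈ KR B R → g * a2 ^ l ∈ KR B R) ∧
        ∃ w ∈ W, g * nz (2 ^ l * w) ∉ KR B R := by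
  obtain ⟨r, c, W, hr, hc, hW, hn, hq⟩ := ninv_quad R₀ hR₀
  obtain ⟨l, hl⟩ := pow_unbounded_of_one_lt (max (1 + r) ((1 + r + (R₀ + 1)) / c)) (one_lt_two (α := ℝ))
  have l1 : 1 + r < 2 ^ l := (le_max_left _ _).trans_lt hl
  have l2 : 1 + r + (R₀ + 1) < 2 ^ l * c := (div_lt_iff₀ hc).1 ((le_max_right _ _).trans_lt hl)
  have l0 : (0 : ℝ) < 2 ^ l := by positivity
  refine ⟨1 + r, l, W, by linarith, Nat.pos_of_ne_zero ?_, hW, fun Γ B h g hg =>
    ⟨fun w hw hk => ?_, ?_⟩⟩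
  · rintro rfl
    rw [pow_zero] at l1
    linarith
  · have h1 := KR_mul_a2 ((FG_mul_nz _).2 hg) hk l
    rw [mul_assoc, nz_mul_a2, mul_div_cancel_left₀ _ (by simp), ← mul_assoc] at h1
    have h2 := KR_mul_nz h.unit ((FG_mul_nz _).2 ((FG_mul_a2 l).2 hg)) (by positivity) h1 (-w)
    rw [mul_assoc, ← nz_add, add_neg_cancel, nz_zero, mul_one, norm_neg] at h2
    refine KR_mono B ?_ h2
    have : (1 + r) / 2 ^ l ≤ 1 := (div_le_one l0).2 l1.le
    linarith [hn w hw]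
  · obtain ⟨b, hb, hp⟩ := h.porous _ (rho_fut (g * a2 ^ l) fut_vo)
    rw [rho_mul, vo_eq, map_add, rho_a2_xp, rho_a2_xm, map_add, map_smul, map_smul, lor_add_left,
      lor_smul_left, lor_smul_left] at hp
    have h1 := lor_decomp (rho g⁻¹ b) (rho g⁻¹ b)
    rw [lor_rho, h.unit b hb] at h1
    simp only [lor_comm (rho g⁻¹ b), ← lor_rho_left] at h1
    have h2 := hg b hb
    obtain ⟨h3, w, hw, h4⟩ := hq (-(2 ^ l * lor (rho g xp) b)) ((2 ^ l)⁻¹ * lor (rho g xm) b)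
      (lor (rho g ey) b) (lor (rho g ez) b) (by nlinarith) (by linarith) (by
        field_simp
        linarith)
    refine ⟨w, hw, fun hk => ?_⟩
    have h5 := hk b hb
    rw [rho_mul, rho_nz_vo] at h5
    simp only [map_add, map_smul, lor_add_left, lor_smul_left, norm_mul, norm_pow,
      Complex.norm_ofNat] at h5
    have e1 : ((2 : ℂ) ^ l * w).re = 2 ^ l * w.re := by
      rw [show (2 : ℂ) ^ l = ((2 ^ l : ℝ) : ℂ) by push_cast; rfl, Complex.re_ofReal_mul]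
    have e2 : ((2 : ℂ) ^ l * w).im = 2 ^ l * w.im := by
      rw [show (2 : ℂ) ^ l = ((2 ^ l : ℝ) : ℂ) by push_cast; rfl, Complex.im_ofReal_mul]
    rw [e1, e2] at h5
    have h6 := mul_le_mul_of_nonneg_left h4 l0.le
    have e3 : (2 : ℝ) ^ l * ((2 ^ l)⁻¹ * lor (rho g xm) b) = lor (rho g xm) b := by field_simp
    rw [mul_add, e3] at h6
    have h7 : -lor (rho g xp) b ≤ -(2 ^ l * lor (rho g xp) b) := by nlinarith
    nlinarith

/-- Uniform porosity forces exponential growth of `N`-invariant measures under the geodesic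
flow. -/
theorem ninv (R₀ : ℝ) (hR₀ : 0 ≤ R₀) : ∃ R θ : ℝ, 0 < R ∧ 1 < θ ∧
    ∀ (Γ : Subgroup G) (B : Set V), Geo Γ B R₀ → ∀ ν : Measure (Frame Γ), ν ≠ 0 →
      ν (cls Γ '' FG B)ᶜ = 0 → ∀ C : ℝ,
      (∀ j : ℕ, ν (rmul (a2 ^ j) ⁻¹' (cls Γ '' KR B R)) ≤ ENNReal.ofReal (C * θ ^ j)) →
      ∃ (z : ℂ) (E : Set (Frame Γ)), MeasurableSet E ∧ ν (rmul (nz z) ⁻¹' E) ≠ ν E := by
  classical
  obtain ⟨R, l, W, hR, hl, hW, hp⟩ := ninv_point R₀ hR₀
  have hm : (1 : ℝ) ≤ W.card := by exact_mod_cast hW.card_pos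
  set κ : ℝ := (W.card - 1) / W.card with hκ
  have κ0 : 0 ≤ κ := div_nonneg (by linarith) (by linarith)
  have κ1 : κ < 1 := (div_lt_one (by linarith)).2 (by linarith)
  obtain ⟨θ, hθ, hθ1⟩ : ∃ θ : ℝ, κ * θ ^ l < 1 ∧ 1 < θ := by
    have : Tendsto (fun θ : ℝ => κ * θ ^ l) (𝓝[>] 1) (𝓝 (κ * 1 ^ l)) :=
      ((by fun_prop : Continuous fun θ : ℝ => κ * θ ^ l).tendsto 1).mono_left nhdsWithin_le_nhds
    rw [one_pow, mul_one] at this
    exact ((this.eventually_lt_const κ1).and self_mem_nhdsWithin).exists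
  refine ⟨R, θ, hR, hθ1, fun Γ B h ν hν hF C hC => ?_⟩
  by_contra hn
  have hinv : ∀ (z : ℂ) (E : Set (Frame Γ)), MeasurableSet E → ν (rmul (nz z) ⁻¹' E) = ν E :=
    fun z E hE => by_contra fun h' => hn ⟨z, E, hE, h'⟩
  have hK : ∀ γ ∈ Γ, ∀ g ∈ KR B R, γ * g ∈ KR B R := fun γ hγ g hg => (h.mul_mem_KR hγ).2 hg
  let A : ℕ → Set (Frame Γ) := fun j => rmul (a2 ^ (j * l)) ⁻¹' (cls Γ '' KR B R)
  have hA : ∀ j, MeasurableSet (A j) := fun j =>
    ((isClosed_image_cls hK (isClosed_KR B R)).preimage (continuous_rmul _)).measurableSet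
  have hA' : ∀ j g, cls Γ g ∈ A j ↔ g * a2 ^ (j * l) ∈ KR B R := fun j g => cls_mem_image_iff hK
  have hfin : ∀ j, ν (A j) ≠ ∞ := fun j => ne_top_of_le_ne_top ENNReal.ofReal_ne_top (hC _)
  have step : ∀ j, ν (A (j + 1)) + W.card * ν (A j) ≤ W.card * ν (A (j + 1)) := by
    intro j
    let E : ℂ → Set (Frame Γ) := fun w => rmul (nz (2 ^ l * w * 2 ^ (j * l))) ⁻¹' A j
    have hE : ∀ w, MeasurableSet (E w) := fun w => (continuous_rmul _).measurable (hA j)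
    have hE' : ∀ w g, cls Γ g ∈ E w ↔ g * a2 ^ (j * l) * nz (2 ^ l * w) ∈ KR B R := fun w g => by
      refine (hA' j _).trans ?_
      rw [mul_assoc, nz_mul_a2, mul_div_cancel_right₀ _ (by simp), ← mul_assoc]
    have h1 : ∀ᵐ x ∂ν, (A (j + 1)).indicator (1 : Frame Γ → ℝ≥0∞) x +
        ∑ w ∈ W, (E w).indicator (1 : Frame Γ → ℝ≥0∞) x ≤
          W.card * (A (j + 1)).indicator (1 : Frame Γ → ℝ≥0∞) x := by
      filter_upwards [hF]
      rintro _ ⟨g, hg, rfl⟩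
      obtain ⟨p1, w₀, hw₀, p2⟩ := hp Γ B h _ ((FG_mul_a2 (j * l)).2 hg)
      by_cases hx : cls Γ g ∈ A (j + 1)
      · rw [indicator_of_mem hx, ← Finset.add_sum_erase _ _ hw₀,
          indicator_of_notMem (mt (hE' w₀ g).1 p2), zero_add, ← Finset.card_erase_add_one hw₀]
        push_cast
        rw [Pi.one_apply, mul_one, add_comm]
        refine add_le_add ?_ le_rfl
        refine (Finset.sum_le_card_nsmul _ _ 1 fun w _ => ?_).trans (by simp)
        exact indicator_le_self' (fun _ _ => zero_le_one) _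
      · rw [indicator_of_notMem hx, Finset.sum_eq_zero fun w hw => indicator_of_notMem
          (fun h' => hx ((hA' _ g).2 ?_)) _]
        · simp
        · rw [add_mul, one_mul, pow_add, ← mul_assoc]
          exact p1 w hw ((hE' w g).1 h')
    have h2 := lintegral_mono_ae h1
    rw [lintegral_add_left (measurable_one.indicator (hA _)), lintegral_finsetSum _
      (fun w _ => measurable_one.indicator (hE w)), lintegral_const_mul _
      (measurable_one.indicator (hA _)), lintegral_indicator_one (hA _),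
      Finset.sum_congr rfl (g := fun _ => ν (A j)) fun w _ => by
        rw [lintegral_indicator_one (hE w), hinv _ _ (hA j)]] at h2
    simpa using h2
  have step' : ∀ j, (ν (A j)).toReal ≤ κ * (ν (A (j + 1))).toReal := fun j => by
    have := ENNReal.toReal_mono (ENNReal.mul_ne_top (by simp) (hfin _)) (step j)
    rw [ENNReal.toReal_add (hfin _) (ENNReal.mul_ne_top (by simp) (hfin _)), ENNReal.toReal_mul,
      ENNReal.toReal_mul, ENNReal.toReal_natCast] at this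
    rw [hκ, div_mul_eq_mul_div, le_div_iff₀ (by linarith)]
    linarith
  have iter : ∀ j i, (ν (A j)).toReal ≤ κ ^ i * (ν (A (j + i))).toReal := fun j i => by
    induction i with
    | zero => simp
    | succ i ih =>
      rw [pow_succ, mul_assoc]
      exact ih.trans (mul_le_mul_of_nonneg_left (step' _) (pow_nonneg κ0 _))
  have zero : ∀ j, ν (A j) = 0 := fun j => by
    have θ0 : 0 < θ := by linarith
    have h1 : Tendsto (fun i : ℕ => |C| * θ ^ (j * l) * (κ * θ ^ l) ^ i) atTop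
        (𝓝 (|C| * θ ^ (j * l) * 0)) :=
      (tendsto_pow_atTop_nhds_zero_of_lt_one (by positivity) hθ).const_mul _
    rw [mul_zero] at h1
    have h2 : (ν (A j)).toReal ≤ 0 := ge_of_tendsto' h1 fun i => (iter j i).trans (by
      have h3 : (ν (A (j + i))).toReal ≤ |C| * θ ^ ((j + i) * l) :=
        ENNReal.toReal_le_of_le_ofReal (by positivity) ((hC _).trans (ENNReal.ofReal_le_ofReal
          (mul_le_mul_of_nonneg_right (le_abs_self C) (by positivity))))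
      refine (mul_le_mul_of_nonneg_left h3 (pow_nonneg κ0 _)).trans_eq ?_
      rw [add_mul, pow_add, mul_pow, ← pow_mul θ l i, mul_comm l i]
      ring)
    exact ((ENNReal.toReal_eq_zero_iff _).1 (le_antisymm h2 ENNReal.toReal_nonneg)).resolve_right
      (hfin j)
  refine hν (Measure.measure_univ_eq_zero.1 ?_)
  refine measure_mono_null (t := (cls Γ '' FG B)ᶜ ∪ ⋃ j, A j) (fun x _ => ?_)
    (measure_union_null hF (measure_iUnion_null zero))
  by_cases hx : x ∈ cls Γ '' FG B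
  · obtain ⟨g, hg, rfl⟩ := hx
    obtain ⟨N, hN⟩ := eventually_atTop.1 (h.eventually_mem_KR hg hR)
    exact Or.inr (mem_iUnion.2 ⟨N, (hA' N g).2 (hN _ (Nat.le_mul_of_pos_right N hl))⟩)
  · exact Or.inl hx

end Pool.Agent.MP_7a4cc0_an
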