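import Pool.Agent.MP_7a4cc0_an.Meas1
import Pool.Agent.MP_7a4cc0_an.Erg2
import Pool.Agent.MP_7a4cc0_an.NInv
import Pool.Agent.MP_7a4cc0_an.Closed

open Matrix MeasureTheory Set Topology Filter
open scoped ENNReal NNReal CompactlySupported

namespace Pool.Agent.MP_7a4cc0_an

lemma meas2_continuous_Nf (m : V) : Continuous fun g : G => Nf g m := by
  have h (v : V) : Continuous fun g : G => lor m (rho g v) :=
    continuous_lor.comp (continuous_const.prodMk (continuous_rho_left v))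
  exact ((h xp).abs.add (h ey).abs).add (h xm).abs

lemma meas2_isOpen (S : Set V) (c : ℝ) : IsOpen {g : G | ∃ m ∈ S, Nf g m < c} := by
  have : {g : G | ∃ m ∈ S, Nf g m < c} = ⋃ m ∈ S, {g : G | Nf g m < c} := by
    ext g; simp
  rw [this]
  exact isOpen_biUnion fun m _ => isOpen_lt (meas2_continuous_Nf m) continuous_const

lemma meas2_Nf (g : G) (z : ℂ) (j : ℕ) :
    Nf (g * nz z * a2 ^ j) (rho g ez) = |z.im| / 2 ^ j := by
  simp only [Nf, rho_mul, lor_rho, rho_a2_xp, rho_a2_ey, rho_a2_xm, map_smul, rho_nz_xp, rho_nz_ey,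
    rho_nz_xm, lor_smul_right, lor_add_right, lor_ez_xp, lor_ez_ey, lor_ez_ez, lor_ez_xm]
  simp only [mul_zero, abs_zero, add_zero, zero_add, mul_one, abs_mul, abs_inv]
  rw [abs_of_pos (by positivity : (0 : ℝ) < 2 ^ j)]; ring

lemma meas2_geom (C r : ℝ) (hr0 : 0 ≤ r) (hr : r < 1) (f : ℕ → ℝ≥0∞)
    (hf : ∀ j, f j ≤ ENNReal.ofReal (C * r ^ j)) : ∑' j, f j ≠ ∞ := by
  have hs : Summable fun j => max C 0 * r ^ j := (summable_geometric_of_lt_one hr0 hr).mul_left _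
  refine ne_top_of_le_ne_top (b := ∑' j, ENNReal.ofReal (max C 0 * r ^ j)) ?_
    (ENNReal.tsum_le_tsum fun j => (hf j).trans (ENNReal.ofReal_le_ofReal ?_))
  · rw [← ENNReal.ofReal_tsum_of_nonneg (fun j => by positivity) hs]
    exact ENNReal.ofReal_ne_top
  · exact mul_le_mul_of_nonneg_right (le_max_left _ _) (by positivity)

lemma meas2_eventually (c : ℝ) : ∀ᶠ j : ℕ in atTop, c / 2 ^ j < ((7 / 8 : ℝ) ^ j) ^ 2 := by
  have h := tendsto_pow_atTop_atTop_of_one_lt (show (1 : ℝ) < 49 / 32 by norm_num)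
  filter_upwards [h.eventually_gt_atTop c] with j hj
  rw [div_lt_iff₀ (by positivity), ← pow_mul, mul_comm j 2, pow_mul, ← mul_pow]
  convert hj using 2; norm_num

theorem exists_measure (R₀ : ℝ) (hR₀ : 0 ≤ R₀) : ∃ θ : ℝ, 1 < θ ∧
    ∀ (Γ : Subgroup G) (B : Set V), Geo Γ B R₀ → ¬ LocFin (orb Γ ez) → Growth B θ →
      ∃ μ : Measure (Frame Γ), IsLocallyFiniteMeasure μ ∧ μ ≠ 0 ∧ μ (cls Γ '' FG B)ᶜ = 0 ∧
        (∀ (t : ℝ) (E : Set (Frame Γ)), MeasurableSet E → μ (rmul (nz t) ⁻¹' E) = μ E) ∧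
        (∀ E : Set (Frame Γ), MeasurableSet E →
          (∀ t : ℝ, rmul (nz t) ⁻¹' E =ᵐ[μ] E) → μ E = 0 ∨ μ Eᶜ = 0) ∧
        (∃ (z : ℂ) (E : Set (Frame Γ)), MeasurableSet E ∧ μ (rmul (nz z) ⁻¹' E) ≠ μ E) ∧
        ∀ (x : Frame Γ) (z : ℂ), IsClosed (orbitH x) → μ (rmul (nz z) '' orbitH x) = 0 := by
  obtain ⟨R, θn, hR, hθn, hninv⟩ := ninv R₀ hR₀
  obtain ⟨θ₃, h31, h3n, h38⟩ : ∃ θ₃ : ℝ, 1 < θ₃ ∧ θ₃ ≤ θn ∧ θ₃ ≤ 8 / 7 :=
    ⟨min θn (8 / 7), lt_min hθn (by norm_num), min_le_left _ _, min_le_right _ _⟩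
  refine ⟨(2 + θ₃) / 3, by linarith, fun Γ B h hnc hg => ?_⟩
  set θ₂ : ℝ := (1 + 2 * θ₃) / 3 with hθ₂
  have h21 : 1 < θ₂ := by rw [hθ₂]; linarith
  have h23 : θ₂ < θ₃ := by rw [hθ₂]; linarith
  have := t2_frame h.disc
  obtain ⟨ν₀, O, hlf, hne, hF0, hinv, hO, hKO, ⟨C₀, hC₀⟩, hpl⟩ :=
    exists_limit h hnc (θ := (2 + θ₃) / 3) (θ' := θ₂) (by linarith) (by rw [hθ₂]; linarith)
      (by linarith) hg hR
  set P : Set V := {n : V | LocFin (orb Γ n) ∧ ∃ g ∈ FG B, rho g ez = n} with hP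
  have : Countable P := h.countable_planes.to_subtype
  have hFinv : ∀ γ ∈ Γ, ∀ g ∈ FG B, γ * g ∈ FG B := fun γ hγ g hg => (h.mul_mem_FG hγ).2 hg
  have hFc : IsClosed (cls Γ '' FG B) := isClosed_image_cls hFinv (isClosed_FG B)
  -- the open sets and the weights
  let O' : Option P → ℕ → Set (Frame Γ) := fun p j => match p with
    | none => rmul (a2 ^ j) ⁻¹' O
    | some n => rmul (a2 ^ j) ⁻¹'
        (O ∩ cls Γ '' {g | ∃ m ∈ orb Γ n.1, Nf g m < ((7 / 8 : ℝ) ^ j) ^ 2})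
  let w : Option P → ℕ → ℝ≥0 := fun p j => match p with
    | none => Real.toNNReal ((θ₃ ^ j)⁻¹)
    | some _ => 1
  have hO' : ∀ p j, IsOpen (O' p j) := by
    rintro (_ | n) j
    · exact hO.preimage (continuous_rmul _)
    · exact (hO.inter (isOpenMap_cls Γ _ (meas2_isOpen _ _))).preimage (continuous_rmul _)
  have hw : ∀ p j, w p j ≠ 0 := by
    rintro (_ | n) j
    · exact (Real.toNNReal_pos.2 (by positivity)).ne'
    · exact one_ne_zero
  have hrow : ∀ p, ∑' j, (w p j : ℝ≥0∞) * ν₀ (O' p j) ≠ ∞ := by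
    rintro (_ | n)
    · refine meas2_geom C₀ (θ₂ / θ₃) (by positivity) ((div_lt_one (by linarith)).2 h23) _
        fun j => ?_
      calc (w none j : ℝ≥0∞) * ν₀ (O' none j)
          ≤ ENNReal.ofReal ((θ₃ ^ j)⁻¹) * ENNReal.ofReal (C₀ * θ₂ ^ j) := by
            gcongr
            · exact le_rfl
            · exact hC₀ j
        _ = ENNReal.ofReal (C₀ * (θ₂ / θ₃) ^ j) := by
            rw [← ENNReal.ofReal_mul (by positivity), div_pow θ₂ θ₃, div_eq_mul_inv (θ₂ ^ j),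
              mul_comm (θ₃ ^ j)⁻¹, mul_assoc]
    · obtain ⟨g, -, hgn⟩ := n.2.2
      obtain ⟨C, hC⟩ := hpl n.1 (by rw [← hgn, lor_rho, lor_ez_ez]) n.2.1
      refine meas2_geom C (7 / 8 * θ₂) (by positivity) (by linarith) _ fun j => ?_
      have := hC j ((7 / 8 : ℝ) ^ j) (by positivity)
      simp only [w, ENNReal.coe_one, one_mul]
      rw [mul_pow, ← mul_assoc]; exact this
  obtain ⟨δ, hδ, hδs⟩ := ENNReal.exists_pos_tsum_mul_lt_of_countable (ε := 1) one_ne_zero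
    (fun p => ∑' j, (w p j : ℝ≥0∞) * ν₀ (O' p j)) hrow
  have hsplit (ν : Measure (Frame Γ)) :
      ∑' i : Option P × ℕ, ((δ i.1 * w i.1 i.2 : ℝ≥0) : ℝ≥0∞) * ν (O' i.1 i.2) =
        ∑' p, (∑' j, (w p j : ℝ≥0∞) * ν (O' p j)) * δ p := by
    rw [ENNReal.tsum_prod']
    refine tsum_congr fun p => ?_
    rw [← ENNReal.tsum_mul_right]
    refine tsum_congr fun j => ?_
    push_cast; ring
  have hcov : cls Γ '' FG B ⊆ ⋃ i : Option P × ℕ, O' i.1 i.2 := by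
    rintro _ ⟨g, hg, rfl⟩
    obtain ⟨j, hj⟩ := (h.eventually_mem_KR hg hR).exists
    exact mem_iUnion.2 ⟨(none, j), hKO ⟨_, hj, rfl⟩⟩
  obtain ⟨ν, hlf', hne', hF', hinv', herg, hsum⟩ :=
    erg_cap (fun t : ℝ => rmulH Γ (nz t)) (cls Γ '' FG B) hFc
      (fun i : Option P × ℕ => O' i.1 i.2) (fun i => hO' i.1 i.2) (fun i => δ i.1 * w i.1 i.2)
      (fun i => mul_ne_zero (hδ i.1).ne' (hw i.1 i.2)) hcov ν₀ hne hF0 hinv
      (by rw [hsplit]; exact (hδs.trans ENNReal.one_lt_top).ne)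
  have hrow' : ∀ p, ∑' j, (w p j : ℝ≥0∞) * ν (O' p j) ≠ ∞ := by
    intro p hp
    rw [hsplit] at hsum
    refine hsum (top_le_iff.1 (le_trans ?_ (ENNReal.le_tsum p)))
    rw [hp, ENNReal.top_mul (by exact_mod_cast (hδ p).ne')]
  refine ⟨ν, hlf', hne', hF', hinv', herg, ?_, ?_⟩
  · refine hninv Γ B h ν hne' hF' (∑' j, (w none j : ℝ≥0∞) * ν (O' none j)).toReal fun j => ?_
    have h1 : (w none j : ℝ≥0∞) * ν (O' none j) ≤ ∑' j, (w none j : ℝ≥0∞) * ν (O' none j) :=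
      ENNReal.le_tsum j
    calc ν (rmul (a2 ^ j) ⁻¹' (cls Γ '' KR B R)) ≤ ν (O' none j) :=
          measure_mono (preimage_mono hKO)
      _ = ((w none j : ℝ≥0∞) * ν (O' none j)) * ENNReal.ofReal (θ₃ ^ j) := by
          have : (w none j : ℝ≥0∞) * ENNReal.ofReal (θ₃ ^ j) = 1 := by
            change ENNReal.ofReal ((θ₃ ^ j)⁻¹) * ENNReal.ofReal (θ₃ ^ j) = 1
            rw [← ENNReal.ofReal_mul (by positivity), inv_mul_cancel₀ (by positivity),
              ENNReal.ofReal_one]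
          rw [mul_right_comm, this, one_mul]
      _ ≤ (∑' j, (w none j : ℝ≥0∞) * ν (O' none j)) * ENNReal.ofReal (θn ^ j) := by
          gcongr
      _ = _ := by
          rw [ENNReal.ofReal_mul ENNReal.toReal_nonneg, ENNReal.ofReal_toReal (hrow' none)]
  · intro x z hx
    obtain ⟨g, rfl⟩ := cls_surjective Γ x
    have hfin := locFin_of_isClosed h.countable g hx
    have key : ∀ y ∈ rmul (nz z) '' orbitH (cls Γ g) ∩ cls Γ '' FG B,
        ∃ g' ∈ FG B, rho g' ez = rho g ez ∧ y = cls Γ (g' * nz z) := by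
      rintro _ ⟨⟨_, ⟨k, hk, rfl⟩, rfl⟩, hy⟩
      have hy' : g * k * nz z ∈ FG B := (cls_mem_image_iff hFinv).1 hy
      exact ⟨g * k, (FG_mul_nz z).1 hy', by rw [rho_mul, mem_H_iff.1 hk], rfl⟩
    have hnull : ν (rmul (nz z) '' orbitH (cls Γ g) ∩ cls Γ '' FG B) = 0 := by
      rcases (rmul (nz z) '' orbitH (cls Γ g) ∩ cls Γ '' FG B).eq_empty_or_nonempty with
        he | ⟨y, hy⟩
      · rw [he, measure_empty]
      obtain ⟨g₁, hg₁, hn₁, -⟩ := key y hy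
      let n : P := ⟨rho g ez, hfin, g₁, hg₁, hn₁⟩
      have hs : ∑' j, ν (O' (some n) j) ≠ ∞ := by simpa [w] using hrow' (some n)
      refine measure_mono_null ?_ (measure_limsup_atTop_eq_zero hs)
      intro y hy
      obtain ⟨g', hg', hn', rfl⟩ := key y hy
      rw [mem_limsup_iff_frequently_mem]
      refine Eventually.frequently ?_
      filter_upwards [h.eventually_mem_KR ((FG_mul_nz z).2 hg') hR, meas2_eventually |z.im|]
        with j h1 h2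
      refine ⟨hKO ⟨_, h1, rfl⟩, g' * nz z * a2 ^ j, ⟨rho g ez, ⟨1, Γ.one_mem, rho_one _⟩, ?_⟩, rfl⟩
      rw [← hn', meas2_Nf]; exact h2
    refine measure_mono_null (t := (rmul (nz z) '' orbitH (cls Γ g) ∩ cls Γ '' FG B) ∪
      (cls Γ '' FG B)ᶜ) (fun y hy => ?_) (measure_union_null hnull hF')
    by_cases hyF : y ∈ cls Γ '' FG B
    · exact Or.inl ⟨hy, hyF⟩
    · exact Or.inr hyF

end Pool.Agent.MP_7a4cc0_an
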