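import Pool.Agent.MP_7a4cc0_an.Lor

open Matrix MeasureTheory Set Topology Filter
open scoped ENNReal NNReal CompactlySupported

namespace Pool.Agent.MP_7a4cc0_an

lemma RepTop_emb : IsClosedEmbedding (Subtype.val : SL2 → Fin 2 → Fin 2 → ℂ) :=
  Matrix.SpecialLinearGroup.isClosedEmbedding_val

lemma RepTop_closed : IsClosed ((Subgroup.center SL2 : Subgroup SL2) : Set SL2) := by
  have : T2Space SL2 := RepTop_emb.isEmbedding.t2Space
  rw [Subgroup.coe_center, ← Set.centralizer_univ]
  exact Set.isClosed_centralizer _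

instance : T2Space G := by
  have := RepTop_closed
  infer_instance

instance : SecondCountableTopology G := by
  have : SecondCountableTopology (Matrix (Fin 2) (Fin 2) ℂ) :=
    inferInstanceAs (SecondCountableTopology (Fin 2 → Fin 2 → ℂ))
  have : SecondCountableTopology SL2 := RepTop_emb.isEmbedding.secondCountableTopology
  infer_instance

instance : LocallyCompactSpace G := by
  have : LocallyCompactSpace (Matrix (Fin 2) (Fin 2) ℂ) :=
    inferInstanceAs (LocallyCompactSpace (Fin 2 → Fin 2 → ℂ))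
  have : LocallyCompactSpace SL2 := RepTop_emb.locallyCompactSpace
  infer_instance

lemma continuous_pr : Continuous pr := QuotientGroup.continuous_mk

lemma RepTop_herm : Continuous herm := by
  refine continuous_matrix fun i j => ?_
  have e : ∀ a b : ℝ, (⟨a, b⟩ : ℂ) = a + b * Complex.I := fun a b => Complex.mk_eq_add_mul_I a b
  fin_cases i <;> fin_cases j <;> simp [herm, e] <;> fun_prop

lemma RepTop_unherm : Continuous unherm := by
  refine continuous_pi fun i => ?_
  fin_cases i <;> simp [unherm] <;> fun_prop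

lemma continuous_rho : Continuous fun p : G × V => rho p.1 p.2 := by
  rw [← (QuotientGroup.isOpenQuotientMap_mk.prodMap IsOpenQuotientMap.id).continuous_comp_iff]
  have h : Continuous fun p : SL2 × V => p.1.1 := continuous_subtype_val.comp continuous_fst
  exact RepTop_unherm.comp ((h.matrix_mul (RepTop_herm.comp continuous_snd)).matrix_mul
    h.matrix_conjTranspose)

lemma continuous_rho_left (v : V) : Continuous fun g : G => rho g v :=
  continuous_rho.comp (Continuous.prodMk_left v)

lemma RepTop_herm_vo : herm vo = 1 := by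
  ext i j; fin_cases i <;> fin_cases j <;> simp [herm, vo, Complex.ext_iff]

lemma RepTop_vo (g : SL2) : rho (pr g) vo 0 = (‖g.1 0 0‖ ^ 2 + ‖g.1 0 1‖ ^ 2 + ‖g.1 1 0‖ ^ 2 +
    ‖g.1 1 1‖ ^ 2) / 2 := by
  rw [rho_pr, rhoSL_apply, RepTop_herm_vo, Matrix.mul_one]
  simp only [Complex.sq_norm, Complex.normSq_apply]
  simp [unherm, Matrix.mul_apply, Fin.sum_univ_two]
  ring

lemma RepTop_vo_pos (g : G) : 0 < rho g vo 0 := by
  obtain ⟨g, rfl⟩ := pr_surjective g
  have h : lor (rho (pr g) vo) (rho (pr g) vo) < 0 := by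
    rw [lor_rho, fut_vo.1]; norm_num
  refine lt_of_le_of_ne ?_ (timelike_ne h).symm
  rw [RepTop_vo]
  positivity

lemma rho_cone (g : G) {y : V} (hy : Cone y) : Cone (rho g y) := by
  refine ⟨by rw [lor_rho]; exact hy.1, ?_⟩
  have h := lor_cone_neg hy (u := rho g⁻¹ vo) (by rw [lor_rho, fut_vo.1]; norm_num)
    (RepTop_vo_pos _)
  rw [← lor_rho_left, lor_vo_right] at h
  linarith

lemma rho_fut (g : G) {x : V} (hx : Fut x) : Fut (rho g x) :=
  ⟨by rw [lor_rho]; exact hx.1, (rho_cone g hx.cone).2⟩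

lemma isCompact_bdd (C : ℝ) : IsCompact {g : G | rho g vo 0 ≤ C} := by
  have h1 : IsCompact (Set.pi univ fun _ : Fin 2 => Set.pi univ fun _ : Fin 2 =>
      Metric.closedBall (0 : ℂ) (√(2 * C))) :=
    isCompact_univ_pi fun _ => isCompact_univ_pi fun _ => isCompact_closedBall _ _
  refine ((RepTop_emb.isCompact_preimage h1).image continuous_pr).of_isClosed_subset
    (isClosed_le ((continuous_apply 0).comp (continuous_rho_left vo)) continuous_const)
    fun g hg => ?_
  obtain ⟨g, rfl⟩ := pr_surjective g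
  refine ⟨g, fun i _ j _ => ?_, rfl⟩
  rw [mem_ofPred_eq, RepTop_vo] at hg
  rw [mem_closedBall_zero_iff]
  refine Real.le_sqrt_of_sq_le ?_
  have a := sq_nonneg ‖g.1 0 0‖
  have b := sq_nonneg ‖g.1 0 1‖
  have c := sq_nonneg ‖g.1 1 0‖
  have d := sq_nonneg ‖g.1 1 1‖
  fin_cases i <;> fin_cases j <;> simp only [Fin.zero_eta, Fin.mk_one] <;> linarith

lemma rho_eq_one {g : G} (h : ∀ v, rho g v = v) : g = 1 := by
  obtain ⟨g, rfl⟩ := pr_surjective g
  have h1 : ∀ v, g.1 * herm v * g.1ᴴ = herm v := fun v => by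
    rw [← herm_rhoSL, ← rho_pr, h]
  have h2 : g.1ᴴ * g.1 = 1 := by
    have := h1 vo
    rw [RepTop_herm_vo, Matrix.mul_one] at this
    exact mul_eq_one_comm.1 this
  have h3 : ∀ v, g.1 * herm v = herm v * g.1 := fun v => by
    conv_rhs => rw [← h1 v, Matrix.mul_assoc, h2, Matrix.mul_one]
  have e1 : herm xp = !![1, 0; 0, 0] := by
    ext i j; fin_cases i <;> fin_cases j <;> simp [herm, xp, Complex.ext_iff]
    norm_num
  have e2 : herm ey = !![0, 1; 1, 0] := by
    ext i j; fin_cases i <;> fin_cases j <;> simp [herm, ey, Complex.ext_iff]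
  have a := h3 xp
  have b := h3 ey
  rw [e1] at a
  rw [e2] at b
  have a1 := congrFun (congrFun a 0) 1
  have a2 := congrFun (congrFun a 1) 0
  have b1 := congrFun (congrFun b 0) 1
  simp [Matrix.mul_apply, Fin.sum_univ_two] at a1 a2 b1
  refine (QuotientGroup.eq_one_iff g).2 (Subgroup.mem_center_iff.2 fun k => Subtype.ext ?_)
  ext i j
  fin_cases i <;> fin_cases j <;> simp [Matrix.mul_apply, Fin.sum_univ_two, ← a1, a2, b1] <;> ring

lemma abs_det_rho (g : G) : |LinearMap.det (rho g : V →ₗ[ℝ] V)| = 1 := by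
  have h : (LinearMap.toMatrix' (rho g : V →ₗ[ℝ] V))ᵀ * diagonal ![-1, 1, 1, 1] *
      LinearMap.toMatrix' (rho g : V →ₗ[ℝ] V) = diagonal ![-1, 1, 1, 1] := by
    ext i j
    have := lor_rho g (Pi.single i 1) (Pi.single j 1)
    have e : lor (Pi.single i 1) (Pi.single j 1) = diagonal ![-1, 1, 1, 1] i j := by
      fin_cases i <;> fin_cases j <;> simp [lor]
    rw [← e, ← this, Matrix.mul_apply]
    simp [Matrix.mul_diagonal, Fin.sum_univ_four, LinearMap.toMatrix'_apply, lor]
  have h' := congrArg Matrix.det h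
  rw [Matrix.det_mul, Matrix.det_mul, Matrix.det_transpose, LinearMap.det_toMatrix',
    Matrix.det_diagonal] at h'
  simp only [Fin.prod_univ_four, Matrix.cons_val] at h'
  rw [← sq_eq_sq₀ (abs_nonneg _) zero_le_one, sq_abs]
  linarith

/-- Elements of a compact set move bounded vectors to bounded vectors. -/
lemma exists_norm_rho_le {K : Set G} (hK : IsCompact K) :
    ∃ D : ℝ, 0 ≤ D ∧ ∀ g ∈ K, ∀ v : V, ‖rho g v‖ ≤ D * ‖v‖ := by
  obtain ⟨D, hD⟩ := hK.exists_bound_of_continuousOn
    (f := fun g => ∑ i : Fin 4, ‖rho g (Pi.single i 1)‖)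
    (continuous_finsetSum _ fun i _ => (continuous_rho_left _).norm).continuousOn
  refine ⟨|D|, abs_nonneg _, fun g hg v => ?_⟩
  have e : v = ∑ i, v i • (Pi.single i 1 : V) := by
    ext j; simp [Finset.sum_apply, Pi.single_apply]
  calc ‖rho g v‖ = ‖∑ i, v i • rho g (Pi.single i 1)‖ := by
        conv_lhs => rw [e, map_sum]
        simp only [map_smul]
    _ ≤ ∑ i, ‖rho g (Pi.single i 1)‖ * ‖v‖ := norm_sum_le_of_le _ fun i _ => by
        rw [norm_smul, mul_comm]
        exact mul_le_mul_of_nonneg_left (norm_le_pi_norm v i) (norm_nonneg _)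
    _ ≤ _ := by
        rw [← Finset.sum_mul]
        exact mul_le_mul_of_nonneg_right ((le_abs_self _).trans ((hD g hg).trans (le_abs_self D)))
          (norm_nonneg _)

end Pool.Agent.MP_7a4cc0_an
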