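import Pool.Agent.MP_7a4cc0_an.Core
import Pool.Agent.MP_7a4cc0_an.Frame

open Matrix MeasureTheory Set Topology Filter
open scoped ENNReal NNReal CompactlySupported

namespace Pool.Agent.MP_7a4cc0_an

/-- The vector `(1, p)` over a point of the closed ball. -/
def lift (p : E3) : V := ![1, p 0, p 1, p 2]

lemma rigid1_lor (p : E3) (b : V) :
    lor (lift p) b = -b 0 + (p 0 * b 1 + p 1 * b 2 + p 2 * b 3) := by
  simp [lor, lift]; ring

lemma rigid1_norm (p : E3) : ‖p‖ ^ 2 = p 0 ^ 2 + p 1 ^ 2 + p 2 ^ 2 := by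
  rw [EuclideanSpace.real_norm_sq_eq, Fin.sum_univ_three]

lemma lor_lift_self (p : E3) : lor (lift p) (lift p) = ‖p‖ ^ 2 - 1 := by
  rw [rigid1_norm]; simp [lor, lift]; ring
lemma lift_kl {v : V} (h : v 0 ≠ 0) : lift (kl v) = (v 0)⁻¹ • v := by
  ext i; fin_cases i <;> simp [lift, kl, h]
lemma kl_smul_lift (p : E3) {c : ℝ} (hc : c ≠ 0) : kl (c • lift p) = p := by
  ext i; fin_cases i <;> simp [lift, kl, hc]
lemma continuous_lift : Continuous lift := by
  refine continuous_pi fun i => ?_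
  fin_cases i <;> simp [lift] <;> fun_prop

lemma rigid1_dist (p q : E3) : dist p q ^ 2 =
    lor (lift p) (lift p) - 2 * lor (lift p) (lift q) + lor (lift q) (lift q) := by
  rw [dist_eq_norm, rigid1_norm]; simp [lor, lift]; ring

lemma rigid1_cone {p : E3} (h : ‖p‖ = 1) : Cone (lift p) :=
  ⟨by rw [lor_lift_self, h]; norm_num, by simp [lift]⟩

lemma rigid1_line (p e : E3) (t : ℝ) (b : V) : lor (lift (p + t • e)) b =
    lor (lift p) b + t * (e 0 * b 1 + e 1 * b 2 + e 2 * b 3) := by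
  simp only [rigid1_lor, PiLp.add_apply, PiLp.smul_apply, smul_eq_mul]; ring

theorem Geo.limitSet_eq {Γ : Subgroup G} {B : Set V} {R₀ : ℝ} (h : Geo Γ B R₀) :
    limitSet Γ = {p | ‖p‖ = 1 ∧ ∀ b ∈ B, lor (lift p) b ≤ 0} := by
  ext p
  constructor
  · rintro ⟨h1, h2⟩
    refine ⟨by simpa using h2, fun b hb => ?_⟩
    have hc : IsClosed {p : E3 | lor (lift p) b ≤ 0} :=
      isClosed_le (continuous_lor.comp (continuous_lift.prodMk continuous_const)) continuous_const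
    refine closure_minimal ?_ hc h1
    rintro _ ⟨g, hg, rfl⟩
    have hx := (rho_fut (pr g) fut_vo).2
    show lor (lift (pt g)) b ≤ 0
    rw [pt_eq, lift_kl hx.ne', lor_smul_left, lor_rho_left]
    exact mul_nonpos_of_nonneg_of_nonpos (inv_pos.2 hx).le
      (h.neg _ (h.inv _ (Γ.inv_mem hg) b hb)).le
  · rintro ⟨h1, h2⟩
    refine ⟨Metric.mem_closure_iff.2 fun ε hε => ?_, by simpa using h1⟩
    obtain ⟨C, hC⟩ := h.cocpt
    obtain ⟨r, hr2, hrC⟩ : ∃ r : ℝ, 2 ≤ r ∧ 8 * |C| < r * ε ^ 2 := by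
      refine ⟨2 + 8 * |C| / ε ^ 2, le_add_of_nonneg_right (by positivity), ?_⟩
      rw [add_mul, div_mul_cancel₀ _ (by positivity)]
      linarith [pow_pos hε 2]
    have hr : 0 < r := by linarith
    obtain ⟨s, hs⟩ : ∃ s : ℝ, s = (r ^ 2 - 1) / 2 := ⟨_, rfl⟩
    have s0 : r ^ 2 / 4 ≤ s := by rw [hs]; nlinarith
    have s1 : 0 < s := lt_of_lt_of_le (by positivity) s0
    have a0 : lift p 0 = 1 := rfl
    have a1 : lor (lift p) (lift p) = 0 := by rw [lor_lift_self, h1]; norm_num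
    have hx : Fut (r⁻¹ • (vo + s • lift p)) := by
      constructor
      · simp only [lor_smul_left, lor_smul_right, lor_add_left, lor_add_right, lor_vo_vo, a1,
          lor_vo_left (lift p), lor_vo_right (lift p), a0]
        rw [hs]
        field_simp
        ring
      · have : vo 0 = 1 := rfl
        simp only [Pi.smul_apply, Pi.add_apply, smul_eq_mul, this, a0]
        positivity
    obtain ⟨γ, hγ, hle⟩ := hC _ hx fun b hb => by
      rw [lor_smul_left, lor_add_left, lor_smul_left]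
      exact mul_nonpos_of_nonneg_of_nonpos (inv_pos.2 hr).le
        (by nlinarith [h.neg b hb, h2 b hb])
    obtain ⟨g, hg⟩ := pr_surjective γ⁻¹
    refine ⟨pt g, ⟨g, show pr g ∈ Γ from hg ▸ Γ.inv_mem hγ, rfl⟩, ?_⟩
    have hy := rho_fut γ⁻¹ fut_vo
    have b1 : -lor (r⁻¹ • (vo + s • lift p)) (rho γ⁻¹ vo) ≤ C := by
      rwa [← lor_rho_left, lor_vo_right, neg_neg]
    rw [lor_smul_left, lor_add_left, lor_smul_left, lor_vo_left, ← mul_neg,
      inv_mul_le_iff₀ hr] at b1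
    have b2 := lor_cone_nonpos (rigid1_cone h1) hy.cone
    have b3 := rigid1_dist p (pt g)
    rw [pt_eq, hg] at b3 ⊢
    rw [a1, lift_kl hy.2.ne', lor_smul_left, lor_smul_right, lor_smul_right, hy.1] at b3
    have b4 : ((rho γ⁻¹) vo 0)⁻¹ ≤ 1 := inv_le_one_of_one_le₀ hy.one_le
    have b5 := inv_pos.2 hy.2
    have b6 : dist p (kl (rho γ⁻¹ vo)) ^ 2 ≤ -2 * lor (lift p) (rho γ⁻¹ vo) := by
      nlinarith [mul_pos b5 b5]
    refine lt_of_pow_lt_pow_left₀ 2 hε.le ?_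
    by_contra hc
    push Not at hc
    have b7 : s * ε ^ 2 ≤ 2 * (r * |C|) := by
      nlinarith [hy.2, mul_le_mul_of_nonneg_left (le_abs_self C) hr.le]
    nlinarith [mul_le_mul_of_nonneg_right s0 (sq_nonneg ε), mul_lt_mul_of_pos_left hrC hr]

theorem Geo.FG_subset {Γ : Subgroup G} {B : Set V} {R₀ : ℝ} (h : Geo Γ B R₀) :
    cls Γ '' FG B ⊆ RFplus Γ := by
  rintro _ ⟨g, hg, rfl⟩
  obtain ⟨g, rfl⟩ := pr_surjective g
  refine ⟨g, ?_, rfl⟩
  have hy := (rho_cone (pr g) cone_xp).2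
  show plus g ∈ limitSet Γ
  rw [h.limitSet_eq, plus_eq]
  refine ⟨?_, fun b hb => ?_⟩
  · have e := lor_lift_self (kl (rho (pr g) xp))
    rw [lift_kl hy.ne', lor_smul_left, lor_smul_right, lor_rho, lor_xp_xp] at e
    exact (pow_eq_one_iff_of_nonneg (norm_nonneg _) two_ne_zero).1 (by linarith)
  · rw [lift_kl hy.ne', lor_smul_left]
    exact mul_nonpos_of_nonneg_of_nonpos (inv_pos.2 hy).le (hg b hb)

lemma rigid1_chord {y e : E3} (hy : ‖y‖ < 1) (he : e ≠ 0) : ∃ t : ℝ, 0 < t ∧ ‖y + t • e‖ = 1 := by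
  have h0 : 0 < ‖e‖ := norm_pos_iff.2 he
  have hc : Continuous fun t : ℝ => ‖y + t • e‖ := by fun_prop
  have h1 : 1 ≤ ‖y + (2 / ‖e‖) • e‖ := by
    have := norm_sub_norm_le ((2 / ‖e‖) • e) (-y)
    rw [norm_smul, Real.norm_of_nonneg (by positivity), div_mul_cancel₀ _ h0.ne', norm_neg,
      sub_neg_eq_add, add_comm] at this
    linarith
  obtain ⟨t, ht, e1⟩ := intermediate_value_Icc (show (0 : ℝ) ≤ 2 / ‖e‖ by positivity)
    hc.continuousOn (show (1 : ℝ) ∈ _ from ⟨by simpa using hy.le, h1⟩)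
  refine ⟨t, ht.1.lt_of_ne ?_, e1⟩
  rintro rfl
  simp only [zero_smul, add_zero] at e1
  exact hy.ne e1

lemma rigid1_between {K : Set E3} (hK : Convex ℝ K) {p e : E3} {t t' : ℝ} (ht : 0 ≤ t)
    (ht' : 0 ≤ t') (h1 : p + t • e ∈ K) (h2 : p + t' • -e ∈ K) : p ∈ K := by
  rcases ht.eq_or_lt with rfl | h0
  · simpa using h1
  have hs : 0 < t + t' := by linarith
  have := hK h1 h2 (a := t' / (t + t')) (b := t / (t + t')) (by positivity) (by positivity)
    (by field_simp; ring)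
  convert this using 1
  match_scalars <;> field_simp <;> ring

lemma Geo.rigid1_plane {Γ : Subgroup G} {B : Set V} {R₀ : ℝ} (h : Geo Γ B R₀) {b : V}
    (hb : b ∈ B) {y : E3} (hy : ‖y‖ < 1) (h0 : lor (lift y) b = 0) :
    y ∈ convexHull ℝ (limitSet Γ) := by
  obtain ⟨e, he, h1⟩ : ∃ e : E3, e ≠ 0 ∧ e 0 * b 1 + e 1 * b 2 + e 2 * b 3 = 0 := by
    by_cases hb : b 1 = 0
    · refine ⟨!₂[1, 0, 0], fun e => ?_, by simp [hb]⟩
      simpa using congrArg (fun v : E3 => v 0) e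
    · refine ⟨!₂[-b 2, b 1, 0], fun e => hb ?_, by simp; ring⟩
      simpa using congrArg (fun v : E3 => v 1) e
  have key : ∀ z : E3, ‖z‖ = 1 → lor (lift z) b = 0 → z ∈ convexHull ℝ (limitSet Γ) := by
    intro z hz h2
    refine subset_convexHull ℝ _ ?_
    rw [h.limitSet_eq]
    refine ⟨hz, fun b' hb' => ?_⟩
    by_cases hne : b = b'
    · exact hne ▸ h2.le
    · exact (h.plane hb hb' hne (rigid1_cone hz) h2.ge).le
  obtain ⟨t, ht, e1⟩ := rigid1_chord hy he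
  obtain ⟨t', ht', e2⟩ := rigid1_chord hy (neg_ne_zero.2 he)
  refine rigid1_between (convex_convexHull ℝ _) ht.le ht'.le (key _ e1 ?_) (key _ e2 ?_)
  · rw [rigid1_line, h0, h1]; ring
  · rw [rigid1_line, h0]
    simp only [PiLp.neg_apply]
    linear_combination -t' * h1

lemma Geo.rigid1_ray {Γ : Subgroup G} {B : Set V} {R₀ : ℝ} (h : Geo Γ B R₀) {p e : E3}
    (hp : ‖p‖ < 1) (hB : ∀ b ∈ B, lor (lift p) b ≤ 0) (he : e ≠ 0) :
    ∃ t : ℝ, 0 ≤ t ∧ p + t • e ∈ convexHull ℝ (limitSet Γ) := by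
  obtain ⟨t, ht, e1⟩ := rigid1_chord hp he
  by_cases hz : ∀ b ∈ B, lor (lift (p + t • e)) b ≤ 0
  · exact ⟨t, ht.le, subset_convexHull ℝ _ (h.limitSet_eq ▸ ⟨e1, hz⟩)⟩
  push Not at hz
  obtain ⟨b, hb, h1⟩ := hz
  have h2 := hB b hb
  rw [rigid1_line] at h1
  generalize hl : e 0 * b 1 + e 1 * b 2 + e 2 * b 3 = l at h1
  have l0 : 0 < t * l := by linarith
  obtain ⟨θ, hθ⟩ : ∃ θ : ℝ, θ = -lor (lift p) b / (t * l) := ⟨_, rfl⟩
  have θ0 : 0 ≤ θ := hθ ▸ div_nonneg (neg_nonneg.2 h2) l0.le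
  have θ1 : θ < 1 := hθ ▸ (div_lt_one l0).2 (by linarith)
  refine ⟨θ * t, by positivity, h.rigid1_plane hb ?_ ?_⟩
  · have e2 : p + (θ * t) • e = (1 - θ) • p + θ • (p + t • e) := by module
    rw [e2]
    refine (norm_add_le _ _).trans_lt ?_
    rw [norm_smul, norm_smul, e1, Real.norm_of_nonneg θ0, Real.norm_of_nonneg (by linarith)]
    nlinarith
  · rw [rigid1_line, hl, mul_assoc, hθ, div_mul_cancel₀ _ l0.ne', add_neg_cancel]

theorem Geo.hull_eq {Γ : Subgroup G} {B : Set V} {R₀ : ℝ} (h : Geo Γ B R₀) :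
    hull Γ = {p | ‖p‖ < 1 ∧ ∀ b ∈ B, lor (lift p) b ≤ 0} := by
  ext p
  constructor
  · rintro ⟨h1, h2⟩
    refine ⟨by simpa using h2, fun b hb => ?_⟩
    have hc : Convex ℝ {p : E3 | lor (lift p) b ≤ 0} := by
      intro x hx y hy s t hs ht hst
      simp only [mem_ofPred_eq, rigid1_lor, PiLp.add_apply, PiLp.smul_apply, smul_eq_mul] at *
      obtain rfl : t = 1 - s := by linarith
      nlinarith [mul_nonneg hs (neg_nonneg.2 hx), mul_nonneg ht (neg_nonneg.2 hy)]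
    refine convexHull_min ?_ hc h1
    rw [h.limitSet_eq]
    exact fun q hq => hq.2 b hb
  · rintro ⟨h1, h2⟩
    refine ⟨?_, by simpa using h1⟩
    have he : (!₂[1, 0, 0] : E3) ≠ 0 := fun e => by simpa using congrArg (fun v : E3 => v 0) e
    obtain ⟨t, ht, e1⟩ := h.rigid1_ray h1 h2 he
    obtain ⟨t', ht', e2⟩ := h.rigid1_ray h1 h2 (neg_ne_zero.2 he)
    exact rigid1_between (convex_convexHull ℝ _) ht ht' e1 e2

end Pool.Agent.MP_7a4cc0_an
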