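import Pool.Agent.MP_7a4cc0_an.FinRep

open Matrix MeasureTheory Set Topology Filter
open scoped ENNReal NNReal CompactlySupported

namespace Pool.Agent.MP_7a4cc0_an

/-- A far wall has constant sign on a plane. -/
lemma walls_sign {m m' x y : V} (hm : lor m m = 1) (hm' : lor m' m' = 1) (h : 2 ≤ |lor m m'|)
    (hx : Cone x) (hy : Cone y) (h1 : lor x m = 0) (h2 : lor y m = 0) (h3 : lor x m' < 0) :
    lor y m' < 0 := by
  rcases le_abs.1 h with h | h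
  · exact lor_sep (m := -m) hm' (by simpa using hm) (by rw [lor_neg_right, lor_comm]; linarith) hx
      h3 (by simp [h1]) hy (by simp [h2])
  · exact lor_sep hm' hm (by rw [lor_comm]; linarith) hx h3 h1.le hy h2.ge

lemma walls_pt {m : V} (hm : lor m m = 1) : ∃ x, Cone x ∧ lor x m = 0 := by
  obtain ⟨h1, h2⟩ := proj_timelike fut_vo hm
  exact ⟨_, ⟨by rw [h1]; nlinarith [sq_nonneg (lor vo m)], h2⟩, by simp [hm]⟩

/-- The outermost elements of an oriented family. -/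
def wallsM (W₀ : Set V) : Set V :=
  {m | m ∈ W₀ ∧ ∀ m' ∈ W₀, ∀ y, Cone y → lor y m = 0 → lor y m' ≤ 0}

lemma walls_step {W₀ : Set V} (unit : ∀ m ∈ W₀, lor m m = 1)
    (sep : ∀ m ∈ W₀, ∀ m' ∈ W₀, m' = m ∨ m' = -m ∨ 2 ≤ |lor m m'|)
    (ho : ∀ m ∈ W₀, lor vo m ≤ 0) {y m : V} (hy : Fut y) (hm : m ∈ W₀) (hM : m ∉ wallsM W₀)
    (h : 0 ≤ lor y m) : ∃ m' ∈ W₀, lor y m + 1 ≤ lor y m' := by
  simp only [wallsM, mem_ofPred_eq, hm, true_and, not_forall, not_le] at hM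
  obtain ⟨m', hm', x, hx, h1, h2⟩ := hM
  have u1 := unit m hm
  have u2 : lor (-m') (-m') = 1 := by simpa using unit m' hm'
  have h3 : lor x (-m') < 0 := by simpa using h2
  refine ⟨m', hm', ?_⟩
  rcases sep m hm m' hm' with e | e | e
  · rw [e] at h2; linarith
  · rw [e, lor_neg_right] at h2; linarith
  rcases le_abs.1 e with e | e
  · have := lor_drop (m := -m') hy u2 u1 (by rw [lor_neg_right]; linarith)
      (fun y' hy' h' => lor_sep u2 u1 (by rw [lor_neg_left, lor_comm]; linarith) hx h3 h1.le hy' h')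
      h
    simpa using this
  · have := lor_sep (m := -m) u2 (by simpa using u1)
      (by rw [lor_neg_left, lor_neg_right, lor_comm]; linarith) hx h3 (by simp [h1]) fut_vo.cone
      (by simpa using ho m hm)
    rw [lor_neg_right] at this
    linarith [ho m' hm']

lemma walls_first {W₀ : Set V} (unit : ∀ m ∈ W₀, lor m m = 1)
    (sep : ∀ m ∈ W₀, ∀ m' ∈ W₀, m' = m ∨ m' = -m ∨ 2 ≤ |lor m m'|)
    (ho : ∀ m ∈ W₀, lor vo m ≤ 0) {y m : V} (hy : Fut y) (hm : m ∈ W₀) (h : 0 ≤ lor y m) :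
    ∃ m' ∈ wallsM W₀, lor y m ≤ lor y m' := by
  by_contra H
  push Not at H
  have key : ∀ n : ℕ, ∃ m' ∈ W₀, lor y m + n ≤ lor y m' := by
    intro n
    induction n with
    | zero => exact ⟨m, hm, by simp⟩
    | succ n ih =>
      obtain ⟨a, ha, h1⟩ := ih
      have n0 : (0 : ℝ) ≤ n := Nat.cast_nonneg n
      obtain ⟨b, hb, h2⟩ := walls_step unit sep ho hy ha (fun hM => by linarith [H a hM])
        (by linarith)
      exact ⟨b, hb, by push_cast; linarith⟩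
  obtain ⟨n, hn⟩ := exists_nat_gt |lor y vo|
  obtain ⟨a, ha, h1⟩ := key n
  have n0 : (0 : ℝ) ≤ n := Nat.cast_nonneg n
  have := lor_dist (m := -a) hy fut_vo (by simpa using unit a ha) (by rw [lor_neg_right]; linarith)
    (by simpa using ho a ha)
  rw [lor_neg_right, neg_sq, ← sq_abs (lor y vo)] at this
  nlinarith [abs_nonneg (lor y vo)]

/-- Orientations of `W` pointing away from a point at bounded distance form a finite set. -/
lemma walls_fin {W : Set V} (unit : ∀ m ∈ W, lor m m = 1)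
    (sep : ∀ m ∈ W, ∀ m' ∈ W, m' = m ∨ m' = -m ∨ 2 ≤ |lor m m'|) (C : ℝ) :
    {a : Set V | a ⊆ W ∧ (∀ m ∈ W, m ∈ a ∨ -m ∈ a) ∧
      ∃ z, Fut z ∧ z 0 ≤ C ∧ ∀ m ∈ a, lor z m ≤ 0}.Finite := by
  obtain ⟨D, hD⟩ := norm_le_of_lor 1 1 C
  have hF : {m ∈ W | |lor vo m| ≤ C}.Finite := (locFin_of_sep unit sep D).subset fun m hm =>
    ⟨hm.1, hD vo m fut_vo (by simp [vo]) (by rw [unit m hm.1, abs_one]) hm.2⟩
  refine (hF.finite_subsets.image fun t => t ∪ {m ∈ W | C < |lor vo m| ∧ lor vo m < 0}).subset ?_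
  rintro a ⟨h1, h2, z, hz, hC, h3⟩
  have key : ∀ m ∈ a, C < |lor vo m| → lor vo m < 0 := fun m hm h => by
    by_contra H
    have := lor_dist (m := -m) fut_vo hz (by simpa using unit m (h1 hm)) (by simpa using H)
      (by simpa using h3 m hm)
    rw [lor_neg_right, neg_sq, lor_vo_left z, neg_sq, ← sq_abs (lor vo m)] at this
    nlinarith [hz.2]
  refine ⟨{m ∈ a | |lor vo m| ≤ C}, fun m hm => ⟨h1 hm.1, hm.2⟩, Subset.antisymm ?_ fun m hm => ?_⟩
  · rintro m (hm | ⟨hm, a1, a2⟩)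
    · exact hm.1
    refine (h2 m hm).resolve_right fun h => ?_
    have := key _ h (by rwa [lor_neg_right, abs_neg])
    rw [lor_neg_right] at this
    linarith
  · rcases le_or_gt |lor vo m| C with h | h
    exacts [Or.inl ⟨hm, h⟩, Or.inr ⟨h1 hm, h, key m hm h⟩]

/-- The stabiliser of a set of vectors. -/
def wallsG (L : Subgroup G) (W₀ : Set V) : Subgroup G where
  carrier := {g | g ∈ L ∧ ∀ m, rho g m ∈ W₀ ↔ m ∈ W₀}
  mul_mem' := fun {g h} hg hh => ⟨L.mul_mem hg.1 hh.1, fun m => by rw [rho_mul, hg.2, hh.2]⟩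
  one_mem' := ⟨L.one_mem, fun m => by rw [rho_one]⟩
  inv_mem' := fun {g} hg => ⟨L.inv_mem hg.1, fun m => by rw [← hg.2, rho_rho_inv]⟩

/-- The region cut out by a separated invariant family of walls, next to the wall `d`. -/
theorem walls (L : Subgroup G) (W : Set V) (d : V) (hdo : lor vo d = 0) (hdW : d ∈ W)
    (unit : ∀ m ∈ W, lor m m = 1) (hneg : ∀ m ∈ W, -m ∈ W)
    (inv : ∀ g ∈ L, ∀ m ∈ W, rho g m ∈ W)
    (sep : ∀ m ∈ W, ∀ m' ∈ W, m' = m ∨ m' = -m ∨ 2 ≤ |lor m m'|)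
    (cocpt : ∃ C : ℝ, ∀ x, Fut x → ∃ g ∈ L, rho g x 0 ≤ C) :
    ∃ (Gs : Subgroup G) (M : Set V), Gs ≤ L ∧ (∀ g ∈ L, rho g d = d → g ∈ Gs) ∧ M ⊆ W ∧ d ∈ M ∧
      (∀ g ∈ Gs, ∀ m ∈ M, rho g m ∈ M) ∧ (∀ m ∈ M, ∀ m' ∈ M, m ≠ m' → lor m m' ≤ -2) ∧
      (∀ m ∈ M, m ≠ d → lor vo m < 0) ∧
      (∃ C : ℝ, ∀ x, Fut x → (∀ m ∈ M, lor x m ≤ 0) → ∃ g ∈ Gs, rho g x 0 ≤ C) ∧
      (∀ y : V, lor y y < 0 → 0 < y 0 → ∀ m ∈ W, lor vo m < 0 → 0 ≤ lor y m →
        ∃ m' ∈ M, 0 ≤ lor y m') := by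
  obtain ⟨W₀, hW⟩ : ∃ W₀ : Set V, ∀ m, m ∈ W₀ ↔ m ∈ W ∧ (m = d ∨ lor vo m < 0) :=
    ⟨{m | m ∈ W ∧ (m = d ∨ lor vo m < 0)}, fun _ => Iff.rfl⟩
  have sub : ∀ m ∈ W₀, m ∈ W := fun m hm => ((hW m).1 hm).1
  have unit₀ : ∀ m ∈ W₀, lor m m = 1 := fun m hm => unit m (sub m hm)
  have sep₀ : ∀ m ∈ W₀, ∀ m' ∈ W₀, m' = m ∨ m' = -m ∨ 2 ≤ |lor m m'| :=
    fun m hm m' hm' => sep m (sub m hm) m' (sub m' hm')
  have ho : ∀ m ∈ W₀, lor vo m ≤ 0 := fun m hm => by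
    rcases ((hW m).1 hm).2 with e | e
    exacts [(e ▸ hdo).le, e.le]
  have hd := unit d hdW
  have pl : ∀ m ∈ W, lor vo m < 0 → ∀ y, Cone y → lor y d = 0 → lor y m < 0 := by
    intro m hm h y hy hyd
    rcases sep d hdW m hm with e | e | e
    · rw [e] at h; linarith
    · rw [e, lor_neg_right] at h; linarith
    · exact walls_sign hd (unit m hm) e fut_vo.cone hy hdo hyd h
  have tot : ∀ m ∈ W, m ∈ W₀ ∨ -m ∈ W₀ := fun m hm => by
    rw [hW, hW]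
    rcases sep d hdW m hm with e | e | e
    · exact Or.inl ⟨hm, Or.inl e⟩
    · exact Or.inr ⟨hneg m hm, Or.inl (by rw [e, neg_neg])⟩
    rcases (lor_ne_zero_of_far fut_vo.cone (unit m hm) hd (by rw [lor_comm]; linarith)
      hdo).lt_or_gt with h | h
    · exact Or.inl ⟨hm, Or.inr h⟩
    · exact Or.inr ⟨hneg m hm, Or.inr (by simpa using h)⟩
  have fix : ∀ g ∈ L, rho g d = d → ∀ m ∈ W₀, rho g m ∈ W₀ := fun g hg e m hm => by
    refine (hW _).2 ⟨inv g hg m (sub m hm), ((hW m).1 hm).2.imp (fun h => by rw [h, e]) fun h => ?_⟩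
    rw [lor_rho_right]
    exact pl m (sub m hm) h _ (rho_cone _ fut_vo.cone) (by rw [← lor_rho_right, e, hdo])
  refine ⟨wallsG L W₀, wallsM W₀, fun g hg => hg.1, fun g hg e => ⟨hg, fun m => ⟨fun h => ?_,
    fix g hg e m⟩⟩, fun m hm => sub m hm.1, ⟨(hW d).2 ⟨hdW, Or.inl rfl⟩, fun m hm y hy h => ?_⟩,
    fun g hg m hm => ⟨(hg.2 m).2 hm.1, fun m' hm' y hy h => ?_⟩, fun m hm m' hm' hne => ?_,
    fun m hm hne => ((hW m).1 hm.1).2.resolve_left hne, ?_, fun y hy y0 m hm h1 h2 => ?_⟩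
  · simpa using fix g⁻¹ (L.inv_mem hg) (by rw [← e, rho_inv_rho, e]) _ h
  · rcases ((hW m).1 hm).2 with e | e
    exacts [(e ▸ h).le, (pl m (sub m hm) e y hy h).le]
  · rw [← rho_rho_inv g m', lor_rho_right]
    exact hm.2 _ ((hg.2 _).1 (by rwa [rho_rho_inv])) _ (rho_cone _ hy) (by rwa [← lor_rho_right])
  · rcases sep₀ m hm.1 m' hm'.1 with e | e | e
    · exact absurd e.symm hne
    · have a1 := ho m hm.1
      have a2 := ho m' hm'.1
      have a3 : lor vo m' = -lor vo m := by rw [e, lor_neg_right]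
      exact absurd ((((hW m).1 hm.1).2.resolve_right (by linarith)).trans
        (((hW m').1 hm'.1).2.resolve_right (by linarith)).symm) hne
    rcases le_abs.1 e with e' | e'
    · obtain ⟨x, hx, h1⟩ := walls_pt (unit₀ m hm.1)
      obtain ⟨x', hx', h2⟩ := walls_pt (unit₀ m' hm'.1)
      have := lor_sep (m := -m) (unit₀ m' hm'.1) (by simpa using unit₀ m hm.1)
        (by rw [lor_neg_right, lor_comm]; linarith) hx ((hm.2 m' hm'.1 x hx h1).lt_of_ne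
          (lor_ne_zero_of_far hx (unit₀ m' hm'.1) (unit₀ m hm.1) (by rw [lor_comm]; linarith) h1))
        (by simp [h1]) hx' (by simpa using hm'.2 m hm.1 x' hx' h2)
      linarith
    · linarith
  · obtain ⟨C, hC⟩ := cocpt
    obtain ⟨C', H⟩ := finrep L {x | Fut x ∧ ∀ m ∈ W₀, lor x m ≤ 0} (fun x hx => hx.1)
      (fun g => {m | rho g⁻¹ m ∈ W₀}) C (fun x hx => hC x hx.1) ((walls_fin unit sep C).subset (by
        rintro _ ⟨g, hg, ⟨x, hx, hxC⟩, rfl⟩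
        refine ⟨fun m hm => by simpa using inv g hg _ (sub _ hm), fun m hm => ?_, rho g x,
          rho_fut g hx.1, hxC, fun m hm => ?_⟩
        · simpa using tot _ (inv _ (L.inv_mem hg) m hm)
        · rw [lor_rho_left]
          exact hx.2 _ hm))
    refine ⟨C', fun x hx h => ?_⟩
    obtain ⟨g, hg, g', hg', e, h'⟩ := H x ⟨hx, fun m hm => by
      by_contra hc
      obtain ⟨m', a, b⟩ := walls_first unit₀ sep₀ ho hx hm (not_le.1 hc).le
      exact hc (b.trans (h m' a))⟩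
    refine ⟨g'⁻¹ * g, ⟨L.mul_mem (L.inv_mem hg') hg, fun m => ?_⟩, h'⟩
    have := Set.ext_iff.1 e (rho g m)
    rw [rho_mul]
    simpa using this.symm
  · have c0 : 0 < (√(-lor y y))⁻¹ := inv_pos.2 (Real.sqrt_pos.2 (by linarith))
    have h3 : 0 ≤ lor ((√(-lor y y))⁻¹ • y) m := by rw [lor_smul_left]; positivity
    obtain ⟨m', a, b⟩ := walls_first unit₀ sep₀ ho (fut_normalize hy y0)
      ((hW m).2 ⟨hm, Or.inr h1⟩) h3
    refine ⟨m', a, nonneg_of_mul_nonneg_right ?_ c0⟩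
    rw [← lor_smul_left]
    exact h3.trans b

end Pool.Agent.MP_7a4cc0_an
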